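import Pool.Agent.H238Z.Uni.Defs

/-!
The Abel transform step.
-/

open Set Real MeasureTheory
open scoped ContDiff

namespace Pool.Agent.H238Z.Uni

namespace Abel

lemma rect_integrable {F : ℝ × ℝ → ℝ} {a b c d : ℝ}
    (hF : ContinuousOn F (Icc a b ×ˢ Icc c d)) :
    IntegrableOn F (Icc a b ×ˢ Icc c d) (volume.prod volume) :=
  hF.integrableOn_compact (isCompact_Icc.prod isCompact_Icc)

lemma rect_integral {F : ℝ × ℝ → ℝ} {a b c d : ℝ} (hab : a ≤ b) (hcd : c ≤ d)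
    (hF : ContinuousOn F (Icc a b ×ˢ Icc c d)) :
    ∫ p in Ioo a b ×ˢ Ioo c d, F p = ∫ x in a..b, ∫ y in c..d, F (x, y) := by
  have hi : IntegrableOn F (Ioo a b ×ˢ Ioo c d) (volume.prod volume) :=
    (rect_integrable hF).mono_set (prod_mono Ioo_subset_Icc_self Ioo_subset_Icc_self)
  rw [Measure.volume_eq_prod, setIntegral_prod F hi, intervalIntegral.integral_of_le hab,
    integral_Ioc_eq_integral_Ioo]
  simp_rw [intervalIntegral.integral_of_le hcd, integral_Ioc_eq_integral_Ioo]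

lemma rect_swap {F : ℝ × ℝ → ℝ} {a b c d : ℝ} (hab : a ≤ b) (hcd : c ≤ d)
    (hF : ContinuousOn F (Icc a b ×ˢ Icc c d)) :
    ∫ x in a..b, ∫ y in c..d, F (x, y) = ∫ y in c..d, ∫ x in a..b, F (x, y) := by
  apply intervalIntegral_intervalIntegral_swap (F := fun x y => F (x, y))
  rw [uIoc_of_le hab, uIoc_of_le hcd]
  exact (rect_integrable hF).mono_set (prod_mono Ioc_subset_Icc_self Ioc_subset_Icc_self)

lemma cont_param {s : Set ℝ} {F : ℝ × ℝ → ℝ} {a b : ℝ} (hab : a ≤ b)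
    (hF : ContinuousOn F (s ×ˢ Icc a b)) :
    ContinuousOn (fun x => ∫ t in a..b, F (x, t)) s := by
  rw [continuousOn_iff_continuous_domRestrict]
  have h1 : Continuous (fun x : s => ∫ t in a..b, F (x.1, (projIcc a b hab t : ℝ))) := by
    apply intervalIntegral.continuous_parametric_intervalIntegral_of_continuous'
    have hc : Continuous (fun p : s × ℝ => ((p.1.1, (projIcc a b hab p.2 : ℝ)) : ℝ × ℝ)) := by
      refine (continuous_subtype_val.comp continuous_fst).prodMk ?_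
      exact continuous_subtype_val.comp (continuous_projIcc.comp continuous_snd)
    exact hF.comp_continuous hc (fun p => ⟨p.1.2, (projIcc a b hab p.2).2⟩)
  refine h1.congr (fun x => ?_)
  apply intervalIntegral.integral_congr
  intro t ht
  rw [uIcc_of_le hab] at ht
  simp only [projIcc_of_mem hab ht]

lemma polar {φ : ℝ × ℝ → ℝ} (hφ : ContinuousOn φ (Icc (-1) 1 ×ˢ Icc (-1) 1))
    (h0 : ∀ p ∈ Icc (-1 : ℝ) 1 ×ˢ Icc (-1 : ℝ) 1, 1 ≤ p.1 ^ 2 + p.2 ^ 2 → φ p = 0) :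
    ∫ σ in (-1 : ℝ)..1, ∫ τ in (-1 : ℝ)..1, φ (σ, τ) =
      ∫ β in (-π)..π, ∫ ρ in (0 : ℝ)..1, ρ * φ (ρ * cos β, ρ * sin β) := by
  have hpi : -π ≤ π := by linarith [pi_pos]
  have hmem : ∀ ρ ∈ Icc (0 : ℝ) 1, ∀ β : ℝ,
      ((ρ * cos β, ρ * sin β) : ℝ × ℝ) ∈ Icc (-1 : ℝ) 1 ×ˢ Icc (-1 : ℝ) 1 := by
    intro ρ hρ β
    have h1 := hρ.1
    have h2 := hρ.2
    refine ⟨⟨?_, ?_⟩, ⟨?_, ?_⟩⟩ <;>
      nlinarith [neg_one_le_cos β, cos_le_one β, neg_one_le_sin β, sin_le_one β]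
  have hG : ContinuousOn (fun p : ℝ × ℝ => p.1 * φ (p.1 * cos p.2, p.1 * sin p.2))
      (Icc 0 1 ×ˢ Icc (-π) π) := by
    refine continuousOn_fst.mul (hφ.comp (by fun_prop) ?_)
    intro p hp
    exact hmem p.1 hp.1 p.2
  rw [← rect_integral (by norm_num) (by norm_num) hφ,
    ← rect_swap (F := fun p : ℝ × ℝ => p.1 * φ (p.1 * cos p.2, p.1 * sin p.2)) zero_le_one hpi hG,
    ← rect_integral zero_le_one hpi hG]
  have hS : MeasurableSet (Ioo (-1 : ℝ) 1 ×ˢ Ioo (-1 : ℝ) 1) :=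
    measurableSet_Ioo.prod measurableSet_Ioo
  rw [← integral_indicator hS, ← integral_comp_polarCoord_symm]
  have hT : MeasurableSet (Ioo (0 : ℝ) 1 ×ˢ Ioo (-π) π) :=
    measurableSet_Ioo.prod measurableSet_Ioo
  rw [setIntegral_eq_of_subset_of_forall_sdiff_eq_zero (t := polarCoord.target)
    (s := Ioo (0 : ℝ) 1 ×ˢ Ioo (-π) π) polarCoord.open_target.measurableSet]
  · apply setIntegral_congr_fun hT
    intro p hp
    have h1 := hp.1.1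
    have h2 := hp.1.2
    have hm : polarCoord.symm p ∈ Ioo (-1 : ℝ) 1 ×ˢ Ioo (-1 : ℝ) 1 := by
      rw [polarCoord_symm_apply]
      refine ⟨⟨?_, ?_⟩, ⟨?_, ?_⟩⟩ <;>
        nlinarith [neg_one_le_cos p.2, cos_le_one p.2, neg_one_le_sin p.2, sin_le_one p.2]
    show p.1 • indicator _ φ (polarCoord.symm p) = _
    rw [indicator_of_mem hm, smul_eq_mul, polarCoord_symm_apply]
  · intro p hp
    exact ⟨hp.1.1, hp.2⟩
  · intro p hp
    have hp1 : p ∈ Ioi (0 : ℝ) ×ˢ Ioo (-π) π := hp.1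
    have h1 : 1 ≤ p.1 := by
      by_contra h
      exact hp.2 ⟨⟨hp1.1, lt_of_not_ge h⟩, hp1.2⟩
    by_cases hm : polarCoord.symm p ∈ Ioo (-1 : ℝ) 1 ×ˢ Ioo (-1 : ℝ) 1
    · rw [indicator_of_mem hm, h0 _ (prod_mono Ioo_subset_Icc_self Ioo_subset_Icc_self hm), smul_zero]
      rw [polarCoord_symm_apply]
      have : (p.1 * cos p.2) ^ 2 + (p.1 * sin p.2) ^ 2 = p.1 ^ 2 := by
        have := sin_sq_add_cos_sq p.2
        nlinarith
      show 1 ≤ (p.1 * cos p.2) ^ 2 + (p.1 * sin p.2) ^ 2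
      rw [this]
      nlinarith
    · rw [indicator_of_notMem hm, smul_zero]

lemma isOpen_dom (b : ℝ) : IsOpen (dom b) := isOpen_Iio.prod isOpen_Ioo

lemma mem_dom {b Z σ : ℝ} (hZ : Z < b) (h : σ ∈ Icc (-1 : ℝ) 1) : ((Z, σ) : ℝ × ℝ) ∈ dom b :=
  ⟨hZ, by linarith [h.1], by linarith [h.2]⟩

lemma deriv_zero {g : ℝ → ℝ} (hg0 : ∀ z ≤ 0, g z = 0) {z : ℝ} (hz : z < 0) : deriv g z = 0 := by
  have : g =ᶠ[nhds z] fun _ => 0 := by
    filter_upwards [Iio_mem_nhds hz] with w hw using hg0 w (le_of_lt hw)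
  rw [this.deriv_eq, deriv_const]

/-- The `Z`-derivative of the kernel. -/
noncomputable def ph (g : ℝ → ℝ) (Ψ : ℝ × ℝ → ℝ) (p : ℝ × ℝ) : ℝ :=
  deriv g (p.1 - p.2 ^ 2) * Ψ p + g (p.1 - p.2 ^ 2) * fderiv ℝ Ψ p (1, 0)

/-- The derivative of the function to be shown to vanish. -/
noncomputable def DD (g r : ℝ → ℝ) (Ψ : ℝ × ℝ → ℝ) (Z : ℝ) : ℝ :=
  (∫ σ in (-1 : ℝ)..1, ph g Ψ (Z, σ)) + deriv r Z

section

variable {b : ℝ} {g r : ℝ → ℝ} {Ψ : ℝ × ℝ → ℝ}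

lemma cont_fd (hΨ : ContDiffOn ℝ ∞ Ψ (dom b)) (v : ℝ × ℝ) :
    ContinuousOn (fun p => fderiv ℝ Ψ p v) (dom b) :=
  (hΨ.continuousOn_fderiv_of_isOpen (isOpen_dom b) (by simp)).clm_apply continuousOn_const

lemma cont_ph (hg : ContDiff ℝ ∞ g) (hΨ : ContDiffOn ℝ ∞ Ψ (dom b)) :
    ContinuousOn (ph g Ψ) (dom b) := by
  have h1 : Continuous (deriv g) := hg.continuous_deriv (by simp)
  have h2 : Continuous g := hg.continuous
  unfold ph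
  refine ContinuousOn.add (ContinuousOn.mul ?_ hΨ.continuousOn) (ContinuousOn.mul ?_ (cont_fd hΨ _))
  · exact (h1.comp (by fun_prop)).continuousOn
  · exact (h2.comp (by fun_prop)).continuousOn

lemma cont_dr (hr : ContDiffOn ℝ ∞ r (Iio b)) : ContinuousOn (deriv r) (Iio b) :=
  hr.continuousOn_deriv_of_isOpen isOpen_Iio (by simp)

lemma cont_iph (hg : ContDiff ℝ ∞ g) (hΨ : ContDiffOn ℝ ∞ Ψ (dom b)) :
    ContinuousOn (fun Z => ∫ σ in (-1 : ℝ)..1, ph g Ψ (Z, σ)) (Iio b) :=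
  cont_param (by norm_num) ((cont_ph hg hΨ).mono (fun p hp => mem_dom hp.1 hp.2))

lemma cont_DD (hg : ContDiff ℝ ∞ g) (hΨ : ContDiffOn ℝ ∞ Ψ (dom b))
    (hr : ContDiffOn ℝ ∞ r (Iio b)) : ContinuousOn (DD g r Ψ) (Iio b) :=
  (cont_iph hg hΨ).add (cont_dr hr)

lemma ph_zero (hg0 : ∀ z ≤ 0, g z = 0) {p : ℝ × ℝ} (hp : p.1 - p.2 ^ 2 < 0) : ph g Ψ p = 0 := by
  unfold ph
  rw [deriv_zero hg0 hp, hg0 _ hp.le]
  ring

lemma DD_zero (hg0 : ∀ z ≤ 0, g z = 0) (hr0 : ∀ z ≤ 0, r z = 0) {Z : ℝ} (hZ : Z < 0) :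
    DD g r Ψ Z = 0 := by
  unfold DD
  rw [deriv_zero hr0 hZ, add_zero]
  have : ∀ σ : ℝ, ph g Ψ (Z, σ) = 0 := fun σ =>
    ph_zero hg0 (by show Z - σ ^ 2 < 0; nlinarith [sq_nonneg σ])
  simp [this]

lemma hasFD (hΨ : ContDiffOn ℝ ∞ Ψ (dom b)) {p : ℝ × ℝ} (hp : p ∈ dom b) :
    HasFDerivAt Ψ (fderiv ℝ Ψ p) p :=
  ((hΨ.differentiableOn (by simp)).differentiableAt ((isOpen_dom b).mem_nhds hp)).hasFDerivAt

lemma fd_apply (L : ℝ × ℝ →L[ℝ] ℝ) (s t : ℝ) : L (s, t) = s * L (1, 0) + t * L (0, 1) := by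
  have : ((s, t) : ℝ × ℝ) = s • ((1, 0) : ℝ × ℝ) + t • ((0, 1) : ℝ × ℝ) := by
    ext <;> simp
  rw [this, map_add, map_smul, map_smul, smul_eq_mul, smul_eq_mul]

/-- Integration by parts along a ray. -/
lemma ray (hb : b ≤ 1) (hg : ContDiff ℝ ∞ g) (hg0 : ∀ z ≤ 0, g z = 0)
    (hΨ : ContDiffOn ℝ ∞ Ψ (dom b)) {Y : ℝ} (hY : Y < b) (β : ℝ) :
    ∫ ρ in (0 : ℝ)..1, ρ * ph g Ψ (Y - (ρ * sin β) ^ 2, ρ * cos β) =
      1 / 2 * (g Y * Ψ (Y, 0)) + ∫ ρ in (0 : ℝ)..1, g (Y - ρ ^ 2) *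
        (ρ * cos β ^ 2 * fderiv ℝ Ψ (Y - (ρ * sin β) ^ 2, ρ * cos β) (1, 0) +
          1 / 2 * cos β * fderiv ℝ Ψ (Y - (ρ * sin β) ^ 2, ρ * cos β) (0, 1)) := by
  have hmem : ∀ ρ ∈ uIcc (0 : ℝ) 1,
      ((Y - (ρ * sin β) ^ 2, ρ * cos β) : ℝ × ℝ) ∈ dom b := by
    intro ρ hρ
    rw [uIcc_of_le zero_le_one] at hρ
    have h1 := hρ.1
    have h2 := hρ.2
    refine mem_dom (by nlinarith [sq_nonneg (ρ * sin β)]) ⟨?_, ?_⟩ <;>
      nlinarith [neg_one_le_cos β, cos_le_one β]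
  have hsc := sin_sq_add_cos_sq β
  have harg : ∀ ρ : ℝ, Y - (ρ * sin β) ^ 2 - (ρ * cos β) ^ 2 = Y - ρ ^ 2 := by
    intro ρ
    have : (ρ * sin β) ^ 2 + (ρ * cos β) ^ 2 = ρ ^ 2 := by
      rw [mul_pow, mul_pow, ← mul_add, hsc, mul_one]
    linarith
  have hcurve : Continuous (fun ρ : ℝ => ((Y - (ρ * sin β) ^ 2, ρ * cos β) : ℝ × ℝ)) := by
    fun_prop
  have hA : ContinuousOn (fun ρ : ℝ => ρ * ph g Ψ (Y - (ρ * sin β) ^ 2, ρ * cos β))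
      (uIcc (0 : ℝ) 1) :=
    continuousOn_id.mul ((cont_ph hg hΨ).comp hcurve.continuousOn hmem)
  have hgc : Continuous g := hg.continuous
  have hB : ContinuousOn (fun ρ : ℝ => g (Y - ρ ^ 2) *
        (ρ * cos β ^ 2 * fderiv ℝ Ψ (Y - (ρ * sin β) ^ 2, ρ * cos β) (1, 0) +
          1 / 2 * cos β * fderiv ℝ Ψ (Y - (ρ * sin β) ^ 2, ρ * cos β) (0, 1)))
      (uIcc (0 : ℝ) 1) := by
    refine ContinuousOn.mul (by fun_prop) (ContinuousOn.add (ContinuousOn.mul (by fun_prop) ?_)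
      (ContinuousOn.mul (by fun_prop) ?_))
    · exact (cont_fd hΨ (1, 0)).comp hcurve.continuousOn hmem
    · exact (cont_fd hΨ (0, 1)).comp hcurve.continuousOn hmem
  have hder : ∀ ρ ∈ uIcc (0 : ℝ) 1,
      HasDerivAt (fun ρ : ℝ => -(1 / 2) * (g (Y - ρ ^ 2) * Ψ (Y - (ρ * sin β) ^ 2, ρ * cos β)))
        (ρ * ph g Ψ (Y - (ρ * sin β) ^ 2, ρ * cos β) - g (Y - ρ ^ 2) *
        (ρ * cos β ^ 2 * fderiv ℝ Ψ (Y - (ρ * sin β) ^ 2, ρ * cos β) (1, 0) +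
          1 / 2 * cos β * fderiv ℝ Ψ (Y - (ρ * sin β) ^ 2, ρ * cos β) (0, 1))) ρ := by
    intro ρ hρ
    have h1 : HasDerivAt (fun ρ : ℝ => Y - ρ ^ 2) (-(2 * ρ)) ρ := by
      simpa using (hasDerivAt_pow 2 ρ).const_sub Y
    have h2 : HasDerivAt (fun ρ : ℝ => g (Y - ρ ^ 2)) (deriv g (Y - ρ ^ 2) * (-(2 * ρ))) ρ :=
      ((hg.differentiable (by simp)) _).hasDerivAt.comp ρ h1
    have h3 : HasDerivAt (fun ρ : ℝ => ((Y - (ρ * sin β) ^ 2, ρ * cos β) : ℝ × ℝ))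
        ((-(2 * ρ * sin β ^ 2), cos β) : ℝ × ℝ) ρ := by
      refine HasDerivAt.prodMk ?_ ?_
      · have := (((hasDerivAt_id' ρ).mul_const (sin β)).fun_pow 2).const_sub Y
        refine this.congr_deriv ?_
        simp only [Nat.cast_ofNat, Nat.add_one_sub_one, pow_one]
        ring
      · simpa using (hasDerivAt_id ρ).mul_const (cos β)
    have h4 := (hasFD hΨ (hmem ρ hρ)).comp_hasDerivAt ρ h3
    have h5 := (h2.fun_mul h4).const_mul (-(1 / 2) : ℝ)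
    refine h5.congr_deriv ?_
    rw [fd_apply _ (-(2 * ρ * sin β ^ 2)) (cos β)]
    simp only [ph, harg, Function.comp_apply]
    have hc2 : cos β ^ 2 = 1 - sin β ^ 2 := by linarith
    rw [hc2]
    ring
  have hint := intervalIntegral.integral_eq_sub_of_hasDerivAt hder
    ((hA.sub hB).intervalIntegrable)
  rw [intervalIntegral.integral_sub hA.intervalIntegrable hB.intervalIntegrable] at hint
  have hz : g (Y - 1 ^ 2) = 0 := hg0 _ (by linarith)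
  rw [hz] at hint
  simp only [zero_mul, ne_eq, OfNat.ofNat_ne_zero, not_false_eq_true, zero_pow, sub_zero,
    mul_zero] at hint
  linarith

lemma step2 (hb : b ≤ 1) (hg : ContDiff ℝ ∞ g) (hg0 : ∀ z ≤ 0, g z = 0)
    (hΨ : ContDiffOn ℝ ∞ Ψ (dom b)) (hr : ContDiffOn ℝ ∞ r (Iio b)) {Y : ℝ} (hY : Y < b) :
    ∫ τ in (-1 : ℝ)..1, DD g r Ψ (Y - τ ^ 2) = π * g Y * Ψ (Y, 0) +
      (∫ β in (-π)..π, ∫ ρ in (0 : ℝ)..1, g (Y - ρ ^ 2) *
        (ρ * cos β ^ 2 * fderiv ℝ Ψ (Y - (ρ * sin β) ^ 2, ρ * cos β) (1, 0) +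
          1 / 2 * cos β * fderiv ℝ Ψ (Y - (ρ * sin β) ^ 2, ρ * cos β) (0, 1))) +
      (∫ τ in (-1 : ℝ)..1, deriv r (Y - τ ^ 2)) := by
  have hpi : -π ≤ π := by linarith [pi_pos]
  have hm : ∀ τ : ℝ, Y - τ ^ 2 ∈ Iio b := fun τ => by
    show Y - τ ^ 2 < b
    nlinarith [sq_nonneg τ]
  have hc : Continuous (fun τ : ℝ => Y - τ ^ 2) := by fun_prop
  have h1 : Continuous (fun τ : ℝ => ∫ σ in (-1 : ℝ)..1, ph g Ψ (Y - τ ^ 2, σ)) :=
    (cont_iph hg hΨ).comp_continuous hc hm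
  have h2 : Continuous (fun τ : ℝ => deriv r (Y - τ ^ 2)) :=
    (cont_dr hr).comp_continuous hc hm
  unfold DD
  rw [intervalIntegral.integral_add (h1.intervalIntegrable _ _) (h2.intervalIntegrable _ _)]
  congr 1
  have hφ : ContinuousOn (fun p : ℝ × ℝ => ph g Ψ (Y - p.2 ^ 2, p.1))
      (Icc (-1) 1 ×ˢ Icc (-1) 1) :=
    (cont_ph hg hΨ).comp (by fun_prop) (fun p hp => mem_dom (hm p.2) hp.1)
  rw [← rect_swap (F := fun p : ℝ × ℝ => ph g Ψ (Y - p.2 ^ 2, p.1)) (by norm_num) (by norm_num) hφ,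
    polar hφ (fun p _ h => ph_zero hg0 (by show Y - p.2 ^ 2 - p.1 ^ 2 < 0; linarith))]
  simp only [ray hb hg hg0 hΨ hY]
  have hgc : Continuous g := hg.continuous
  have hmem : ∀ p ∈ Icc (-π) π ×ˢ Icc (0 : ℝ) 1,
      ((Y - (p.2 * sin p.1) ^ 2, p.2 * cos p.1) : ℝ × ℝ) ∈ dom b := by
    intro p hp
    have h1 := hp.2.1
    have h2 := hp.2.2
    refine mem_dom (hm _) ⟨?_, ?_⟩ <;>
      nlinarith [neg_one_le_cos p.1, cos_le_one p.1]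
  have hcurve : Continuous
      (fun p : ℝ × ℝ => ((Y - (p.2 * sin p.1) ^ 2, p.2 * cos p.1) : ℝ × ℝ)) := by
    fun_prop
  have hB : ContinuousOn (fun p : ℝ × ℝ => g (Y - p.2 ^ 2) *
        (p.2 * cos p.1 ^ 2 * fderiv ℝ Ψ (Y - (p.2 * sin p.1) ^ 2, p.2 * cos p.1) (1, 0) +
          1 / 2 * cos p.1 * fderiv ℝ Ψ (Y - (p.2 * sin p.1) ^ 2, p.2 * cos p.1) (0, 1)))
      (Icc (-π) π ×ˢ Icc (0 : ℝ) 1) := by
    refine ContinuousOn.mul (by fun_prop) (ContinuousOn.add (ContinuousOn.mul (by fun_prop) ?_)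
      (ContinuousOn.mul (by fun_prop) ?_))
    · exact (cont_fd hΨ (1, 0)).comp hcurve.continuousOn hmem
    · exact (cont_fd hΨ (0, 1)).comp hcurve.continuousOn hmem
  have hI := cont_param zero_le_one hB
  rw [← uIcc_of_le hpi] at hI
  rw [intervalIntegral.integral_add intervalIntegrable_const hI.intervalIntegrable,
    intervalIntegral.integral_const, smul_eq_mul]
  ring

lemma step3 (hb : b ≤ 1) (hg : ContDiff ℝ ∞ g) (hg0 : ∀ z ≤ 0, g z = 0)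
    (hΨ : ContDiffOn ℝ ∞ Ψ (dom b)) (hr : ContDiffOn ℝ ∞ r (Iio b)) (hr0 : ∀ z ≤ 0, r z = 0)
    (h : ∀ Y < b, ∫ τ in (-1 : ℝ)..1, DD g r Ψ (Y - τ ^ 2) = 0) {Y : ℝ} (hY : Y < b) :
    ∫ ρ in (0 : ℝ)..1, ρ * DD g r Ψ (Y - ρ ^ 2) = 0 := by
  have hφ : ContinuousOn (fun p : ℝ × ℝ => DD g r Ψ (Y - p.1 ^ 2 - p.2 ^ 2))
      (Icc (-1) 1 ×ˢ Icc (-1) 1) := by
    refine (cont_DD hg hΨ hr).comp (by fun_prop) (fun p _ => ?_)
    show Y - p.1 ^ 2 - p.2 ^ 2 < b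
    nlinarith [sq_nonneg p.1, sq_nonneg p.2]
  have hp := polar hφ (fun p _ h => DD_zero hg0 hr0 (by linarith))
  have hL : ∀ σ : ℝ, ∫ τ in (-1 : ℝ)..1, DD g r Ψ (Y - σ ^ 2 - τ ^ 2) = 0 := fun σ =>
    h _ (by nlinarith [sq_nonneg σ])
  have harg : ∀ ρ β : ℝ, Y - (ρ * cos β) ^ 2 - (ρ * sin β) ^ 2 = Y - ρ ^ 2 := by
    intro ρ β
    have : (ρ * sin β) ^ 2 + (ρ * cos β) ^ 2 = ρ ^ 2 := by
      rw [mul_pow, mul_pow, ← mul_add, sin_sq_add_cos_sq, mul_one]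
    linarith
  simp only [hL, harg, intervalIntegral.integral_zero, intervalIntegral.integral_const,
    smul_eq_mul] at hp
  have hpi : π - -π ≠ 0 := by
    have := pi_pos
    linarith
  exact (mul_eq_zero.mp hp.symm).resolve_left hpi

lemma step4 (hb : b ≤ 1) (hg : ContDiff ℝ ∞ g) (hg0 : ∀ z ≤ 0, g z = 0)
    (hΨ : ContDiffOn ℝ ∞ Ψ (dom b)) (hr : ContDiffOn ℝ ∞ r (Iio b)) (hr0 : ∀ z ≤ 0, r z = 0)
    {Y : ℝ} (hY : Y < b) :
    ∫ ρ in (0 : ℝ)..1, ρ * DD g r Ψ (Y - ρ ^ 2) =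
      1 / 2 * ((∫ σ in (-1 : ℝ)..1, g (Y - σ ^ 2) * Ψ (Y, σ)) + r Y) := by
  have hm : ∀ τ : ℝ, Y - τ ^ 2 ∈ Iio b := fun τ => by
    show Y - τ ^ 2 < b
    nlinarith [sq_nonneg τ]
  have hc : Continuous (fun τ : ℝ => Y - τ ^ 2) := by fun_prop
  have h1 : Continuous (fun τ : ℝ => τ * ∫ σ in (-1 : ℝ)..1, ph g Ψ (Y - τ ^ 2, σ)) :=
    continuous_id.mul ((cont_iph hg hΨ).comp_continuous hc hm)
  have h2 : Continuous (fun τ : ℝ => τ * deriv r (Y - τ ^ 2)) :=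
    continuous_id.mul ((cont_dr hr).comp_continuous hc hm)
  have hd : ∀ ρ : ℝ, HasDerivAt (fun ρ : ℝ => Y - ρ ^ 2) (-(2 * ρ)) ρ := fun ρ => by
    simpa using (hasDerivAt_pow 2 ρ).const_sub Y
  unfold DD
  simp only [mul_add]
  rw [intervalIntegral.integral_add (h1.intervalIntegrable _ _) (h2.intervalIntegrable _ _)]
  congr 1
  · simp only [← intervalIntegral.integral_const_mul]
    have hφ : ContinuousOn (fun p : ℝ × ℝ => p.1 * ph g Ψ (Y - p.1 ^ 2, p.2))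
        (Icc 0 1 ×ˢ Icc (-1) 1) :=
      continuousOn_fst.mul ((cont_ph hg hΨ).comp (by fun_prop) (fun p hp => mem_dom (hm p.1) hp.2))
    rw [rect_swap (F := fun p : ℝ × ℝ => p.1 * ph g Ψ (Y - p.1 ^ 2, p.2)) zero_le_one
      (by norm_num) hφ]
    apply intervalIntegral.integral_congr
    intro σ hσ
    rw [uIcc_of_le (by norm_num)] at hσ
    have hder : ∀ ρ ∈ uIcc (0 : ℝ) 1,
        HasDerivAt (fun ρ : ℝ => -(1 / 2) * (g (Y - ρ ^ 2 - σ ^ 2) * Ψ (Y - ρ ^ 2, σ)))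
          (ρ * ph g Ψ (Y - ρ ^ 2, σ)) ρ := by
      intro ρ _
      have h2 : HasDerivAt (fun ρ : ℝ => g (Y - ρ ^ 2 - σ ^ 2))
          (deriv g (Y - ρ ^ 2 - σ ^ 2) * (-(2 * ρ))) ρ :=
        ((hg.differentiable (by simp)) _).hasDerivAt.comp ρ ((hd ρ).sub_const (σ ^ 2))
      have h3 : HasDerivAt (fun ρ : ℝ => ((Y - ρ ^ 2, σ) : ℝ × ℝ))
          ((-(2 * ρ), 0) : ℝ × ℝ) ρ := (hd ρ).prodMk (hasDerivAt_const ρ σ)
      have h4 := (hasFD hΨ (mem_dom (hm ρ) hσ)).comp_hasDerivAt ρ h3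
      have h5 := (h2.fun_mul h4).const_mul (-(1 / 2) : ℝ)
      refine h5.congr_deriv ?_
      rw [fd_apply _ (-(2 * ρ)) 0]
      simp only [ph, Function.comp_apply]
      ring
    have hA : Continuous (fun ρ : ℝ => ρ * ph g Ψ (Y - ρ ^ 2, σ)) :=
      continuous_id.mul ((cont_ph hg hΨ).comp_continuous (by fun_prop)
        (fun ρ => mem_dom (hm ρ) hσ))
    have hint := intervalIntegral.integral_eq_sub_of_hasDerivAt hder (hA.intervalIntegrable _ _)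
    have hz : g (Y - 1 ^ 2 - σ ^ 2) = 0 := hg0 _ (by nlinarith [sq_nonneg σ])
    rw [hz] at hint
    simp only [zero_mul, ne_eq, OfNat.ofNat_ne_zero, not_false_eq_true, zero_pow, sub_zero,
      mul_zero] at hint
    show ∫ ρ in (0 : ℝ)..1, ρ * ph g Ψ (Y - ρ ^ 2, σ) = 1 / 2 * (g (Y - σ ^ 2) * Ψ (Y, σ))
    linarith
  · have hder : ∀ ρ ∈ uIcc (0 : ℝ) 1,
        HasDerivAt (fun ρ : ℝ => -(1 / 2) * r (Y - ρ ^ 2)) (ρ * deriv r (Y - ρ ^ 2)) ρ := by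
      intro ρ _
      have h3 : DifferentiableAt ℝ r (Y - ρ ^ 2) :=
        (hr.differentiableOn (by simp)).differentiableAt (isOpen_Iio.mem_nhds (hm ρ))
      have h5 := (h3.hasDerivAt.comp ρ (hd ρ)).const_mul (-(1 / 2) : ℝ)
      refine h5.congr_deriv ?_
      ring
    have hint := intervalIntegral.integral_eq_sub_of_hasDerivAt hder (h2.intervalIntegrable _ _)
    have hz : r (Y - 1 ^ 2) = 0 := hr0 _ (by linarith)
    rw [hz] at hint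
    simp only [ne_eq, OfNat.ofNat_ne_zero, not_false_eq_true, zero_pow, sub_zero,
      mul_zero] at hint
    linarith

end

end Abel

theorem abel_step {b : ℝ} (hb : b ≤ 1) {g r : ℝ → ℝ} {Ψ : ℝ × ℝ → ℝ} (hg : ContDiff ℝ ∞ g)
    (hg0 : ∀ z ≤ 0, g z = 0) (hΨ : ContDiffOn ℝ ∞ Ψ (dom b)) (hr : ContDiffOn ℝ ∞ r (Iio b))
    (hr0 : ∀ z ≤ 0, r z = 0)
    (hE : ∀ Y < b, π * g Y * Ψ (Y, 0) +
      (∫ β in (-π)..π, ∫ ρ in (0 : ℝ)..1, g (Y - ρ ^ 2) *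
        (ρ * cos β ^ 2 * fderiv ℝ Ψ (Y - (ρ * sin β) ^ 2, ρ * cos β) (1, 0) +
          1 / 2 * cos β * fderiv ℝ Ψ (Y - (ρ * sin β) ^ 2, ρ * cos β) (0, 1))) +
      (∫ τ in (-1 : ℝ)..1, deriv r (Y - τ ^ 2)) = 0) :
    ∀ Z < b, (∫ σ in (-1 : ℝ)..1, g (Z - σ ^ 2) * Ψ (Z, σ)) + r Z = 0 := by
  intro Z hZ
  have h1 : ∀ Y < b, ∫ τ in (-1 : ℝ)..1, Abel.DD g r Ψ (Y - τ ^ 2) = 0 := fun Y hY => by
    rw [Abel.step2 hb hg hg0 hΨ hr hY]
    exact hE Y hY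
  have h2 := Abel.step3 hb hg hg0 hΨ hr hr0 h1 hZ
  rw [Abel.step4 hb hg hg0 hΨ hr hr0 hZ] at h2
  linarith

end Pool.Agent.H238Z.Uni
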