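import Pool.Agent.H238Z.Uni.AssembleA

/-!
Assembly of the family of dual unit curves from a window and a background curve.
-/

open Set Real Filter Topology
open scoped ContDiff

namespace Pool.Agent.H238Z.Uni.Asm

/-- Local model of `u` away from the window. -/
noncomputable def uC (s P₁ P₂ : ℝ → ℝ) (a : E2) (α : ℝ) : ℝ :=
  P₁ α * (s (a 0) - a 1 ^ 2) + P₂ α * (2 * a 1)

/-- Local model of `v` away from the window. -/
noncomputable def vC (s R : ℝ → ℝ) (a : E2) (α : ℝ) : ℝ :=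
  R α * cos α * (s (a 0) - a 1 ^ 2) + R α * sin α * (2 * a 1)

/-- Local model of `w` away from the window. -/
noncomputable def wC (s R : ℝ → ℝ) (a : E2) (α : ℝ) : ℝ :=
  (deriv R α * cos α + R α * -sin α) * (s (a 0) - a 1 ^ 2) +
    (deriv R α * sin α + R α * cos α) * (2 * a 1)

/-- Local model of `J` away from the window. -/
noncomputable def JC (P₁ P₂ R : ℝ → ℝ) (α : ℝ) : ℝ :=
  deriv R α / R α + (P₁ α * cos α + P₂ α * sin α) / (P₁ α * sin α - P₂ α * cos α)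

/-- The curvature function. -/
noncomputable def Lam (P₁ P₂ R : ℝ → ℝ) (α : ℝ) : ℝ := R α / (P₁ α * sin α - P₂ α * cos α)

/-- The coordinate projections. -/
noncomputable def pr (i : Fin 2) : E2 →L[ℝ] ℝ :=
  ContinuousLinearMap.proj (R := ℝ) (φ := fun _ : Fin 2 => ℝ) i

theorem fd_comb {s : ℝ → ℝ} {s' : ℝ} {a : E2} (hs : HasDerivAt s s' (a 0)) (p q : ℝ) :
    HasFDerivAt (fun a : E2 => p * (s (a 0) - a 1 ^ 2) + q * (2 * a 1))
      (p • (s' • pr 0 - (2 * a 1) • pr 1) + q • (2 : ℝ) • pr 1) a := by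
  have h0 : HasFDerivAt (fun a : E2 => a 0) (pr 0) a := (pr 0).hasFDerivAt
  have h1 : HasFDerivAt (fun a : E2 => a 1) (pr 1) a := (pr 1).hasFDerivAt
  have h2 : HasFDerivAt (fun a : E2 => s (a 0)) (s' • pr 0) a := hs.comp_hasFDerivAt a h0
  have h3 : HasFDerivAt (fun a : E2 => a 1 ^ 2) ((2 * a 1) • pr 1) a := by
    have h4 : HasDerivAt (fun r : ℝ => r ^ 2) (2 * a 1) (a 1) := by
      simpa using hasDerivAt_pow 2 (a 1)
    exact h4.comp_hasFDerivAt a h1
  exact ((h2.sub h3).const_mul p).add ((h1.const_mul 2).const_mul q)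

section
variable {κ T T' Z₁ Z₂ : ℝ} {x y f j : ℝ × ℝ → ℝ} {sIn sOut P₁ P₂ R : ℝ → ℝ}

theorem smooth₁ (hb : Background κ T' P₁ P₂ R) : ContDiff ℝ ∞ P₁ := by
  rw [contDiff_infty_iff_deriv]
  refine ⟨fun α => (hb.d₁ α).differentiableAt, ?_⟩
  have : deriv P₁ = fun α => R α * cos α := funext fun α => (hb.d₁ α).deriv
  rw [this]; exact hb.sR.mul contDiff_cos

theorem smooth₂ (hb : Background κ T' P₁ P₂ R) : ContDiff ℝ ∞ P₂ := by
  rw [contDiff_infty_iff_deriv]
  refine ⟨fun α => (hb.d₂ α).differentiableAt, ?_⟩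
  have : deriv P₂ = fun α => R α * sin α := funext fun α => (hb.d₂ α).deriv
  rw [this]; exact hb.sR.mul contDiff_sin

theorem locC (hb : Background κ T' P₁ P₂ R) {s : ℝ → ℝ} (hs : ContDiffOn ℝ ∞ s (Ioo Z₁ Z₂))
    (hs' : ∀ Z ∈ Ioo Z₁ Z₂, ∃ d, 0 < d ∧ HasDerivAt s d Z) (A : Set ℝ) :
    Loc (UU Z₁ Z₂) A (uC s P₁ P₂) (vC s R) (wC s R) (fun _ => JC P₁ P₂ R) (Lam P₁ P₂ R) := by
  have hR : ∀ α, HasDerivAt R (deriv R α) α :=
    fun α => (hb.sR.differentiable (by simp) α).hasDerivAt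
  refine ⟨?_, ?_, ?_, ?_, ?_, ?_⟩
  · have h0 : ContDiff ℝ ∞ (fun z : E2 × ℝ => z.1 0) := (contDiff_apply ℝ ℝ 0).comp contDiff_fst
    have h1 : ContDiff ℝ ∞ (fun z : E2 × ℝ => z.1 1) := (contDiff_apply ℝ ℝ 1).comp contDiff_fst
    have h2 : ContDiffOn ℝ ∞ (fun z : E2 × ℝ => s (z.1 0)) (UU Z₁ Z₂ ×ˢ A) :=
      hs.comp h0.contDiffOn (fun z hz => hz.1.1)
    have h3 : ContDiff ℝ ∞ (fun z : E2 × ℝ => P₁ z.2) := (smooth₁ hb).comp contDiff_snd
    have h4 : ContDiff ℝ ∞ (fun z : E2 × ℝ => P₂ z.2) := (smooth₂ hb).comp contDiff_snd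
    exact (h3.contDiffOn.mul (h2.sub (h1.pow 2).contDiffOn)).add
      (h4.mul (contDiff_const.mul h1)).contDiffOn
  · intro a _ α _
    exact ((hb.d₁ α).mul_const _).add ((hb.d₂ α).mul_const _)
  · intro a _ α _
    exact (((hR α).mul (hasDerivAt_cos α)).mul_const _).add
      (((hR α).mul (hasDerivAt_sin α)).mul_const _)
  · intro a _ α _
    exact differentiableAt_const _
  · intro a ha α _
    obtain ⟨d, -, hd⟩ := hs' (a 0) ha.1
    have e1 := (fd_comb hd (P₁ α) (P₂ α)).fderiv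
    have e2 := (fd_comb hd (R α * cos α) (R α * sin α)).fderiv
    have e3 := (fd_comb hd (deriv R α * cos α + R α * -sin α)
      (deriv R α * sin α + R α * cos α)).fderiv
    simp only [uC, vC, wC]
    rw [e1, e2, e3]
    have hp := (hb.pos α).ne'
    have hh := (hb.hpos α).ne'
    have hsc := sin_sq_add_cos_sq α
    have c1 : deriv R α * cos α + R α * -sin α =
        -(Lam P₁ P₂ R α) * P₁ α + JC P₁ P₂ R α * (R α * cos α) := by
      simp only [Lam, JC]
      generalize hH : P₁ α * sin α - P₂ α * cos α = H at hh ⊢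
      field_simp
      linear_combination (-(R α * P₁ α)) * hsc + (R α * sin α) * hH
    have c2 : deriv R α * sin α + R α * cos α =
        -(Lam P₁ P₂ R α) * P₂ α + JC P₁ P₂ R α * (R α * sin α) := by
      simp only [Lam, JC]
      generalize hH : P₁ α * sin α - P₂ α * cos α = H at hh ⊢
      field_simp
      linear_combination (-(R α * P₂ α)) * hsc - (R α * cos α) * hH
    rw [c1, c2]
    module
  · intro a ha α _
    obtain ⟨d, hd0, hd⟩ := hs' (a 0) ha.1
    have e1 := (fd_comb hd (P₁ α) (P₂ α)).fderiv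
    have e2 := (fd_comb hd (R α * cos α) (R α * sin α)).fderiv
    simp only [uC, vC]
    rw [e1, e2]
    have := mul_pos (mul_pos (mul_pos two_pos hd0) (hb.pos α)) (hb.hpos α)
    refine lt_of_lt_of_eq this ?_
    simp [pr]
    ring

theorem zeroC (hb : Background κ T' P₁ P₂ R) {s : ℝ → ℝ}
    (hs' : ∀ Z ∈ Ioo Z₁ Z₂, ∃ d, 0 < d ∧ HasDerivAt s d Z) {α : ℝ} (hα : |cos α| < |sin α|)
    {a : E2} (ha : a ∈ UU Z₁ Z₂) :
    fderiv ℝ (fun a => vC s R a α) a (Pi.single 1 1) ≠ 0 := by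
  obtain ⟨d, -, hd⟩ := hs' (a 0) ha.1
  have e2 := (fd_comb hd (R α * cos α) (R α * sin α)).fderiv
  simp only [vC]
  rw [e2]
  intro h0
  have h1 : 2 * R α * (sin α - a 1 * cos α) = 0 := by
    rw [← h0]; simp [pr]; ring
  have h2 : sin α = a 1 * cos α := by
    rcases mul_eq_zero.1 h1 with h | h
    · exact absurd h (by have := hb.pos α; positivity)
    · linarith
  rw [h2, abs_mul] at hα
  have h3 := ha.2
  nlinarith [abs_nonneg (cos α), abs_nonneg (a 1)]

/-- The labels are smooth with positive derivative. -/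
theorem label (hw : Window κ T Z₁ Z₂ x y f j sIn sOut) {s : ℝ → ℝ} {t₀ : ℝ} {N : Set ℝ}
    (hN : N ∈ 𝓝 t₀) (h : ∀ Z ∈ Ioo Z₁ Z₂, ∀ t ∈ N, x (Z, t) = s Z - t ^ 2 ∧ y (Z, t) = t) :
    ContDiffOn ℝ ∞ s (Ioo Z₁ Z₂) ∧ ∀ Z ∈ Ioo Z₁ Z₂, ∃ d, 0 < d ∧ HasDerivAt s d Z := by
  have ht₀ : t₀ ∈ N := mem_of_mem_nhds hN
  have hs : ∀ Z ∈ Ioo Z₁ Z₂, s Z = x (Z, t₀) + t₀ ^ 2 := fun Z hZ => by
    rw [(h Z hZ t₀ ht₀).1]; ring
  constructor
  · have h1 : ContDiffOn ℝ ∞ (fun Z => x (Z, t₀)) (Ioo Z₁ Z₂) :=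
      hw.sx.comp (contDiff_id.prodMk contDiff_const).contDiffOn (fun Z hZ => ⟨hZ, mem_univ _⟩)
    exact (h1.add contDiffOn_const).congr hs
  · intro Z hZ
    refine ⟨fderiv ℝ x (Z, t₀) (1, 0), ?_, ?_⟩
    · have hy : fderiv ℝ y (Z, t₀) = ContinuousLinearMap.snd ℝ ℝ ℝ := by
        have h2 : y =ᶠ[𝓝 (Z, t₀)] fun p => p.2 := by
          filter_upwards [prod_mem_nhds (isOpen_Ioo.mem_nhds hZ) hN] with p hp
          exact (h p.1 hp.1 p.2 hp.2).2
        rw [h2.fderiv_eq]; exact fderiv_snd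
      have := hw.jac Z hZ t₀
      rw [hy] at this
      simpa using this
    · have h1 : HasDerivAt (fun Z : ℝ => ((Z, t₀) : ℝ × ℝ)) (1, 0) Z :=
        (hasDerivAt_id Z).prodMk (hasDerivAt_const Z t₀)
      have h2 := ((diffAt hw.sx (p := (Z, t₀)) hZ).hasFDerivAt.comp_hasDerivAt Z h1).add_const
        (t₀ ^ 2)
      apply h2.congr_of_eventuallyEq
      filter_upwards [isOpen_Ioo.mem_nhds hZ] with W hW using hs W hW

/-- The first integral. -/
noncomputable def HH (κ : ℝ) (x y : ℝ × ℝ → ℝ) (p : ℝ × ℝ) : ℝ :=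
  x p + p.2 ^ 2 + 2 * (p.2 - y p) / κ

/-- The first integral as a function on the circle of directions. -/
noncomputable def Hh (κ : ℝ) (x y : ℝ × ℝ → ℝ) (sIn sOut : ℝ → ℝ) (a : E2) (α : ℝ) : ℝ :=
  if 0 < cos α then HH κ x y (mm 1 a α) else if cos α < 0 then HH κ x y (mm (-1) a α)
  else if 0 < sin α then sOut (a 0) else sIn (a 0)

/-- The global function `u`. -/
noncomputable def uu (κ : ℝ) (x y : ℝ × ℝ → ℝ) (sIn sOut P₁ P₂ : ℝ → ℝ) (a : E2) (α : ℝ) : ℝ :=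
  P₁ α * (Hh κ x y sIn sOut a α - a 1 ^ 2) + P₂ α * (2 * a 1)

/-- The two window arcs. -/
def AA (T ε : ℝ) : Set ℝ := {α | |sin α| < (T + 2) * (ε * cos α)}

/-- The two complementary arcs. -/
def CC (T ε : ℝ) : Set ℝ := {α | (T + 1) * |cos α| < ε * sin α}

/-- The global function `J`. -/
noncomputable def JJ (κ T : ℝ) (j : ℝ × ℝ → ℝ) (P₁ P₂ R : ℝ → ℝ) (a : E2) (α : ℝ) : ℝ :=
  open Classical in
  if α ∈ AA T 1 then JA κ 1 j a α else if α ∈ AA T (-1) then JA κ (-1) j a α else JC P₁ P₂ R α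

theorem isOpen_AA (T ε : ℝ) : IsOpen (AA T ε) := isOpen_lt (by fun_prop) (by fun_prop)

theorem isOpen_CC (T ε : ℝ) : IsOpen (CC T ε) := isOpen_lt (by fun_prop) (by fun_prop)

theorem AA_cos (hT : 0 < T) {ε α : ℝ} (h : α ∈ AA T ε) : 0 < ε * cos α := by
  have h1 : 0 < (T + 2) * (ε * cos α) := lt_of_le_of_lt (abs_nonneg _) h
  exact (pos_iff_pos_of_mul_pos h1).1 (by linarith)

theorem AA_tan (hT : 0 < T) {ε α : ℝ} (hε : ε = 1 ∨ ε = -1) (h : α ∈ AA T ε) :
    |tan α| ≤ T + 2 := by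
  have h1 := AA_cos hT h
  have h2 : |cos α| = ε * cos α := by
    rcases hε with rfl | rfl
    · rw [one_mul] at h1 ⊢; exact abs_of_pos h1
    · rw [neg_one_mul] at h1 ⊢; exact abs_of_neg (by linarith)
  rw [tan_eq_sin_div_cos, abs_div, h2, div_le_iff₀ h1]
  exact le_of_lt h

theorem bgA (hT : 0 < T) (hb : Background κ (T + 2) P₁ P₂ R) {ε α : ℝ} (hε : ε = 1 ∨ ε = -1)
    (h : α ∈ AA T ε) :
    P₁ α = -exp (-κ * (ε * tan α)) / κ ∧
      P₂ α = ε * (-exp (-κ * (ε * tan α)) * (ε * tan α / κ + 1 / κ ^ 2)) := by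
  have h1 := AA_cos hT h
  have h2 := AA_tan hT hε h
  rcases hε with rfl | rfl
  · simp only [one_mul] at h1 ⊢
    exact hb.win α h1 h2
  · have h3 := hb.win (π - α) (by rw [cos_pi_sub]; linarith) (by rw [tan_pi_sub, abs_neg]; exact h2)
    rw [hb.sym₁, hb.sym₂, tan_pi_sub] at h3
    simp only [neg_one_mul]
    exact ⟨h3.1, by linarith [h3.2]⟩

theorem lamA (hT : 0 < T) (hb : Background κ (T + 2) P₁ P₂ R) {ε α : ℝ} (hε : ε = 1 ∨ ε = -1)
    (h : α ∈ AA T ε) : Lam P₁ P₂ R α = κ ^ 2 * (1 / cos α ^ 2) ^ 2 := by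
  have hc : cos α ≠ 0 := by
    intro h0; have := AA_cos hT h; rw [h0, mul_zero] at this; exact lt_irrefl _ this
  have hκ := hb.ne
  have h1 : HasDerivAt (fun α => -exp (-κ * (ε * tan α)) / κ)
      (-(exp (-κ * (ε * tan α)) * (-κ * (ε * (1 / cos α ^ 2)))) / κ) α :=
    ((((hasDerivAt_tan hc).const_mul ε).const_mul (-κ)).exp.neg).div_const κ
  have h2 : HasDerivAt P₁ (-(exp (-κ * (ε * tan α)) * (-κ * (ε * (1 / cos α ^ 2)))) / κ) α := by
    apply h1.congr_of_eventuallyEq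
    filter_upwards [(isOpen_AA T ε).mem_nhds h] with β hβ using (bgA hT hb hε hβ).1
  have h3 := (hb.d₁ α).unique h2
  have h4 : R α = ε * exp (-κ * (ε * tan α)) / cos α ^ 3 := by
    field_simp at h3 ⊢
    linarith
  have h5 : P₁ α * sin α - P₂ α * cos α = ε * exp (-κ * (ε * tan α)) * cos α / κ ^ 2 := by
    rw [(bgA hT hb hε h).1, (bgA hT hb hε h).2]
    generalize exp (-κ * (ε * tan α)) = E
    rw [tan_eq_sin_div_cos]
    rcases hε with rfl | rfl <;> field_simp <;> ring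
  have hE := (exp_pos (-κ * (ε * tan α))).ne'
  have hε0 : ε ≠ 0 := by rcases hε with rfl | rfl <;> norm_num
  rw [Lam, h5, h4]
  field_simp

theorem uu_eq_A (hT : 0 < T) (hb : Background κ (T + 2) P₁ P₂ R) {ε α : ℝ} (hε : ε = 1 ∨ ε = -1)
    (h : α ∈ AA T ε) (a : E2) : uu κ x y sIn sOut P₁ P₂ a α = uA κ ε x y a α := by
  have h1 := AA_cos hT h
  have hκ := hb.ne
  have h2 : Hh κ x y sIn sOut a α = HH κ x y (mm ε a α) := by
    rcases hε with rfl | rfl
    · rw [Hh, if_pos (by linarith)]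
    · rw [Hh, if_neg (by linarith), if_pos (by linarith)]
  rw [uu, h2, (bgA hT hb hε h).1, (bgA hT hb hε h).2, uA, HH]
  have h3 : (mm ε a α).2 = ε * tan α - ε * a 1 := rfl
  rw [h3]
  generalize exp (-κ * (ε * tan α)) = E
  rcases hε with rfl | rfl <;> field_simp <;> ring

theorem uu_eq_out (hT : 0 < T) (hw : Window κ T Z₁ Z₂ x y f j sIn sOut) {α : ℝ} (h : α ∈ CC T 1)
    {a : E2} (ha : a ∈ UU Z₁ Z₂) : uu κ x y sIn sOut P₁ P₂ a α = uC sOut P₁ P₂ a α := by
  have h0 : (T + 1) * |cos α| < sin α := by simpa [CC] using h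
  have h1 := abs_lt.1 ha.2
  have key : ∀ t, T ≤ t → HH κ x y (a 0, t) = sOut (a 0) := by
    intro t ht
    obtain ⟨e1, e2⟩ := hw.after (a 0) ha.1 t ht
    simp [HH, e1, e2]
  have h2 : Hh κ x y sIn sOut a α = sOut (a 0) := by
    rw [Hh]
    split_ifs with c1 c2 c3
    · apply key
      rw [abs_of_pos c1] at h0
      have : T + 1 < tan α := by rw [tan_eq_sin_div_cos, lt_div_iff₀ c1]; exact h0
      linarith
    · apply key
      rw [abs_of_neg c2] at h0
      have : tan α < -(T + 1) := by rw [tan_eq_sin_div_cos, div_lt_iff_of_neg c2]; linarith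
      linarith
    · rfl
    · exact absurd (lt_of_le_of_lt (by positivity) h0) c3
  rw [uu, h2, uC]

theorem uu_eq_in (hT : 0 < T) (hw : Window κ T Z₁ Z₂ x y f j sIn sOut) {α : ℝ} (h : α ∈ CC T (-1))
    {a : E2} (ha : a ∈ UU Z₁ Z₂) : uu κ x y sIn sOut P₁ P₂ a α = uC sIn P₁ P₂ a α := by
  have h0 : (T + 1) * |cos α| < -sin α := by simpa [CC] using h
  have h1 := abs_lt.1 ha.2
  have key : ∀ t, t ≤ -T → HH κ x y (a 0, t) = sIn (a 0) := by
    intro t ht
    obtain ⟨e1, e2⟩ := hw.before (a 0) ha.1 t ht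
    simp [HH, e1, e2]
  have h2 : Hh κ x y sIn sOut a α = sIn (a 0) := by
    rw [Hh]
    split_ifs with c1 c2 c3
    · apply key
      rw [abs_of_pos c1] at h0
      have : tan α < -(T + 1) := by rw [tan_eq_sin_div_cos, div_lt_iff₀ c1]; linarith
      linarith
    · apply key
      rw [abs_of_neg c2] at h0
      have : T + 1 < tan α := by rw [tan_eq_sin_div_cos, lt_div_iff_of_neg c2]; linarith
      linarith
    · have : 0 ≤ (T + 1) * |cos α| := by positivity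
      linarith
    · rfl
  rw [uu, h2, uC]

theorem cover (T α : ℝ) : α ∈ AA T 1 ∨ α ∈ AA T (-1) ∨
    (α ∉ AA T 1 ∧ α ∉ AA T (-1) ∧ (α ∈ CC T 1 ∨ α ∈ CC T (-1))) := by
  by_cases h1 : α ∈ AA T 1
  · exact Or.inl h1
  by_cases h2 : α ∈ AA T (-1)
  · exact Or.inr (Or.inl h2)
  refine Or.inr (Or.inr ⟨h1, h2, ?_⟩)
  simp only [AA, CC, mem_ofPred_eq, not_lt, one_mul, neg_mul] at h1 h2 ⊢
  have h3 : (T + 1) * |cos α| < |sin α| := by
    rcases lt_trichotomy (cos α) 0 with c | c | c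
    · rw [abs_of_neg c]; nlinarith
    · have := sin_sq_add_cos_sq α
      rw [c] at this ⊢
      have h4 : sin α ≠ 0 := by intro h; rw [h] at this; norm_num at this
      simpa using h4
    · rw [abs_of_pos c]; nlinarith
  exact lt_abs.1 h3

theorem angle_eq {α β : ℝ} (h : 0 < cos α * cos β) (ht : tan α = tan β) :
    ∃ k : ℤ, α = β + 2 * π * k := by
  have ha : cos α ≠ 0 := by intro h0; rw [h0, zero_mul] at h; exact lt_irrefl _ h
  have hb : cos β ≠ 0 := by intro h0; rw [h0, mul_zero] at h; exact lt_irrefl _ h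
  rw [tan_eq_sin_div_cos, tan_eq_sin_div_cos, div_eq_div_iff ha hb] at ht
  have h1 : sin (α - β) = 0 := by rw [sin_sub]; linarith
  have h2 : 0 < cos (α - β) := by
    rw [cos_sub]
    have e : (cos α * cos β + sin α * sin β) * (cos α * cos β) =
        (cos α * cos β) ^ 2 + (sin α * cos β) ^ 2 := by
      linear_combination (-(sin α * cos β)) * ht
    have : 0 < (cos α * cos β + sin α * sin β) * (cos α * cos β) := by
      rw [e]; positivity
    exact (pos_iff_pos_of_mul_pos this).2 h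
  have h3 : cos (α - β) = 1 := by
    have := sin_sq_add_cos_sq (α - β)
    rw [h1] at this
    nlinarith
  obtain ⟨k, hk⟩ := (cos_eq_one_iff _).1 h3
  exact ⟨k, by linarith⟩

end

end Pool.Agent.H238Z.Uni.Asm

namespace Pool.Agent.H238Z.Uni

open Asm

theorem family_of_window {κ T Z₁ Z₂ : ℝ} {x y f j : ℝ × ℝ → ℝ} {sIn sOut P₁ P₂ R : ℝ → ℝ}
    (hT : 0 < T) (hw : Window κ T Z₁ Z₂ x y f j sIn sOut) (hb : Background κ (T + 2) P₁ P₂ R) :
    ∃ (U : Set E2) (u v w J : E2 → ℝ → ℝ) (Λ : ℝ → ℝ), Family U u v w J Λ := by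
  have hU := isOpen_UU Z₁ Z₂
  set u := uu κ x y sIn sOut P₁ P₂ with hu
  obtain ⟨so1, so2⟩ := label hw (s := sOut) (t₀ := T + 1) (N := Ici T)
    (Ici_mem_nhds (by linarith)) (fun Z hZ t ht => hw.after Z hZ t ht)
  obtain ⟨si1, si2⟩ := label hw (s := sIn) (t₀ := -T - 1) (N := Iic (-T))
    (Iic_mem_nhds (by linarith)) (fun Z hZ t ht => hw.before Z hZ t ht)
  have hcos : ∀ ε : ℝ, ∀ α ∈ AA T ε, cos α ≠ 0 := by
    intro ε α h h0; have := AA_cos hT h; rw [h0, mul_zero] at this; exact lt_irrefl _ this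
  have LA : ∀ ε : ℝ, ε = 1 ∨ ε = -1 →
      Loc (UU Z₁ Z₂) (AA T ε) u (fun a => deriv (u a)) (fun a => deriv (deriv (u a)))
        (JA κ ε j) (Lam P₁ P₂ R) ∧ ∀ a ∈ UU Z₁ Z₂, ∀ t ∈ AA T ε,
        fderiv ℝ (fun a => deriv (u a) t) a = fderiv ℝ (fun a => vA κ ε x a t) a := by
    intro ε hε
    have hε2 : ε * ε = 1 := by rcases hε with rfl | rfl <;> norm_num
    exact (locA hw hb.ne hε2 (hcos ε) (fun α h => lamA hT hb hε h)).transfer hU (isOpen_AA T ε)
      (fun a _ α h => uu_eq_A hT hb hε h a)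
  have LO := (locC hb so1 so2 (CC T 1)).transfer (u := u) hU (isOpen_CC T 1)
    (fun a ha α h => uu_eq_out hT hw h ha)
  have LI := (locC hb si1 si2 (CC T (-1))).transfer (u := u) hU (isOpen_CC T (-1))
    (fun a ha α h => uu_eq_in hT hw h ha)
  have disj : ∀ α ∈ AA T (-1), α ∉ AA T 1 := by
    intro α h1 h2
    have := AA_cos hT h1
    have := AA_cos hT h2
    linarith
  have key : ∀ α, ∃ (A : Set ℝ) (J' : E2 → ℝ → ℝ), IsOpen A ∧ α ∈ A ∧
      Loc (UU Z₁ Z₂) A u (fun a => deriv (u a)) (fun a => deriv (deriv (u a))) J' (Lam P₁ P₂ R) ∧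
      ∀ a, JJ κ T j P₁ P₂ R a α = J' a α := by
    intro α
    rcases cover T α with h | h | ⟨h1, h2, h | h⟩
    · exact ⟨_, _, isOpen_AA T 1, h, (LA 1 (Or.inl rfl)).1, fun a => by rw [JJ, if_pos h]⟩
    · exact ⟨_, _, isOpen_AA T (-1), h, (LA (-1) (Or.inr rfl)).1,
        fun a => by rw [JJ, if_neg (disj α h), if_pos h]⟩
    · exact ⟨_, _, isOpen_CC T 1, h, LO.1, fun a => by rw [JJ, if_neg h1, if_neg h2]⟩
    · exact ⟨_, _, isOpen_CC T (-1), h, LI.1, fun a => by rw [JJ, if_neg h1, if_neg h2]⟩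
  refine ⟨UU Z₁ Z₂, u, fun a => deriv (u a), fun a => deriv (deriv (u a)), JJ κ T j P₁ P₂ R,
    Lam P₁ P₂ R, hU, ?_, ?_, ?_, ?_, ?_, ?_, ?_, ?_, ?_, ?_⟩
  · intro z hz
    obtain ⟨A, J', hA, hα, hL, -⟩ := key z.2
    exact (hL.smooth.contDiffAt ((hU.prod hA).mem_nhds ⟨hz.1, hα⟩)).contDiffWithinAt
  · intro a ha t
    obtain ⟨A, J', -, hα, hL, -⟩ := key t
    exact hL.du a ha t hα
  · intro a ha t
    obtain ⟨A, J', -, hα, hL, -⟩ := key t
    exact hL.dv a ha t hα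
  · intro a _ t
    have ht : tan (t + 2 * π) = tan t := by
      rw [tan_eq_sin_div_cos, tan_eq_sin_div_cos, sin_add_two_pi, cos_add_two_pi]
    simp only [hu, uu, Hh, mm, hb.per₁, hb.per₂, cos_add_two_pi, sin_add_two_pi, ht]
  · intro t
    exact div_pos (hb.pos t) (hb.hpos t)
  · intro a ha t
    obtain ⟨A, J', -, hα, hL, hJ⟩ := key t
    rw [show (fun a => JJ κ T j P₁ P₂ R a t) = fun a => J' a t from funext hJ]
    exact hL.dJ a ha t hα
  · intro a ha t
    obtain ⟨A, J', -, hα, hL, hJ⟩ := key t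
    rw [hJ a]
    exact hL.ode a ha t hα
  · intro a ha t
    obtain ⟨A, J', -, hα, hL, -⟩ := key t
    exact hL.det a ha t hα
  · intro a ha
    obtain ⟨tm, htm⟩ := hw.turn (a 0) ha.1
    refine ⟨arctan (tm + a 1), π - arctan (tm - a 1), fun t h0 => ?_⟩
    have habs : ∀ ε : ℝ, ε = 1 ∨ ε = -1 → t ∈ CC T ε → |cos t| < |sin t| := by
      intro ε hε h
      have h1 : (T + 1) * |cos t| < ε * sin t := h
      have h2 : ε * sin t ≤ |sin t| := by
        rcases hε with rfl | rfl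
        · rw [one_mul]; exact le_abs_self _
        · rw [neg_one_mul]; exact neg_le_abs _
      nlinarith [abs_nonneg (cos t)]
    rcases cover T t with h | h | ⟨-, -, h | h⟩
    · rw [(LA 1 (Or.inl rfl)).2 a ha t h] at h0
      have h1 := htm _ (zeroA hw (by norm_num) (hcos 1 t h) ha h0)
      have h2 := AA_cos hT h
      obtain ⟨k, hk⟩ := angle_eq (α := t) (β := arctan (tm + a 1))
        (mul_pos (by linarith) (cos_arctan_pos _)) (by rw [tan_arctan]; linarith)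
      exact ⟨k, Or.inl hk⟩
    · rw [(LA (-1) (Or.inr rfl)).2 a ha t h] at h0
      have h1 := htm _ (zeroA hw (by norm_num) (hcos (-1) t h) ha h0)
      have h2 := AA_cos hT h
      obtain ⟨k, hk⟩ := angle_eq (α := t) (β := π - arctan (tm - a 1))
        (by rw [cos_pi_sub]; exact mul_pos_of_neg_of_neg (by linarith)
              (neg_neg_of_pos (cos_arctan_pos _)))
        (by rw [tan_pi_sub, tan_arctan]; linarith)
      exact ⟨k, Or.inr hk⟩
    · rw [LO.2 a ha t h] at h0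
      exact absurd h0 (zeroC hb so2 (habs 1 (Or.inl rfl) h) ha)
    · rw [LI.2 a ha t h] at h0
      exact absurd h0 (zeroC hb si2 (habs (-1) (Or.inr rfl) h) ha)
  · obtain ⟨Z, hZ, t, ht, hj⟩ := hw.nontriv
    have ha : (![Z, 0] : E2) ∈ UU Z₁ Z₂ := ⟨by simpa using hZ, by simp⟩
    have hc := cos_arctan_pos t
    have hα : arctan t ∈ AA T 1 := by
      have h1 : sin (arctan t) = t * cos (arctan t) := by
        have := tan_arctan t
        rw [tan_eq_sin_div_cos, div_eq_iff hc.ne'] at this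
        exact this
      show |sin (arctan t)| < (T + 2) * (1 * cos (arctan t))
      rw [h1, abs_mul, abs_of_pos hc]
      nlinarith
    refine ⟨![Z, 0], ha, arctan t, ?_⟩
    rw [show (fun a => JJ κ T j P₁ P₂ R a (arctan t)) = fun a => JA κ 1 j a (arctan t) from
      funext fun a => by rw [JJ, if_pos hα], (hasFDerivAt_JA hw 1 (arctan t) ha).fderiv]
    have hm : mm 1 ![Z, 0] (arctan t) = (Z, t) := by simp [mm]
    rw [hm]
    intro h0
    apply hj
    refine ContinuousLinearMap.ext fun p => ?_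
    have h1 := congrArg (fun L : E2 →L[ℝ] ℝ => L ![p.1, -p.2]) h0
    have h2 : LL 1 ![p.1, -p.2] = p := by rw [LL_apply]; simp
    simp only [smul_apply, neg_apply, ContinuousLinearMap.comp_apply, h2, smul_eq_mul,
      zero_apply] at h1
    have h3 : 0 < 1 * (1 / cos (arctan t) ^ 2) := by positivity
    rcases mul_eq_zero.1 h1 with h | h
    · exact absurd h h3.ne'
    · rw [zero_apply]; linarith

end Pool.Agent.H238Z.Uni
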