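import Pool.Agent.H238Z.Uni.Defs

/-!
Local models for the family of dual unit curves built from a window and a background curve.
-/

open Set Real Filter Topology
open scoped ContDiff

namespace Pool.Agent.H238Z.Uni.Asm

/-- The local part of `Family` on a product `U × A`. -/
structure Loc (U : Set E2) (A : Set ℝ) (u v w J : E2 → ℝ → ℝ) (Λ : ℝ → ℝ) : Prop where
  smooth : ContDiffOn ℝ ∞ (fun z : E2 × ℝ => u z.1 z.2) (U ×ˢ A)
  du : ∀ a ∈ U, ∀ t ∈ A, HasDerivAt (u a) (v a t) t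
  dv : ∀ a ∈ U, ∀ t ∈ A, HasDerivAt (v a) (w a t) t
  dJ : ∀ a ∈ U, ∀ t ∈ A, DifferentiableAt ℝ (fun a => J a t) a
  ode : ∀ a ∈ U, ∀ t ∈ A, fderiv ℝ (fun a => w a t) a =
    -(Λ t) • fderiv ℝ (fun a => u a t) a + J a t • fderiv ℝ (fun a => v a t) a
  det : ∀ a ∈ U, ∀ t ∈ A,
    0 < fderiv ℝ (fun a => u a t) a (Pi.single 0 1) * fderiv ℝ (fun a => v a t) a (Pi.single 1 1) -
      fderiv ℝ (fun a => u a t) a (Pi.single 1 1) * fderiv ℝ (fun a => v a t) a (Pi.single 0 1)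

theorem fderiv_congr_on {U : Set E2} (hU : IsOpen U) {g g' : E2 → ℝ} (h : ∀ a ∈ U, g a = g' a)
    {a : E2} (ha : a ∈ U) : fderiv ℝ g a = fderiv ℝ g' a := by
  apply Filter.EventuallyEq.fderiv_eq
  filter_upwards [hU.mem_nhds ha] with b hb using h b hb

theorem Loc.transfer {U : Set E2} {A : Set ℝ} {u u' v' w' J : E2 → ℝ → ℝ} {Λ : ℝ → ℝ}
    (hU : IsOpen U) (hA : IsOpen A) (h : Loc U A u' v' w' J Λ)
    (he : ∀ a ∈ U, ∀ t ∈ A, u a t = u' a t) :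
    Loc U A u (fun a => deriv (u a)) (fun a => deriv (deriv (u a))) J Λ ∧
      ∀ a ∈ U, ∀ t ∈ A, fderiv ℝ (fun a => deriv (u a) t) a = fderiv ℝ (fun a => v' a t) a := by
  have h1 : ∀ a ∈ U, ∀ t ∈ A, HasDerivAt (u a) (v' a t) t := by
    intro a ha t ht
    apply (h.du a ha t ht).congr_of_eventuallyEq
    filter_upwards [hA.mem_nhds ht] with s hs using he a ha s hs
  have h2 : ∀ a ∈ U, ∀ t ∈ A, deriv (u a) t = v' a t := fun a ha t ht => (h1 a ha t ht).deriv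
  have h3 : ∀ a ∈ U, ∀ t ∈ A, HasDerivAt (deriv (u a)) (w' a t) t := by
    intro a ha t ht
    apply (h.dv a ha t ht).congr_of_eventuallyEq
    filter_upwards [hA.mem_nhds ht] with s hs using h2 a ha s hs
  have h4 : ∀ a ∈ U, ∀ t ∈ A, deriv (deriv (u a)) t = w' a t :=
    fun a ha t ht => (h3 a ha t ht).deriv
  have e1 : ∀ a ∈ U, ∀ t ∈ A, fderiv ℝ (fun a => u a t) a = fderiv ℝ (fun a => u' a t) a :=
    fun a ha t ht => fderiv_congr_on hU (fun b hb => he b hb t ht) ha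
  have e2 : ∀ a ∈ U, ∀ t ∈ A,
      fderiv ℝ (fun a => deriv (u a) t) a = fderiv ℝ (fun a => v' a t) a :=
    fun a ha t ht => fderiv_congr_on hU (fun b hb => h2 b hb t ht) ha
  have e3 : ∀ a ∈ U, ∀ t ∈ A,
      fderiv ℝ (fun a => deriv (deriv (u a)) t) a = fderiv ℝ (fun a => w' a t) a :=
    fun a ha t ht => fderiv_congr_on hU (fun b hb => h4 b hb t ht) ha
  refine ⟨⟨?_, ?_, ?_, h.dJ, ?_, ?_⟩, e2⟩
  · exact h.smooth.congr (fun z hz => he z.1 hz.1 z.2 hz.2)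
  · intro a ha t ht
    show HasDerivAt (u a) (deriv (u a) t) t
    rw [h2 a ha t ht]; exact h1 a ha t ht
  · intro a ha t ht
    show HasDerivAt (deriv (u a)) (deriv (deriv (u a)) t) t
    rw [h4 a ha t ht]; exact h3 a ha t ht
  · intro a ha t ht
    show fderiv ℝ (fun a => deriv (deriv (u a)) t) a = -(Λ t) • fderiv ℝ (fun a => u a t) a +
      J a t • fderiv ℝ (fun a => deriv (u a) t) a
    rw [e1 a ha t ht, e2 a ha t ht, e3 a ha t ht]; exact h.ode a ha t ht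
  · intro a ha t ht
    show 0 < fderiv ℝ (fun a => u a t) a (Pi.single 0 1) *
        fderiv ℝ (fun a => deriv (u a) t) a (Pi.single 1 1) -
      fderiv ℝ (fun a => u a t) a (Pi.single 1 1) *
        fderiv ℝ (fun a => deriv (u a) t) a (Pi.single 0 1)
    rw [e1 a ha t ht, e2 a ha t ht]; exact h.det a ha t ht

/-- The parameter domain. -/
def UU (Z₁ Z₂ : ℝ) : Set E2 := {a | a 0 ∈ Ioo Z₁ Z₂ ∧ |a 1| < 1}

theorem isOpen_UU (Z₁ Z₂ : ℝ) : IsOpen (UU Z₁ Z₂) := by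
  have h1 : IsOpen {a : E2 | a 0 ∈ Ioo Z₁ Z₂} := isOpen_Ioo.preimage (continuous_apply 0)
  have h2 : IsOpen {a : E2 | |a 1| < 1} :=
    isOpen_lt (continuous_abs.comp (continuous_apply 1)) continuous_const
  exact h1.inter h2

/-- The point of the window attached to `(a, α)`. -/
noncomputable def mm (ε : ℝ) (a : E2) (α : ℝ) : ℝ × ℝ := (a 0, ε * tan α - ε * a 1)

/-- Its derivative in `a`. -/
noncomputable def LL (ε : ℝ) : E2 →L[ℝ] ℝ × ℝ :=
  (ContinuousLinearMap.proj (R := ℝ) (φ := fun _ : Fin 2 => ℝ) 0).prod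
    ((-ε) • ContinuousLinearMap.proj (R := ℝ) (φ := fun _ : Fin 2 => ℝ) 1)

theorem LL_apply (ε : ℝ) (d : E2) : LL ε d = (d 0, -ε * d 1) := by
  simp [LL]

theorem hasFDerivAt_mm (ε α : ℝ) (a : E2) : HasFDerivAt (fun a => mm ε a α) (LL ε) a := by
  have h : (fun a => mm ε a α) = fun a => LL ε a + (0, ε * tan α) := by
    funext a; rw [LL_apply]; simp [mm]; ring
  rw [h]
  exact (LL ε).hasFDerivAt.add_const _

/-- Local model of `u` in the window. -/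
noncomputable def uA (κ ε : ℝ) (x y : ℝ × ℝ → ℝ) (a : E2) (α : ℝ) : ℝ :=
  exp (-κ * (ε * tan α)) * (-(1 / κ) * x (mm ε a α) + 2 / κ ^ 2 * y (mm ε a α)) -
    exp (-κ * (ε * tan α)) / κ * ((ε * tan α) ^ 2 + 2 * (ε * tan α) / κ)

/-- Local model of `v` in the window. -/
noncomputable def vA (κ ε : ℝ) (x : ℝ × ℝ → ℝ) (a : E2) (α : ℝ) : ℝ :=
  ε * (1 / cos α ^ 2) * (exp (-κ * (ε * tan α)) * (x (mm ε a α) + (ε * tan α) ^ 2))

/-- Local model of `w` in the window. -/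
noncomputable def wA (κ ε : ℝ) (x y f : ℝ × ℝ → ℝ) (a : E2) (α : ℝ) : ℝ :=
  (1 / cos α ^ 2) ^ 2 * (exp (-κ * (ε * tan α)) * (-κ * (x (mm ε a α) + (ε * tan α) ^ 2) -
      2 * (y (mm ε a α) + f (mm ε a α)) + 2 * (ε * tan α))) +
    2 * tan α * (ε * (1 / cos α ^ 2) * (exp (-κ * (ε * tan α)) * (x (mm ε a α) + (ε * tan α) ^ 2)))

/-- Local model of `J` in the window. -/
noncomputable def JA (κ ε : ℝ) (j : ℝ × ℝ → ℝ) (a : E2) (α : ℝ) : ℝ :=
  ε * (1 / cos α ^ 2) * (-2 * κ - 2 * j (mm ε a α)) + 2 * tan α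

section
variable {κ T Z₁ Z₂ : ℝ} {x y f j : ℝ × ℝ → ℝ} {sIn sOut : ℝ → ℝ}

theorem diffAt {g : ℝ × ℝ → ℝ} (hg : ContDiffOn ℝ ∞ g (Ioo Z₁ Z₂ ×ˢ univ)) {p : ℝ × ℝ}
    (hp : p.1 ∈ Ioo Z₁ Z₂) : DifferentiableAt ℝ g p :=
  ((hg.contDiffAt ((isOpen_Ioo.prod isOpen_univ).mem_nhds ⟨hp, mem_univ _⟩)).differentiableAt
    (by simp))

theorem fd_mm {g : ℝ × ℝ → ℝ} (hg : ContDiffOn ℝ ∞ g (Ioo Z₁ Z₂ ×ˢ univ)) (ε α : ℝ) {a : E2}
    (ha : a ∈ UU Z₁ Z₂) :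
    HasFDerivAt (fun a => g (mm ε a α)) ((fderiv ℝ g (mm ε a α)).comp (LL ε)) a :=
  (diffAt hg (p := mm ε a α) ha.1).hasFDerivAt.comp a (hasFDerivAt_mm ε α a)

theorem fderiv_snd_dir {g : ℝ × ℝ → ℝ} (hg : ContDiffOn ℝ ∞ g (Ioo Z₁ Z₂ ×ˢ univ)) {Z t d : ℝ}
    (hZ : Z ∈ Ioo Z₁ Z₂) (hd : HasDerivAt (fun t => g (Z, t)) d t) :
    fderiv ℝ g (Z, t) (0, 1) = d := by
  have h1 : HasDerivAt (fun t : ℝ => ((Z, t) : ℝ × ℝ)) (0, 1) t :=
    (hasDerivAt_const t Z).prodMk (hasDerivAt_id t)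
  have h2 := (diffAt hg (p := (Z, t)) hZ).hasFDerivAt.comp_hasDerivAt t h1
  exact h2.unique hd

theorem fderiv_uA (hw : Window κ T Z₁ Z₂ x y f j sIn sOut) (ε α : ℝ) {a : E2}
    (ha : a ∈ UU Z₁ Z₂) :
    fderiv ℝ (fun a => uA κ ε x y a α) a = exp (-κ * (ε * tan α)) •
      (-(1 / κ) • (fderiv ℝ x (mm ε a α)).comp (LL ε) +
        (2 / κ ^ 2) • (fderiv ℝ y (mm ε a α)).comp (LL ε)) := by
  have h := (((((fd_mm hw.sx ε α ha).const_mul (-(1 / κ))).add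
    ((fd_mm hw.sy ε α ha).const_mul (2 / κ ^ 2))).const_mul (exp (-κ * (ε * tan α)))).sub_const
    (exp (-κ * (ε * tan α)) / κ * ((ε * tan α) ^ 2 + 2 * (ε * tan α) / κ)))
  exact h.fderiv

theorem fderiv_vA (hw : Window κ T Z₁ Z₂ x y f j sIn sOut) (ε α : ℝ) {a : E2}
    (ha : a ∈ UU Z₁ Z₂) :
    fderiv ℝ (fun a => vA κ ε x a α) a = (ε * (1 / cos α ^ 2)) • exp (-κ * (ε * tan α)) •
      (fderiv ℝ x (mm ε a α)).comp (LL ε) := by
  have h := ((((fd_mm hw.sx ε α ha).add_const ((ε * tan α) ^ 2)).const_mul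
    (exp (-κ * (ε * tan α)))).const_mul (ε * (1 / cos α ^ 2)))
  exact h.fderiv

theorem fderiv_wA (hw : Window κ T Z₁ Z₂ x y f j sIn sOut) (ε α : ℝ) {a : E2}
    (ha : a ∈ UU Z₁ Z₂) :
    fderiv ℝ (fun a => wA κ ε x y f a α) a =
      (1 / cos α ^ 2) ^ 2 • exp (-κ * (ε * tan α)) •
        ((-κ) • (fderiv ℝ x (mm ε a α)).comp (LL ε) -
          (2 : ℝ) • ((fderiv ℝ y (mm ε a α)).comp (LL ε) + (fderiv ℝ f (mm ε a α)).comp (LL ε))) +
      (2 * tan α) • (ε * (1 / cos α ^ 2)) • exp (-κ * (ε * tan α)) •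
        (fderiv ℝ x (mm ε a α)).comp (LL ε) := by
  have hx := (fd_mm hw.sx ε α ha).add_const ((ε * tan α) ^ 2)
  have h1 := ((((hx.const_mul (-κ)).sub
    (((fd_mm hw.sy ε α ha).add (fd_mm hw.sf ε α ha)).const_mul 2)).add_const
      (2 * (ε * tan α))).const_mul (exp (-κ * (ε * tan α)))).const_mul ((1 / cos α ^ 2) ^ 2)
  have h2 := ((hx.const_mul (exp (-κ * (ε * tan α)))).const_mul
    (ε * (1 / cos α ^ 2))).const_mul (2 * tan α)
  exact (h1.add h2).fderiv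

theorem hasFDerivAt_JA (hw : Window κ T Z₁ Z₂ x y f j sIn sOut) (ε α : ℝ) {a : E2}
    (ha : a ∈ UU Z₁ Z₂) :
    HasFDerivAt (fun a => JA κ ε j a α)
      ((ε * (1 / cos α ^ 2)) • (-((2 : ℝ) • (fderiv ℝ j (mm ε a α)).comp (LL ε)))) a :=
  ((((fd_mm hw.sj ε α ha).const_mul 2).const_sub (-2 * κ)).const_mul
    (ε * (1 / cos α ^ 2))).add_const (2 * tan α)

theorem locA (hw : Window κ T Z₁ Z₂ x y f j sIn sOut) (hκ : κ ≠ 0) {ε : ℝ} (hε : ε * ε = 1)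
    {A : Set ℝ} (hA : ∀ α ∈ A, cos α ≠ 0) {Λ : ℝ → ℝ}
    (hΛ : ∀ α ∈ A, Λ α = κ ^ 2 * (1 / cos α ^ 2) ^ 2) :
    Loc (UU Z₁ Z₂) A (uA κ ε x y) (vA κ ε x) (wA κ ε x y f) (JA κ ε j) Λ := by
  have hθ : ∀ α ∈ A, HasDerivAt (fun α => ε * tan α) (ε * (1 / cos α ^ 2)) α :=
    fun α hα => (hasDerivAt_tan (hA α hα)).const_mul ε
  have hE : ∀ α ∈ A, HasDerivAt (fun α => exp (-κ * (ε * tan α)))
      (exp (-κ * (ε * tan α)) * (-κ * (ε * (1 / cos α ^ 2)))) α :=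
    fun α hα => ((hθ α hα).const_mul (-κ)).exp
  have hx : ∀ a ∈ UU Z₁ Z₂, ∀ α ∈ A, HasDerivAt (fun α => x (mm ε a α))
      (-2 * (y (mm ε a α) + f (mm ε a α)) * (ε * (1 / cos α ^ 2))) α :=
    fun a ha α hα => by
      have h := HasDerivAt.comp (h₂ := fun t => x (a 0, t)) (h := fun α => ε * tan α - ε * a 1) α
        (hw.dx (a 0) ha.1 (ε * tan α - ε * a 1)) ((hθ α hα).sub_const (ε * a 1))
      exact h
  have hy : ∀ a ∈ UU Z₁ Z₂, ∀ α ∈ A, HasDerivAt (fun α => y (mm ε a α))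
      ((1 - κ * f (mm ε a α)) * (ε * (1 / cos α ^ 2))) α :=
    fun a ha α hα => by
      have h := HasDerivAt.comp (h₂ := fun t => y (a 0, t)) (h := fun α => ε * tan α - ε * a 1) α
        (hw.dy (a 0) ha.1 (ε * tan α - ε * a 1)) ((hθ α hα).sub_const (ε * a 1))
      exact h
  refine ⟨?_, ?_, ?_, ?_, ?_, ?_⟩
  · have ht : ContDiffOn ℝ ∞ (fun z : E2 × ℝ => ε * tan z.2) (UU Z₁ Z₂ ×ˢ A) := by
      intro z hz
      exact (contDiffAt_const.mul
        ((contDiffAt_tan.2 (hA z.2 hz.2)).comp z contDiffAt_snd)).contDiffWithinAt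
    have hm : ContDiffOn ℝ ∞ (fun z : E2 × ℝ => mm ε z.1 z.2) (UU Z₁ Z₂ ×ˢ A) := by
      have h0 : ContDiff ℝ ∞ (fun z : E2 × ℝ => z.1 0) := (contDiff_apply ℝ ℝ 0).comp contDiff_fst
      have h1 : ContDiff ℝ ∞ (fun z : E2 × ℝ => z.1 1) := (contDiff_apply ℝ ℝ 1).comp contDiff_fst
      exact h0.contDiffOn.prodMk (ht.sub (contDiff_const.mul h1).contDiffOn)
    have hmaps : MapsTo (fun z : E2 × ℝ => mm ε z.1 z.2) (UU Z₁ Z₂ ×ˢ A) (Ioo Z₁ Z₂ ×ˢ univ) :=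
      fun z hz => ⟨hz.1.1, mem_univ _⟩
    have hxx := hw.sx.comp hm hmaps
    have hyy := hw.sy.comp hm hmaps
    have hEE : ContDiffOn ℝ ∞ (fun z : E2 × ℝ => exp (-κ * (ε * tan z.2))) (UU Z₁ Z₂ ×ˢ A) :=
      (contDiffOn_const.mul ht).exp
    exact (hEE.mul ((contDiffOn_const.mul hxx).add (contDiffOn_const.mul hyy))).sub
      ((hEE.div_const κ).mul ((ht.pow 2).add ((contDiffOn_const.mul ht).div_const κ)))
  · intro a ha α hα
    have h := ((hE α hα).mul (((hx a ha α hα).const_mul (-(1 / κ))).add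
      ((hy a ha α hα).const_mul (2 / κ ^ 2)))).sub
      (((hE α hα).div_const κ).mul (((hθ α hα).pow 2).add
        (((hθ α hα).const_mul 2).div_const κ)))
    refine h.congr_deriv ?_
    simp only [vA, Pi.add_apply, Pi.pow_apply]
    field_simp
    ring
  · intro a ha α hα
    have hc : HasDerivAt (fun α => ε * (1 / cos α ^ 2)) (2 * tan α * (ε * (1 / cos α ^ 2))) α := by
      have h1 := (((hasDerivAt_cos α).pow 2).inv (pow_ne_zero 2 (hA α hα))).const_mul ε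
      have h2 : (fun α => ε * (1 / cos α ^ 2)) = fun y => ε * (cos ^ 2)⁻¹ y := by
        funext s; simp
      rw [h2]
      refine h1.congr_deriv ?_
      have := hA α hα
      simp only [Pi.pow_apply, tan_eq_sin_div_cos]
      field_simp
      ring
    have h := hc.mul ((hE α hα).mul ((hx a ha α hα).add ((hθ α hα).pow 2)))
    refine h.congr_deriv ?_
    simp only [wA, Pi.add_apply, Pi.pow_apply, Pi.mul_apply]
    have e : ∀ r : ℝ, r = r * (ε * ε) := fun r => by rw [hε, mul_one]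
    rw [e ((1 / cos α ^ 2) ^ 2)]
    ring
  · intro a ha α _
    exact (hasFDerivAt_JA hw ε α ha).differentiableAt
  · intro a ha α hα
    rw [fderiv_uA hw ε α ha, fderiv_vA hw ε α ha, fderiv_wA hw ε α ha, hΛ α hα]
    have hdf : fderiv ℝ f (mm ε a α) = j (mm ε a α) • fderiv ℝ x (mm ε a α) :=
      hw.df (a 0) ha.1 _
    rw [hdf]
    ext d
    simp only [JA, add_apply, smul_apply,
      sub_apply, ContinuousLinearMap.comp_apply, smul_eq_mul]
    generalize fderiv ℝ x (mm ε a α) _ = X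
    generalize fderiv ℝ y (mm ε a α) _ = Y
    generalize (1 / cos α ^ 2) = c
    generalize exp _ = E
    field_simp
    linear_combination (c * E * X * (2 * κ + 2 * j (mm ε a α)) * c) * hε
  · intro a ha α hα
    rw [fderiv_uA hw ε α ha, fderiv_vA hw ε α ha]
    have hj := hw.jac (a 0) ha.1 (ε * tan α - ε * a 1)
    have l0 : LL ε (Pi.single 0 1) = (1, 0) := by rw [LL_apply]; simp
    have l1 : LL ε (Pi.single 1 1) = (-ε) • ((0, 1) : ℝ × ℝ) := by rw [LL_apply]; simp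
    simp only [add_apply, smul_apply,
      ContinuousLinearMap.comp_apply, smul_eq_mul, l0, l1, map_smul]
    change 0 < fderiv ℝ x (mm ε a α) (1, 0) * fderiv ℝ y (mm ε a α) (0, 1) -
      fderiv ℝ x (mm ε a α) (0, 1) * fderiv ℝ y (mm ε a α) (1, 0) at hj
    have hc : 0 < 1 / cos α ^ 2 := by have := hA α hα; positivity
    have hEp : 0 < exp (-κ * (ε * tan α)) := exp_pos _
    have hk : 0 < 2 / κ ^ 2 := by positivity
    have := mul_pos (mul_pos (mul_pos (mul_pos hEp hEp) hc) hk) hj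
    refine lt_of_lt_of_eq this ?_
    linear_combination (-1) * (exp (-κ * (ε * tan α)) * exp (-κ * (ε * tan α)) * (1 / cos α ^ 2) *
      (2 / κ ^ 2) * (fderiv ℝ x (mm ε a α) (1, 0) * fderiv ℝ y (mm ε a α) (0, 1) -
      fderiv ℝ x (mm ε a α) (0, 1) * fderiv ℝ y (mm ε a α) (1, 0))) * hε

theorem zeroA (hw : Window κ T Z₁ Z₂ x y f j sIn sOut) {ε α : ℝ} (hε : ε * ε = 1)
    (hα : cos α ≠ 0) {a : E2} (ha : a ∈ UU Z₁ Z₂)
    (h0 : fderiv ℝ (fun a => vA κ ε x a α) a (Pi.single 1 1) = 0) :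
    y (mm ε a α) + f (mm ε a α) = 0 := by
  rw [fderiv_vA hw ε α ha] at h0
  have l1 : LL ε (Pi.single 1 1) = (-ε) • ((0, 1) : ℝ × ℝ) := by rw [LL_apply]; simp
  have hd : fderiv ℝ x (mm ε a α) (0, 1) = -2 * (y (mm ε a α) + f (mm ε a α)) :=
    fderiv_snd_dir hw.sx ha.1 (hw.dx (a 0) ha.1 _)
  simp only [smul_apply, ContinuousLinearMap.comp_apply, smul_eq_mul, l1,
    map_smul, hd] at h0
  have hc : 0 < 1 / cos α ^ 2 := by positivity
  have hEp : 0 < exp (-κ * (ε * tan α)) := exp_pos _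
  have h1 : (2 * (1 / cos α ^ 2) * exp (-κ * (ε * tan α))) * (y (mm ε a α) + f (mm ε a α)) = 0 := by
    linear_combination h0 - (2 * (1 / cos α ^ 2) * exp (-κ * (ε * tan α)) *
      (y (mm ε a α) + f (mm ε a α))) * hε
  rcases mul_eq_zero.1 h1 with h | h
  · exact absurd h (by positivity)
  · exact h

end

end Pool.Agent.H238Z.Uni.Asm
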