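import Pool.Agent.H238Z.Uni.Defs

open Set Real
open scoped ContDiff

namespace Pool.Agent.H238Z.Uni

namespace Bg

theorem eq_of_deriv {f g f' : ℝ → ℝ} {a b : ℝ} (hf : ∀ x ∈ uIcc a b, HasDerivAt f (f' x) x)
    (hg : ∀ x ∈ uIcc a b, HasDerivAt g (f' x) x) (h0 : f a = g a) : f b = g b := by
  have h := (convex_uIcc a b).norm_image_sub_le_of_norm_hasDerivWithin_le
    (f := fun x => f x - g x) (f' := fun _ => 0) (C := 0)
    (fun x hx => by
      have := ((hf x hx).sub (hg x hx)).hasDerivWithinAt (s := uIcc a b)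
      rwa [sub_self] at this)
    (fun x _ => by simp) left_mem_uIcc right_mem_uIcc
  simp only [zero_mul, norm_le_zero_iff] at h
  linarith

/-- the transition function -/
noncomputable def psi (s1 s : ℝ) : ℝ := smoothTransition ((s - s1) / ((1 - s1) / 2))

/-- the cutoff -/
noncomputable def phi (s1 s : ℝ) : ℝ := 1 - psi s1 s - psi s1 (-s)

/-- the special radius of curvature -/
noncomputable def EE (κ s : ℝ) : ℝ := exp (-κ * (s / √(1 - s ^ 2))) / √(1 - s ^ 2) ^ 3

theorem psi_smooth (s1 : ℝ) : ContDiff ℝ ∞ (psi s1) := by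
  unfold psi
  exact smoothTransition.contDiff.comp (by fun_prop)

theorem psi_nonneg (s1 s : ℝ) : 0 ≤ psi s1 s := smoothTransition.nonneg _

theorem psi_le (s1 s : ℝ) : psi s1 s ≤ 1 := smoothTransition.le_one _

theorem psi_zero {s1 s : ℝ} (h1 : s1 < 1) (h : s ≤ s1) : psi s1 s = 0 :=
  smoothTransition.zero_of_nonpos (div_nonpos_of_nonpos_of_nonneg (by linarith) (by linarith))

theorem psi_one {s1 s : ℝ} (h1 : s1 < 1) (h : (1 + s1) / 2 ≤ s) : psi s1 s = 1 :=
  smoothTransition.one_of_one_le (by rw [le_div_iff₀ (by linarith)]; linarith)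

theorem phi_nonneg {s1 : ℝ} (h0 : 0 < s1) (h1 : s1 < 1) (s : ℝ) : 0 ≤ phi s1 s := by
  unfold phi
  rcases le_total s 0 with h | h
  · rw [psi_zero h1 (by linarith : s ≤ s1)]; linarith [psi_le s1 (-s)]
  · rw [psi_zero h1 (by linarith : -s ≤ s1)]; linarith [psi_le s1 s]

theorem phi_le (s1 s : ℝ) : phi s1 s ≤ 1 := by
  unfold phi
  linarith [psi_nonneg s1 s, psi_nonneg s1 (-s)]

theorem phi_zero {s1 s : ℝ} (h0 : 0 < s1) (h1 : s1 < 1) (h : (1 + s1) / 2 ≤ |s|) :
    phi s1 s = 0 := by
  unfold phi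
  rcases le_total s 0 with hs | hs
  · rw [abs_of_nonpos hs] at h
    rw [psi_zero h1 (by linarith : s ≤ s1), psi_one h1 h]; ring
  · rw [abs_of_nonneg hs] at h
    rw [psi_zero h1 (by linarith : -s ≤ s1), psi_one h1 h]; ring

theorem phi_smooth (s1 : ℝ) : ContDiff ℝ ∞ (phi s1) := by
  unfold phi
  exact (contDiff_const.sub (psi_smooth s1)).sub ((psi_smooth s1).comp contDiff_neg)

theorem EE_nonneg (κ s : ℝ) : 0 ≤ EE κ s := by unfold EE; positivity

theorem EE_pos (κ : ℝ) {s : ℝ} (h : |s| < 1) : 0 < EE κ s := by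
  have : 0 < 1 - s ^ 2 := by
    have := abs_lt.1 h
    nlinarith
  have : 0 < √(1 - s ^ 2) := sqrt_pos.2 this
  unfold EE; positivity

theorem phiE_smooth {s1 : ℝ} (h0 : 0 < s1) (h1 : s1 < 1) (κ : ℝ) :
    ContDiff ℝ ∞ (fun s => phi s1 s * EE κ s) := by
  rw [contDiff_iff_contDiffAt]
  intro s
  by_cases h : |s| < 1
  · have a : 0 < 1 - s ^ 2 := by
      have := abs_lt.1 h
      nlinarith
    have b : 0 < √(1 - s ^ 2) := sqrt_pos.2 a
    have c : ContDiffAt ℝ ∞ (fun s : ℝ => √(1 - s ^ 2)) s :=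
      ContDiffAt.sqrt (by fun_prop) a.ne'
    refine (phi_smooth s1).contDiffAt.mul ?_
    unfold EE
    refine ContDiffAt.div ?_ (c.pow 3) (by positivity)
    exact (contDiffAt_const.mul (contDiffAt_id.div c b.ne')).exp
  · have ho : IsOpen {t : ℝ | (1 + s1) / 2 < |t|} := isOpen_lt continuous_const continuous_abs
    have hm : s ∈ {t : ℝ | (1 + s1) / 2 < |t|} := by
      show (1 + s1) / 2 < |s|
      linarith [not_lt.1 h]
    refine (contDiffAt_const (c := (0 : ℝ))).congr_of_eventuallyEq ?_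
    filter_upwards [ho.mem_nhds hm] with t ht
    rw [phi_zero h0 h1 (le_of_lt ht), zero_mul]

theorem phiE_bound {s1 : ℝ} (h0 : 0 < s1) (h1 : s1 < 1) :
    ∃ M : ℝ, 0 ≤ M ∧ ∀ κ : ℝ, |κ| ≤ 1 → ∀ s, phi s1 s * EE κ s ≤ M := by
  set s2 := (1 + s1) / 2 with hs2
  have a : 0 < 1 - s2 ^ 2 := by nlinarith
  have hm : 0 < √(1 - s2 ^ 2) := sqrt_pos.2 a
  set m := √(1 - s2 ^ 2)
  refine ⟨exp (1 / m) / m ^ 3, by positivity, fun κ hκ s => ?_⟩
  by_cases h : s2 ≤ |s|
  · rw [phi_zero h0 h1 h, zero_mul]; positivity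
  · push Not at h
    have h2 : s ^ 2 ≤ s2 ^ 2 := by
      rw [← sq_abs s]
      exact pow_le_pow_left₀ (abs_nonneg s) h.le 2
    have h3 : m ≤ √(1 - s ^ 2) := sqrt_le_sqrt (by linarith)
    have h4 : EE κ s ≤ exp (1 / m) / m ^ 3 := by
      unfold EE
      have h5 : -κ * (s / √(1 - s ^ 2)) ≤ 1 / m := by
        have h6 : -κ * s ≤ 1 := by
          have : |-κ * s| ≤ 1 := by
            rw [abs_mul, abs_neg]
            exact mul_le_one₀ hκ (abs_nonneg _) (by linarith)
          exact (le_abs_self _).trans this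
        rw [← mul_div_assoc]
        calc -κ * s / √(1 - s ^ 2) ≤ 1 / √(1 - s ^ 2) :=
              div_le_div_of_nonneg_right h6 (by positivity)
          _ ≤ 1 / m := one_div_le_one_div_of_le hm h3
      gcongr
    calc phi s1 s * EE κ s ≤ 1 * EE κ s := mul_le_mul_of_nonneg_right (phi_le _ _) (EE_nonneg _ _)
      _ ≤ _ := by rw [one_mul]; exact h4

/-- the radius of curvature as a function of the sine -/
noncomputable def rr (s1 κ cp cm s : ℝ) : ℝ :=
  phi s1 s * EE κ s + cp * psi s1 s + cm * psi s1 (-s)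

theorem rr_smooth {s1 : ℝ} (h0 : 0 < s1) (h1 : s1 < 1) (κ cp cm : ℝ) :
    ContDiff ℝ ∞ (rr s1 κ cp cm) := by
  unfold rr
  exact ((phiE_smooth h0 h1 κ).add (contDiff_const.mul (psi_smooth s1))).add
    (contDiff_const.mul ((psi_smooth s1).comp contDiff_neg))

theorem rr_pos {s1 : ℝ} (h0 : 0 < s1) (h1 : s1 < 1) (κ : ℝ) {cp cm : ℝ} (hp : 0 < cp)
    (hm : 0 < cm) (s : ℝ) : 0 < rr s1 κ cp cm s := by
  have a := phi_nonneg h0 h1 s
  have b := psi_nonneg s1 s
  have c := psi_nonneg s1 (-s)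
  have d := EE_nonneg κ s
  unfold rr
  rcases b.eq_or_lt with b' | b'
  · rcases c.eq_or_lt with c' | c'
    · have e : phi s1 s = 1 := by unfold phi; rw [← b', ← c']; ring
      have f : |s| < 1 := by
        by_contra hc
        rw [phi_zero h0 h1 (by linarith [not_lt.1 hc])] at e
        norm_num at e
      have := EE_pos κ f
      rw [e]; positivity
    · positivity
  · positivity

theorem rr_win {s1 : ℝ} (h1 : s1 < 1) (κ cp cm : ℝ) {γ : ℝ} (hc : 0 < cos γ)
    (hs : |sin γ| ≤ s1) : rr s1 κ cp cm (sin γ) = exp (-κ * tan γ) / cos γ ^ 3 := by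
  have := abs_le.1 hs
  unfold rr phi EE
  rw [psi_zero h1 this.2, psi_zero h1 (by linarith : -sin γ ≤ s1)]
  have e : √(1 - sin γ ^ 2) = cos γ := by
    rw [← cos_sq', sqrt_sq hc.le]
  rw [e, tan_eq_sin_div_cos]
  ring

theorem reduce (α : ℝ) : ∃ β : ℝ, -(π / 2) ≤ β ∧ β ≤ π / 2 ∧
    ∃ k : ℤ, α = β + k * (2 * π) ∨ α = (π - β) + k * (2 * π) := by
  refine ⟨arcsin (sin α), neg_pi_div_two_le_arcsin _, arcsin_le_pi_div_two _, ?_⟩
  have : sin (arcsin (sin α)) = sin α := sin_arcsin (neg_one_le_sin α) (sin_le_one α)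
  obtain ⟨k, h | h⟩ := sin_eq_sin_iff.1 this
  · exact ⟨k, Or.inl (by linarith)⟩
  · exact ⟨k, Or.inr (by linarith)⟩

theorem background_of {T s1 θ N : ℝ} {r : ℝ → ℝ} (hN : 0 < N) (hr : ContDiff ℝ ∞ r)
    (hpos : ∀ s, 0 < r s) (hθ : θ < π / 2) (hs1 : s1 = sin θ)
    (hT : ∀ β, -(π / 2) < β → β < π / 2 → |tan β| ≤ T → |β| ≤ θ)
    (hwin : ∀ γ, 0 < cos γ → |sin γ| ≤ s1 → r (sin γ) = exp (-(-1 / N) * tan γ) / cos γ ^ 3)
    (hp : ∫ β in (0 : ℝ)..(π / 2), r (sin β) * sin β = N ^ 2)
    (hm : ∫ β in (0 : ℝ)..(-(π / 2)), r (sin β) * sin β = N ^ 2)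
    (hl : N < ∫ s in (-1 : ℝ)..0, r s) :
    Background (-1 / N) T (fun α => N + ∫ s in (0 : ℝ)..(sin α), r s)
      (fun α => -N ^ 2 + ∫ β in (0 : ℝ)..α, r (sin β) * sin β) (fun α => r (sin α)) := by
  have hc : Continuous r := hr.continuous
  have hc2 : Continuous fun β => r (sin β) * sin β := by fun_prop
  set P₁ : ℝ → ℝ := fun α => N + ∫ s in (0 : ℝ)..(sin α), r s with hP₁
  set P₂ : ℝ → ℝ := fun α => -N ^ 2 + ∫ β in (0 : ℝ)..α, r (sin β) * sin β with hP₂
  have d1 : ∀ α, HasDerivAt P₁ (r (sin α) * cos α) α := fun α =>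
    (((hc.deriv_integral r 0 (sin α)) ▸
      (intervalIntegral.integral_hasDerivAt_right (hc.intervalIntegrable _ _)
        (hc.stronglyMeasurableAtFilter _ _) hc.continuousAt).differentiableAt.hasDerivAt).comp α
        (hasDerivAt_sin α)).const_add N
  have d2 : ∀ α, HasDerivAt P₂ (r (sin α) * sin α) α := fun α =>
    (intervalIntegral.integral_hasDerivAt_right (hc2.intervalIntegrable _ _)
        (hc2.stronglyMeasurableAtFilter _ _) hc2.continuousAt).const_add _
  have z1 : P₂ (π / 2) = 0 := by simp only [hP₂]; rw [hp]; ring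
  have z2 : P₂ (-(π / 2)) = 0 := by simp only [hP₂]; rw [hm]; ring
  have s1' : ∀ α, P₁ (π - α) = P₁ α := fun α => by simp only [hP₁, sin_pi_sub]
  have p1 : ∀ α, P₁ (α + 2 * π) = P₁ α := fun α => by simp only [hP₁, sin_add_two_pi]
  have s2 : ∀ α, P₂ (π - α) = -P₂ α := by
    intro α
    refine eq_of_deriv (f := fun α => P₂ (π - α)) (g := fun α => -P₂ α)
      (f' := fun α => -(r (sin α) * sin α)) (a := π / 2) (fun x _ => ?_) (fun x _ => (d2 x).neg) ?_
    · have := (d2 (π - x)).comp x ((hasDerivAt_id x).const_sub π)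
      refine this.congr_deriv ?_
      rw [sin_pi_sub]
      ring
    · show P₂ (π - π / 2) = -P₂ (π / 2)
      rw [show π - π / 2 = π / 2 by ring, z1]; simp
  have s3 : ∀ α, P₂ (-π - α) = -P₂ α := by
    intro α
    refine eq_of_deriv (f := fun α => P₂ (-π - α)) (g := fun α => -P₂ α)
      (f' := fun α => -(r (sin α) * sin α)) (a := -(π / 2)) (fun x _ => ?_)
      (fun x _ => (d2 x).neg) ?_
    · have := (d2 (-π - x)).comp x ((hasDerivAt_id x).const_sub (-π))
      have e : sin (-π - x) = sin x := by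
        rw [show -π - x = -(x + π) by ring, sin_neg, sin_add_pi, neg_neg]
      refine this.congr_deriv ?_
      rw [e]
      ring
    · show P₂ (-π - -(π / 2)) = -P₂ (-(π / 2))
      rw [show -π - -(π / 2) = -(π / 2) by ring, z2]; simp
  have p2 : ∀ α, P₂ (α + 2 * π) = P₂ α := by
    intro α
    rw [show α + 2 * π = π - (-π - α) by ring, s2, s3, neg_neg]
  have q1 : ∀ (α : ℝ) (k : ℤ), P₁ (α + k * (2 * π)) = P₁ α := fun α k =>
    (Function.Periodic.int_mul (f := P₁) p1 k) α
  have q2 : ∀ (α : ℝ) (k : ℤ), P₂ (α + k * (2 * π)) = P₂ α := fun α k =>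
    (Function.Periodic.int_mul (f := P₂) p2 k) α
  have l1 : P₁ (-(π / 2)) < 0 := by
    simp only [hP₁, sin_neg, sin_pi_div_two]
    rw [intervalIntegral.integral_symm]
    linarith
  have l2 : 0 < P₁ (π / 2) := by
    simp only [hP₁, sin_pi_div_two]
    have : 0 ≤ ∫ s in (0 : ℝ)..1, r s :=
      intervalIntegral.integral_nonneg zero_le_one fun s _ => (hpos s).le
    linarith
  have dk : ∀ α β, HasDerivAt (fun β => P₁ β * sin α - P₂ β * cos α)
      (r (sin β) * sin (α - β)) β := by
    intro α β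
    refine (((d1 β).mul_const (sin α)).sub ((d2 β).mul_const (cos α))).congr_deriv ?_
    rw [sin_sub]; ring
  have hh : ∀ α, -(π / 2) ≤ α → α ≤ π / 2 → 0 < P₁ α * sin α - P₂ α * cos α := by
    intro α a b
    rcases lt_trichotomy α 0 with h | h | h
    · have mono : MonotoneOn (fun β => P₁ β * sin α - P₂ β * cos α) (Icc (-(π / 2)) α) := by
        refine monotoneOn_of_deriv_nonneg (convex_Icc _ _)
          (fun x _ => (dk α x).continuousAt.continuousWithinAt)
          (fun x _ => (dk α x).differentiableAt.differentiableWithinAt) fun x hx => ?_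
        rw [interior_Icc] at hx
        rw [(dk α x).deriv]
        exact mul_nonneg (hpos _).le
          (sin_nonneg_of_nonneg_of_le_pi (by linarith [hx.2]) (by linarith [hx.1, pi_pos]))
      have := mono (left_mem_Icc.2 a) (right_mem_Icc.2 a) a
      simp only [z2] at this
      have hs : sin α < 0 := sin_neg_of_neg_of_neg_pi_lt h (by linarith [pi_pos])
      nlinarith
    · subst h
      simp only [hP₂, sin_zero, cos_zero, intervalIntegral.integral_same]
      nlinarith
    · have anti : AntitoneOn (fun β => P₁ β * sin α - P₂ β * cos α) (Icc α (π / 2)) := by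
        refine antitoneOn_of_deriv_nonpos (convex_Icc _ _)
          (fun x _ => (dk α x).continuousAt.continuousWithinAt)
          (fun x _ => (dk α x).differentiableAt.differentiableWithinAt) fun x hx => ?_
        rw [interior_Icc] at hx
        rw [(dk α x).deriv]
        exact mul_nonpos_of_nonneg_of_nonpos (hpos _).le
          (sin_nonpos_of_nonpos_of_neg_pi_le (by linarith [hx.1]) (by linarith [hx.2, pi_pos]))
      have := anti (left_mem_Icc.2 b) (right_mem_Icc.2 b) b
      simp only [z1] at this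
      have hs : 0 < sin α := sin_pos_of_pos_of_lt_pi h (by linarith [pi_pos])
      nlinarith
  refine ⟨by have : (0 : ℝ) < 1 / N := by positivity
             rw [neg_div]; linarith, hr.comp contDiff_sin, d1, d2, fun α => hpos _, ?_, s1', s2,
    p1, p2, ?_⟩
  · intro α
    obtain ⟨β, a, b, k, h | h⟩ := reduce α
    · rw [h, q1, q2, sin_add_int_mul_two_pi, cos_add_int_mul_two_pi]
      exact hh β a b
    · rw [h, q1, q2, sin_add_int_mul_two_pi, cos_add_int_mul_two_pi, s1', s2, sin_pi_sub,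
        cos_pi_sub]
      have := hh β a b
      linarith
  · intro α hcα hT'
    obtain ⟨β, a, b, k, h | h⟩ := reduce α
    swap
    · rw [h, cos_add_int_mul_two_pi, cos_pi_sub] at hcα
      have := cos_nonneg_of_neg_pi_div_two_le_of_le a b
      linarith
    have ht : tan α = tan β := by
      rw [h, tan_eq_sin_div_cos, tan_eq_sin_div_cos, sin_add_int_mul_two_pi,
        cos_add_int_mul_two_pi]
    rw [ht] at hT' ⊢
    rw [h, cos_add_int_mul_two_pi] at hcα
    rw [h, q1, q2]
    have a' : -(π / 2) < β := by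
      rcases a.eq_or_lt with e | e
      · rw [← e] at hcα; simp at hcα
      · exact e
    have b' : β < π / 2 := by
      rcases b.eq_or_lt with e | e
      · rw [e] at hcα; simp at hcα
      · exact e
    have hβ := abs_le.1 (hT β a' b' hT')
    have hγ : ∀ γ ∈ uIcc 0 β, 0 < cos γ ∧ |sin γ| ≤ s1 := by
      intro γ hγ
      have g1 : -θ ≤ γ ∧ γ ≤ θ := by
        rcases mem_uIcc.1 hγ with g | g <;> constructor <;> linarith [g.1, g.2, hβ.1, hβ.2]
      refine ⟨cos_pos_of_mem_Ioo ⟨by linarith [g1.1], by linarith [g1.2]⟩, ?_⟩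
      rw [hs1, abs_le, ← sin_neg]
      exact ⟨sin_le_sin_of_le_of_le_pi_div_two (by linarith) (by linarith [g1.2]) g1.1,
        sin_le_sin_of_le_of_le_pi_div_two (by linarith [g1.1]) hθ.le g1.2⟩
    have de : ∀ γ, 0 < cos γ → HasDerivAt (fun γ => exp (-(-1 / N) * tan γ))
        (exp (-(-1 / N) * tan γ) * (-(-1 / N) * (1 / cos γ ^ 2))) γ := fun γ hγ =>
      ((hasDerivAt_tan hγ.ne').const_mul _).exp
    constructor
    · refine eq_of_deriv (f := P₁) (g := fun γ => -exp (-(-1 / N) * tan γ) / (-1 / N))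
        (f' := fun γ => r (sin γ) * cos γ) (a := 0) (fun x _ => d1 x) (fun x hx => ?_) ?_
      · obtain ⟨c1, c2⟩ := hγ x hx
        rw [hwin x c1 c2]
        refine (((de x c1).neg).div_const (-1 / N)).congr_deriv ?_
        field_simp
      · simp only [hP₁, sin_zero, intervalIntegral.integral_same, tan_zero, mul_zero, exp_zero]
        field_simp
        ring
    · refine eq_of_deriv (f := P₂)
        (g := fun γ => -exp (-(-1 / N) * tan γ) * (tan γ / (-1 / N) + 1 / (-1 / N) ^ 2))
        (f' := fun γ => r (sin γ) * sin γ) (a := 0) (fun x _ => d2 x) (fun x hx => ?_) ?_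
      · obtain ⟨c1, c2⟩ := hγ x hx
        rw [hwin x c1 c2]
        refine (((de x c1).neg).mul (((hasDerivAt_tan c1.ne').div_const (-1 / N)).add_const
          (1 / (-1 / N) ^ 2))).congr_deriv ?_
        simp only [Pi.neg_apply, tan_eq_sin_div_cos]
        field_simp
        ring
      · simp only [hP₂, intervalIntegral.integral_same, tan_zero, mul_zero, exp_zero]
        field_simp
        ring

end Bg

open Bg in
theorem exists_background (T : ℝ) : ∃ (κ : ℝ) (P₁ P₂ R : ℝ → ℝ), Background κ T P₁ P₂ R := by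
  set θ := arctan (|T| + 1) with hθ
  have θ0 : 0 < θ := arctan_pos.2 (by positivity)
  have θ1 : θ < π / 2 := arctan_lt_pi_div_two _
  set s1 := sin θ with hs1
  have h0 : 0 < s1 := sin_pos_of_pos_of_lt_pi θ0 (by linarith [pi_pos])
  have h1 : s1 < 1 := by
    rw [hs1, ← sin_pi_div_two]
    exact sin_lt_sin_of_lt_of_le_pi_div_two (by linarith [pi_pos]) le_rfl θ1
  obtain ⟨M, hM0, hM⟩ := phiE_bound h0 h1
  have hδ : 0 < (1 - s1) / 2 := by linarith
  set δ := (1 - s1) / 2 with hδe
  set N := 1 + 2 * M + 2 / δ with hN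
  have hδ' : 0 < 2 / δ := by positivity
  have N1 : 1 ≤ N := by linarith
  have hκ : |(-1 / N : ℝ)| ≤ 1 := by
    rw [abs_div, abs_neg, abs_one, abs_of_pos (by linarith)]
    exact (div_le_one (by linarith)).2 N1
  have cψ : Continuous (psi s1) := (psi_smooth s1).continuous
  have cE : Continuous fun s => phi s1 s * EE (-1 / N) s := (phiE_smooth h0 h1 _).continuous
  set a := ∫ β in (0 : ℝ)..(π / 2), psi s1 (sin β) * sin β with ha
  have pi2 : π / 2 ≤ 2 := by linarith [pi_le_four]
  have sn : ∀ β ∈ Icc (0 : ℝ) (π / 2), 0 ≤ sin β := fun β hβ =>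
    sin_nonneg_of_nonneg_of_le_pi hβ.1 (by linarith [hβ.2, pi_pos])
  have a0 : 0 < a := by
    refine intervalIntegral.integral_pos (by positivity) (by fun_prop)
      (fun β hβ => mul_nonneg (psi_nonneg _ _) (sn β ⟨hβ.1.le, hβ.2⟩)) ⟨π / 2, ?_, ?_⟩
    · exact right_mem_Icc.2 (by positivity)
    · rw [sin_pi_div_two, psi_one h1 (by linarith)]; norm_num
  have bd : ∀ (f : ℝ → ℝ) (C : ℝ), Continuous f → 0 ≤ C → (∀ β, f β ≤ C) →
      ∫ β in (0 : ℝ)..(π / 2), f β * sin β ≤ 2 * C := by
    intro f C hf hC h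
    calc _ ≤ ∫ _ in (0 : ℝ)..(π / 2), C := by
          refine intervalIntegral.integral_mono_on (by positivity)
            ((hf.mul continuous_sin).intervalIntegrable _ _) (by simp) fun β hβ => ?_
          calc f β * sin β ≤ C * sin β := mul_le_mul_of_nonneg_right (h β) (sn β hβ)
            _ ≤ C * 1 := mul_le_mul_of_nonneg_left (sin_le_one β) hC
            _ = C := mul_one C
      _ = π / 2 * C := by simp
      _ ≤ 2 * C := mul_le_mul_of_nonneg_right pi2 hC
  have a2 : a ≤ 2 * 1 := bd (fun β => psi s1 (sin β)) 1 (by fun_prop) zero_le_one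
    fun β => psi_le _ _
  set Ip := ∫ β in (0 : ℝ)..(π / 2), (phi s1 (sin β) * EE (-1 / N) (sin β)) * sin β with hIp
  set Im := ∫ β in (0 : ℝ)..(π / 2), (phi s1 (-sin β) * EE (-1 / N) (-sin β)) * sin β with hIm
  have Ip2 : Ip ≤ 2 * M := bd (fun β => phi s1 (sin β) * EE (-1 / N) (sin β)) M
    (cE.comp continuous_sin) hM0 fun β => hM _ hκ _
  have Im2 : Im ≤ 2 * M := bd (fun β => phi s1 (-sin β) * EE (-1 / N) (-sin β)) M
    (cE.comp continuous_sin.neg) hM0 fun β => hM _ hκ _
  have big : 2 * M + N * (2 / δ) < N ^ 2 := by nlinarith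
  have Nδ : 0 < N * (2 / δ) := by positivity
  have hcp : 0 < (N ^ 2 - Ip) / a := div_pos (by linarith) a0
  have hcm : 0 < (N ^ 2 - Im) / a := div_pos (by linarith) a0
  set cp := (N ^ 2 - Ip) / a with hcpe
  set cm := (N ^ 2 - Im) / a with hcme
  refine ⟨_, _, _, _, background_of (T := T) (s1 := s1) (θ := θ) (N := N)
    (r := rr s1 (-1 / N) cp cm) (by linarith) (rr_smooth h0 h1 _ _ _) (rr_pos h0 h1 _ hcp hcm)
    θ1 hs1 ?_ (fun γ c1 c2 => rr_win h1 _ _ _ c1 c2) ?_ ?_ ?_⟩
  · intro β b1 b2 hT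
    have := abs_le.1 hT
    have hT' := le_abs_self T
    rw [← arctan_tan b1 b2, abs_le, hθ, ← arctan_neg]
    exact ⟨arctan_strictMono.monotone (by linarith), arctan_strictMono.monotone (by linarith)⟩
  · have e : ∫ β in (0 : ℝ)..(π / 2), rr s1 (-1 / N) cp cm (sin β) * sin β =
        ∫ β in (0 : ℝ)..(π / 2), ((phi s1 (sin β) * EE (-1 / N) (sin β)) * sin β +
          cp * (psi s1 (sin β) * sin β)) := by
      refine intervalIntegral.integral_congr fun β hβ => ?_
      rw [uIcc_of_le (by positivity)] at hβ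
      have := sn β hβ
      simp only [rr]
      rw [psi_zero h1 (by linarith : -sin β ≤ s1)]
      ring
    have c1 : Continuous fun β => (phi s1 (sin β) * EE (-1 / N) (sin β)) * sin β :=
      (cE.comp continuous_sin).mul continuous_sin
    have c2 : Continuous fun β => cp * (psi s1 (sin β) * sin β) := by fun_prop
    rw [e, intervalIntegral.integral_add (c1.intervalIntegrable _ _) (c2.intervalIntegrable _ _),
      intervalIntegral.integral_const_mul,
      ← hIp, ← ha, hcpe]
    field_simp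
    ring
  · have e0 : ∫ β in (0 : ℝ)..(-(π / 2)), rr s1 (-1 / N) cp cm (sin β) * sin β =
        ∫ β in (0 : ℝ)..(π / 2), rr s1 (-1 / N) cp cm (-sin β) * sin β := by
      have := intervalIntegral.integral_comp_neg (a := 0) (b := π / 2)
        (fun β => rr s1 (-1 / N) cp cm (sin β) * sin β)
      simp only [sin_neg, mul_neg, intervalIntegral.integral_neg, neg_zero] at this
      rw [intervalIntegral.integral_symm, ← this, neg_neg]
    have e : ∫ β in (0 : ℝ)..(π / 2), rr s1 (-1 / N) cp cm (-sin β) * sin β =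
        ∫ β in (0 : ℝ)..(π / 2), ((phi s1 (-sin β) * EE (-1 / N) (-sin β)) * sin β +
          cm * (psi s1 (sin β) * sin β)) := by
      refine intervalIntegral.integral_congr fun β hβ => ?_
      rw [uIcc_of_le (by positivity)] at hβ
      have := sn β hβ
      simp only [rr]
      rw [psi_zero h1 (by linarith : -sin β ≤ s1), neg_neg]
      ring
    have c1 : Continuous fun β => (phi s1 (-sin β) * EE (-1 / N) (-sin β)) * sin β :=
      (cE.comp continuous_sin.neg).mul continuous_sin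
    have c2 : Continuous fun β => cm * (psi s1 (sin β) * sin β) := by fun_prop
    rw [e0, e, intervalIntegral.integral_add (c1.intervalIntegrable _ _)
      (c2.intervalIntegrable _ _), intervalIntegral.integral_const_mul,
      ← hIm, ← ha, hcme]
    field_simp
    ring
  · have cr : Continuous (rr s1 (-1 / N) cp cm) := (rr_smooth h0 h1 _ _ _).continuous
    have e1 : ∫ s in (-1 : ℝ)..0, rr s1 (-1 / N) cp cm s =
        (∫ s in (-1 : ℝ)..(-1 + δ), rr s1 (-1 / N) cp cm s) +
          ∫ s in (-1 + δ)..0, rr s1 (-1 / N) cp cm s :=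
      (intervalIntegral.integral_add_adjacent_intervals (cr.intervalIntegrable _ _)
        (cr.intervalIntegrable _ _)).symm
    have e2 : 0 ≤ ∫ s in (-1 + δ)..0, rr s1 (-1 / N) cp cm s :=
      intervalIntegral.integral_nonneg (by linarith) fun s _ => (rr_pos h0 h1 _ hcp hcm s).le
    have e3 : ∫ _ in (-1 : ℝ)..(-1 + δ), cm ≤ ∫ s in (-1 : ℝ)..(-1 + δ), rr s1 (-1 / N) cp cm s := by
      refine intervalIntegral.integral_mono_on (by linarith) (by simp)
        (cr.intervalIntegrable _ _) fun s hs => ?_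
      unfold rr
      rw [psi_one h1 (by linarith [hs.2] : (1 + s1) / 2 ≤ -s)]
      have := mul_nonneg (phi_nonneg h0 h1 s) (EE_nonneg (-1 / N) s)
      have := mul_nonneg hcp.le (psi_nonneg s1 s)
      linarith
    rw [intervalIntegral.integral_const, smul_eq_mul] at e3
    have e4 : N < δ * cm := by
      rw [hcme, ← mul_div_assoc, lt_div_iff₀ a0]
      have e5 : δ * (N * (2 / δ)) = 2 * N := by field_simp
      have e6 : δ * (N * (2 / δ)) < δ * (N ^ 2 - Im) := mul_lt_mul_of_pos_left (by linarith) hδ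
      nlinarith
    have e7 : (-1 + δ - -1) * cm = δ * cm := by ring
    linarith

end Pool.Agent.H238Z.Uni
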