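import Pool.Agent.H238Z.Uni.Sm

/-!
Smooth solutions of a causal functional equation.
-/

open Set Real Filter Topology Metric
open scoped ContDiff

namespace Pool.Agent.H238Z.Uni

/-- The interval `[-1, 1]`. -/
abbrev S1 := Icc (-1 : ℝ) 1

/-- The memory interval `[-4, 0]`. -/
abbrev I4 := Icc (-4 : ℝ) 0

/-- Continuous functions on `[-1, 1]`. -/
abbrev AA := C(S1, ℝ)

/-- Continuous functions on `[-4, 0]`. -/
abbrev EE := C(I4, ℝ)

theorem h11 : (-1 : ℝ) ≤ 1 := by norm_num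

theorem h40 : (-4 : ℝ) ≤ 0 := by norm_num

/-- The recent past of `g` at time `Y`. -/
noncomputable def tr (g : ℝ → ℝ) (Y : ℝ) : EE := ContinuousMap.mkD (fun ξ : I4 => g (Y + ξ)) 0

theorem tr_apply {g : ℝ → ℝ} (hg : Continuous g) (Y : ℝ) (ξ : I4) : tr g Y ξ = g (Y + ξ) :=
  ContinuousMap.mkD_apply_of_continuous (f := fun ξ : I4 => g (Y + ξ)) (by fun_prop)

/-- The pasts of a function on `[-1, 1]`. -/
noncomputable def iota : AA →L[ℝ] C(S1, EE) :=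
  mk2 (fun g Y ξ => ext h11 g (Y + ξ))
    (fun g => (continuous_ext h11 g).comp (by fun_prop)) (fun _ _ _ _ => rfl) (fun _ _ _ _ => rfl)
    1 zero_le_one (fun g Y ξ => by rw [one_mul]; exact norm_ext_le h11 g _)

theorem iota_eq (g : AA) (Y : S1) : iota g Y = tr (ext h11 g) Y := by
  ext ξ
  rw [tr_apply (continuous_ext h11 g)]
  rfl

theorem causal_zero {d : ℝ → ℝ} {c M : ℝ} (hM : ∀ x, |d x| ≤ M)
    (h : ∀ Y ≤ c, ∀ m, (∀ x ≤ Y, |d x| ≤ m) → |d Y| ≤ m / 2) : ∀ x ≤ c, d x = 0 := by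
  have h1 : ∀ k : ℕ, ∀ x ≤ c, |d x| ≤ M * (1 / 2) ^ k := by
    intro k
    induction k with
    | zero => intro x _; simpa using hM x
    | succ k ih =>
      intro x hx
      have := h x hx _ fun y hy => ih y (hy.trans hx)
      calc _ ≤ _ := this
        _ = _ := by ring
  intro x hx
  have ht : Tendsto (fun k : ℕ => M * (1 / 2 : ℝ) ^ k) atTop (𝓝 (M * 0)) :=
    (tendsto_pow_atTop_nhds_zero_of_lt_one (by norm_num) (by norm_num)).const_mul M
  have := ge_of_tendsto' ht fun k => h1 k x hx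
  rw [mul_zero] at this
  exact abs_nonpos_iff.1 this

theorem norm_tr_sub_le {g₁ g₂ : ℝ → ℝ} (h₁ : Continuous g₁) (h₂ : Continuous g₂) {Y₁ Y₂ m : ℝ}
    (h : ∀ ξ ≤ 0, |g₁ (Y₁ + ξ) - g₂ (Y₂ + ξ)| ≤ m) : ‖tr g₁ Y₁ - tr g₂ Y₂‖ ≤ m := by
  refine (ContinuousMap.norm_le _ ((abs_nonneg _).trans (h 0 le_rfl))).2 fun ξ => ?_
  rw [ContinuousMap.sub_apply, tr_apply h₁, tr_apply h₂]
  exact h _ ξ.2.2

theorem tr_zero (Y : ℝ) : tr (fun _ => 0) Y = 0 := by
  ext ξ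
  rw [tr_apply continuous_const]
  rfl

theorem norm_tr_le {g : ℝ → ℝ} (h₁ : Continuous g) {Y m : ℝ}
    (h : ∀ ξ ≤ 0, |g (Y + ξ)| ≤ m) : ‖tr g Y‖ ≤ m := by
  have := norm_tr_sub_le (g₂ := fun _ => 0) (Y₁ := Y) (Y₂ := Y) (m := m) h₁ continuous_const
    (by simpa using h)
  rwa [tr_zero, sub_zero] at this

theorem exists_lipschitz {n : ℝ × ℝ × EE → ℝ} (hs : ∀ Y, Sm n (0, Y, 0))
    (hd : ∀ Y, HasFDerivAt (fun e => n (0, Y, e)) (0 : EE →L[ℝ] ℝ) 0) :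
    ∃ δ > 0, ∀ ε Y : ℝ, |ε| < δ → |Y| ≤ 3 → (∀ e : EE, ‖e‖ < δ → ContinuousAt n (ε, Y, e)) ∧
      ∀ e₁ e₂ : EE, ‖e₁‖ < δ → ‖e₂‖ < δ → |n (ε, Y, e₁) - n (ε, Y, e₂)| ≤ 1 / 2 * ‖e₁ - e₂‖ := by
  let L : EE →L[ℝ] ℝ × ℝ × EE :=
    (ContinuousLinearMap.inr ℝ ℝ (ℝ × EE)).comp (ContinuousLinearMap.inr ℝ ℝ EE)
  have hL : ∀ (ε Y : ℝ) (e : EE), HasFDerivAt (fun e : EE => ((ε, Y, e) : ℝ × ℝ × EE)) L e :=
    fun ε Y e => (hasFDerivAt_prodMk_right ε (Y, e)).comp e (hasFDerivAt_prodMk_right Y e)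
  let u : C(Icc (-3 : ℝ) 3, ℝ × ℝ × EE) := ⟨fun Y => (0, (Y : ℝ), 0), by fun_prop⟩
  have hev : ∀ k, ∀ᶠ x in 𝓝 (u k), DifferentiableAt ℝ n x ∧ ‖fderiv ℝ n x ∘L L‖ ≤ 1 / 2 := by
    intro k
    have h1 : fderiv ℝ n (u k) ∘L L = 0 :=
      HasFDerivAt.unique ((hs k).diff.hasFDerivAt.comp (0 : EE) (hL 0 k 0)) (hd k)
    have h2 : ContinuousAt (fun x => ‖fderiv ℝ n x ∘L L‖) (u k) :=
      ((hs k).fderiv.cont.clm_comp continuousAt_const).norm
    have h3 : ∀ᶠ x in 𝓝 (u k), ‖fderiv ℝ n x ∘L L‖ ≤ 1 / 2 :=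
      h2.eventually (ge_mem_nhds (by
        simp only [h1]; rw [ContinuousLinearMap.opNorm_zero]; norm_num))
    filter_upwards [hs k, h3] with x a1 a2 using ⟨a1.differentiableAt (by simp), a2⟩
  obtain ⟨δ, hδ, H⟩ := eventually_mapsTo hev
  refine ⟨δ, hδ, fun ε Y hε hY => ?_⟩
  have H' : ∀ e : EE, ‖e‖ < δ → DifferentiableAt ℝ n (ε, Y, e) ∧
      ‖fderiv ℝ n (ε, Y, e) ∘L L‖ ≤ 1 / 2 := fun e he => by
    refine H ⟨Y, abs_le.1 hY⟩ _ ?_
    simp only [mem_ball, u, ContinuousMap.coe_mk, Prod.dist_eq, dist_self, dist_zero_right]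
    exact max_lt hε (max_lt hδ he)
  refine ⟨fun e he => (H' e he).1.continuousAt, fun e₁ e₂ h₁ h₂ => ?_⟩
  exact (convex_ball (0 : EE) δ).norm_image_sub_le_of_norm_hasFDerivWithin_le
    (f := fun e => n (ε, Y, e)) (f' := fun e => fderiv ℝ n (ε, Y, e) ∘L L)
    (fun e he => (((H' e (by simpa using he)).1.hasFDerivAt.comp e (hL ε Y e))).hasFDerivWithinAt)
    (fun e he => (H' e (by simpa using he)).2) (by simpa using h₂) (by simpa using h₁)

/-- The identity function on `[-1, 1]`. -/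
noncomputable def sg : AA := ⟨fun σ => (σ : ℝ), by fun_prop⟩

@[simp] theorem sg_apply (σ : S1) : sg σ = σ := rfl

/-- The arguments of the functional along `[-1, 1]`. -/
noncomputable def arg (p : (ℝ × ℝ) × AA) : C(S1, ℝ × ℝ × EE) :=
  prodC S1 ℝ (ℝ × EE) (constC S1 ℝ p.1.1, prodC S1 ℝ EE (sg - constC S1 ℝ p.1.2, iota p.2))

theorem arg_apply (p : (ℝ × ℝ) × AA) (Y : S1) :
    arg p Y = (p.1.1, (Y : ℝ) - p.1.2, tr (ext h11 p.2) Y) := by
  simp [arg, iota_eq]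

theorem contDiff_arg : ContDiff ℝ ∞ arg := by
  unfold arg
  fun_prop

theorem exists_family {n : ℝ × ℝ × EE → ℝ} (hs : ∀ Y, Sm n (0, Y, 0))
    (h0 : ∀ Y, n (0, Y, 0) = 0)
    (hd : ∀ Y, HasFDerivAt (fun e => n (0, Y, e)) (0 : EE →L[ℝ] ℝ) 0) :
    ∃ φ : ℝ × ℝ → AA, φ 0 = 0 ∧ Sm φ 0 ∧ ∀ᶠ x in 𝓝 0, φ x + om n (arg (x, φ x)) = 0 := by
  have ha0 : ∀ Y : S1, arg (0, 0) Y = (0, (Y : ℝ), 0) := fun Y => by simp [arg]
  have hsm : Sm (om n) (arg (0, 0)) := sm_om fun Y => by rw [ha0]; exact hs _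
  have hF : Sm (fun p : (ℝ × ℝ) × AA => p.2 + om n (arg p)) (0, 0) :=
    (sm_of_contDiff contDiff_snd _).add (hsm.comp (sm_of_contDiff contDiff_arg _) rfl)
  let LA : AA →L[ℝ] C(S1, ℝ × ℝ × EE) :=
    mkCLM (fun g Y => (0, 0, iota g Y)) (fun g => by fun_prop) (fun x y k => by simp)
      (fun c x k => by simp) 1 zero_le_one (fun g Y => by
        have : ‖iota g Y‖ ≤ ‖g‖ :=
          (ContinuousMap.norm_le _ (norm_nonneg g)).2 fun ξ => norm_ext_le h11 g _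
        simpa [Prod.norm_def] using this)
  have hA : HasFDerivAt (fun g : AA => arg (0, g)) LA 0 := by
    have h1 : HasFDerivAt (fun g : AA => arg (0, 0) + LA g) LA 0 :=
      hasFDerivAt_affine (X := AA) (Y := C(S1, ℝ × ℝ × EE)) LA (arg (0, 0)) 0
    refine h1.congr_of_eventuallyEq (Eventually.of_forall fun g => ?_)
    ext Y : 1
    simp [arg, LA]
  have h1 : ∀ Y : S1, ContDiffAt ℝ 1 n (arg (0, 0) Y) := fun Y => by
    rw [ha0]; exact (hs _).at.of_le (by simp)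
  obtain ⟨D, h2, hD⟩ := hasFDerivAt_om_comp hA h1
  have h3 : D = 0 := by
    ext g Y
    have hL : HasFDerivAt (fun e : EE => (((0 : ℝ), (Y : ℝ), e) : ℝ × ℝ × EE))
        ((ContinuousLinearMap.inr ℝ ℝ (ℝ × EE)).comp (ContinuousLinearMap.inr ℝ ℝ EE)) 0 :=
      (hasFDerivAt_prodMk_right (0 : ℝ) ((Y : ℝ), (0 : EE))).comp (0 : EE)
        (hasFDerivAt_prodMk_right (Y : ℝ) (0 : EE))
    have h4 := HasFDerivAt.unique ((hs Y).diff.hasFDerivAt.comp (0 : EE) hL) (hd Y)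
    have h5 := congrArg (fun T : EE →L[ℝ] ℝ => T (iota g Y)) h4
    rw [hD, ha0]
    simpa [LA] using h5
  rw [h3] at h2
  obtain ⟨φ, a1, a2, a3⟩ := exists_implicit hF (by
    have := (hasFDerivAt_id (0 : AA)).add h2
    rw [add_zero] at this
    exact this)
  refine ⟨φ, a1, a2, a3.mono fun x hx => hx.trans ?_⟩
  ext Y
  simp only [ContinuousMap.add_apply, ContinuousMap.zero_apply, zero_add]
  rw [om_apply fun Y => (h1 Y).continuousAt, ha0, h0]

theorem causal_solve {n : ℝ × ℝ × EE → ℝ} (hs : ∀ Y, Sm n (0, Y, 0))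
    (h0 : ∀ Y, n (0, Y, 0) = 0)
    (hd : ∀ Y, HasFDerivAt (fun e => n (0, Y, e)) (0 : EE →L[ℝ] ℝ) 0)
    (hc : ∀ ε Y, Y ≤ 0 → n (ε, Y, 0) = 0) {r : ℝ} (hr : 0 < r) :
    ∃ ε : ℝ, ε ≠ 0 ∧ ∃ g : ℝ → ℝ, ContDiff ℝ ∞ g ∧ (∀ x ≤ 0, g x = 0) ∧ (∀ x, |g x| ≤ r) ∧
      ∀ Y ≤ 3 / 4, g Y + n (ε, Y, tr g Y) = 0 := by
  obtain ⟨δ₁, hδ₁, HL⟩ := exists_lipschitz hs hd
  obtain ⟨φ, a1, a2, a3⟩ := exists_family hs h0 hd
  have a4 : ∀ᶠ x in 𝓝 (0 : ℝ × ℝ), ‖φ x‖ < min r δ₁ :=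
    a2.cont.norm.eventually (gt_mem_nhds (by simp [a1, hr, hδ₁]))
  obtain ⟨δ₂, hδ₂, H⟩ := Metric.eventually_nhds_iff_ball.1 (a2.and (a3.and a4))
  set δ := min (min δ₁ δ₂) 1 with hδdef
  have hδ : 0 < δ := by positivity
  have hδa : δ ≤ δ₁ := (min_le_left _ _).trans (min_le_left _ _)
  have hδb : δ ≤ δ₂ := (min_le_left _ _).trans (min_le_right _ _)
  have hδc : δ ≤ 1 := min_le_right _ _
  set ε := δ / 2 with hε
  have hεa : |ε| < δ := by rw [abs_of_pos (half_pos hδ)]; exact half_lt_self hδ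
  have Hb : ∀ l : ℝ, |l| < δ → (ε, l) ∈ ball (0 : ℝ × ℝ) δ₂ := fun l hl => by
    simp only [mem_ball, dist_zero_right, Prod.norm_def, Real.norm_eq_abs]
    exact max_lt (hεa.trans_le hδb) (hl.trans_le hδb)
  let gg : ℝ → ℝ → ℝ := fun l => ext h11 (φ (ε, l))
  have gc : ∀ l, Continuous (gg l) := fun l => continuous_ext _ _
  have gb : ∀ l, |l| < δ → ∀ x, |gg l x| < min r δ₁ := fun l hl x =>
    (norm_ext_le h11 _ x).trans_lt (H _ (Hb l hl)).2.2
  have gt : ∀ l, |l| < δ → ∀ Y, ‖tr (gg l) Y‖ < δ₁ := fun l hl Y =>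
    (norm_tr_le (gc l) fun ξ _ => norm_ext_le h11 (φ (ε, l)) (Y + ξ)).trans_lt
      ((H _ (Hb l hl)).2.2.trans_le (min_le_right _ _))
  have hY3 : ∀ l Y : ℝ, |l| < δ → Y ∈ S1 → |Y - l| ≤ 3 := fun l Y hl hY => by
    have := abs_lt.1 hl
    rw [abs_le]; constructor <;> linarith [hY.1, hY.2]
  have geq : ∀ l, |l| < δ → ∀ Y ∈ S1, gg l Y = -n (ε, Y - l, tr (gg l) Y) := by
    intro l hl Y hY
    have h1 := congrArg (fun Φ : AA => Φ ⟨Y, hY⟩) (H _ (Hb l hl)).2.1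
    simp only [ContinuousMap.add_apply, ContinuousMap.zero_apply] at h1
    rw [om_apply fun Y => by
      rw [arg_apply]
      exact (HL _ _ (hεa.trans_le hδa) (hY3 l Y hl Y.2)).1 _ (gt l hl Y), arg_apply] at h1
    have h2 : gg l Y = φ (ε, l) ⟨Y, hY⟩ := ext_of_mem h11 _ hY
    rw [h2]
    exact eq_neg_of_add_eq_zero_left h1
  have gz : ∀ l, |l| < δ → ∀ x ≤ l, gg l x = 0 := by
    intro l hl
    have hl' := abs_lt.1 hl
    refine causal_zero (fun x => (gb l hl x).le) fun Y hY m hm => ?_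
    have e1 : ∀ x ≤ -1, gg l x = gg l (-1) := fun x hx => by
      simp only [gg, ext]
      rw [projIcc_of_le_left _ hx, projIcc_left]
    have hY' : max Y (-1) ∈ S1 := ⟨le_max_right _ _, max_le (by linarith) h11⟩
    have e2 : gg l Y = gg l (max Y (-1)) := by
      rcases le_total Y (-1) with h | h
      · rw [max_eq_right h, e1 Y h]
      · rw [max_eq_left h]
    have e3 : ∀ x ≤ max Y (-1), |gg l x| ≤ m := fun x hx => by
      rcases le_total Y (-1) with h | h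
      · rw [max_eq_right h] at hx
        rw [e1 x hx, ← e1 Y h]; exact hm Y le_rfl
      · rw [max_eq_left h] at hx; exact hm x hx
    have e4 := (HL _ _ (hεa.trans_le hδa) (hY3 l _ hl hY')).2 _ 0 (gt l hl (max Y (-1)))
      (by simpa using hδ₁)
    rw [hc ε _ (sub_nonpos.2 (max_le hY (by linarith))), sub_zero, sub_zero] at e4
    have e5 : ‖tr (gg l) (max Y (-1))‖ ≤ m := norm_tr_le (gc l) fun ξ hξ => e3 _ (by linarith)
    rw [e2, geq l hl _ hY', abs_neg]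
    linarith
  have h00 : |(0 : ℝ)| < δ := by simpa using hδ
  have gs : ∀ l, |l| < δ → ∀ Y ≤ 1 - |l|, gg l Y - gg 0 (Y - l) = 0 := by
    intro l hl
    have hl' := abs_lt.1 hl
    refine causal_zero (M := 2 * min r δ₁) (fun x => (abs_sub _ _).trans (by
      linarith [gb l hl x, gb 0 h00 (x - l)])) fun Y hY m hm => ?_
    have hm0 : 0 ≤ m := (abs_nonneg _).trans (hm Y le_rfl)
    rcases le_or_gt Y l with h | h
    · rw [gz l hl Y h, gz 0 h00 _ (sub_nonpos.2 h)]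
      simpa using div_nonneg hm0 zero_le_two
    · have hY1 : Y ∈ S1 := ⟨by linarith, by linarith [abs_nonneg l]⟩
      have hY2 : Y - l ∈ S1 := ⟨by linarith, by linarith [neg_abs_le l]⟩
      have e4 := (HL _ _ (hεa.trans_le hδa) (hY3 l _ hl hY1)).2 _ _ (gt l hl Y)
        (gt 0 h00 (Y - l))
      have e5 : ‖tr (gg l) Y - tr (gg 0) (Y - l)‖ ≤ m :=
        norm_tr_sub_le (gc l) (gc 0) fun ξ hξ => by
          have := hm (Y + ξ) (by linarith)
          rwa [show Y + ξ - l = Y - l + ξ by ring] at this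
      rw [geq l hl Y hY1, geq 0 h00 _ hY2, sub_zero, neg_sub_neg, abs_sub_comm]
      linarith
  have gsm : ∀ x < 1, ContDiffAt ℝ ∞ (gg 0) x := by
    intro x hx
    have e1 : ContDiffAt ℝ ∞ (fun x' => gg (x - x') x) x := by
      have e2 : ContDiffAt ℝ ∞ φ (ε, x - x) := by rw [sub_self]; exact (H _ (Hb 0 h00)).1
      have e3 : ContDiffAt ℝ ∞ (fun x' => φ (ε, x - x')) x :=
        ContDiffAt.comp (g := φ) (f := fun x' => (ε, x - x')) x e2 (by fun_prop)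
      exact (evC (F := ℝ) (projIcc (-1) 1 h11 x)).contDiff.contDiffAt.comp x e3
    refine e1.congr_of_eventuallyEq ?_
    have e4 : ∀ᶠ x' in 𝓝 x, |x - x'| < min δ (1 - x) := by
      have : ContinuousAt (fun x' => |x - x'|) x := by fun_prop
      exact this.eventually (gt_mem_nhds (by simp [hδ, hx]))
    filter_upwards [e4] with x' hx'
    have := gs (x - x') (hx'.trans_le (min_le_left _ _)) x
      (by linarith [hx'.trans_le (min_le_right _ _)])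
    rw [sub_sub_cancel] at this
    linarith
  let χ : ℝ → ℝ := fun x => smoothTransition (8 * (7 / 8 - x))
  have χ1 : ∀ x ≤ 3 / 4, χ x = 1 := fun x hx => smoothTransition.one_of_one_le (by linarith)
  have χ0 : ∀ x, 7 / 8 ≤ x → χ x = 0 := fun x hx => smoothTransition.zero_of_nonpos (by linarith)
  have χs : ContDiff ℝ ∞ χ := smoothTransition.contDiff.comp (by fun_prop)
  have hgs : ContDiff ℝ ∞ (fun x => χ x * gg 0 x) := by
    refine contDiff_iff_contDiffAt.2 fun x => ?_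
    rcases lt_or_ge x 1 with h | h
    · exact χs.contDiffAt.mul (gsm x h)
    · refine (contDiffAt_const (c := (0 : ℝ))).congr_of_eventuallyEq ?_
      filter_upwards [Ioi_mem_nhds (show (7 / 8 : ℝ) < x by linarith)] with x' hx'
      rw [χ0 x' (le_of_lt hx'), zero_mul]
  refine ⟨ε, (half_pos hδ).ne', fun x => χ x * gg 0 x, hgs, fun x hx => by
    simp only [gz 0 h00 x hx, mul_zero], fun x => ?_, fun Y hY => ?_⟩
  · rw [abs_mul, abs_of_nonneg (smoothTransition.nonneg _)]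
    have := (gb 0 h00 x).trans_le (min_le_left _ _)
    nlinarith [smoothTransition.le_one (8 * (7 / 8 - x)), smoothTransition.nonneg (8 * (7 / 8 - x)),
      abs_nonneg (gg 0 x)]
  · have e1 : tr (fun x => χ x * gg 0 x) Y = tr (gg 0) Y := by
      ext ξ
      rw [tr_apply hgs.continuous, tr_apply (gc 0), χ1 _ (by linarith [ξ.2.2]), one_mul]
    simp only [e1, χ1 Y hY, one_mul]
    rcases le_or_gt Y 0 with h | h
    · have e2 : tr (gg 0) Y = 0 := by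
        ext ξ
        rw [tr_apply (gc 0), gz 0 h00 _ (by linarith [ξ.2.2])]
        rfl
      rw [e2, gz 0 h00 Y h, hc ε Y h, add_zero]
    · rw [geq 0 h00 Y ⟨by linarith, by linarith⟩, sub_zero, neg_add_cancel]

end Pool.Agent.H238Z.Uni
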