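import Mathlib

/-!
Shared definitions for the construction of a smooth Landsberg surface that is not Berwald.
-/

open Set Real
open scoped ContDiff

namespace Pool.Agent.H238Z.Uni

/-- The plane. -/
abbrev E2 := Fin 2 → ℝ

/-- A family of closed dual unit curves `t ↦ ∇ₐ u (a, t)` over the open set `U`, where `v`, `w` are
the first two `t`-derivatives of `u`. -/
structure Family (U : Set E2) (u v w J : E2 → ℝ → ℝ) (Λ : ℝ → ℝ) : Prop where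
  isOpen : IsOpen U
  smooth : ContDiffOn ℝ ∞ (fun z : E2 × ℝ => u z.1 z.2) (U ×ˢ univ)
  du : ∀ a ∈ U, ∀ t, HasDerivAt (u a) (v a t) t
  dv : ∀ a ∈ U, ∀ t, HasDerivAt (v a) (w a t) t
  per : ∀ a ∈ U, ∀ t, u a (t + 2 * π) = u a t
  lam : ∀ t, 0 < Λ t
  dJ : ∀ a ∈ U, ∀ t, DifferentiableAt ℝ (fun a => J a t) a
  ode : ∀ a ∈ U, ∀ t, fderiv ℝ (fun a => w a t) a =
    -(Λ t) • fderiv ℝ (fun a => u a t) a + J a t • fderiv ℝ (fun a => v a t) a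
  det : ∀ a ∈ U, ∀ t,
    0 < fderiv ℝ (fun a => u a t) a (Pi.single 0 1) * fderiv ℝ (fun a => v a t) a (Pi.single 1 1) -
      fderiv ℝ (fun a => u a t) a (Pi.single 1 1) * fderiv ℝ (fun a => v a t) a (Pi.single 0 1)
  zeros : ∀ a ∈ U, ∃ t₀ t₁ : ℝ, ∀ t, fderiv ℝ (fun a => v a t) a (Pi.single 1 1) = 0 →
    ∃ k : ℤ, t = t₀ + 2 * π * k ∨ t = t₁ + 2 * π * k
  nontriv : ∃ a ∈ U, ∃ t, fderiv ℝ (fun a => J a t) a ≠ 0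

/-- The orbits `t ↦ (x (Z, t), y (Z, t))` of `x' = -2 (y + f)`, `y' = 1 - κ f`, where `f` is a
function of `x` with derivative `j`; they are parabolas without time delay for `|t| ≥ T`. -/
structure Window (κ T Z₁ Z₂ : ℝ) (x y f j : ℝ × ℝ → ℝ) (sIn sOut : ℝ → ℝ) : Prop where
  lt : Z₁ < Z₂
  sx : ContDiffOn ℝ ∞ x (Ioo Z₁ Z₂ ×ˢ univ)
  sy : ContDiffOn ℝ ∞ y (Ioo Z₁ Z₂ ×ˢ univ)
  sf : ContDiffOn ℝ ∞ f (Ioo Z₁ Z₂ ×ˢ univ)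
  sj : ContDiffOn ℝ ∞ j (Ioo Z₁ Z₂ ×ˢ univ)
  dx : ∀ Z ∈ Ioo Z₁ Z₂, ∀ t, HasDerivAt (fun t => x (Z, t)) (-2 * (y (Z, t) + f (Z, t))) t
  dy : ∀ Z ∈ Ioo Z₁ Z₂, ∀ t, HasDerivAt (fun t => y (Z, t)) (1 - κ * f (Z, t)) t
  df : ∀ Z ∈ Ioo Z₁ Z₂, ∀ t, fderiv ℝ f (Z, t) = j (Z, t) • fderiv ℝ x (Z, t)
  before : ∀ Z ∈ Ioo Z₁ Z₂, ∀ t ≤ -T, x (Z, t) = sIn Z - t ^ 2 ∧ y (Z, t) = t
  after : ∀ Z ∈ Ioo Z₁ Z₂, ∀ t, T ≤ t → x (Z, t) = sOut Z - t ^ 2 ∧ y (Z, t) = t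
  jac : ∀ Z ∈ Ioo Z₁ Z₂, ∀ t, 0 < fderiv ℝ x (Z, t) (1, 0) * fderiv ℝ y (Z, t) (0, 1) -
    fderiv ℝ x (Z, t) (0, 1) * fderiv ℝ y (Z, t) (1, 0)
  turn : ∀ Z ∈ Ioo Z₁ Z₂, ∃ tm, ∀ t, y (Z, t) + f (Z, t) = 0 → t = tm
  nontriv : ∃ Z ∈ Ioo Z₁ Z₂, ∃ t, |t| ≤ T ∧ fderiv ℝ j (Z, t) ≠ 0

/-- A smooth closed strictly convex curve around the origin, parametrized by the direction of its
tangent, symmetric in the first axis, and containing a prescribed arc. -/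
structure Background (κ T : ℝ) (P₁ P₂ R : ℝ → ℝ) : Prop where
  ne : κ ≠ 0
  sR : ContDiff ℝ ∞ R
  d₁ : ∀ α, HasDerivAt P₁ (R α * cos α) α
  d₂ : ∀ α, HasDerivAt P₂ (R α * sin α) α
  pos : ∀ α, 0 < R α
  hpos : ∀ α, 0 < P₁ α * sin α - P₂ α * cos α
  sym₁ : ∀ α, P₁ (π - α) = P₁ α
  sym₂ : ∀ α, P₂ (π - α) = -P₂ α
  per₁ : ∀ α, P₁ (α + 2 * π) = P₁ α
  per₂ : ∀ α, P₂ (α + 2 * π) = P₂ α
  win : ∀ α, 0 < cos α → |tan α| ≤ T →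
    P₁ α = -exp (-κ * tan α) / κ ∧ P₂ α = -exp (-κ * tan α) * (tan α / κ + 1 / κ ^ 2)

/-- The function `s / (1 - κ s)`. -/
noncomputable def Gam (κ s : ℝ) : ℝ := s / (1 - κ * s)

/-- Its first derivative. -/
noncomputable def Gam1 (κ s : ℝ) : ℝ := 1 / (1 - κ * s) ^ 2

/-- Its second derivative. -/
noncomputable def Gam2 (κ s : ℝ) : ℝ := 2 * κ / (1 - κ * s) ^ 3

/-- The domain of the pairs (height `Z` of the turning point, parameter `σ`). -/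
def dom (b : ℝ) : Set (ℝ × ℝ) := Iio b ×ˢ Ioo (-2) 2

/-- The orbits of `dz/dy = -2 (y + G z)` with top `Z`, parametrized by `z = Z - σ ^ 2`,
`dy = dσ / q (Z, σ)`. -/
structure Prof (κ b : ℝ) (G : ℝ → ℝ) (q : ℝ × ℝ → ℝ) : Prop where
  hb : b ≤ 1
  sG : ContDiff ℝ ∞ G
  zero : ∀ z ≤ 0, G z = 0
  small : ∀ z, |κ * G z| ≤ 1 / 2
  small' : ∀ z, |G z| ≤ 1
  sq : ContDiffOn ℝ ∞ q (dom b)
  qpos : ∀ p ∈ dom b, 1 / 2 ≤ q p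
  id₁ : ∀ p ∈ dom b,
    p.2 * q p = (∫ s in (0 : ℝ)..p.2, 1 / q (p.1, s)) - G p.1 + G (p.1 - p.2 ^ 2)

/-- The coordinate `y` along an orbit. -/
noncomputable def yy (G : ℝ → ℝ) (q : ℝ × ℝ → ℝ) (p : ℝ × ℝ) : ℝ :=
  (∫ s in (0 : ℝ)..p.2, 1 / q (p.1, s)) - G p.1

/-- The variation of `z` with respect to the incoming label of the orbit. -/
noncomputable def zeta (G : ℝ → ℝ) (q : ℝ × ℝ → ℝ) (p : ℝ × ℝ) : ℝ :=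
  exp (-2 * ∫ s in (-1 : ℝ)..p.2, deriv G (p.1 - s ^ 2) / q (p.1, s))

/-- A tail integral. -/
noncomputable def PP (κ : ℝ) (G : ℝ → ℝ) (q : ℝ × ℝ → ℝ) (p : ℝ × ℝ) : ℝ :=
  ∫ s in p.2..(1 : ℝ), Gam1 κ (G (p.1 - s ^ 2)) * deriv G (p.1 - s ^ 2) * zeta G q (p.1, s) /
    q (p.1, s)

/-- The kernel of the top order term. -/
noncomputable def Psi (κ : ℝ) (G : ℝ → ℝ) (q : ℝ × ℝ → ℝ) (p : ℝ × ℝ) : ℝ :=
  (Gam1 κ (G (p.1 - p.2 ^ 2)) * zeta G q p ^ 2 - 2 * zeta G q p * PP κ G q p) / q p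

/-- The lower order term. -/
noncomputable def RR (κ : ℝ) (G : ℝ → ℝ) (q : ℝ × ℝ → ℝ) (Z : ℝ) : ℝ :=
  ∫ s in (-1 : ℝ)..1, Gam2 κ (G (Z - s ^ 2)) * deriv G (Z - s ^ 2) ^ 2 * zeta G q (Z, s) ^ 2 /
    q (Z, s)

/-- The incoming label of the orbit with top `Z`. -/
noncomputable def ss (G : ℝ → ℝ) (q : ℝ × ℝ → ℝ) (Z : ℝ) : ℝ := Z - 1 + yy G q (Z, -1) ^ 2

/-- The time delay of the orbit with top `Z`. -/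
noncomputable def II (κ : ℝ) (G : ℝ → ℝ) (q : ℝ × ℝ → ℝ) (Z : ℝ) : ℝ :=
  ∫ s in (-1 : ℝ)..1, Gam κ (G (Z - s ^ 2)) / q (Z, s)

end Pool.Agent.H238Z.Uni
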