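import Pool.Agent.H238Z.Uni.DelayTools

/-! The delay equation. -/

open Set Real
open scoped ContDiff

namespace Pool.Agent.H238Z.Uni

namespace Dly

variable {κ b : ℝ} {G : ℝ → ℝ} {q : ℝ × ℝ → ℝ}

/-- derivative of `y` in `Z` -/
noncomputable def YY (G : ℝ → ℝ) (q : ℝ × ℝ → ℝ) (p : ℝ × ℝ) : ℝ := fderiv ℝ (yy G q) p (1, 0)

/-- variation at fixed `y` -/
noncomputable def dl (G : ℝ → ℝ) (q : ℝ × ℝ → ℝ) (f : ℝ × ℝ → ℝ) (p : ℝ × ℝ) : ℝ :=
  fderiv ℝ f p (1, -(q p * YY G q p))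

/-- variation of `z` -/
noncomputable def nn (G : ℝ → ℝ) (q : ℝ × ℝ → ℝ) (p : ℝ × ℝ) : ℝ :=
  1 + 2 * p.2 * q p * YY G q p

theorem m0 : (0 : ℝ) ∈ Ioo (-2 : ℝ) 2 := by norm_num
theorem m1 : (1 : ℝ) ∈ Ioo (-2 : ℝ) 2 := by norm_num
theorem mm1 : (-1 : ℝ) ∈ Ioo (-2 : ℝ) 2 := by norm_num

theorem qne (hp : Prof κ b G q) {p : ℝ × ℝ} (h : p ∈ dom b) : q p ≠ 0 := by
  have := hp.qpos p h
  exact ne_of_gt (by linarith)

theorem sm_div (hp : Prof κ b G q) {f : ℝ × ℝ → ℝ} (hf : ContDiffOn ℝ ∞ f (dom b)) :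
    ContDiffOn ℝ ∞ (fun p => f p / q p) (dom b) := hf.div hp.sq fun _ h => qne hp h

theorem sm_z {φ : ℝ → ℝ} (hφ : ContDiff ℝ ∞ φ) :
    ContDiffOn ℝ ∞ (fun p : ℝ × ℝ => φ (p.1 - p.2 ^ 2)) (dom b) :=
  (hφ.comp (by fun_prop)).contDiffOn

theorem sm_deriv {φ : ℝ → ℝ} (hφ : ContDiff ℝ ∞ φ) : ContDiff ℝ ∞ (deriv φ) :=
  (contDiff_infty_iff_deriv.1 hφ).2

theorem hd {φ : ℝ → ℝ} (hφ : ContDiff ℝ ∞ φ) (z : ℝ) : HasDerivAt φ (deriv φ z) z :=
  (hφ.differentiable (by simp) z).hasDerivAt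

theorem deriv_zero {φ : ℝ → ℝ} (h0 : ∀ z ≤ 0, φ z = 0) {z : ℝ} (hz : z < 0) : deriv φ z = 0 := by
  have : φ =ᶠ[nhds z] fun _ => 0 := by
    filter_upwards [Iio_mem_nhds hz] with w hw using h0 w (le_of_lt hw)
  rw [this.deriv_eq, deriv_const]

theorem sm_yy (hp : Prof κ b G q) : ContDiffOn ℝ ∞ (yy G q) (dom b) :=
  (sm_moving (sm_div hp (contDiffOn_const (c := 1))) m0).sub
    (hp.sG.comp contDiff_fst).contDiffOn

theorem sm_YY (hp : Prof κ b G q) : ContDiffOn ℝ ∞ (YY G q) (dom b) := sm_dir (sm_yy hp) _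

theorem sm_nn (hp : Prof κ b G q) : ContDiffOn ℝ ∞ (nn G q) (dom b) :=
  contDiffOn_const.add (((contDiffOn_const.mul contDiffOn_snd).mul hp.sq).mul (sm_YY hp))

theorem sm_dl (hp : Prof κ b G q) {f : ℝ × ℝ → ℝ} (hf : ContDiffOn ℝ ∞ f (dom b)) :
    ContDiffOn ℝ ∞ (dl G q f) (dom b) :=
  (hf.fderiv_of_isOpen (isOpen_dom b) (m := ∞) (by simp)).clm_apply
    (contDiffOn_const.prodMk (hp.sq.mul (sm_YY hp)).neg)

theorem yy_S (hp : Prof κ b G q) {Z s : ℝ} (h : (Z, s) ∈ dom b) :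
    HasDerivAt (fun s => yy G q (Z, s)) (1 / q (Z, s)) s :=
  (ftc (sm_div hp (contDiffOn_const (c := 1))) h.1 m0 h.2).sub_const (G Z)

theorem div_Z (hp : Prof κ b G q) {f : ℝ × ℝ → ℝ} (hf : ContDiffOn ℝ ∞ f (dom b)) {Z s : ℝ}
    (h : (Z, s) ∈ dom b) :
    fderiv ℝ (fun p => f p / q p) (Z, s) (1, 0) =
      (fderiv ℝ f (Z, s) (1, 0) * q (Z, s) - f (Z, s) * fderiv ℝ q (Z, s) (1, 0)) /
        q (Z, s) ^ 2 :=
  (hasZ (sm_div hp hf) h).unique ((hasZ hf h).div (hasZ hp.sq h) (qne hp h))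

theorem YY_S (hp : Prof κ b G q) {Z s : ℝ} (h : (Z, s) ∈ dom b) :
    HasDerivAt (fun s => YY G q (Z, s)) (-fderiv ℝ q (Z, s) (1, 0) / q (Z, s) ^ 2) s := by
  have h1 := sm_div hp (contDiffOn_const (c := 1))
  have h2 : ∀ t ∈ Ioo (-2 : ℝ) 2, YY G q (Z, t) =
      (∫ u in (0 : ℝ)..t, fderiv ℝ (fun p => 1 / q p) (Z, u) (1, 0)) - deriv G Z := fun t ht =>
    (hasZ (sm_yy hp) (mem_dom h.1 ht)).unique ((dui h1 h.1 m0 ht).sub (hd hp.sG Z))
  have h3 := (ftc (sm_dir h1 (1, 0)) h.1 m0 h.2).sub_const (deriv G Z)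
  have h4 := div_Z hp (contDiffOn_const (c := 1)) h
  simp only [fderiv_fun_const, Pi.zero_apply, zero_apply, zero_mul, one_mul,
    zero_sub] at h4
  rw [h4] at h3
  refine h3.congr_of_eventuallyEq ?_
  filter_upwards [isOpen_Ioo.mem_nhds h.2] with t ht using h2 t ht

theorem lemA (hp : Prof κ b G q) {f : ℝ × ℝ → ℝ} (hf : ContDiffOn ℝ ∞ f (dom b)) {Z c d : ℝ}
    (hZ : Z < b) (hc : c ∈ Ioo (-2 : ℝ) 2) (hd : d ∈ Ioo (-2 : ℝ) 2) :
    HasDerivAt (fun Z => ∫ s in c..d, f (Z, s) / q (Z, s))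
      ((∫ s in c..d, dl G q f (Z, s) / q (Z, s)) +
        (f (Z, d) * YY G q (Z, d) - f (Z, c) * YY G q (Z, c))) Z := by
  have h1 := dui (sm_div hp hf) hZ hc hd
  have hs := sm_dir (hf.mul (sm_YY hp)) (0, 1)
  have h2 : ∫ s in c..d, fderiv ℝ (fun p => f p * YY G q p) (Z, s) (0, 1) =
      f (Z, d) * YY G q (Z, d) - f (Z, c) * YY G q (Z, c) :=
    intervalIntegral.integral_eq_sub_of_hasDerivAt (f := fun s => f (Z, s) * YY G q (Z, s))
      (fun s hs => hasS (hf.mul (sm_YY hp)) (mem_dom hZ (uIcc_sub hc hd hs))) (intg hs hZ hc hd)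
  rw [← h2, ← intervalIntegral.integral_add (intg (sm_div hp (sm_dl hp hf)) hZ hc hd)
    (intg hs hZ hc hd)]
  refine h1.congr_deriv (Eq.symm ?_)
  refine intervalIntegral.integral_congr fun s hs => ?_
  have hm := mem_dom hZ (uIcc_sub hc hd hs)
  have h3 := (hasS (hf.mul (sm_YY hp)) hm).unique ((hasS hf hm).mul (YY_S hp hm))
  rw [h3, div_Z hp hf hm, dl, fd_dir]
  have := qne hp hm
  field_simp
  ring

theorem lemB (hp : Prof κ b G q) {f : ℝ × ℝ → ℝ} (hf : ContDiffOn ℝ ∞ f (dom b)) {Z c s : ℝ}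
    (h : (Z, s) ∈ dom b) (hc : c ∈ Ioo (-2 : ℝ) 2) :
    dl G q (fun p => ∫ t in c..p.2, f (p.1, t) / q (p.1, t)) (Z, s) =
      (∫ t in c..s, dl G q f (Z, t) / q (Z, t)) - f (Z, c) * YY G q (Z, c) := by
  have h1 := (hasZ (sm_moving (sm_div hp hf) hc) h).unique (lemA hp hf h.1 hc h.2)
  have h2 := moving_S (sm_div hp hf) hc h
  rw [dl, fd_dir, h1, h2]
  have := qne hp h
  field_simp
  ring

theorem dl_z {φ : ℝ → ℝ} (hφ : ContDiff ℝ ∞ φ) (p : ℝ × ℝ) :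
    dl G q (fun p : ℝ × ℝ => φ (p.1 - p.2 ^ 2)) p = deriv φ (p.1 - p.2 ^ 2) * nn G q p := by
  have h1 : HasFDerivAt (fun p : ℝ × ℝ => p.1 - p.2 ^ 2)
      (ContinuousLinearMap.fst ℝ ℝ ℝ - (2 * p.2) • ContinuousLinearMap.snd ℝ ℝ ℝ) p := by
    have := (hasFDerivAt_fst (𝕜 := ℝ) (p := p)).sub ((hasFDerivAt_snd (𝕜 := ℝ) (p := p)).pow 2)
    simp only [Nat.add_one_sub_one, pow_one, nsmul_eq_mul, Nat.cast_ofNat] at this
    exact this
  have h2 := ((hd hφ (p.1 - p.2 ^ 2)).comp_hasFDerivAt p h1).fderiv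
  rw [dl]
  erw [h2]
  simp [nn]
  left; ring

theorem nn_S (hp : Prof κ b G q) {Z s : ℝ} (h : (Z, s) ∈ dom b) :
    HasDerivAt (fun s => nn G q (Z, s))
      (-2 * (deriv G (Z - s ^ 2) / q (Z, s)) * nn G q (Z, s)) s := by
  have hz1 : HasDerivAt (fun Z : ℝ => G (Z - s ^ 2)) (deriv G (Z - s ^ 2)) Z :=
    (hd hp.sG (Z - s ^ 2)).comp_sub_const Z (s ^ 2)
  have hz2 : HasDerivAt (fun s : ℝ => G (Z - s ^ 2)) (deriv G (Z - s ^ 2) * (-(2 * s))) s :=
    (hd hp.sG (Z - s ^ 2)).comp s (by simpa using (hasDerivAt_pow 2 s).const_sub Z)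
  have e1 : s * fderiv ℝ q (Z, s) (1, 0) = YY G q (Z, s) + deriv G (Z - s ^ 2) := by
    refine ((hasZ hp.sq h).const_mul s).unique
      (((hasZ (sm_yy hp) h).add hz1).congr_of_eventuallyEq ?_)
    filter_upwards [Iio_mem_nhds h.1] with W hW using hp.id₁ (W, s) (mem_dom hW h.2)
  have e2 : HasDerivAt (fun s => s * q (Z, s))
      (1 / q (Z, s) + deriv G (Z - s ^ 2) * (-(2 * s))) s := by
    refine ((yy_S hp h).add hz2).congr_of_eventuallyEq ?_
    filter_upwards [isOpen_Ioo.mem_nhds h.2] with t ht using hp.id₁ (Z, t) (mem_dom h.1 ht)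
  have e3 := ((e2.mul (YY_S hp h)).const_mul 2).const_add 1
  have := qne hp h
  refine (e3.congr_of_eventuallyEq (Filter.Eventually.of_forall fun t => ?_)).congr_deriv
    (Eq.symm ?_)
  · simp only [nn, Pi.mul_apply]; ring
  · have e4 : deriv G (Z - s ^ 2) = s * fderiv ℝ q (Z, s) (1, 0) - YY G q (Z, s) := by linarith
    simp only [nn]
    rw [e4]
    field_simp
    ring

theorem sm_L (hp : Prof κ b G q) : ContDiffOn ℝ ∞
    (fun p : ℝ × ℝ => ∫ s in (-1 : ℝ)..p.2, deriv G (p.1 - s ^ 2) / q (p.1, s)) (dom b) :=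
  sm_moving (sm_div hp (sm_z (sm_deriv hp.sG))) mm1

theorem sm_zeta (hp : Prof κ b G q) : ContDiffOn ℝ ∞ (zeta G q) (dom b) :=
  (contDiffOn_const.mul (sm_L hp)).exp

theorem nn_eq (hp : Prof κ b G q) {Z s : ℝ} (h : (Z, s) ∈ dom b) :
    nn G q (Z, s) = nn G q (Z, -1) * zeta G q (Z, s) := by
  have h1 : ∀ t ∈ Ioo (-2 : ℝ) 2, HasDerivAt (fun t => nn G q (Z, t) *
      exp (2 * ∫ u in (-1 : ℝ)..t, deriv G (Z - u ^ 2) / q (Z, u))) 0 t := fun t ht => by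
    have a := (nn_S hp (mem_dom h.1 ht)).mul
      ((ftc (sm_div hp (sm_z (sm_deriv hp.sG))) h.1 mm1 ht).const_mul 2).exp
    refine a.congr_deriv ?_
    simp only
    ring
  have h2 := isOpen_Ioo.is_const_of_deriv_eq_zero (𝕜 := ℝ) isPreconnected_Ioo
    (fun t ht => (h1 t ht).differentiableAt.differentiableWithinAt)
    (fun t ht => (h1 t ht).deriv) h.2 mm1
  simp only [intervalIntegral.integral_same, mul_zero, exp_zero, mul_one] at h2
  rw [← h2, zeta, mul_assoc, ← exp_add]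
  simp

theorem ss_Z (hp : Prof κ b G q) {Z : ℝ} (hZ : Z < b) :
    HasDerivAt (ss G q) (nn G q (Z, -1)) Z := by
  have h := mem_dom hZ mm1
  have h1 := ((hasDerivAt_id Z).sub_const 1).add ((hasZ (sm_yy hp) h).pow 2)
  have h2 := hp.id₁ _ h
  have h3 : G (Z - (-1) ^ 2) = 0 := hp.zero _ (by linarith [hp.hb])
  simp only at h2
  rw [h3, add_zero] at h2
  refine h1.congr_deriv ?_
  have h4 : yy G q (Z, -1) = -1 * q (Z, -1) := h2.symm
  simp only [nn, h4, YY]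
  push_cast
  ring

theorem ss_neg (hp : Prof κ b G q) {Z : ℝ} (hZ : Z < b) (hZ0 : Z ≤ 0) : ss G q Z = Z := by
  have h1 : ∀ t ∈ Ioo (-2 : ℝ) 2, HasDerivAt (fun t => Z - t ^ 2 + yy G q (Z, t) ^ 2) 0 t :=
    fun t ht => by
    have h := mem_dom hZ ht
    have a := ((hasDerivAt_pow 2 t).const_sub Z).add ((yy_S hp h).pow 2)
    have h2 := hp.id₁ _ h
    have h3 : G (Z - t ^ 2) = 0 := hp.zero _ (by nlinarith [sq_nonneg t])
    simp only at h2
    rw [h3, add_zero] at h2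
    have h4 : yy G q (Z, t) = t * q (Z, t) := h2.symm
    have := qne hp h
    refine a.congr_deriv ?_
    rw [h4]
    field_simp
    push_cast
    ring
  have h2 := isOpen_Ioo.is_const_of_deriv_eq_zero (𝕜 := ℝ) isPreconnected_Ioo
    (fun t ht => (h1 t ht).differentiableAt.differentiableWithinAt)
    (fun t ht => (h1 t ht).deriv) mm1 m0
  simp only [yy, intervalIntegral.integral_same, hp.zero Z hZ0] at h2
  simp only [ss, yy, hp.zero Z hZ0]
  linarith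

/-- the integral `K` -/
noncomputable def KK (G : ℝ → ℝ) (q : ℝ × ℝ → ℝ) (p : ℝ × ℝ) : ℝ :=
  ∫ s in (-1 : ℝ)..p.2, deriv (deriv G) (p.1 - s ^ 2) * zeta G q (p.1, s) / q (p.1, s)

theorem sm_K0 (hp : Prof κ b G q) : ContDiffOn ℝ ∞
    (fun p : ℝ × ℝ => deriv (deriv G) (p.1 - p.2 ^ 2) * zeta G q p / q p) (dom b) :=
  sm_div hp ((sm_z (sm_deriv (sm_deriv hp.sG))).mul (sm_zeta hp))

theorem sm_KK (hp : Prof κ b G q) : ContDiffOn ℝ ∞ (KK G q) (dom b) := sm_moving (sm_K0 hp) mm1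

theorem dl_zeta (hp : Prof κ b G q) {Z s : ℝ} (h : (Z, s) ∈ dom b) :
    dl G q (zeta G q) (Z, s) = -2 * zeta G q (Z, s) * (nn G q (Z, -1) * KK G q (Z, s)) := by
  have h1 := lemB hp (sm_z (sm_deriv hp.sG)) h mm1
  have h2 : deriv G (Z - (-1) ^ 2) = 0 := deriv_zero hp.zero (by linarith [hp.hb, h.1.out])
  simp only [h2, zero_mul, sub_zero] at h1
  have h3 : ∫ t in (-1 : ℝ)..s, dl G q (fun p : ℝ × ℝ => deriv G (p.1 - p.2 ^ 2)) (Z, t) /
      q (Z, t) = nn G q (Z, -1) * KK G q (Z, s) := by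
    rw [KK, ← intervalIntegral.integral_const_mul]
    refine intervalIntegral.integral_congr fun t ht => ?_
    simp only
    rw [dl_z (sm_deriv hp.sG), nn_eq hp (mem_dom h.1 (uIcc_sub mm1 h.2 ht))]
    ring
  rw [← h3, ← h1]
  have h4 := (((hasFD (sm_L hp) h).const_mul (-2)).exp).fderiv
  unfold dl
  erw [h4]
  simp [zeta]
  ring

theorem rho_ne (hp : Prof κ b G q) (z : ℝ) : 1 - κ * G z ≠ 0 := by
  have := (abs_le.1 (hp.small z)).2
  exact ne_of_gt (by linarith)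

theorem sm_m (hp : Prof κ b G q) : ContDiff ℝ ∞ (fun z => Gam κ (G z)) :=
  hp.sG.div (contDiff_const.sub (contDiff_const.mul hp.sG)) (rho_ne hp)

theorem sm_g1 (hp : Prof κ b G q) : ContDiff ℝ ∞ (fun z => Gam1 κ (G z)) :=
  contDiff_const.div ((contDiff_const.sub (contDiff_const.mul hp.sG)).pow 2)
    fun z => pow_ne_zero _ (rho_ne hp z)

theorem sm_g2 (hp : Prof κ b G q) : ContDiff ℝ ∞ (fun z => Gam2 κ (G z)) :=
  contDiff_const.div ((contDiff_const.sub (contDiff_const.mul hp.sG)).pow 3)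
    fun z => pow_ne_zero _ (rho_ne hp z)

theorem sm_m1 (hp : Prof κ b G q) : ContDiff ℝ ∞ (fun z => Gam1 κ (G z) * deriv G z) :=
  (sm_g1 hp).mul (sm_deriv hp.sG)

theorem deriv_m (hp : Prof κ b G q) (z : ℝ) :
    deriv (fun z => Gam κ (G z)) z = Gam1 κ (G z) * deriv G z := by
  have h := (hd hp.sG z).div (((hd hp.sG z).const_mul κ).const_sub 1) (rho_ne hp z)
  refine HasDerivAt.deriv (h.congr_deriv ?_)
  have := rho_ne hp z
  simp only [Gam1]
  field_simp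
  ring

theorem deriv_m1 (hp : Prof κ b G q) (z : ℝ) :
    deriv (fun z => Gam1 κ (G z) * deriv G z) z =
      Gam2 κ (G z) * deriv G z ^ 2 + Gam1 κ (G z) * deriv (deriv G) z := by
  have h := ((hasDerivAt_const z (1 : ℝ)).div ((((hd hp.sG z).const_mul κ).const_sub 1).pow 2)
    (pow_ne_zero _ (rho_ne hp z))).mul (hd (sm_deriv hp.sG) z)
  refine HasDerivAt.deriv (h.congr_deriv ?_)
  have := rho_ne hp z
  simp only [Gam1, Gam2, Pi.pow_apply, Pi.div_apply]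
  field_simp
  push_cast
  ring

/-- the integral `D` -/
noncomputable def DD (κ : ℝ) (G : ℝ → ℝ) (q : ℝ × ℝ → ℝ) (Z : ℝ) : ℝ :=
  ∫ s in (-1 : ℝ)..1, Gam1 κ (G (Z - s ^ 2)) * deriv G (Z - s ^ 2) * zeta G q (Z, s) / q (Z, s)

theorem II_Z (hp : Prof κ b G q) {Z : ℝ} (hZ : Z < b) :
    HasDerivAt (II κ G q) (DD κ G q Z * nn G q (Z, -1)) Z := by
  have h1 := lemA hp (sm_z (sm_m hp)) hZ mm1 m1
  have h2 : G (Z - (-1) ^ 2) = 0 := hp.zero _ (by linarith [hp.hb])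
  have h3 : G (Z - 1 ^ 2) = 0 := hp.zero _ (by linarith [hp.hb])
  have h4 : Gam κ 0 = 0 := by simp [Gam]
  simp only [h2, h3, h4, zero_mul, sub_zero, add_zero] at h1
  refine h1.congr_deriv (Eq.symm ?_)
  rw [DD, ← intervalIntegral.integral_mul_const]
  refine intervalIntegral.integral_congr fun t ht => ?_
  rw [dl_z (sm_m hp), nn_eq hp (mem_dom hZ (uIcc_sub mm1 m1 ht)), deriv_m hp]
  ring

theorem sm_P0 (hp : Prof κ b G q) : ContDiffOn ℝ ∞
    (fun p : ℝ × ℝ => Gam1 κ (G (p.1 - p.2 ^ 2)) * deriv G (p.1 - p.2 ^ 2) * zeta G q p / q p)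
    (dom b) :=
  sm_div hp ((sm_z (sm_m1 hp)).mul (sm_zeta hp))

theorem PP_eq (p : ℝ × ℝ) : PP κ G q p = -∫ s in (1 : ℝ)..p.2,
    Gam1 κ (G (p.1 - s ^ 2)) * deriv G (p.1 - s ^ 2) * zeta G q (p.1, s) / q (p.1, s) :=
  intervalIntegral.integral_symm _ _

theorem sm_PP (hp : Prof κ b G q) : ContDiffOn ℝ ∞ (PP κ G q) (dom b) :=
  (sm_moving (sm_P0 hp) m1).neg.congr fun p _ => PP_eq p

theorem DD_Z (hp : Prof κ b G q) {Z : ℝ} (hZ : Z < b) :
    HasDerivAt (DD κ G q) (((∫ σ in (-1 : ℝ)..1, deriv (deriv G) (Z - σ ^ 2) * Psi κ G q (Z, σ)) +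
      RR κ G q Z) * nn G q (Z, -1)) Z := by
  have h1 := lemA hp ((sm_z (sm_m1 hp)).mul (sm_zeta hp)) hZ mm1 m1
  have h2 : deriv G (Z - (-1) ^ 2) = 0 := deriv_zero hp.zero (by linarith [hp.hb])
  have h3 : deriv G (Z - 1 ^ 2) = 0 := deriv_zero hp.zero (by linarith [hp.hb])
  simp only [h2, h3, zero_mul, mul_zero, sub_zero, add_zero] at h1
  have sPsi : ContDiffOn ℝ ∞ (Psi κ G q) (dom b) :=
    sm_div hp (((sm_z (sm_g1 hp)).mul ((sm_zeta hp).pow 2)).sub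
      ((contDiffOn_const.mul (sm_zeta hp)).mul (sm_PP hp)))
  have s1 := (sm_z (b := b) (sm_deriv (sm_deriv hp.sG))).mul sPsi
  have s2 := sm_div hp ((sm_z (b := b) ((sm_g2 hp).mul ((sm_deriv hp.sG).pow 2))).mul
    ((sm_zeta hp).pow 2))
  have s3 := ((sm_P0 hp).neg.mul (sm_KK hp)).add ((sm_PP hp).mul (sm_K0 hp))
  have h4 := intervalIntegral.integral_eq_sub_of_hasDerivAt
    (f := fun s => PP κ G q (Z, s) * KK G q (Z, s)) (a := -1) (b := 1)
    (f' := fun s => -(Gam1 κ (G (Z - s ^ 2)) * deriv G (Z - s ^ 2) *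
      zeta G q (Z, s) / q (Z, s)) * KK G q (Z, s) + PP κ G q (Z, s) *
      (deriv (deriv G) (Z - s ^ 2) * zeta G q (Z, s) / q (Z, s)))
    (fun s hs => by
      have hs' := uIcc_sub mm1 m1 hs
      have a := (ftc (sm_P0 hp) hZ m1 hs').neg.mul (ftc (sm_K0 hp) hZ mm1 hs')
      simp only [PP_eq]
      exact a) (intg s3 hZ mm1 m1)
  have h5 : PP κ G q (Z, 1) = 0 := intervalIntegral.integral_same
  have h6 : KK G q (Z, -1) = 0 := intervalIntegral.integral_same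
  rw [h5, h6, zero_mul, mul_zero, sub_zero] at h4
  refine h1.congr_deriv (Eq.symm ?_)
  have i3 := (intg s3 hZ mm1 m1).const_mul 2
  have h7 : ∫ s in (-1 : ℝ)..1, 2 * (-(Gam1 κ (G (Z - s ^ 2)) * deriv G (Z - s ^ 2) *
      zeta G q (Z, s) / q (Z, s)) * KK G q (Z, s) + PP κ G q (Z, s) *
      (deriv (deriv G) (Z - s ^ 2) * zeta G q (Z, s) / q (Z, s))) = 0 := by
    rw [intervalIntegral.integral_const_mul]
    exact mul_eq_zero_of_right _ h4
  rw [← add_zero (_ + RR κ G q Z), ← h7, RR,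
    ← intervalIntegral.integral_add (intg s1 hZ mm1 m1) (intg s2 hZ mm1 m1),
    ← intervalIntegral.integral_add ((intg s1 hZ mm1 m1).add (intg s2 hZ mm1 m1)) i3,
    ← intervalIntegral.integral_mul_const]
  refine intervalIntegral.integral_congr fun t ht => ?_
  have hm := mem_dom hZ (uIcc_sub mm1 m1 ht)
  have h8 : dl G q (fun p : ℝ × ℝ => Gam1 κ (G (p.1 - p.2 ^ 2)) * deriv G (p.1 - p.2 ^ 2) *
      zeta G q p) (Z, t) =
      Gam1 κ (G (Z - t ^ 2)) * deriv G (Z - t ^ 2) * dl G q (zeta G q) (Z, t) +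
      zeta G q (Z, t) * dl G q (fun p : ℝ × ℝ => Gam1 κ (G (p.1 - p.2 ^ 2)) *
        deriv G (p.1 - p.2 ^ 2)) (Z, t) := by
    have a := ((hasFD (sm_z (sm_m1 hp)) hm).mul (hasFD (sm_zeta hp) hm)).fderiv
    unfold dl
    erw [a]
    simp
  simp only
  rw [h8, dl_zeta hp hm, dl_z (sm_m1 hp), deriv_m1 hp, nn_eq hp hm, Psi]
  have := qne hp hm
  field_simp
  ring

theorem const_Iio {f : ℝ → ℝ} (hf : ∀ Z < b, HasDerivAt f 0 Z) {Z W : ℝ} (hZ : Z < b)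
    (hW : W < b) : f Z = f W :=
  isOpen_Iio.is_const_of_deriv_eq_zero (𝕜 := ℝ) isPreconnected_Iio
    (fun t ht => (hf t ht).differentiableAt.differentiableWithinAt)
    (fun t ht => (hf t ht).deriv) hZ hW

end Dly

open Dly in
theorem delay_eq {κ b : ℝ} {G : ℝ → ℝ} {q : ℝ × ℝ → ℝ} (hp : Prof κ b G q) {h : ℝ → ℝ}
    (hh : ContDiff ℝ ∞ h) (h0 : ∀ s ≤ 0, h s = 0)
    (hW : ∀ Z < b, (∫ σ in (-1 : ℝ)..1, deriv (deriv G) (Z - σ ^ 2) * Psi κ G q (Z, σ)) +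
      RR κ G q Z = deriv (deriv h) (ss G q Z)) :
    ∀ Z < b, II κ G q Z = h (ss G q Z) := by
  have hb : min b 0 - 1 < b := by linarith [min_le_left b 0]
  have hn : min b 0 - 1 < 0 := by linarith [min_le_right b 0]
  have hs := ss_neg hp hb hn.le
  have h1 : ∀ Z < b, DD κ G q Z = deriv h (ss G q Z) := fun Z hZ => by
    have a := const_Iio (f := fun Z => DD κ G q Z - deriv h (ss G q Z)) (fun W hW' => by
      have c := (DD_Z hp hW').sub ((hd (sm_deriv hh) (ss G q W)).comp W (ss_Z hp hW'))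
      rw [hW W hW', sub_self] at c
      exact c) hZ hb
    have c : DD κ G q (min b 0 - 1) = 0 := by
      rw [DD, intervalIntegral.integral_congr (g := fun _ => 0), intervalIntegral.integral_zero]
      intro s _
      simp only
      rw [deriv_zero hp.zero (by nlinarith [sq_nonneg s])]
      simp
    simp only [hs, c, deriv_zero h0 hn] at a
    linarith
  intro Z hZ
  have a := const_Iio (f := fun Z => II κ G q Z - h (ss G q Z)) (fun W hW' => by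
    have c := (II_Z hp hW').sub ((hd hh (ss G q W)).comp W (ss_Z hp hW'))
    rw [h1 W hW', sub_self] at c
    exact c) hZ hb
  have c : II κ G q (min b 0 - 1) = 0 := by
    rw [II, intervalIntegral.integral_congr (g := fun _ => 0), intervalIntegral.integral_zero]
    intro s _
    simp only
    rw [hp.zero _ (by nlinarith [sq_nonneg s])]
    simp [Gam]
  simp only [hs, c, h0 _ hn.le] at a
  linarith

end Pool.Agent.H238Z.Uni
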