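import Pool.Agent.H238Z.Uni.Defs
import Pool.Agent.Helper87.CMC.MPI

/-! Parametric integrals on the domain `dom b` (tools for the delay equation). -/

open Set Real
open scoped ContDiff

namespace Pool.Agent.H238Z.Uni.Dly

variable {b : ℝ}

theorem isOpen_dom (b : ℝ) : IsOpen (dom b) := isOpen_Iio.prod isOpen_Ioo

theorem mem_dom {Z s : ℝ} (hZ : Z < b) (hs : s ∈ Ioo (-2 : ℝ) 2) : (Z, s) ∈ dom b := ⟨hZ, hs⟩

theorem uIcc_sub {c d : ℝ} (hc : c ∈ Ioo (-2 : ℝ) 2) (hd : d ∈ Ioo (-2 : ℝ) 2) :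
    uIcc c d ⊆ Ioo (-2 : ℝ) 2 := ordConnected_Ioo.uIcc_subset hc hd

theorem sm_dir {f : ℝ × ℝ → ℝ} (hf : ContDiffOn ℝ ∞ f (dom b)) (v : ℝ × ℝ) :
    ContDiffOn ℝ ∞ (fun p => fderiv ℝ f p v) (dom b) :=
  (hf.fderiv_of_isOpen (isOpen_dom b) (m := ∞) (by simp)).clm_apply contDiffOn_const

theorem hasFD {f : ℝ × ℝ → ℝ} (hf : ContDiffOn ℝ ∞ f (dom b)) {p : ℝ × ℝ} (hp : p ∈ dom b) :
    HasFDerivAt f (fderiv ℝ f p) p :=
  ((hf.contDiffAt ((isOpen_dom b).mem_nhds hp)).differentiableAt (by simp)).hasFDerivAt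

theorem hasZ {f : ℝ × ℝ → ℝ} (hf : ContDiffOn ℝ ∞ f (dom b)) {Z s : ℝ} (hp : (Z, s) ∈ dom b) :
    HasDerivAt (fun Z => f (Z, s)) (fderiv ℝ f (Z, s) (1, 0)) Z :=
  (hasFD hf hp).comp_hasDerivAt Z ((hasDerivAt_id Z).prodMk (hasDerivAt_const Z s))

theorem hasS {f : ℝ × ℝ → ℝ} (hf : ContDiffOn ℝ ∞ f (dom b)) {Z s : ℝ} (hp : (Z, s) ∈ dom b) :
    HasDerivAt (fun s => f (Z, s)) (fderiv ℝ f (Z, s) (0, 1)) s :=
  (hasFD hf hp).comp_hasDerivAt s ((hasDerivAt_const s Z).prodMk (hasDerivAt_id s))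

theorem contS {f : ℝ × ℝ → ℝ} (hf : ContinuousOn f (dom b)) {Z : ℝ} (hZ : Z < b) :
    ContinuousOn (fun s => f (Z, s)) (Ioo (-2 : ℝ) 2) :=
  hf.comp (by fun_prop) fun _ hs => mem_dom hZ hs

theorem intg {f : ℝ × ℝ → ℝ} (hf : ContDiffOn ℝ ∞ f (dom b)) {Z c d : ℝ} (hZ : Z < b)
    (hc : c ∈ Ioo (-2 : ℝ) 2) (hd : d ∈ Ioo (-2 : ℝ) 2) :
    IntervalIntegrable (fun s => f (Z, s)) MeasureTheory.volume c d :=
  ((contS hf.continuousOn hZ).mono (uIcc_sub hc hd)).intervalIntegrable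

theorem ftc {f : ℝ × ℝ → ℝ} (hf : ContDiffOn ℝ ∞ f (dom b)) {Z c s : ℝ} (hZ : Z < b)
    (hc : c ∈ Ioo (-2 : ℝ) 2) (hs : s ∈ Ioo (-2 : ℝ) 2) :
    HasDerivAt (fun u => ∫ t in c..u, f (Z, t)) (f (Z, s)) s :=
  intervalIntegral.integral_hasDerivAt_right (intg hf hZ hc hs)
    ((contS hf.continuousOn hZ).stronglyMeasurableAtFilter isOpen_Ioo s hs)
    ((contS hf.continuousOn hZ).continuousAt (isOpen_Ioo.mem_nhds hs))

theorem sm_moving {f : ℝ × ℝ → ℝ} (hf : ContDiffOn ℝ ∞ f (dom b)) {c : ℝ}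
    (hc : c ∈ Ioo (-2 : ℝ) 2) :
    ContDiffOn ℝ ∞ (fun p : ℝ × ℝ => ∫ s in c..p.2, f (p.1, s)) (dom b) := by
  have hφ : ContDiff ℝ ∞ (fun w : ℝ × ℝ × ℝ => (w.2.1, (w.2.2 - c) * w.1 + c)) := by fun_prop
  have h1 := Pool.Agent.Helper87.CMC.contDiffOn_paramInt01
    (W := (fun w : ℝ × ℝ × ℝ => (w.2.1, (w.2.2 - c) * w.1 + c)) ⁻¹' dom b)
    ((isOpen_dom b).preimage hφ.continuous) (isOpen_dom b)
    (fun y hy s hs => ⟨hy.1, by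
      have h := convex_Ioo (𝕜 := ℝ) (-2 : ℝ) 2 hc hy.2 (sub_nonneg.2 hs.2) hs.1 (by ring)
      have e : (y.2 - c) * s + c = (1 - s) • c + s • y.2 := by simp only [smul_eq_mul]; ring
      show (y.2 - c) * s + c ∈ Ioo (-2 : ℝ) 2
      rw [e]; exact h⟩)
    (fun w => f (w.2.1, (w.2.2 - c) * w.1 + c)) (hf.comp hφ.contDiffOn fun _ h => h)
  have h2 : ContDiffOn ℝ ∞ (fun p : ℝ × ℝ => p.2 - c) (dom b) := by fun_prop
  refine (h2.mul h1).congr fun p _ => ?_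
  have := intervalIntegral.smul_integral_comp_mul_add (f := fun s => f (p.1, s)) (a := 0) (b := 1)
    (p.2 - c) c
  simpa using this.symm

theorem dui {f : ℝ × ℝ → ℝ} (hf : ContDiffOn ℝ ∞ f (dom b)) {Z c d : ℝ} (hZ : Z < b)
    (hc : c ∈ Ioo (-2 : ℝ) 2) (hd : d ∈ Ioo (-2 : ℝ) 2) :
    HasDerivAt (fun Z => ∫ s in c..d, f (Z, s)) (∫ s in c..d, fderiv ℝ f (Z, s) (1, 0)) Z := by
  obtain ⟨δ, hδ, hδU⟩ := Metric.nhds_basis_closedBall.mem_iff.1 (Iio_mem_nhds hZ)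
  have hcomp : IsCompact (Metric.closedBall Z δ ×ˢ uIcc c d) :=
    (isCompact_closedBall _ _).prod isCompact_uIcc
  obtain ⟨C, hC⟩ := hcomp.exists_bound_of_continuousOn
    ((sm_dir hf (1, 0)).continuousOn.mono (prod_mono hδU (uIcc_sub hc hd)))
  have hsub : uIoc c d ⊆ Ioo (-2 : ℝ) 2 := uIoc_subset_uIcc.trans (uIcc_sub hc hd)
  refine (intervalIntegral.hasDerivAt_integral_of_dominated_loc_of_deriv_le
    (F := fun y s => f (y, s)) (F' := fun y s => fderiv ℝ f (y, s) (1, 0))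
    (bound := fun _ => C) (Metric.closedBall_mem_nhds Z hδ) ?_ ?_ ?_ ?_ ?_ ?_).2
  · filter_upwards [Iio_mem_nhds hZ] with y hy
    exact ((contS hf.continuousOn hy).mono hsub).aestronglyMeasurable measurableSet_uIoc
  · exact intg hf hZ hc hd
  · exact ((contS (sm_dir hf (1, 0)).continuousOn hZ).mono hsub).aestronglyMeasurable
      measurableSet_uIoc
  · exact Filter.Eventually.of_forall fun t ht y hy => hC (y, t) ⟨hy, uIoc_subset_uIcc ht⟩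
  · exact continuous_const.intervalIntegrable _ _
  · exact Filter.Eventually.of_forall fun t ht y hy => hasZ hf (mem_dom (hδU hy) (hsub ht))

theorem moving_S {f : ℝ × ℝ → ℝ} (hf : ContDiffOn ℝ ∞ f (dom b)) {c : ℝ}
    (hc : c ∈ Ioo (-2 : ℝ) 2) {Z s : ℝ} (hp : (Z, s) ∈ dom b) :
    fderiv ℝ (fun p : ℝ × ℝ => ∫ s in c..p.2, f (p.1, s)) (Z, s) (0, 1) = f (Z, s) :=
  (hasS (sm_moving hf hc) hp).unique (ftc hf hp.1 hc hp.2)

theorem moving_Z {f : ℝ × ℝ → ℝ} (hf : ContDiffOn ℝ ∞ f (dom b)) {c : ℝ}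
    (hc : c ∈ Ioo (-2 : ℝ) 2) {Z s : ℝ} (hp : (Z, s) ∈ dom b) :
    fderiv ℝ (fun p : ℝ × ℝ => ∫ s in c..p.2, f (p.1, s)) (Z, s) (1, 0) =
      ∫ t in c..s, fderiv ℝ f (Z, t) (1, 0) :=
  (hasZ (sm_moving hf hc) hp).unique (dui hf hp.1 hc hp.2)

theorem fd_dir (L : ℝ × ℝ →L[ℝ] ℝ) (a : ℝ) : L (1, a) = L (1, 0) + a * L (0, 1) := by
  have : ((1, a) : ℝ × ℝ) = (1, 0) + a • ((0, 1) : ℝ × ℝ) := by simp
  rw [this, map_add, map_smul, smul_eq_mul]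

end Pool.Agent.H238Z.Uni.Dly
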