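import Pool.Agent.H238Z.Uni.Finsler4

/-!
A family of dual unit curves gives a Landsberg metric that is not Berwald.
-/

set_option autoImplicit false

open Set Real Filter Topology
open scoped ContDiff

namespace Pool.Agent.H238Z.Uni

open FL

theorem not_main_of_family {U : Set E2} {u v w J : E2 → ℝ → ℝ} {Λ : ℝ → ℝ}
    (h : Family U u v w J Λ) :
    ¬ (∀ (n : ℕ) (U : Set (Fin n → ℝ)) (F : (Fin n → ℝ) → (Fin n → ℝ) → ℝ)
      (G : (Fin n → ℝ) → (Fin n → ℝ) → (Fin n → ℝ)),
      IsOpen U →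
      ContDiffOn ℝ ((⊤ : ℕ∞) : WithTop ℕ∞)
        (fun p : (Fin n → ℝ) × (Fin n → ℝ) => F p.1 p.2) (U ×ˢ {y | y ≠ 0}) →
      (∀ x ∈ U, ∀ y : Fin n → ℝ, y ≠ 0 → 0 < F x y) →
      (∀ x ∈ U, ∀ y : Fin n → ℝ, ∀ t : ℝ, 0 < t → F x (t • y) = t * F x y) →
      (∀ x ∈ U, ∀ y : Fin n → ℝ, y ≠ 0 → ∀ v : Fin n → ℝ, v ≠ 0 →
        0 < ∑ i : Fin n, ∑ j : Fin n,
          (1 / 2 : ℝ) * fderiv ℝ (fun w => fderiv ℝ (fun u => F x u ^ 2) w
              (Pi.single j (1 : ℝ) : Fin n → ℝ)) y (Pi.single i (1 : ℝ) : Fin n → ℝ)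
            * v i * v j) →
      (∀ x ∈ U, ∀ y : Fin n → ℝ, y ≠ 0 → ∀ l : Fin n,
        ∑ i : Fin n,
          (1 / 2 : ℝ) * fderiv ℝ (fun w => fderiv ℝ (fun u => F x u ^ 2) w
              (Pi.single i (1 : ℝ) : Fin n → ℝ)) y (Pi.single l (1 : ℝ) : Fin n → ℝ)
            * G x y i
        = (1 / 4 : ℝ) * ((∑ k : Fin n,
              fderiv ℝ (fun z => fderiv ℝ (fun u => F z u ^ 2) y
                (Pi.single l (1 : ℝ) : Fin n → ℝ)) x (Pi.single k (1 : ℝ) : Fin n → ℝ) * y k)
            - fderiv ℝ (fun z => F z y ^ 2) x (Pi.single l (1 : ℝ) : Fin n → ℝ))) →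
      (∀ x ∈ U, ∀ y : Fin n → ℝ, y ≠ 0 → ∀ j k l : Fin n,
        ∑ i : Fin n,
          ((1 / 2 : ℝ) * fderiv ℝ (fun u => F x u ^ 2) y (Pi.single i (1 : ℝ) : Fin n → ℝ))
          * fderiv ℝ (fun w₂ => fderiv ℝ (fun w₁ => fderiv ℝ (fun u => G x u i) w₁
                (Pi.single l (1 : ℝ) : Fin n → ℝ)) w₂ (Pi.single k (1 : ℝ) : Fin n → ℝ)) y
              (Pi.single j (1 : ℝ) : Fin n → ℝ) = 0) →
      ∀ x ∈ U, ∀ y : Fin n → ℝ, y ≠ 0 → ∀ i j k l : Fin n,
        fderiv ℝ (fun w₂ => fderiv ℝ (fun w₁ => fderiv ℝ (fun u => G x u i) w₁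
              (Pi.single l (1 : ℝ) : Fin n → ℝ)) w₂ (Pi.single k (1 : ℝ) : Fin n → ℝ)) y
            (Pi.single j (1 : ℝ) : Fin n → ℝ) = 0) := by
  intro H
  obtain ⟨p, q, A, B, J', Jd, hd⟩ := data_of_family h
  have key := H 2 U (FF p q) (GG p q A B) hd.isOpen ?_ (fun x hx y hy => hd.FF_pos hx hy)
    ?_ ?_ ?_ ?_
  · obtain ⟨⟨a, t⟩, ha, l, hl⟩ := hd.nontriv
    have hW := hd.WW_ne (z := (a, t)) ha
    let y : E2 := fun i => e1 p q i (a, t)
    have hs : Supp p q a y t := by
      constructor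
      · simp only [pr, y, e1, Matrix.cons_val_zero, Matrix.cons_val_one]
        field_simp
        ring
      · have : pr p (a, t) y = 1 := by
          simp only [pr, y, e1, Matrix.cons_val_zero, Matrix.cons_val_one]
          field_simp
          unfold WW
          ring
        rw [this]
        exact one_pos
    have hy : y ≠ 0 := by
      intro h0
      have := hs.2
      rw [h0] at this
      simp [pr] at this
    have hq : ∃ k, q k (a, t) ≠ 0 := by
      by_contra hc
      push Not at hc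
      apply hW
      unfold WW
      rw [hc 0, hc 1]
      ring
    have he : ∃ i, e2 p q i (a, t) ≠ 0 := by
      by_contra hc
      push Not at hc
      have h0 := hc 0
      have h1 := hc 1
      simp only [e2, Matrix.cons_val_zero, Matrix.cons_val_one, div_eq_zero_iff, hW, or_false,
        neg_eq_zero] at h0 h1
      apply hW
      unfold WW
      rw [h0, h1]
      ring
    obtain ⟨k, hk⟩ := hq
    obtain ⟨i, hi⟩ := he
    have h1 := key a ha y hy i k k l
    rw [hd.G3 ha hy, hd.lift_eq ((hd.sG i l k).D hd.isOpen et) ha hy hs,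
      hd.lift_eq (hd.sq k) ha hy hs, hd.Gt (z := (a, t)) ha] at h1
    have h10 := hd.FF_pos ha hy
    have h11 := hd.lam (TT p q a y)
    exact mul_ne_zero (mul_ne_zero (mul_ne_zero hl hk) hi)
      (div_ne_zero hk (mul_pos h11 h10).ne') h1
  · rintro ⟨a, y⟩ ⟨ha, hy⟩
    refine ContDiffAt.contDiffWithinAt ?_
    have h3 : ∀ i, ContDiffAt ℝ ∞ (fun z : E2 × E2 => z.2 i) (a, y) := by
      intro i
      fun_prop
    exact ((hd.lift_smooth (hd.sp 0) ha hy).mul (h3 0)).add
      ((hd.lift_smooth (hd.sp 1) ha hy).mul (h3 1))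
  · intro a ha y s hs
    by_cases hy : y = 0
    · subst hy
      simp [FF, pr]
    · have hsy : s • y ≠ 0 := smul_ne_zero hs.ne' hy
      have h1 := hd.supp_TT ha hy
      have h2 : Supp p q a (s • y) (TT p q a y) := by
        constructor
        · have := h1.1
          simp only [pr, Pi.smul_apply, smul_eq_mul] at this ⊢
          linear_combination s * this
        · have := mul_pos hs h1.2
          simp only [pr, Pi.smul_apply, smul_eq_mul] at this ⊢
          linarith
      unfold FF pr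
      rw [hd.lift_eq (hd.sp 0) ha hsy h2, hd.lift_eq (hd.sp 1) ha hsy h2]
      simp only [Pi.smul_apply, smul_eq_mul]
      ring
  · intro a ha y hy v hv
    simp only [Fin.sum_univ_two, hd.F2yy ha hy]
    set z : E2 × ℝ := (a, TT p q a y) with hz
    have h11 := hd.lam (TT p q a y)
    have h1 : 0 < pr p z v ^ 2 + pr q z v ^ 2 / Λ (TT p q a y) := by
      by_cases h2 : pr p z v = 0
      · have h3 : pr q z v ≠ 0 := fun h3 => hv (hd.eq_zero (z := z) ha h2 h3)
        positivity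
      · positivity
    refine lt_of_lt_of_eq h1 ?_
    unfold pr
    field_simp
    ring
  · intro a ha y hy l
    simp only [Fin.sum_univ_two, hd.F2yy ha hy, hd.F2xy ha hy, hd.F2x ha hy]
    set z : E2 × ℝ := (a, TT p q a y) with hz
    have h11 := hd.lam (TT p q a y)
    have hW := hd.WW_ne (z := z) ha
    have a0 := hd.symA z ha 0 l
    have a1 := hd.symA z ha 1 l
    have e : ∀ i, GG p q A B a y i = 1 / 2 * ((y 0 * pr (A 0) z y + y 1 * pr (A 1) z y) *
        e1 p q i z + (y 0 * pr (B 0) z y + y 1 * pr (B 1) z y) * e2 p q i z) := by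
      intro i
      unfold GG Gm pr
      ring
    have e' : pr (A l) z y = A 0 l z * y 0 + A 1 l z * y 1 := by
      unfold pr
      rw [a0, a1]
    rw [e, e, e']
    simp only [e1, e2, Matrix.cons_val_zero, Matrix.cons_val_one]
    field_simp
    unfold WW
    ring
  · intro a ha y hy j k l
    simp only [Fin.sum_univ_two, hd.F2y ha hy, hd.G3 ha hy]
    rw [hd.Gt (z := (a, TT p q a y)) ha, hd.Gt (z := (a, TT p q a y)) ha]
    simp only [e2, Matrix.cons_val_zero, Matrix.cons_val_one]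
    ring

end Pool.Agent.H238Z.Uni
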