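import Pool.Agent.H238Z.Uni.Defs

/-!
Calculus on the cylinder over `U`, and the data extracted from a family.
-/

set_option autoImplicit false

open Set Real Filter Topology
open scoped ContDiff

namespace Pool.Agent.H238Z.Uni.FL

/-- directional derivative -/
noncomputable def D (e : E2 × ℝ) (f : E2 × ℝ → ℝ) (z : E2 × ℝ) : ℝ := fderiv ℝ f z e

/-- the horizontal directions -/
noncomputable def ea (j : Fin 2) : E2 × ℝ := (Pi.single j 1, 0)

/-- the vertical direction -/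
noncomputable def et : E2 × ℝ := (0, 1)

/-- smooth and periodic over `U` -/
structure SP (U : Set E2) (f : E2 × ℝ → ℝ) : Prop where
  sm : ∀ z : E2 × ℝ, z.1 ∈ U → ContDiffAt ℝ ∞ f z
  per : ∀ a ∈ U, ∀ t, f (a, t + 2 * π) = f (a, t)

variable {U : Set E2}

lemma ev_mem (hU : IsOpen U) {z : E2 × ℝ} (hz : z.1 ∈ U) : ∀ᶠ w in 𝓝 z, w.1 ∈ U :=
  continuous_fst.continuousAt.eventually (hU.mem_nhds hz)

lemma D_congr (hU : IsOpen U) {f g : E2 × ℝ → ℝ} (h : ∀ z : E2 × ℝ, z.1 ∈ U → f z = g z)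
    (e : E2 × ℝ) {z : E2 × ℝ} (hz : z.1 ∈ U) : D e f z = D e g z := by
  have : f =ᶠ[𝓝 z] g := (ev_mem hU hz).mono fun w hw => h w hw
  unfold D
  rw [this.fderiv_eq]

namespace SP

variable {f g : E2 × ℝ → ℝ}

lemma diff (hf : SP U f) {z : E2 × ℝ} (hz : z.1 ∈ U) : DifferentiableAt ℝ f z :=
  (hf.sm z hz).differentiableAt (by simp)

lemma add (hf : SP U f) (hg : SP U g) : SP U (fun z => f z + g z) :=
  ⟨fun z hz => (hf.sm z hz).add (hg.sm z hz), fun a ha t => by rw [hf.per a ha, hg.per a ha]⟩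

lemma sub (hf : SP U f) (hg : SP U g) : SP U (fun z => f z - g z) :=
  ⟨fun z hz => (hf.sm z hz).sub (hg.sm z hz), fun a ha t => by rw [hf.per a ha, hg.per a ha]⟩

lemma mul (hf : SP U f) (hg : SP U g) : SP U (fun z => f z * g z) :=
  ⟨fun z hz => (hf.sm z hz).mul (hg.sm z hz), fun a ha t => by rw [hf.per a ha, hg.per a ha]⟩

lemma neg (hf : SP U f) : SP U (fun z => -f z) :=
  ⟨fun z hz => (hf.sm z hz).neg, fun a ha t => by rw [hf.per a ha]⟩

lemma div (hf : SP U f) (hg : SP U g) (h : ∀ z : E2 × ℝ, z.1 ∈ U → g z ≠ 0) :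
    SP U (fun z => f z / g z) :=
  ⟨fun z hz => (hf.sm z hz).div (hg.sm z hz) (h z hz),
    fun a ha t => by rw [hf.per a ha, hg.per a ha]⟩

lemma per_int (hf : SP U f) {a : E2} (ha : a ∈ U) (t : ℝ) (n : ℤ) :
    f (a, t + n * (2 * π)) = f (a, t) := by
  have h : Function.Periodic (fun t => f (a, t)) (2 * π) := fun t => hf.per a ha t
  exact h.int_mul n t

lemma fderiv_sm (hf : SP U f) {z : E2 × ℝ} (hz : z.1 ∈ U) : ContDiffAt ℝ ∞ (fderiv ℝ f) z :=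
  (hf.sm z hz).fderiv_right (by simp)

lemma D (hU : IsOpen U) (hf : SP U f) (e : E2 × ℝ) : SP U (D e f) := by
  refine ⟨fun z hz => (hf.fderiv_sm hz).clm_apply contDiffAt_const, fun a ha t => ?_⟩
  have h1 : (fun z : E2 × ℝ => f (z + (0, 2 * π))) =ᶠ[𝓝 (a, t)] f := by
    refine (ev_mem hU (z := (a, t)) ha).mono fun w hw => ?_
    have := hf.per w.1 hw w.2
    have e : w + (0, 2 * π) = (w.1, w.2 + 2 * π) := by ext <;> simp
    simp only [e]
    exact this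
  have h2 := h1.fderiv_eq (𝕜 := ℝ)
  rw [fderiv_comp_add_right] at h2
  have e : ((a, t) : E2 × ℝ) + (0, 2 * π) = (a, t + 2 * π) := by ext <;> simp
  rw [e] at h2
  unfold FL.D
  rw [h2]

lemma comm (hf : SP U f) (e e' : E2 × ℝ) {z : E2 × ℝ} (hz : z.1 ∈ U) :
    FL.D e (FL.D e' f) z = FL.D e' (FL.D e f) z := by
  have h1 : IsSymmSndFDerivAt ℝ f z := (hf.sm z hz).isSymmSndFDerivAt (by
    simp only [minSmoothness_of_isRCLikeNormedField]
    exact WithTop.coe_le_coe.2 (le_top : (2 : ℕ∞) ≤ ⊤))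
  have h2 : DifferentiableAt ℝ (fderiv ℝ f) z := (hf.fderiv_sm hz).differentiableAt (by simp)
  have h3 : ∀ e e' : E2 × ℝ, FL.D e (FL.D e' f) z = fderiv ℝ (fderiv ℝ f) z e e' := by
    intro e e'
    unfold FL.D
    rw [fderiv_clm_apply h2 (differentiableAt_const _)]
    simp
  rw [h3, h3, h1.eq]

lemma hasDerivAt (hf : SP U f) {a : E2} (ha : a ∈ U) (t : ℝ) :
    HasDerivAt (fun t => f (a, t)) (FL.D et f (a, t)) t := by
  have h1 : HasDerivAt (fun t : ℝ => ((a, t) : E2 × ℝ)) et t :=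
    (hasDerivAt_const t a).prodMk (hasDerivAt_id t)
  exact (hf.diff (z := (a, t)) ha).hasFDerivAt.comp_hasDerivAt t h1

lemma hasFDerivAt_fst (hf : SP U f) {a : E2} (ha : a ∈ U) (t : ℝ) :
    HasFDerivAt (fun a => f (a, t))
      ((fderiv ℝ f (a, t)).comp (ContinuousLinearMap.inl ℝ E2 ℝ)) a :=
  (hf.diff (z := (a, t)) ha).hasFDerivAt.comp a (hasFDerivAt_prodMk_left a t)

lemma fderiv_fst (hf : SP U f) {a : E2} (ha : a ∈ U) (t : ℝ) (j : Fin 2) :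
    fderiv ℝ (fun a => f (a, t)) a (Pi.single j 1) = FL.D (ea j) f (a, t) := by
  rw [(hf.hasFDerivAt_fst ha t).fderiv]
  rfl

end SP

/-- the data of a family in coordinates -/
structure Data (U : Set E2) (p q : Fin 2 → E2 × ℝ → ℝ) (A B : Fin 2 → Fin 2 → E2 × ℝ → ℝ)
    (Λ : ℝ → ℝ) (J : E2 × ℝ → ℝ) (Jd : Fin 2 → E2 × ℝ → ℝ) : Prop where
  isOpen : IsOpen U
  sp : ∀ i, SP U (p i)
  sq : ∀ i, SP U (q i)
  sA : ∀ i j, SP U (A i j)
  sB : ∀ i j, SP U (B i j)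
  lam : ∀ t, 0 < Λ t
  pa : ∀ z : E2 × ℝ, z.1 ∈ U → ∀ j k, D (ea j) (p k) z = A j k z
  pt : ∀ z : E2 × ℝ, z.1 ∈ U → ∀ k, D et (p k) z = q k z
  qa : ∀ z : E2 × ℝ, z.1 ∈ U → ∀ j k, D (ea j) (q k) z = B j k z
  qt : ∀ z : E2 × ℝ, z.1 ∈ U → ∀ k, D et (q k) z = -Λ z.2 * p k z + J z * q k z
  At : ∀ z : E2 × ℝ, z.1 ∈ U → ∀ j k, D et (A j k) z = B j k z
  Bt : ∀ z : E2 × ℝ, z.1 ∈ U → ∀ j k,
    D et (B j k) z = -Λ z.2 * A j k z + J z * B j k z + Jd j z * q k z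
  symA : ∀ z : E2 × ℝ, z.1 ∈ U → ∀ j k, A j k z = A k j z
  symB : ∀ z : E2 × ℝ, z.1 ∈ U → ∀ j k, B j k z = B k j z
  symJ : ∀ z : E2 × ℝ, z.1 ∈ U → ∀ j k, Jd j z * q k z = Jd k z * q j z
  det : ∀ z : E2 × ℝ, z.1 ∈ U → 0 < p 0 z * q 1 z - p 1 z * q 0 z
  zeros : ∀ a ∈ U, ∃ t₀ t₁ : ℝ, ∀ t, q 1 (a, t) = 0 →
    ∃ k : ℤ, t = t₀ + 2 * π * k ∨ t = t₁ + 2 * π * k
  nontriv : ∃ z : E2 × ℝ, z.1 ∈ U ∧ ∃ j, Jd j z ≠ 0

theorem data_of_family {u v w J : E2 → ℝ → ℝ} {Λ : ℝ → ℝ} (h : Family U u v w J Λ) :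
    ∃ (p q : Fin 2 → E2 × ℝ → ℝ) (A B : Fin 2 → Fin 2 → E2 × ℝ → ℝ) (J' : E2 × ℝ → ℝ)
      (Jd : Fin 2 → E2 × ℝ → ℝ), Data U p q A B Λ J' Jd := by
  have hU := h.isOpen
  let Φ : E2 × ℝ → ℝ := fun z => u z.1 z.2
  have hΦ : SP U Φ := by
    refine ⟨fun z hz => ?_, fun a ha t => h.per a ha t⟩
    exact h.smooth.contDiffAt ((hU.prod isOpen_univ).mem_nhds ⟨hz, mem_univ _⟩)
  have hΦ1 : SP U (D et Φ) := hΦ.D hU et
  have hΦ2 : SP U (D et (D et Φ)) := hΦ1.D hU et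
  have hv : ∀ a ∈ U, ∀ t, v a t = D et Φ (a, t) := fun a ha t =>
    (h.du a ha t).unique (hΦ.hasDerivAt ha t)
  have hw : ∀ a ∈ U, ∀ t, w a t = D et (D et Φ) (a, t) := by
    intro a ha t
    have h1 : v a = fun t => D et Φ (a, t) := funext (hv a ha)
    have h2 := h.dv a ha t
    rw [h1] at h2
    exact h2.unique (hΦ1.hasDerivAt ha t)
  let p : Fin 2 → E2 × ℝ → ℝ := fun i => D (ea i) Φ
  let q : Fin 2 → E2 × ℝ → ℝ := fun i => D (ea i) (D et Φ)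
  have sp : ∀ i, SP U (p i) := fun i => hΦ.D hU _
  have sq : ∀ i, SP U (q i) := fun i => hΦ1.D hU _
  have fu : ∀ a ∈ U, ∀ t j, fderiv ℝ (fun a => u a t) a (Pi.single j 1) = p j (a, t) :=
    fun a ha t j => hΦ.fderiv_fst ha t j
  have fv : ∀ a ∈ U, ∀ t j, fderiv ℝ (fun a => v a t) a (Pi.single j 1) = q j (a, t) := by
    intro a ha t j
    have h1 : (fun a => v a t) =ᶠ[𝓝 a] fun a => D et Φ (a, t) :=
      (hU.eventually_mem ha).mono fun b hb => hv b hb t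
    rw [h1.fderiv_eq]
    exact hΦ1.fderiv_fst ha t j
  have fw : ∀ a ∈ U, ∀ t j, fderiv ℝ (fun a => w a t) a (Pi.single j 1) =
      D (ea j) (D et (D et Φ)) (a, t) := by
    intro a ha t j
    have h1 : (fun a => w a t) =ᶠ[𝓝 a] fun a => D et (D et Φ) (a, t) :=
      (hU.eventually_mem ha).mono fun b hb => hw b hb t
    rw [h1.fderiv_eq]
    exact hΦ2.fderiv_fst ha t j
  have pt : ∀ z : E2 × ℝ, z.1 ∈ U → ∀ k, D et (p k) z = q k z :=
    fun z hz k => hΦ.comm _ _ hz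
  have qt : ∀ z : E2 × ℝ, z.1 ∈ U → ∀ k,
      D et (q k) z = -Λ z.2 * p k z + J z.1 z.2 * q k z := by
    rintro ⟨a, t⟩ hz k
    have h1 : D et (q k) (a, t) = D (ea k) (D et (D et Φ)) (a, t) := hΦ1.comm _ _ hz
    rw [h1, ← fw a hz t k, h.ode a hz t]
    simp only [add_apply, smul_apply, smul_eq_mul]
    rw [fu a hz, fv a hz]
  have symB : ∀ z : E2 × ℝ, z.1 ∈ U → ∀ j k, D (ea j) (q k) z = D (ea k) (q j) z :=
    fun z hz j k => hΦ1.comm _ _ hz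
  have symA : ∀ z : E2 × ℝ, z.1 ∈ U → ∀ j k, D (ea j) (p k) z = D (ea k) (p j) z :=
    fun z hz j k => hΦ.comm _ _ hz
  have Bt : ∀ z : E2 × ℝ, z.1 ∈ U → ∀ j k,
      D et (D (ea j) (q k)) z = -Λ z.2 * D (ea j) (p k) z + J z.1 z.2 * D (ea j) (q k) z +
        fderiv ℝ (fun a => J a z.2) z.1 (Pi.single j 1) * q k z := by
    rintro ⟨a, t⟩ hz j k
    rw [(sq k).comm _ _ hz, ← ((sq k).D hU et).fderiv_fst hz t j]
    have h1 : (fun a => D et (q k) (a, t)) =ᶠ[𝓝 a]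
        fun a => -Λ t * p k (a, t) + J a t * q k (a, t) :=
      (hU.eventually_mem hz).mono fun b hb => qt (b, t) hb k
    rw [h1.fderiv_eq]
    have h2 := (((sp k).hasFDerivAt_fst hz t).const_mul (-Λ t)).add
      ((h.dJ a hz t).hasFDerivAt.mul ((sq k).hasFDerivAt_fst hz t))
    have h3 := h2.fderiv
    have h4 : (fun a => -Λ t * p k (a, t) + J a t * q k (a, t)) =
        ((fun y => -Λ t * p k (y, t)) + (fun a => J a t) * fun a => q k (a, t)) := rfl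
    rw [h4, h3]
    simp only [add_apply, smul_apply, smul_eq_mul,
      ContinuousLinearMap.comp_apply, ContinuousLinearMap.inl_apply]
    unfold D ea
    ring
  refine ⟨p, q, fun j k => D (ea j) (p k), fun j k => D (ea j) (q k), fun z => J z.1 z.2,
    fun j z => fderiv ℝ (fun a => J a z.2) z.1 (Pi.single j 1),
    ⟨hU, sp, sq, fun i j => (sp j).D hU _, fun i j => (sq j).D hU _, h.lam,
      fun _ _ _ _ => rfl, pt, fun _ _ _ _ => rfl, qt, ?_, Bt, symA, symB, ?_, ?_, ?_, ?_⟩⟩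
  · intro z hz j k
    rw [(sp k).comm _ _ hz]
    exact D_congr hU (fun w hw => pt w hw k) _ hz
  · intro z hz j k
    have h1 := Bt z hz j k
    have h2 := Bt z hz k j
    have h3 : D et (D (ea j) (q k)) z = D et (D (ea k) (q j)) z :=
      D_congr hU (fun w hw => symB w hw j k) _ hz
    rw [h3, h2, symA z hz j k, symB z hz j k] at h1
    linarith
  · rintro ⟨a, t⟩ hz
    have := h.det a hz t
    rwa [fu a hz, fu a hz, fv a hz, fv a hz] at this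
  · intro a ha
    obtain ⟨t₀, t₁, h1⟩ := h.zeros a ha
    exact ⟨t₀, t₁, fun t ht => h1 t (by rw [fv a ha]; exact ht)⟩
  · obtain ⟨a, ha, t, h1⟩ := h.nontriv
    refine ⟨(a, t), ha, ?_⟩
    by_contra hc
    push Not at hc
    apply h1
    ext y
    have e : y = y 0 • (Pi.single 0 1 : E2) + y 1 • (Pi.single 1 1 : E2) := by
      ext i; fin_cases i <;> simp
    rw [e, map_add, map_smul, map_smul, hc 0, hc 1]
    simp

end Pool.Agent.H238Z.Uni.FL
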