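import Pool.Agent.H238Z.Uni.Finsler1

/-!
Existence and uniqueness of the supporting parameter.
-/

set_option autoImplicit false

open Set Real Filter Topology
open scoped ContDiff

namespace Pool.Agent.H238Z.Uni.FL

lemma ev_pos_right {f : ℝ → ℝ} {c s : ℝ} (hf : HasDerivAt f c s) (h0 : f s = 0) (hc : 0 < c) :
    ∀ᶠ r in 𝓝[>] s, 0 < f r := by
  have h1 := hf.tendsto_slope.mono_left
    (nhdsWithin_mono s (fun r (h : s < r) => h.ne') : 𝓝[>] s ≤ 𝓝[≠] s)
  filter_upwards [h1.eventually (lt_mem_nhds hc), self_mem_nhdsWithin] with r hr hr'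
  rw [slope_def_field, h0, sub_zero] at hr
  have h2 : 0 < r - s := sub_pos.2 hr'
  exact (div_pos_iff_of_pos_right h2).1 hr

lemma ev_neg_left {f : ℝ → ℝ} {c s : ℝ} (hf : HasDerivAt f c s) (h0 : f s = 0) (hc : 0 < c) :
    ∀ᶠ r in 𝓝[<] s, f r < 0 := by
  have h1 := hf.tendsto_slope.mono_left
    (nhdsWithin_mono s (fun r (h : r < s) => h.ne) : 𝓝[<] s ≤ 𝓝[≠] s)
  filter_upwards [h1.eventually (lt_mem_nhds hc), self_mem_nhdsWithin] with r hr hr'
  rw [slope_def_field, h0, sub_zero] at hr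
  have h2 : r - s < 0 := sub_neg.2 hr'
  by_contra h3
  push Not at h3
  exact absurd hr (not_lt.2 (div_nonpos_of_nonneg_of_nonpos h3 h2.le))

lemma zero_between {f : ℝ → ℝ} (hcont : Continuous f) {c c' s s' : ℝ} (hs : s < s')
    (hf : HasDerivAt f c s) (hf' : HasDerivAt f c' s') (h0 : f s = 0) (h0' : f s' = 0)
    (hc : c < 0) (hc' : c' < 0) : ∃ r, s < r ∧ r < s' ∧ f r = 0 := by
  have h1 := ev_pos_right hf.neg (by simp [h0]) (by linarith)
  have h2 := ev_neg_left hf'.neg (by simp [h0']) (by linarith)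
  have hm : s < (s + s') / 2 := by linarith
  have hm' : (s + s') / 2 < s' := by linarith
  obtain ⟨r₁, hr₁, hr₁'⟩ := (h1.and (Ioo_mem_nhdsGT hm)).exists
  obtain ⟨r₂, hr₂, hr₂'⟩ := (h2.and (Ioo_mem_nhdsLT hm')).exists
  simp only [Pi.neg_apply] at hr₁ hr₂
  have h12 : r₁ ≤ r₂ := by linarith [hr₁'.2, hr₂'.1]
  obtain ⟨r, hr, hr'⟩ := intermediate_value_Icc h12 hcont.continuousOn
    (show (0 : ℝ) ∈ Icc (f r₁) (f r₂) from ⟨by linarith, by linarith⟩)
  exact ⟨r, by linarith [hr₁'.1, hr.1], by linarith [hr₂'.2, hr.2], hr'⟩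

lemma three_zeros {t₀ t₁ s₁ s₂ s₃ : ℝ} (h12 : s₁ < s₂) (h23 : s₂ < s₃) (h31 : s₃ < s₁ + 2 * π)
    (h1 : ∃ k : ℤ, s₁ = t₀ + 2 * π * k ∨ s₁ = t₁ + 2 * π * k)
    (h2 : ∃ k : ℤ, s₂ = t₀ + 2 * π * k ∨ s₂ = t₁ + 2 * π * k)
    (h3 : ∃ k : ℤ, s₃ = t₀ + 2 * π * k ∨ s₃ = t₁ + 2 * π * k) : False := by
  have hpi := Real.pi_pos
  have key : ∀ (c a b : ℝ) (k l : ℤ), a < b → b < a + 2 * π → a = c + 2 * π * k →
      b = c + 2 * π * l → False := by
    intro c a b k l hab hba ha hb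
    have e1 : (k : ℝ) < l := by
      by_contra hc
      push Not at hc
      nlinarith
    have e2 : (l : ℝ) < k + 1 := by
      by_contra hc
      push Not at hc
      nlinarith
    have e3 : k < l := by exact_mod_cast e1
    have e4 : l < k + 1 := by exact_mod_cast e2
    omega
  obtain ⟨k₁, h1⟩ := h1
  obtain ⟨k₂, h2⟩ := h2
  obtain ⟨k₃, h3⟩ := h3
  rcases h1 with h1 | h1 <;> rcases h2 with h2 | h2 <;> rcases h3 with h3 | h3
  all_goals first
    | exact key _ _ _ _ _ h12 (by linarith) h1 h2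
    | exact key _ _ _ _ _ h23 (by linarith) h2 h3
    | exact key _ _ _ _ _ (h12.trans h23) h31 h1 h3

lemma sturm {f f' l l' : ℝ → ℝ} (hf : ∀ t, HasDerivAt f (f' t) t) (hl : ∀ t, HasDerivAt l (l' t) t)
    (hW : ∀ t, f' t * l t - f t * l' t ≠ 0) {s s' : ℝ} (hs : s < s') (h0 : f s = 0)
    (h0' : f s' = 0) : ∃ r, s < r ∧ r < s' ∧ l r = 0 := by
  by_contra hc
  push Not at hc
  have hne : ∀ r ∈ Icc s s', l r ≠ 0 := by
    intro r hr
    rcases hr.1.eq_or_lt with h | h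
    · intro h1
      apply hW r
      rw [h1, ← h, h0]; ring
    rcases hr.2.eq_or_lt with h' | h'
    · intro h1
      apply hW r
      rw [h1, h', h0']; ring
    exact hc r h h'
  have hd : ∀ r ∈ Icc s s', HasDerivAt (fun t => f t / l t)
      ((f' r * l r - f r * l' r) / l r ^ 2) r := fun r hr => (hf r).div (hl r) (hne r hr)
  obtain ⟨r, hr, hr'⟩ := exists_hasDerivAt_eq_zero hs
    (fun r hr => (hd r hr).continuousAt.continuousWithinAt) (by rw [h0, h0']; simp)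
    (fun r hr => hd r (Ioo_subset_Icc_self hr))
  rw [div_eq_zero_iff] at hr'
  rcases hr' with h | h
  · exact hW r h
  · exact hne r (Ioo_subset_Icc_self hr) (pow_eq_zero_iff (by norm_num) |>.1 h)

variable {U : Set E2} {p q : Fin 2 → E2 × ℝ → ℝ} {A B : Fin 2 → Fin 2 → E2 × ℝ → ℝ}
  {Λ : ℝ → ℝ} {J : E2 × ℝ → ℝ} {Jd : Fin 2 → E2 × ℝ → ℝ}

/-- pairing with a vector -/
def pr (p : Fin 2 → E2 × ℝ → ℝ) (z : E2 × ℝ) (y : E2) : ℝ := p 0 z * y 0 + p 1 z * y 1

/-- `t` is a supporting parameter for `y` at `a` -/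
def Supp (p q : Fin 2 → E2 × ℝ → ℝ) (a y : E2) (t : ℝ) : Prop :=
  pr q (a, t) y = 0 ∧ 0 < pr p (a, t) y

namespace Data

variable (h : Data U p q A B Λ J Jd)
include h

lemma dk {a : E2} (ha : a ∈ U) (y : E2) (t : ℝ) :
    HasDerivAt (fun t => pr p (a, t) y) (pr q (a, t) y) t := by
  have h0 := (((h.sp 0).hasDerivAt ha t).mul_const (y 0)).add
    (((h.sp 1).hasDerivAt ha t).mul_const (y 1))
  rw [h.pt (a, t) ha, h.pt (a, t) ha] at h0
  exact h0

lemma dk' {a : E2} (ha : a ∈ U) (y : E2) (t : ℝ) :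
    HasDerivAt (fun t => pr q (a, t) y) (-Λ t * pr p (a, t) y + J (a, t) * pr q (a, t) y) t := by
  have h0 := (((h.sq 0).hasDerivAt ha t).mul_const (y 0)).add
    (((h.sq 1).hasDerivAt ha t).mul_const (y 1))
  rw [h.qt (a, t) ha, h.qt (a, t) ha] at h0
  refine HasDerivAt.congr_deriv h0 ?_
  unfold pr
  ring

lemma pr_p_per {a : E2} (ha : a ∈ U) (y : E2) (t : ℝ) (n : ℤ) :
    pr p (a, t + n * (2 * π)) y = pr p (a, t) y := by
  unfold pr
  rw [(h.sp 0).per_int ha, (h.sp 1).per_int ha]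

lemma pr_q_per {a : E2} (ha : a ∈ U) (y : E2) (t : ℝ) (n : ℤ) :
    pr q (a, t + n * (2 * π)) y = pr q (a, t) y := by
  unfold pr
  rw [(h.sq 0).per_int ha, (h.sq 1).per_int ha]

lemma supp_per {a : E2} (ha : a ∈ U) {y : E2} {t : ℝ} (ht : Supp p q a y t) (n : ℤ) :
    Supp p q a y (t + n * (2 * π)) := by
  unfold Supp
  rw [h.pr_p_per ha, h.pr_q_per ha]
  exact ht

lemma eq_zero {z : E2 × ℝ} (hz : z.1 ∈ U) {y : E2} (h1 : pr p z y = 0) (h2 : pr q z y = 0) :
    y = 0 := by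
  have hd := h.det z hz
  unfold pr at h1 h2
  have e0 : (p 0 z * q 1 z - p 1 z * q 0 z) * y 0 = 0 := by
    linear_combination q 1 z * h1 - p 1 z * h2
  have e1 : (p 0 z * q 1 z - p 1 z * q 0 z) * y 1 = 0 := by
    linear_combination p 0 z * h2 - q 0 z * h1
  ext i
  fin_cases i
  · exact (mul_eq_zero.1 e0).resolve_left hd.ne'
  · exact (mul_eq_zero.1 e1).resolve_left hd.ne'

lemma exists_supp {a : E2} (ha : a ∈ U) {y : E2} (hy : y ≠ 0) : ∃ t, Supp p q a y t := by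
  have hpi := Real.pi_pos
  let k : ℝ → ℝ := fun t => pr p (a, t) y
  have hk : Continuous k := continuous_iff_continuousAt.2 fun t => (h.dk ha y t).continuousAt
  have hper : Function.Periodic k (2 * π) := fun t => by
    simpa using h.pr_p_per ha y t 1
  obtain ⟨t, -, ht⟩ := (isCompact_Icc (a := (0 : ℝ)) (b := 2 * π)).exists_isMaxOn
    ⟨0, le_rfl, by linarith⟩ hk.continuousOn
  have hmax : ∀ s, k s ≤ k t := by
    intro s
    obtain ⟨r, hr, hr'⟩ := hper.exists_mem_Ico₀ (by linarith) s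
    rw [hr']
    exact ht (Ico_subset_Icc_self hr)
  have h1 : pr q (a, t) y = 0 :=
    IsLocalMax.hasDerivAt_eq_zero (Filter.Eventually.of_forall hmax) (h.dk ha y t)
  refine ⟨t, h1, ?_⟩
  by_contra hc
  push Not at hc
  rcases hc.eq_or_lt with h2 | h2
  · exact hy (h.eq_zero (z := (a, t)) ha h2 h1)
  · have h3 := ev_pos_right (h.dk' ha y t) h1 (by
      rw [h1]
      have := h.lam t
      nlinarith)
    obtain ⟨s, hs, hs'⟩ := mem_nhdsGT_iff_exists_Ioo_subset.1 h3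
    have hs0 : t < s := hs
    obtain ⟨r, hr, hr'⟩ := exists_hasDerivAt_eq_slope k (fun t => pr q (a, t) y) hs0
      hk.continuousOn (fun r _ => h.dk ha y r)
    have h4 : 0 < pr q (a, r) y := hs' hr
    rw [hr'] at h4
    have h5 := (div_pos_iff_of_pos_right (sub_pos.2 hs0)).1 h4
    linarith [hmax s]

lemma supp_unique_aux {a : E2} (ha : a ∈ U) {y : E2} {t t' : ℝ} (ht : Supp p q a y t)
    (ht' : Supp p q a y t') (h1 : t < t') (h2 : t' < t + 2 * π) : False := by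
  let k : ℝ → ℝ := fun t => pr q (a, t) y
  have hk : Continuous k := continuous_iff_continuousAt.2 fun t => (h.dk' ha y t).continuousAt
  have hneg : ∀ s, Supp p q a y s →
      -Λ s * pr p (a, s) y + J (a, s) * pr q (a, s) y < 0 := by
    intro s hs
    rw [hs.1]
    have := h.lam s
    have := hs.2
    nlinarith
  have ht'' : Supp p q a y (t + 2 * π) := by simpa using h.supp_per ha ht 1
  obtain ⟨r, hr1, hr2, hr3⟩ := zero_between hk h1 (h.dk' ha y t) (h.dk' ha y t') ht.1 ht'.1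
    (hneg t ht) (hneg t' ht')
  obtain ⟨r', hr1', hr2', hr3'⟩ := zero_between hk h2 (h.dk' ha y t') (h.dk' ha y _) ht'.1 ht''.1
    (hneg t' ht') (hneg _ ht'')
  obtain ⟨t₀, t₁, hz⟩ := h.zeros a ha
  by_cases hy : y 0 = 0
  · have hy1 : y 1 ≠ 0 := by
      intro h3
      have := ht.2
      unfold pr at this
      rw [hy, h3] at this
      simp at this
    have key : ∀ s, pr q (a, s) y = 0 → q 1 (a, s) = 0 := by
      intro s hs
      unfold pr at hs
      rw [hy, mul_zero, zero_add] at hs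
      exact (mul_eq_zero.1 hs).resolve_right hy1
    exact three_zeros hr1 hr2 h2 (hz _ (key _ ht.1)) (hz _ (key _ hr3)) (hz _ (key _ ht'.1))
  · have hl : ∀ s, HasDerivAt (fun s => q 1 (a, s)) (-Λ s * p 1 (a, s) + J (a, s) * q 1 (a, s)) s := by
      intro s
      have := (h.sq 1).hasDerivAt ha s
      rwa [h.qt (a, s) ha] at this
    have hW : ∀ s, (-Λ s * pr p (a, s) y + J (a, s) * pr q (a, s) y) * q 1 (a, s) -
        pr q (a, s) y * (-Λ s * p 1 (a, s) + J (a, s) * q 1 (a, s)) ≠ 0 := by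
      intro s
      have e : (-Λ s * pr p (a, s) y + J (a, s) * pr q (a, s) y) * q 1 (a, s) -
          pr q (a, s) y * (-Λ s * p 1 (a, s) + J (a, s) * q 1 (a, s)) =
          -(y 0 * Λ s * (p 0 (a, s) * q 1 (a, s) - p 1 (a, s) * q 0 (a, s))) := by
        unfold pr
        ring
      rw [e]
      exact neg_ne_zero.2 (mul_ne_zero (mul_ne_zero hy (h.lam s).ne') (h.det (a, s) ha).ne')
    obtain ⟨s₁, a1, b1, c1⟩ := sturm (h.dk' ha y) hl hW hr1 ht.1 hr3
    obtain ⟨s₂, a2, b2, c2⟩ := sturm (h.dk' ha y) hl hW hr2 hr3 ht'.1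
    obtain ⟨s₃, a3, b3, c3⟩ := sturm (h.dk' ha y) hl hW hr1' ht'.1 hr3'
    exact three_zeros (s₁ := s₁) (s₂ := s₂) (s₃ := s₃) (by linarith) (by linarith) (by linarith)
      (hz _ c1) (hz _ c2) (hz _ c3)

lemma supp_unique {a : E2} (ha : a ∈ U) {y : E2} {t t' : ℝ} (ht : Supp p q a y t)
    (ht' : Supp p q a y t') : ∃ n : ℤ, t' = t + n * (2 * π) := by
  have hpi : 0 < 2 * π := by linarith [Real.pi_pos]
  have h1 := toIcoMod_mem_Ico hpi t t'
  have h2 := toIcoMod_add_toIcoDiv_zsmul hpi t t'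
  set n := toIcoDiv hpi t t'
  set s := toIcoMod hpi t t'
  rw [zsmul_eq_mul] at h2
  have h3 : Supp p q a y s := by
    have := h.supp_per ha ht' (-n)
    have e : t' + ((-n : ℤ) : ℝ) * (2 * π) = s := by
      rw [← h2]; push_cast; ring
    rwa [e] at this
  rcases h1.1.eq_or_lt with h4 | h4
  · exact ⟨n, by rw [h4, h2]⟩
  · exact (h.supp_unique_aux ha ht h3 h4 h1.2).elim

end Data

end Pool.Agent.H238Z.Uni.FL
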