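import Pool.Agent.H238Z.Uni.Finsler2

/-!
Gradients in the plane, and the derivatives of lifted functions.
-/

set_option autoImplicit false

open Set Real Filter Topology
open scoped ContDiff

namespace Pool.Agent.H238Z.Uni.FL

/-- the linear form with given coefficients -/
noncomputable def gr (c : Fin 2 → ℝ) : E2 →L[ℝ] ℝ :=
  c 0 • (ContinuousLinearMap.proj 0 : E2 →L[ℝ] ℝ) + c 1 • (ContinuousLinearMap.proj 1 : E2 →L[ℝ] ℝ)

lemma gr_apply (c : Fin 2 → ℝ) (η : E2) : gr c η = c 0 * η 0 + c 1 * η 1 := by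
  simp [gr]

lemma gr_single (c : Fin 2 → ℝ) (j : Fin 2) : gr c (Pi.single j 1) = c j := by
  rw [gr_apply]
  fin_cases j <;> simp

lemma eq_gr (L : E2 →L[ℝ] ℝ) : L = gr (fun j => L (Pi.single j 1)) := by
  ext y
  have e : y = y 0 • (Pi.single 0 1 : E2) + y 1 • (Pi.single 1 1 : E2) := by
    ext i; fin_cases i <;> simp
  rw [gr_apply]
  conv_lhs => rw [e, map_add, map_smul, map_smul]
  simp only [smul_eq_mul]
  ring

/-- `φ` has gradient `c` at `y` -/
def HG (φ : E2 → ℝ) (y : E2) (c : Fin 2 → ℝ) : Prop := HasFDerivAt φ (gr c) y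

namespace HG

variable {φ ψ : E2 → ℝ} {y : E2} {c d : Fin 2 → ℝ}

lemma of_apply {L : E2 →L[ℝ] ℝ} (h : HasFDerivAt φ L y) (hc : ∀ j, L (Pi.single j 1) = c j) :
    HG φ y c := by
  have : L = gr c := by
    rw [eq_gr L]
    congr 1
    exact funext hc
  rwa [this] at h

lemma fderiv_eq (h : HG φ y c) (j : Fin 2) : fderiv ℝ φ y (Pi.single j 1) = c j := by
  rw [HasFDerivAt.fderiv h, gr_single]

lemma congr (h : HG φ y c) (hc : ∀ j, c j = d j) : HG φ y d := by
  have : c = d := funext hc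
  rwa [this] at h

lemma of_ev (h : HG φ y c) (he : ψ =ᶠ[𝓝 y] φ) : HG ψ y c :=
  HasFDerivAt.congr_of_eventuallyEq h he

lemma add (h : HG φ y c) (h' : HG ψ y d) : HG (fun u => φ u + ψ u) y (fun j => c j + d j) :=
  of_apply (HasFDerivAt.add h h') fun j => by simp [gr_single]

lemma mul (h : HG φ y c) (h' : HG ψ y d) :
    HG (fun u => φ u * ψ u) y (fun j => φ y * d j + ψ y * c j) :=
  of_apply (HasFDerivAt.mul h h') fun j => by simp [gr_single]

lemma const_mul (h : HG φ y c) (r : ℝ) : HG (fun u => r * φ u) y (fun j => r * c j) :=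
  of_apply (HasFDerivAt.const_mul h r) fun j => by simp [gr_single]

lemma mul_const (h : HG φ y c) (r : ℝ) : HG (fun u => φ u * r) y (fun j => c j * r) :=
  of_apply (HasFDerivAt.mul_const h r) fun j => by simp [gr_single, mul_comm]

lemma sq (h : HG φ y c) : HG (fun u => φ u ^ 2) y (fun j => 2 * φ y * c j) := by
  have := h.mul h
  simp only [← pow_two] at this
  exact this.congr fun j => by ring

lemma coord (k : Fin 2) (y : E2) : HG (fun u => u k) y (Pi.single k 1) :=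
  of_apply (ContinuousLinearMap.proj (R := ℝ) (φ := fun _ : Fin 2 => ℝ) k).hasFDerivAt fun j => by
    simp [Pi.single_apply, eq_comm]

lemma zero_of_ev (h : HG φ y c) (he : ∀ᶠ u in 𝓝 y, φ u = 0) (j : Fin 2) : c j = 0 := by
  have h1 : φ =ᶠ[𝓝 y] fun _ => 0 := he
  rw [← h.fderiv_eq j, h1.fderiv_eq]
  simp

lemma of_diff (h : DifferentiableAt ℝ φ y) : ∃ c, HG φ y c :=
  ⟨_, of_apply h.hasFDerivAt fun _ => rfl⟩

end HG

variable {U : Set E2}

lemma SP.compY {f : E2 × ℝ → ℝ} (hf : SP U f) {a : E2} (ha : a ∈ U) {θ : E2 → ℝ} {y : E2}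
    {c : Fin 2 → ℝ} (hθ : HG θ y c) :
    HG (fun η => f (a, θ η)) y (fun j => FL.D et f (a, θ y) * c j) := by
  have h1 : HasFDerivAt (fun η => ((a, θ η) : E2 × ℝ)) ((0 : E2 →L[ℝ] E2).prod (gr c)) y :=
    (hasFDerivAt_const a y).prodMk hθ
  refine HG.of_apply ((hf.diff (z := (a, θ y)) ha).hasFDerivAt.comp y h1) fun j => ?_
  have e : ((0 : E2 →L[ℝ] E2).prod (gr c)) (Pi.single j 1) = c j • et := by
    simp [et, gr_single]
  rw [ContinuousLinearMap.comp_apply, e, map_smul, smul_eq_mul, mul_comm]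
  rfl

lemma SP.compX {f : E2 × ℝ → ℝ} (hf : SP U f) {a : E2} (ha : a ∈ U) {θ : E2 → ℝ}
    {c : Fin 2 → ℝ} (hθ : HG θ a c) :
    HG (fun b => f (b, θ b)) a
      (fun j => FL.D (ea j) f (a, θ a) + FL.D et f (a, θ a) * c j) := by
  have h1 : HasFDerivAt (fun b => ((b, θ b) : E2 × ℝ))
      ((ContinuousLinearMap.id ℝ E2).prod (gr c)) a :=
    (hasFDerivAt_id a).prodMk hθ
  refine HG.of_apply ((hf.diff (z := (a, θ a)) ha).hasFDerivAt.comp a h1) fun j => ?_
  have e : ((ContinuousLinearMap.id ℝ E2).prod (gr c)) (Pi.single j 1) = ea j + c j • et := by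
    simp [et, ea, gr_single]
  rw [ContinuousLinearMap.comp_apply, e, map_add, map_smul, smul_eq_mul, mul_comm]
  rfl

variable {p q : Fin 2 → E2 × ℝ → ℝ} {A B : Fin 2 → Fin 2 → E2 × ℝ → ℝ}
  {Λ : ℝ → ℝ} {J : E2 × ℝ → ℝ} {Jd : Fin 2 → E2 × ℝ → ℝ}

/-- the supporting parameter -/
noncomputable def TT (p q : Fin 2 → E2 × ℝ → ℝ) (a y : E2) : ℝ :=
  Classical.epsilon (fun t => Supp p q a y t)

/-- the Finsler function -/
noncomputable def FF (p q : Fin 2 → E2 × ℝ → ℝ) (a y : E2) : ℝ := pr p (a, TT p q a y) y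

namespace Data

variable (h : Data U p q A B Λ J Jd)
include h

lemma supp_TT {a : E2} (ha : a ∈ U) {y : E2} (hy : y ≠ 0) : Supp p q a y (TT p q a y) :=
  Classical.epsilon_spec (h.exists_supp ha hy)

lemma FF_pos {a : E2} (ha : a ∈ U) {y : E2} (hy : y ≠ 0) : 0 < FF p q a y :=
  (h.supp_TT ha hy).2

lemma lift_eq {f : E2 × ℝ → ℝ} (hf : SP U f) {a : E2} (ha : a ∈ U) {y : E2} (hy : y ≠ 0) {t : ℝ}
    (ht : Supp p q a y t) : f (a, TT p q a y) = f (a, t) := by
  obtain ⟨n, hn⟩ := h.supp_unique ha ht (h.supp_TT ha hy)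
  rw [hn, hf.per_int ha]

lemma exists_local {a : E2} (ha : a ∈ U) {y : E2} (hy : y ≠ 0) :
    ∃ Θ : E2 × E2 → ℝ, ContDiffAt ℝ ∞ Θ (a, y) ∧ Θ (a, y) = TT p q a y ∧
      ∀ᶠ z in 𝓝 ((a, y) : E2 × E2), z.1 ∈ U ∧ z.2 ≠ 0 ∧ Supp p q z.1 z.2 (Θ z) := by
  set t := TT p q a y with ht
  have hs := h.supp_TT ha hy
  have hsm : ∀ (r : Fin 2 → E2 × ℝ → ℝ), (∀ i, SP U (r i)) →
      ContDiffAt ℝ ∞ (fun z : (E2 × E2) × ℝ => pr r (z.1.1, z.2) z.1.2) ((a, y), t) := by
    intro r hr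
    have h1 : ContDiffAt ℝ ∞ (fun z : (E2 × E2) × ℝ => ((z.1.1, z.2) : E2 × ℝ)) ((a, y), t) := by
      fun_prop
    have h2 : ∀ i, ContDiffAt ℝ ∞ (fun z : (E2 × E2) × ℝ => r i (z.1.1, z.2)) ((a, y), t) :=
      fun i => ContDiffAt.comp (g := r i) ((a, y), t) ((hr i).sm (a, t) ha) h1
    have h3 : ∀ i, ContDiffAt ℝ ∞ (fun z : (E2 × E2) × ℝ => z.1.2 i) ((a, y), t) := by
      intro i
      fun_prop
    exact ((h2 0).mul (h3 0)).add ((h2 1).mul (h3 1))
  have hH := hsm q h.sq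
  have hP := hsm p h.sp
  set H : (E2 × E2) × ℝ → ℝ := fun z => pr q (z.1.1, z.2) z.1.2 with hHdef
  have hc : -Λ t * pr p (a, t) y + J (a, t) * pr q (a, t) y ≠ 0 := by
    rw [hs.1]
    have := h.lam t
    have := hs.2
    nlinarith
  have hder : fderiv ℝ H ((a, y), t) ∘L ContinuousLinearMap.inr ℝ (E2 × E2) ℝ =
      ContinuousLinearMap.toSpanSingleton ℝ
        (-Λ t * pr p (a, t) y + J (a, t) * pr q (a, t) y) := by
    have h1 : HasFDerivAt (fun s : ℝ => H ((a, y), s))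
        (fderiv ℝ H ((a, y), t) ∘L ContinuousLinearMap.inr ℝ (E2 × E2) ℝ) t :=
      (hH.differentiableAt (by simp)).hasFDerivAt.comp t (hasFDerivAt_prodMk_right (a, y) t)
    exact h1.unique (h.dk' ha y t).hasFDerivAt
  have hinv : (fderiv ℝ H ((a, y), t) ∘L ContinuousLinearMap.inr ℝ (E2 × E2) ℝ).IsInvertible := by
    rw [hder]
    refine ⟨ContinuousLinearEquiv.unitsEquivAut ℝ (Units.mk0 _ hc), ?_⟩
    ext
    simp
  have hn : (∞ : WithTop ℕ∞) ≠ 0 := by simp
  refine ⟨hH.implicitFunction hn hinv, hH.contDiffAt_implicitFunction hn hinv,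
    hH.implicitFunction_apply_self hn hinv, ?_⟩
  have e1 := hH.eventually_apply_implicitFunction hn hinv
  have e2 : ∀ᶠ z in 𝓝 ((a, y) : E2 × E2), z.1 ∈ U :=
    continuous_fst.continuousAt.eventually (h.isOpen.mem_nhds ha)
  have e3 : ∀ᶠ z in 𝓝 ((a, y) : E2 × E2), z.2 ≠ 0 :=
    (continuous_snd.continuousAt (x := ((a, y) : E2 × E2))).eventually_ne hy
  have c1 : ContinuousAt (fun z : E2 × E2 => (z, hH.implicitFunction hn hinv z)) (a, y) :=
    continuousAt_id.prodMk (hH.contDiffAt_implicitFunction hn hinv).continuousAt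
  have c2 : ContinuousAt (fun z : E2 × E2 => pr p (z.1, hH.implicitFunction hn hinv z) z.2)
      (a, y) := by
    refine ContinuousAt.comp (g := fun z : (E2 × E2) × ℝ => pr p (z.1.1, z.2) z.1.2) ?_ c1
    have : hH.implicitFunction hn hinv (a, y) = t := hH.implicitFunction_apply_self hn hinv
    rw [this]
    exact hP.continuousAt
  have e4 : ∀ᶠ z in 𝓝 ((a, y) : E2 × E2), 0 < pr p (z.1, hH.implicitFunction hn hinv z) z.2 := by
    refine c2.eventually (lt_mem_nhds ?_)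
    have : hH.implicitFunction hn hinv (a, y) = t := hH.implicitFunction_apply_self hn hinv
    simp only [this]
    exact hs.2
  filter_upwards [e1, e2, e3, e4] with z h1 h2 h3 h4
  exact ⟨h2, h3, h1.trans hs.1, h4⟩

lemma lift_smooth {f : E2 × ℝ → ℝ} (hf : SP U f) {a : E2} (ha : a ∈ U) {y : E2} (hy : y ≠ 0) :
    ContDiffAt ℝ ∞ (fun z : E2 × E2 => f (z.1, TT p q z.1 z.2)) (a, y) := by
  obtain ⟨Θ, h1, h2, h3⟩ := h.exists_local ha hy
  have h4 : ContDiffAt ℝ ∞ (fun z : E2 × E2 => f (z.1, Θ z)) (a, y) :=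
    ContDiffAt.comp (g := f) (a, y) (hf.sm _ ha) (contDiffAt_fst.prodMk h1)
  refine h4.congr_of_eventuallyEq ?_
  filter_upwards [h3] with z hz
  exact h.lift_eq hf hz.1 hz.2.1 hz.2.2

lemma liftY {f : E2 × ℝ → ℝ} (hf : SP U f) {a : E2} (ha : a ∈ U) {y : E2} (hy : y ≠ 0) :
    HG (fun η => f (a, TT p q a η)) y (fun j => D et f (a, TT p q a y) *
      (q j (a, TT p q a y) / (Λ (TT p q a y) * FF p q a y))) := by
  obtain ⟨Θ, h1, h2, h3⟩ := h.exists_local ha hy
  have hi : ContinuousAt (fun η : E2 => ((a, η) : E2 × E2)) y := by fun_prop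
  have h4 := hi.eventually h3
  have h5 : DifferentiableAt ℝ (fun η : E2 => Θ (a, η)) y :=
    DifferentiableAt.comp (g := Θ) y (h1.differentiableAt (by simp)) (by fun_prop)
  obtain ⟨c, hc⟩ := HG.of_diff h5
  have h6 := ((((h.sq 0).compY ha hc).mul (HG.coord 0 y)).add
    (((h.sq 1).compY ha hc).mul (HG.coord 1 y))).zero_of_ev (h4.mono fun η hη => hη.2.2.1)
  have h7 : ∀ j, c j = q j (a, TT p q a y) / (Λ (TT p q a y) * FF p q a y) := by
    intro j
    have h8 := h6 j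
    simp only [h2] at h8
    rw [h.qt _ ha, h.qt _ ha] at h8
    have h9 := (h.supp_TT ha hy).1
    have h10 := h.FF_pos ha hy
    have h11 := h.lam (TT p q a y)
    rw [eq_div_iff (by positivity)]
    unfold FF pr at *
    fin_cases j
    · simp at h8 ⊢
      linear_combination -h8 + J (a, TT p q a y) * c 0 * h9
    · simp at h8 ⊢
      linear_combination -h8 + J (a, TT p q a y) * c 1 * h9
  have h8 := (hf.compY ha hc).of_ev (ψ := fun η => f (a, TT p q a η))
    (h4.mono fun η hη => h.lift_eq hf ha hη.2.1 hη.2.2)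
  refine h8.congr fun j => ?_
  simp only [h2, h7]

lemma liftX {f : E2 × ℝ → ℝ} (hf : SP U f) {a : E2} (ha : a ∈ U) {y : E2} (hy : y ≠ 0) :
    HG (fun b => f (b, TT p q b y)) a (fun j => D (ea j) f (a, TT p q a y) +
      D et f (a, TT p q a y) *
      (pr (B j) (a, TT p q a y) y / (Λ (TT p q a y) * FF p q a y))) := by
  obtain ⟨Θ, h1, h2, h3⟩ := h.exists_local ha hy
  have hi : ContinuousAt (fun b : E2 => ((b, y) : E2 × E2)) a := by fun_prop
  have h4 := hi.eventually h3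
  have h5 : DifferentiableAt ℝ (fun b : E2 => Θ (b, y)) a :=
    DifferentiableAt.comp (g := Θ) a (h1.differentiableAt (by simp)) (by fun_prop)
  obtain ⟨c, hc⟩ := HG.of_diff h5
  have h6 := ((((h.sq 0).compX ha hc).mul_const (y 0)).add
    (((h.sq 1).compX ha hc).mul_const (y 1))).zero_of_ev (h4.mono fun η hη => hη.2.2.1)
  have h7 : ∀ j, c j = pr (B j) (a, TT p q a y) y / (Λ (TT p q a y) * FF p q a y) := by
    intro j
    have h8 := h6 j
    simp only [h2] at h8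
    rw [h.qt _ ha, h.qt _ ha, h.qa _ ha, h.qa _ ha] at h8
    have h9 := (h.supp_TT ha hy).1
    have h10 := h.FF_pos ha hy
    have h11 := h.lam (TT p q a y)
    rw [eq_div_iff (by positivity)]
    unfold FF pr at *
    simp only at h8
    linear_combination -h8 + J (a, TT p q a y) * c j * h9
  have h8 := (hf.compX ha hc).of_ev (ψ := fun b => f (b, TT p q b y))
    (h4.mono fun b hb => h.lift_eq hf hb.1 hy hb.2.2)
  refine h8.congr fun j => ?_
  simp only [h2, h7]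

end Data

end Pool.Agent.H238Z.Uni.FL
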