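import Pool.Agent.H238Z.Uni.Finsler3

/-!
The spray of the family and its derivatives.
-/

set_option autoImplicit false

open Set Real Filter Topology
open scoped ContDiff

namespace Pool.Agent.H238Z.Uni.FL

/-- the determinant -/
def WW (p q : Fin 2 → E2 × ℝ → ℝ) (z : E2 × ℝ) : ℝ := p 0 z * q 1 z - p 1 z * q 0 z

/-- first vector of the dual basis -/
noncomputable def e1 (p q : Fin 2 → E2 × ℝ → ℝ) : Fin 2 → E2 × ℝ → ℝ :=
  ![fun z => q 1 z / WW p q z, fun z => -q 0 z / WW p q z]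

/-- second vector of the dual basis -/
noncomputable def e2 (p q : Fin 2 → E2 × ℝ → ℝ) : Fin 2 → E2 × ℝ → ℝ :=
  ![fun z => -p 1 z / WW p q z, fun z => p 0 z / WW p q z]

/-- the connection coefficients -/
noncomputable def Gm (p q : Fin 2 → E2 × ℝ → ℝ) (A B : Fin 2 → Fin 2 → E2 × ℝ → ℝ)
    (i j k : Fin 2) (z : E2 × ℝ) : ℝ := A j k z * e1 p q i z + B j k z * e2 p q i z

/-- the spray coefficients -/
noncomputable def GG (p q : Fin 2 → E2 × ℝ → ℝ) (A B : Fin 2 → Fin 2 → E2 × ℝ → ℝ)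
    (a y : E2) (i : Fin 2) : ℝ :=
  1 / 2 * (y 0 * pr (Gm p q A B i 0) (a, TT p q a y) y +
    y 1 * pr (Gm p q A B i 1) (a, TT p q a y) y)

variable {U : Set E2} {p q : Fin 2 → E2 × ℝ → ℝ} {A B : Fin 2 → Fin 2 → E2 × ℝ → ℝ}
  {Λ : ℝ → ℝ} {J : E2 × ℝ → ℝ} {Jd : Fin 2 → E2 × ℝ → ℝ}

lemma ev_ne {y : E2} (hy : y ≠ 0) : ∀ᶠ w in 𝓝 y, w ≠ 0 := isOpen_ne.mem_nhds hy

namespace Data

variable (h : Data U p q A B Λ J Jd)
include h

lemma WW_ne {z : E2 × ℝ} (hz : z.1 ∈ U) : WW p q z ≠ 0 := (h.det z hz).ne'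

lemma sW : SP U (WW p q) := ((h.sp 0).mul (h.sq 1)).sub ((h.sp 1).mul (h.sq 0))

lemma se1 (i : Fin 2) : SP U (e1 p q i) := by
  fin_cases i
  · exact (h.sq 1).div h.sW fun _ hz => h.WW_ne hz
  · exact (h.sq 0).neg.div h.sW fun _ hz => h.WW_ne hz

lemma se2 (i : Fin 2) : SP U (e2 p q i) := by
  fin_cases i
  · exact (h.sp 1).neg.div h.sW fun _ hz => h.WW_ne hz
  · exact (h.sp 0).div h.sW fun _ hz => h.WW_ne hz

lemma sG (i j k : Fin 2) : SP U (Gm p q A B i j k) :=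
  ((h.sA j k).mul (h.se1 i)).add ((h.sB j k).mul (h.se2 i))

lemma dp {a : E2} (ha : a ∈ U) (k : Fin 2) (t : ℝ) :
    HasDerivAt (fun t => p k (a, t)) (q k (a, t)) t := by
  have := (h.sp k).hasDerivAt ha t
  rwa [h.pt (a, t) ha] at this

lemma dq {a : E2} (ha : a ∈ U) (k : Fin 2) (t : ℝ) :
    HasDerivAt (fun t => q k (a, t)) (-Λ t * p k (a, t) + J (a, t) * q k (a, t)) t := by
  have := (h.sq k).hasDerivAt ha t
  rwa [h.qt (a, t) ha] at this

lemma dW {a : E2} (ha : a ∈ U) (t : ℝ) :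
    HasDerivAt (fun t => WW p q (a, t)) (J (a, t) * WW p q (a, t)) t := by
  refine HasDerivAt.congr_deriv (((h.dp ha 0 t).mul (h.dq ha 1 t)).sub
    ((h.dp ha 1 t).mul (h.dq ha 0 t))) ?_
  unfold WW
  ring

lemma de1 {a : E2} (ha : a ∈ U) (i : Fin 2) (t : ℝ) :
    HasDerivAt (fun t => e1 p q i (a, t)) (Λ t * e2 p q i (a, t)) t := by
  have hW := h.WW_ne (z := (a, t)) ha
  fin_cases i
  · refine HasDerivAt.congr_deriv ((h.dq ha 1 t).div (h.dW ha t) hW) ?_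
    simp only [e2, Fin.zero_eta, Matrix.cons_val_zero]
    field_simp
    ring
  · refine HasDerivAt.congr_deriv ((h.dq ha 0 t).neg.div (h.dW ha t) hW) ?_
    simp only [e2, Fin.mk_one, Matrix.cons_val_one, Matrix.cons_val_zero, Pi.neg_apply]
    field_simp
    ring

lemma de2 {a : E2} (ha : a ∈ U) (i : Fin 2) (t : ℝ) :
    HasDerivAt (fun t => e2 p q i (a, t)) (-e1 p q i (a, t) - J (a, t) * e2 p q i (a, t)) t := by
  have hW := h.WW_ne (z := (a, t)) ha
  fin_cases i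
  · refine HasDerivAt.congr_deriv ((h.dp ha 1 t).neg.div (h.dW ha t) hW) ?_
    simp only [e1, e2, Fin.zero_eta, Matrix.cons_val_zero, Pi.neg_apply]
    field_simp
  · refine HasDerivAt.congr_deriv ((h.dp ha 0 t).div (h.dW ha t) hW) ?_
    simp only [e1, e2, Fin.mk_one, Matrix.cons_val_one, Matrix.cons_val_zero]
    field_simp

lemma Gt {z : E2 × ℝ} (hz : z.1 ∈ U) (i j k : Fin 2) :
    D et (Gm p q A B i j k) z = Jd j z * q k z * e2 p q i z := by
  obtain ⟨a, t⟩ := z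
  have hA := (h.sA j k).hasDerivAt hz t
  have hB := (h.sB j k).hasDerivAt hz t
  rw [h.At (a, t) hz] at hA
  rw [h.Bt (a, t) hz] at hB
  have h1 := (hA.mul (h.de1 hz i t)).add (hB.mul (h.de2 hz i t))
  have h2 := ((h.sG i j k).hasDerivAt hz t).unique h1
  rw [h2]
  ring

lemma G_symm {z : E2 × ℝ} (hz : z.1 ∈ U) (i j k : Fin 2) :
    Gm p q A B i j k z = Gm p q A B i k j z := by
  unfold Gm
  rw [h.symA z hz j k, h.symB z hz j k]

lemma Fy {a : E2} (ha : a ∈ U) {y : E2} (hy : y ≠ 0) :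
    HG (fun u => FF p q a u) y (fun j => p j (a, TT p q a y)) := by
  refine (((h.liftY (h.sp 0) ha hy).mul (HG.coord 0 y)).add
    ((h.liftY (h.sp 1) ha hy).mul (HG.coord 1 y))).congr fun j => ?_
  rw [h.pt _ ha, h.pt _ ha]
  have h9 := (h.supp_TT ha hy).1
  unfold pr at h9
  fin_cases j
  · simp
    linear_combination q 0 (a, TT p q a y) / (Λ (TT p q a y) * FF p q a y) * h9
  · simp
    linear_combination q 1 (a, TT p q a y) / (Λ (TT p q a y) * FF p q a y) * h9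

lemma F2y {a : E2} (ha : a ∈ U) {y : E2} (hy : y ≠ 0) (j : Fin 2) :
    fderiv ℝ (fun u => FF p q a u ^ 2) y (Pi.single j 1) =
      2 * FF p q a y * p j (a, TT p q a y) :=
  (h.Fy ha hy).sq.fderiv_eq j

lemma F2yy {a : E2} (ha : a ∈ U) {y : E2} (hy : y ≠ 0) (i j : Fin 2) :
    fderiv ℝ (fun w => fderiv ℝ (fun u => FF p q a u ^ 2) w (Pi.single j 1)) y (Pi.single i 1) =
      2 * (p i (a, TT p q a y) * p j (a, TT p q a y) +
        q i (a, TT p q a y) * q j (a, TT p q a y) / Λ (TT p q a y)) := by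
  have h1 := (((h.Fy ha hy).const_mul 2).mul (h.liftY (h.sp j) ha hy)).of_ev
    (ψ := fun w => fderiv ℝ (fun u => FF p q a u ^ 2) w (Pi.single j 1))
    ((ev_ne hy).mono fun w hw => h.F2y ha hw j)
  rw [h1.fderiv_eq, h.pt _ ha]
  have h10 := h.FF_pos ha hy
  have h11 := h.lam (TT p q a y)
  field_simp
  ring

lemma Fx {a : E2} (ha : a ∈ U) {y : E2} (hy : y ≠ 0) :
    HG (fun b => FF p q b y) a (fun k => pr (A k) (a, TT p q a y) y) := by
  refine (((h.liftX (h.sp 0) ha hy).mul_const (y 0)).add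
    ((h.liftX (h.sp 1) ha hy).mul_const (y 1))).congr fun k => ?_
  rw [h.pt _ ha, h.pt _ ha, h.pa _ ha, h.pa _ ha]
  have h9 := (h.supp_TT ha hy).1
  set θ := pr (B k) (a, TT p q a y) y / (Λ (TT p q a y) * FF p q a y)
  unfold pr at h9 ⊢
  linear_combination θ * h9

lemma F2x {a : E2} (ha : a ∈ U) {y : E2} (hy : y ≠ 0) (l : Fin 2) :
    fderiv ℝ (fun b => FF p q b y ^ 2) a (Pi.single l 1) =
      2 * FF p q a y * pr (A l) (a, TT p q a y) y :=
  (h.Fx ha hy).sq.fderiv_eq l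

lemma F2xy {a : E2} (ha : a ∈ U) {y : E2} (hy : y ≠ 0) (k l : Fin 2) :
    fderiv ℝ (fun b => fderiv ℝ (fun u => FF p q b u ^ 2) y (Pi.single l 1)) a (Pi.single k 1) =
      2 * FF p q a y * A k l (a, TT p q a y) +
        2 * q l (a, TT p q a y) * pr (B k) (a, TT p q a y) y / Λ (TT p q a y) +
        2 * p l (a, TT p q a y) * pr (A k) (a, TT p q a y) y := by
  have h1 := (((h.Fx ha hy).const_mul 2).mul (h.liftX (h.sp l) ha hy)).of_ev
    (ψ := fun b => fderiv ℝ (fun u => FF p q b u ^ 2) y (Pi.single l 1))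
    ((h.isOpen.eventually_mem ha).mono fun b hb => h.F2y hb hy l)
  rw [h1.fderiv_eq, h.pt _ ha, h.pa _ ha]
  have h10 := h.FF_pos ha hy
  have h11 := h.lam (TT p q a y)
  field_simp

lemma Py {a : E2} (ha : a ∈ U) {y : E2} (hy : y ≠ 0) (i l : Fin 2) :
    HG (fun u => pr (Gm p q A B i l) (a, TT p q a u) u) y
      (fun k => Gm p q A B i l k (a, TT p q a y)) := by
  refine (((h.liftY (h.sG i l 0) ha hy).mul (HG.coord 0 y)).add
    ((h.liftY (h.sG i l 1) ha hy).mul (HG.coord 1 y))).congr fun j => ?_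
  rw [h.Gt (z := (a, TT p q a y)) ha, h.Gt (z := (a, TT p q a y)) ha]
  have h9 := (h.supp_TT ha hy).1
  unfold pr at h9
  fin_cases j
  · simp
    linear_combination Jd l (a, TT p q a y) * e2 p q i (a, TT p q a y) *
      (q 0 (a, TT p q a y) / (Λ (TT p q a y) * FF p q a y)) * h9
  · simp
    linear_combination Jd l (a, TT p q a y) * e2 p q i (a, TT p q a y) *
      (q 1 (a, TT p q a y) / (Λ (TT p q a y) * FF p q a y)) * h9

lemma G1 {a : E2} (ha : a ∈ U) {y : E2} (hy : y ≠ 0) (i l : Fin 2) :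
    fderiv ℝ (fun u => GG p q A B a u i) y (Pi.single l 1) =
      pr (Gm p q A B i l) (a, TT p q a y) y := by
  have h1 := ((((HG.coord 0 y).mul (h.Py ha hy i 0)).add
    ((HG.coord 1 y).mul (h.Py ha hy i 1))).const_mul (1 / 2)).fderiv_eq l
  refine h1.trans ?_
  have h2 := h.G_symm (z := (a, TT p q a y)) ha i 0 1
  unfold pr
  fin_cases l
  · simp
    rw [h2]
    ring
  · simp
    rw [h2]
    ring

lemma G2 {a : E2} (ha : a ∈ U) {y : E2} (hy : y ≠ 0) (i k l : Fin 2) :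
    fderiv ℝ (fun w₁ => fderiv ℝ (fun u => GG p q A B a u i) w₁ (Pi.single l 1)) y
      (Pi.single k 1) = Gm p q A B i l k (a, TT p q a y) :=
  ((h.Py ha hy i l).of_ev ((ev_ne hy).mono fun _ hw => h.G1 ha hw i l)).fderiv_eq k

lemma G3 {a : E2} (ha : a ∈ U) {y : E2} (hy : y ≠ 0) (i j k l : Fin 2) :
    fderiv ℝ (fun w₂ => fderiv ℝ (fun w₁ => fderiv ℝ (fun u => GG p q A B a u i) w₁
      (Pi.single l 1)) w₂ (Pi.single k 1)) y (Pi.single j 1) =
      D et (Gm p q A B i l k) (a, TT p q a y) *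
        (q j (a, TT p q a y) / (Λ (TT p q a y) * FF p q a y)) :=
  ((h.liftY (h.sG i l k) ha hy).of_ev ((ev_ne hy).mono fun _ hw => h.G2 ha hw i k l)).fderiv_eq j

end Data

end Pool.Agent.H238Z.Uni.FL
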