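import Pool.Agent.H238Z.Uni.Qfun

/-!
The kernels of the delay equation as smooth functionals on spaces of continuous functions.
-/

open Set Real Filter Topology Metric
open scoped ContDiff

namespace Pool.Agent.H238Z.Uni

theorem abs_coe_le (σ : S1) : |(σ : ℝ)| ≤ 1 := abs_le.2 σ.2

theorem mul_memS {σ ρ : ℝ} (h : σ ∈ S1) (h' : ρ ∈ I01) : σ * ρ ∈ S1 := by
  constructor <;> nlinarith [h.1, h.2, h'.1, h'.2]

/-- The coefficient functions on all initial segments. -/
noncomputable def lift : AA →L[ℝ] C(S1, A1) :=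
  mk2 (fun g σ ρ => σ * ext h11 g (σ * ρ))
    (fun g => by
      have := continuous_ext h11 g
      fun_prop)
    (fun x y k s => by simp only [ext, ContinuousMap.add_apply]; ring)
    (fun c x k s => by simp only [ext, ContinuousMap.smul_apply, smul_eq_mul]; ring) 1 zero_le_one
    (fun g σ ρ => by
      rw [abs_mul]
      exact mul_le_mul (abs_coe_le σ) (norm_ext_le h11 g _) (abs_nonneg _) zero_le_one)

/-- The averaging operator in the equation for `q`. -/
noncomputable def Jop : AA →L[ℝ] AA :=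
  kerInt (fun f σ ρ => ρ ^ 2 * ext h11 f (σ * ρ)) zero_le_one
    (fun f => by
      have := continuous_ext h11 f
      fun_prop)
    (fun x y k s => by simp only [ext, ContinuousMap.add_apply]; ring)
    (fun c x k s => by simp only [ext, ContinuousMap.smul_apply, smul_eq_mul]; ring) 1 zero_le_one
    (fun f k s hs => by
      have h2 : s ^ 2 ≤ 1 := by nlinarith [hs.1, hs.2]
      rw [abs_mul, abs_of_nonneg (sq_nonneg s)]
      exact mul_le_mul h2 (norm_ext_le h11 f _) (abs_nonneg _) zero_le_one)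

/-- The primitive vanishing at `c`. -/
noncomputable def prim (c : S1) : AA →L[ℝ] AA :=
  mkCLM (fun f σ => ∫ s in (c : ℝ)..σ, ext h11 f s)
    (fun f => (intervalIntegral.continuous_primitive
      (fun a b => (continuous_ext h11 f).intervalIntegrable a b) c).comp continuous_subtype_val)
    (fun x y k => by
      rw [← intervalIntegral.integral_add ((continuous_ext h11 x).intervalIntegrable _ _)
        ((continuous_ext h11 y).intervalIntegrable _ _)]
      rfl)
    (fun c x k => by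
      rw [← intervalIntegral.integral_smul]
      rfl) 2 zero_le_two
    (fun f σ => by
      have := intervalIntegral.norm_integral_le_of_norm_le_const (a := c) (b := σ)
        (f := ext h11 f) (C := ‖f‖) (fun s _ => norm_ext_le h11 f s)
      have h2 : |(σ : ℝ) - c| ≤ 2 := by
        rw [abs_le]; constructor <;> linarith [σ.2.1, σ.2.2, c.2.1, c.2.2]
      calc _ ≤ _ := this
        _ ≤ ‖f‖ * 2 := by gcongr
        _ = _ := mul_comm _ _)

theorem prim_eq (c σ : S1) (Φ : AA) {f : ℝ → ℝ} (hf : ∀ s : S1, Φ s = f s) :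
    prim c Φ σ = ∫ s in (c : ℝ)..σ, f s := by
  refine intervalIntegral.integral_congr fun s hs => ?_
  have : s ∈ S1 := (ordConnected_Icc.uIcc_subset c.2 σ.2) hs
  rw [ext_of_mem h11 Φ this, hf]

/-- The point `-1`. -/
def pm : S1 := ⟨-1, by norm_num⟩

/-- The point `0`. -/
def p0 : S1 := ⟨0, by norm_num⟩

/-- The point `1`. -/
def pp : S1 := ⟨1, by norm_num⟩

/-- `q` as a functional. -/
noncomputable def qF (u : AA × AA) : AA :=
  evalAlong (ContinuousMap.const S1 one01) (om QQ (lift u.2))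

/-- `1 / q` as a functional. -/
noncomputable def iq (u : AA × AA) : AA := om (fun x : ℝ => 1 / x) (qF u)

/-- `zeta` as a functional. -/
noncomputable def zt (u : AA × AA) : AA := om exp ((-2 : ℝ) • prim pm (u.2 * iq u))

/-- `Gam1` as a functional. -/
noncomputable def G1f (κ : ℝ) (u : AA × AA) : AA := om (Gam1 κ) u.1

/-- `Gam2` as a functional. -/
noncomputable def G2f (κ : ℝ) (u : AA × AA) : AA := om (Gam2 κ) u.1

/-- `PP` as a functional. -/
noncomputable def Pf (κ : ℝ) (u : AA × AA) : AA := -prim pp (G1f κ u * u.2 * zt u * iq u)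

/-- `Psi` as a functional. -/
noncomputable def Psf (κ : ℝ) (u : AA × AA) : AA :=
  (G1f κ u * (zt u * zt u) - (2 : ℝ) • (zt u * Pf κ u)) * iq u

/-- The derivative of `Psi` in the second variable as a functional. -/
noncomputable def Pss (κ : ℝ) (u : AA × AA) : AA :=
  ((-2 : ℝ) • (G2f κ u * sg * u.2 * (zt u * zt u)) -
      (2 : ℝ) • (G1f κ u * u.2 * (zt u * zt u) * iq u) +
      (4 : ℝ) • (u.2 * zt u * Pf κ u * iq u)) * iq u -
    Psf κ u * ((-2 : ℝ) • u.2 + (4 : ℝ) • (Jop (u.2 * qF u) * iq u)) * iq u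

/-- `RR` as a functional. -/
noncomputable def Rf (κ : ℝ) (u : AA × AA) : ℝ :=
  intC h11 (u.2 * (u.2 * (G2f κ u * (zt u * zt u) * iq u)))

/-- `ss Z - Z` as a functional. -/
noncomputable def sf (u : AA × AA) : ℝ :=
  (evC pm (prim p0 (iq u)) - evC p0 u.1) * (evC pm (prim p0 (iq u)) - evC p0 u.1) - 1

theorem sm_fst : Sm (fun u : AA × AA => u.1) 0 := sm_of_contDiff contDiff_fst _

theorem sm_snd : Sm (fun u : AA × AA => u.2) 0 := sm_of_contDiff contDiff_snd _

theorem sm_qF : Sm qF 0 := by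
  have h1 : Sm (om QQ : C(S1, A1) → C(S1, A1)) 0 := sm_om fun _ => sm_QQ
  have h2 : Sm (fun u : AA × AA => lift u.2) 0 := Sm.clm (Z := C(S1, A1)) lift sm_snd
  have h3 : Sm (fun u : AA × AA => om QQ (lift u.2)) 0 := h1.comp h2 (by simp)
  exact Sm.clm (Y := C(S1, A1)) (Z := AA) (evalAlong (ContinuousMap.const S1 one01)) h3

theorem qF_zero : qF 0 = 1 := by
  ext σ
  simp only [qF, Prod.snd_zero, map_zero, evalAlong_apply]
  rw [om_apply (u := (0 : C(S1, A1))) fun _ => sm_QQ.cont]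
  simp [QQ_zero]

theorem sm_inv : Sm (fun x : ℝ => 1 / x) 1 := by
  filter_upwards [(isOpen_ne (x := (0 : ℝ))).mem_nhds one_ne_zero] with x hx
  exact contDiffAt_const.div contDiffAt_id hx

theorem sm_iq : Sm iq 0 := by
  have h1 : Sm (om (fun x : ℝ => 1 / x) : AA → AA) 1 := sm_om fun _ => sm_inv
  exact h1.comp sm_qF qF_zero

theorem iq_zero : iq 0 = 1 := by
  ext σ
  rw [iq, qF_zero, om_apply (u := (1 : AA)) fun _ => sm_inv.cont]
  simp

theorem sm_zt : Sm zt 0 :=
  (sm_om fun _ => sm_of_contDiff contDiff_exp _).comp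
    (((sm_snd.mul sm_iq).clm (prim pm)).const_smul (-2)) rfl

theorem zt_zero : zt 0 = 1 := by
  ext σ
  rw [zt, om_apply fun _ => continuous_exp.continuousAt]
  simp

theorem sm_Gam1 (κ : ℝ) : Sm (Gam1 κ) 0 := by
  have : ∀ᶠ s in 𝓝 (0 : ℝ), 1 - κ * s ≠ 0 :=
    (by fun_prop : ContinuousAt (fun s : ℝ => 1 - κ * s) 0).eventually_ne (by simp)
  filter_upwards [this] with s hs
  exact contDiffAt_const.div (by fun_prop) (pow_ne_zero 2 hs)

theorem sm_Gam2 (κ : ℝ) : Sm (Gam2 κ) 0 := by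
  have : ∀ᶠ s in 𝓝 (0 : ℝ), 1 - κ * s ≠ 0 :=
    (by fun_prop : ContinuousAt (fun s : ℝ => 1 - κ * s) 0).eventually_ne (by simp)
  filter_upwards [this] with s hs
  exact contDiffAt_const.div (by fun_prop) (pow_ne_zero 3 hs)

theorem sm_G1f (κ : ℝ) : Sm (G1f κ) 0 := by
  have h1 : Sm (om (Gam1 κ) : AA → AA) 0 := sm_om fun _ => sm_Gam1 κ
  exact h1.comp sm_fst rfl

theorem sm_G2f (κ : ℝ) : Sm (G2f κ) 0 := by
  have h1 : Sm (om (Gam2 κ) : AA → AA) 0 := sm_om fun _ => sm_Gam2 κ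
  exact h1.comp sm_fst rfl

theorem G1f_zero (κ : ℝ) : G1f κ 0 = 1 := by
  ext σ
  rw [G1f, Prod.fst_zero, om_apply (u := (0 : AA)) fun _ => (sm_Gam1 κ).cont]
  simp [Gam1]

theorem sm_Pf (κ : ℝ) : Sm (Pf κ) 0 :=
  (((((sm_G1f κ).mul sm_snd).mul sm_zt).mul sm_iq).clm (prim pp)).neg

theorem Pf_zero (κ : ℝ) : Pf κ 0 = 0 := by simp [Pf]

theorem sm_Psf (κ : ℝ) : Sm (Psf κ) 0 :=
  (((sm_G1f κ).mul (sm_zt.mul sm_zt)).sub ((sm_zt.mul (sm_Pf κ)).const_smul 2)).mul sm_iq

theorem Psf_zero (κ : ℝ) : Psf κ 0 = 1 := by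
  simp [Psf, G1f_zero, zt_zero, Pf_zero, iq_zero]

theorem sm_Pss (κ : ℝ) : Sm (Pss κ) 0 :=
  ((((((((sm_G2f κ).mul (sm_const sg _)).mul sm_snd).mul (sm_zt.mul sm_zt)).const_smul (-2)).sub
    (((((sm_G1f κ).mul sm_snd).mul (sm_zt.mul sm_zt)).mul sm_iq).const_smul 2)).add
    ((((sm_snd.mul sm_zt).mul (sm_Pf κ)).mul sm_iq).const_smul 4)).mul sm_iq).sub
    (((sm_Psf κ).mul ((sm_snd.const_smul (-2)).add
      ((((sm_snd.mul sm_qF).clm Jop).mul sm_iq).const_smul 4))).mul sm_iq)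

theorem Pss_zero (κ : ℝ) : Pss κ 0 = 0 := by simp [Pss]

theorem sm_Rf (κ : ℝ) : Sm (Rf κ) 0 :=
  (sm_snd.mul (sm_snd.mul (((sm_G2f κ).mul (sm_zt.mul sm_zt)).mul sm_iq))).clm (intC h11)

theorem fderiv_Rf_zero (κ : ℝ) : fderiv ℝ (Rf κ) 0 = 0 := by
  have h1 := hasFDerivAt_mul_zero sm_snd.diff
    (sm_snd.mul (((sm_G2f κ).mul (sm_zt.mul sm_zt)).mul sm_iq)).diff rfl (by simp)
  have h2 := (intC (F := ℝ) h11).hasFDerivAt.comp (0 : AA × AA) h1
  rw [ContinuousLinearMap.comp_zero] at h2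
  exact h2.fderiv

theorem sm_sf : Sm sf 0 := by
  have h1 := ((sm_iq.clm (prim p0)).clm (evC pm)).sub (sm_fst.clm (evC p0))
  exact (h1.mul h1).sub (sm_const 1 _)

theorem sf_zero : sf 0 = 0 := by
  have : prim p0 (1 : AA) pm = -1 := by
    rw [prim_eq p0 pm 1 (f := fun _ => 1) fun _ => rfl]
    simp [p0, pm]
  simp [sf, iq_zero, this]

end Pool.Agent.H238Z.Uni
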