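import Pool.Agent.H238Z.Uni.Nfun

/-!
The functionals evaluated on a smooth profile.
-/

open Set Real Filter Topology Metric
open scoped ContDiff

namespace Pool.Agent.H238Z.Uni

/-- A function along the parabola with top `Z`. -/
noncomputable def fld (φ : ℝ → ℝ) (Z : ℝ) : AA := om φ (constC S1 ℝ Z - sg * sg)

theorem fld_apply {φ : ℝ → ℝ} (h : Continuous φ) (Z : ℝ) (σ : S1) :
    fld φ Z σ = φ (Z - (σ : ℝ) ^ 2) := by
  rw [fld, om_apply fun _ => h.continuousAt]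
  simp [sq]

theorem hasDerivAt_fld {φ : ℝ → ℝ} (h : ContDiff ℝ ∞ φ) (Z : ℝ) :
    HasDerivAt (fld φ) (fld (deriv φ) Z) Z := by
  have hA : HasFDerivAt (fun Z : ℝ => constC S1 ℝ Z - sg * sg) (constC S1 ℝ) Z :=
    (constC S1 ℝ).hasFDerivAt.sub_const _
  obtain ⟨D, a1, a2⟩ := hasFDerivAt_om_comp (f := φ) hA fun _ => h.contDiffAt.of_le (by simp)
  have a3 : D 1 = fld (deriv φ) Z := by
    ext σ
    rw [a2, fld_apply (h.continuous_deriv (by simp))]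
    simp [sq]
  rw [← a3]
  exact a1.hasDerivAt

/-- The profile and its derivative along the parabola with top `Z`. -/
noncomputable def uZ (G : ℝ → ℝ) (Z : ℝ) : AA × AA := (fld G Z, fld (deriv G) Z)

variable {κ b : ℝ} {G : ℝ → ℝ}

theorem memS_dom {Z : ℝ} (hZ : Z < b) (σ : S1) : (Z, (σ : ℝ)) ∈ dom b :=
  ⟨hZ, by linarith [σ.2.1], by linarith [σ.2.2]⟩

theorem Small.hasDerivAt_uZ (h : Small κ b G) (Z : ℝ) :
    HasDerivAt (uZ G) (uZ (deriv G) Z) Z :=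
  (hasDerivAt_fld h.sG Z).prodMk (hasDerivAt_fld h.sG' Z)

theorem Small.u1 (h : Small κ b G) (Z : ℝ) (σ : S1) : (uZ G Z).1 σ = G (Z - (σ : ℝ) ^ 2) :=
  fld_apply h.sG.continuous Z σ

theorem Small.u2 (h : Small κ b G) (Z : ℝ) (σ : S1) :
    (uZ G Z).2 σ = deriv G (Z - (σ : ℝ) ^ 2) := fld_apply h.sG'.continuous Z σ

theorem Small.lift_eq (h : Small κ b G) (Z : ℝ) (σ : S1) :
    lift (uZ G Z).2 σ = gam (deriv G) (Z, σ) := by
  ext ρ
  rw [gam_apply h.sG'.continuous, lift, mk2_apply, ext_of_mem h11 _ (mul_memS σ.2 ρ.2), h.u2]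

theorem Small.qF_eq (h : Small κ b G) {Z : ℝ} (hZ : Z < b) (σ : S1) :
    qF (uZ G Z) σ = qq G (Z, σ) := by
  rw [qF, evalAlong_apply, om_apply fun σ => by
    rw [h.lift_eq]; exact (QQ_smooth (h.norm_gam (memS_dom hZ σ))).continuousAt, h.lift_eq]
  rfl

theorem Small.iq_eq (h : Small κ b G) {Z : ℝ} (hZ : Z < b) (σ : S1) :
    iq (uZ G Z) σ = 1 / qq G (Z, σ) := by
  rw [iq, om_apply fun σ => by
    rw [h.qF_eq hZ]
    exact continuousAt_const.div continuousAt_id (h.prof.q_ne (memS_dom hZ σ)), h.qF_eq hZ]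

theorem Small.zt_eq (h : Small κ b G) {Z : ℝ} (hZ : Z < b) (σ : S1) :
    zt (uZ G Z) σ = zeta G (qq G) (Z, σ) := by
  rw [zt, om_apply fun _ => continuous_exp.continuousAt, ContinuousMap.smul_apply,
    prim_eq pm σ _ (f := fun s => deriv G (Z - s ^ 2) / qq G (Z, s)) fun s => by
      rw [ContinuousMap.mul_apply, h.u2, h.iq_eq hZ, mul_one_div]]
  rfl

theorem Small.G1f_eq (h : Small κ b G) (Z : ℝ) (σ : S1) :
    G1f κ (uZ G Z) σ = Gam1 κ (G (Z - (σ : ℝ) ^ 2)) := by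
  rw [G1f, om_apply fun σ => by
    rw [h.u1]
    exact continuousAt_const.div (by fun_prop) (pow_ne_zero 2 (h.prof.rho_ne _)), h.u1]

theorem Small.G2f_eq (h : Small κ b G) (Z : ℝ) (σ : S1) :
    G2f κ (uZ G Z) σ = Gam2 κ (G (Z - (σ : ℝ) ^ 2)) := by
  rw [G2f, om_apply fun σ => by
    rw [h.u1]
    exact continuousAt_const.div (by fun_prop) (pow_ne_zero 3 (h.prof.rho_ne _)), h.u1]

theorem Small.Pf_eq (h : Small κ b G) {Z : ℝ} (hZ : Z < b) (σ : S1) :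
    Pf κ (uZ G Z) σ = PP κ G (qq G) (Z, σ) := by
  rw [Pf, ContinuousMap.neg_apply, prim_eq pp σ _ (f := fun s => Gam1 κ (G (Z - s ^ 2)) *
      deriv G (Z - s ^ 2) * zeta G (qq G) (Z, s) / qq G (Z, s)) fun s => by
    simp only [ContinuousMap.mul_apply, h.u2, h.iq_eq hZ, h.zt_eq hZ, h.G1f_eq, mul_one_div],
    PP, intervalIntegral.integral_symm]
  simp [pp]

theorem Small.Psf_eq (h : Small κ b G) {Z : ℝ} (hZ : Z < b) (σ : S1) :
    Psf κ (uZ G Z) σ = Psi κ G (qq G) (Z, σ) := by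
  simp only [Psf, Psi, ContinuousMap.mul_apply, ContinuousMap.sub_apply, ContinuousMap.smul_apply,
    smul_eq_mul, h.iq_eq hZ, h.zt_eq hZ, h.G1f_eq, h.Pf_eq hZ]
  ring

theorem Small.Rf_eq (h : Small κ b G) {Z : ℝ} (hZ : Z < b) :
    Rf κ (uZ G Z) = RR κ G (qq G) Z := by
  refine intC_eq h11 _ fun s hs => ?_
  simp only [ContinuousMap.mul_apply, h.u2, h.iq_eq hZ, h.zt_eq hZ, h.G2f_eq]
  ring

theorem Small.sf_eq (h : Small κ b G) {Z : ℝ} (hZ : Z < b) :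
    ss G (qq G) Z = Z + sf (uZ G Z) := by
  simp only [sf, evC_apply, h.u1]
  rw [prim_eq p0 pm _ (f := fun s => 1 / qq G (Z, s)) (h.iq_eq hZ)]
  simp only [ss, yy, p0, pm]
  ring_nf

theorem Small.Jop_eq (h : Small κ b G) {Z : ℝ} (hZ : Z < b) (σ : S1) :
    Jop ((uZ G Z).2 * qF (uZ G Z)) σ = jj G (Z, σ) := by
  refine intervalIntegral.integral_congr fun s hs => ?_
  rw [uIcc_of_le zero_le_one] at hs
  simp only [ext_of_mem h11 _ (mul_memS σ.2 hs), ContinuousMap.mul_apply, h.u2, h.qF_eq hZ]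

theorem hasDerivAt_Gam1 {κ s : ℝ} (h : 1 - κ * s ≠ 0) : HasDerivAt (Gam1 κ) (Gam2 κ s) s := by
  have h1 := (hasDerivAt_const s (1 : ℝ)).div
    ((((hasDerivAt_id s).const_mul κ).const_sub 1).pow 2) (pow_ne_zero 2 h)
  refine h1.congr_deriv ?_
  simp only [Gam2, id, Pi.pow_apply, Nat.cast_ofNat, Nat.add_one_sub_one, pow_one]
  field_simp
  ring

theorem Small.Pss_eq (h : Small κ b G) {Z : ℝ} (hZ : Z < b) (σ : S1) :
    Pss κ (uZ G Z) σ = fderiv ℝ (Psi κ G (qq G)) (Z, σ) (0, 1) := by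
  have hp := memS_dom hZ σ
  have hq := h.prof.q_ne hp
  have d0 : HasDerivAt (fun s => Psi κ G (qq G) (Z, s))
      (fderiv ℝ (Psi κ G (qq G)) (Z, σ) (0, 1)) σ :=
    HasFDerivAt.comp_hasDerivAt (l := Psi κ G (qq G)) (f := fun s => (Z, s)) (σ : ℝ)
      ((h.prof.contDiffOn_Psi.contDiffAt ((isOpen_dom b).mem_nhds hp)).differentiableAt
        (by simp)).hasFDerivAt ((hasDerivAt_const (σ : ℝ) Z).prodMk (hasDerivAt_id _))
  have d1 := h.hasDerivAt_q hp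
  rw [h.q_sigma hp] at d1
  have d2 := ((hasDerivAt_dom_integral (F := fun p => deriv G (p.1 - p.2 ^ 2) / qq G p)
    (((contDiff_shift h.sG').contDiffOn.div h.sq fun _ hp => h.prof.q_ne hp).continuousOn)
    (c := -1) (by norm_num) hp).const_mul (-2)).exp
  have d3 : HasDerivAt (fun s => PP κ G (qq G) (Z, s)) (-(Gam1 κ (G (Z - (σ : ℝ) ^ 2)) *
      deriv G (Z - (σ : ℝ) ^ 2) * zeta G (qq G) (Z, σ) / qq G (Z, σ))) σ := by
    have := (hasDerivAt_dom_integral h.prof.contDiffOn_PPint.continuousOn (c := 1)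
      (by norm_num) hp).neg
    refine this.congr_of_eventuallyEq (Eventually.of_forall fun s => ?_)
    simp only [PP, Pi.neg_apply]
    rw [intervalIntegral.integral_symm]
  have d4 := (hasDerivAt_Gam1 (h.prof.rho_ne (Z - (σ : ℝ) ^ 2))).comp (σ : ℝ)
    ((h.sG.differentiable (by simp) (Z - (σ : ℝ) ^ 2)).hasDerivAt.comp (σ : ℝ)
      (((hasDerivAt_id (σ : ℝ)).pow 2).const_sub Z))
  have d5 := ((d4.mul (d2.pow 2)).sub ((d2.const_mul 2).mul d3)).div d1 hq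
  rw [d0.unique d5]
  simp only [Pss, ContinuousMap.mul_apply, ContinuousMap.sub_apply, ContinuousMap.add_apply,
    ContinuousMap.smul_apply, smul_eq_mul, h.iq_eq hZ, h.zt_eq hZ, h.G1f_eq, h.G2f_eq, h.Pf_eq hZ,
    h.Psf_eq hZ, h.Jop_eq hZ, h.u2, sg_apply, Psi, zeta, Function.comp_apply, id, Pi.pow_apply,
    Pi.mul_apply, Pi.sub_apply, Nat.cast_ofNat, Nat.add_one_sub_one, pow_one, mul_one]
  field_simp
  ring

theorem Small.DPs_eq (h : Small κ b G) {Z : ℝ} (hZ : Z < b) (hs : Sm (Psf κ) (uZ G Z)) (σ : S1) :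
    fderiv ℝ (Psf κ) (uZ G Z) (uZ (deriv G) Z) σ = fderiv ℝ (Psi κ G (qq G)) (Z, σ) (1, 0) := by
  have hp := memS_dom hZ σ
  have d0 : HasDerivAt (fun s => Psi κ G (qq G) (s, σ))
      (fderiv ℝ (Psi κ G (qq G)) (Z, σ) (1, 0)) Z :=
    HasFDerivAt.comp_hasDerivAt (l := Psi κ G (qq G)) (f := fun s => (s, (σ : ℝ))) Z
      ((h.prof.contDiffOn_Psi.contDiffAt ((isOpen_dom b).mem_nhds hp)).differentiableAt
        (by simp)).hasFDerivAt ((hasDerivAt_id _).prodMk (hasDerivAt_const Z (σ : ℝ)))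
  have d1 := (evC (F := ℝ) σ).hasFDerivAt.comp_hasDerivAt Z
    (hs.diff.hasFDerivAt.comp_hasDerivAt Z (h.hasDerivAt_uZ Z))
  refine HasDerivAt.unique d1 (d0.congr_of_eventuallyEq ?_)
  filter_upwards [Iio_mem_nhds hZ] with s hs using h.Psf_eq hs σ

theorem avg_eq {a : EE → ℝ → ℝ} {e : EE} {φ : ℝ → ℝ} {Y c : ℝ} (hφ : ContDiff ℝ ∞ φ)
    (h0 : ∀ z ≤ 0, φ z = 0) (hY : Y ≤ 1) (ha : ∀ x ∈ Icc (c - 1) 0, a e x = deriv φ (Y + x)) :
    ∀ x ∈ Icc c 0, avg a e x = φ (Y + x) := by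
  intro x hx
  have h1 : avg a e x = ∫ ξ in (-1 : ℝ)..0, deriv φ (Y + x + ξ) := by
    refine intervalIntegral.integral_congr fun ξ hξ => ?_
    rw [uIcc_of_le (by norm_num)] at hξ
    rw [ha _ ⟨by linarith [hx.1, hξ.1], by linarith [hx.2, hξ.2]⟩, add_assoc]
  rw [h1, intervalIntegral.integral_comp_add_left (fun t => deriv φ t),
    intervalIntegral.integral_deriv_eq_sub (fun t _ => hφ.differentiable (by simp) t)
      ((hφ.continuous_deriv (by simp)).intervalIntegrable _ _), add_zero,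
    h0 (Y + x + -1) (by linarith [hx.2]), sub_zero]

theorem Small.sh3_eq (h : Small κ b G) {K : Type} [TopologicalSpace K] [CompactSpace K]
    (τ : C(K, ℝ)) (k : K) (hk : τ k ^ 2 ≤ 1) {Y : ℝ} (hY : Y ≤ 1) :
    sh3 τ (tr (deriv (deriv G)) Y) k =
      (fld G (Y - τ k ^ 2), fld (deriv G) (Y - τ k ^ 2), fld (deriv (deriv G)) (Y - τ k ^ 2)) := by
  have c2 : Continuous (deriv (deriv G)) := h.sG'.continuous_deriv (by simp)
  have e2 : ∀ x ∈ Icc (-3 - 1 : ℝ) 0, a2 (tr (deriv (deriv G)) Y) x = deriv (deriv G) (Y + x) :=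
    fun x hx => by
      rw [a2, ext_of_mem h40 _ ⟨by linarith [hx.1], hx.2⟩, tr_apply c2]
  have e1 := avg_eq h.sG' h.prof.deriv_zero hY e2
  have e0 := avg_eq (c := -2) h.sG h.zero hY fun x hx => e1 x ⟨by linarith [hx.1], hx.2⟩
  have hm : ∀ σ : S1, -τ k ^ 2 - (σ : ℝ) ^ 2 ∈ Icc (-2 : ℝ) 0 := fun σ => by
    have : (σ : ℝ) ^ 2 ≤ 1 := by nlinarith [σ.2.1, σ.2.2]
    constructor <;> nlinarith [sq_nonneg (τ k), sq_nonneg (σ : ℝ)]
  have hr : ∀ σ : S1, Y + (-τ k ^ 2 - (σ : ℝ) ^ 2) = Y - τ k ^ 2 - (σ : ℝ) ^ 2 := fun σ => by ring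
  refine Prod.ext ?_ (Prod.ext ?_ ?_)
  · ext σ
    rw [fld_apply h.sG.continuous, ← hr]
    exact e0 _ (hm σ)
  · ext σ
    rw [fld_apply h.sG'.continuous, ← hr]
    exact e1 _ ⟨by linarith [(hm σ).1], (hm σ).2⟩
  · ext σ
    rw [fld_apply c2, ← hr]
    exact e2 _ ⟨by linarith [(hm σ).1], (hm σ).2⟩

/-- The functionals are smooth near `u`. -/
structure Good (κ : ℝ) (u : AA × AA) : Prop where
  psf : Sm (Psf κ) u
  pss : Sm (Pss κ) u
  rf : Sm (Rf κ) u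
  sf' : Sm sf u
  small : |sf u| < 1 / 8

theorem exists_good (κ : ℝ) : ∃ r > 0, ∀ u : AA × AA, ‖u‖ < r → Good κ u := by
  have h1 : ∀ᶠ u in 𝓝 (0 : AA × AA), |sf u| < 1 / 8 :=
    sm_sf.cont.abs.eventually (gt_mem_nhds (by simp [sf_zero]))
  have h2 : ∀ᶠ u in 𝓝 (0 : AA × AA), Good κ u := by
    filter_upwards [(sm_Psf κ).ev, (sm_Pss κ).ev, (sm_Rf κ).ev, sm_sf.ev, h1] with u a b c d e
      using ⟨a, b, c, d, e⟩
  obtain ⟨r, hr, H⟩ := Metric.eventually_nhds_iff_ball.1 h2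
  exact ⟨r, hr, fun u hu => H u (by simpa using hu)⟩

theorem Good.DPs {w : W3} (h : Good κ (uu w)) : ContinuousAt (DPs κ) w :=
  ((h.psf.fderiv.comp (sm_uu w) rfl).clm_apply (sm_vv w)).cont

theorem Good.PsW {w : W3} (h : Good κ (uu w)) : ContinuousAt (PsW κ) w :=
  (h.pss.comp (sm_uu w) rfl).cont

theorem Good.t3 {w : W3} (h : Good κ (uu w)) {h3 : ℝ → ℝ} (hh : ContDiff ℝ ∞ h3) (ε Z : ℝ) :
    ContinuousAt (t3 κ h3) (ε, Z, w) := by
  have h1 : Sm (fun p : ℝ × ℝ × W3 => uu p.2.2) (ε, Z, w) :=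
    (sm_uu w).comp (sm_of_contDiff (by fun_prop) _) rfl
  have h2 : Sm (fun p : ℝ × ℝ × W3 => p.2.2.2) (ε, Z, w) := sm_of_contDiff (by fun_prop) _
  have h3' : Sm (fun p : ℝ × ℝ × W3 => p.2.1 + sf (uu p.2.2)) (ε, Z, w) :=
    (sm_of_contDiff (by fun_prop) _).add (h.sf'.comp h1 rfl)
  exact (((h.rf.fderiv.comp h1 rfl).clm_apply h2).sub
    ((sm_of_contDiff contDiff_fst _).mul (((sm_of_contDiff hh _).comp h3' rfl).mul
      ((sm_const 1 _).add ((h.sf'.fderiv.comp h1 rfl).clm_apply h2))))).cont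

theorem Small.deriv_r (h : Small κ b G) (hg : ∀ Z < b, Good κ (uZ G Z)) {h2 : ℝ → ℝ}
    (hh : ContDiff ℝ ∞ h2) (ε : ℝ) {Z : ℝ} (hZ : Z < b) :
    deriv (fun Z => RR κ G (qq G) Z - ε * h2 (ss G (qq G) Z)) Z =
      t3 κ (deriv h2) (ε, Z, fld G Z, fld (deriv G) Z, fld (deriv (deriv G)) Z) := by
  have d1 := (hg Z hZ).rf.diff.hasFDerivAt.comp_hasDerivAt Z (h.hasDerivAt_uZ Z)
  have d2 := (hasDerivAt_id Z).add
    ((hg Z hZ).sf'.diff.hasFDerivAt.comp_hasDerivAt Z (h.hasDerivAt_uZ Z))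
  have d3 := d1.sub (((hh.differentiable (by simp) _).hasDerivAt.comp Z d2).const_mul ε)
  refine HasDerivAt.deriv (d3.congr_of_eventuallyEq ?_)
  filter_upwards [Iio_mem_nhds hZ] with s hs
  simp only [Function.comp_apply, Pi.sub_apply, Pi.add_apply, id, h.Rf_eq hs, h.sf_eq hs]

theorem Small.nn_eq (h : Small κ b G) (hg : ∀ Z < b, Good κ (uZ G Z)) {h2 : ℝ → ℝ}
    (hh : ContDiff ℝ ∞ h2) (ε : ℝ) {Y : ℝ} (hY : Y < b) :
    π * (deriv (deriv G) Y + nn κ (deriv h2) (ε, Y, tr (deriv (deriv G)) Y)) =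
      π * deriv (deriv G) Y * Psi κ G (qq G) (Y, 0) +
      (∫ β in (-π)..π, ∫ ρ in (0 : ℝ)..1, deriv (deriv G) (Y - ρ ^ 2) *
        (ρ * cos β ^ 2 * fderiv ℝ (Psi κ G (qq G)) (Y - (ρ * sin β) ^ 2, ρ * cos β) (1, 0) +
          1 / 2 * cos β * fderiv ℝ (Psi κ G (qq G)) (Y - (ρ * sin β) ^ 2, ρ * cos β) (0, 1))) +
      (∫ τ in (-1 : ℝ)..1,
        deriv (fun Z => RR κ G (qq G) Z - ε * h2 (ss G (qq G) Z)) (Y - τ ^ 2)) := by
  have c2 : Continuous (deriv (deriv G)) := h.sG'.continuous_deriv (by simp)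
  have hY1 : Y ≤ 1 := hY.le.trans h.hb
  have hh' : ContDiff ℝ ∞ (deriv h2) := (contDiff_infty_iff_deriv.1 hh).2
  have hlt : ∀ t : ℝ, Y - t ^ 2 < b := fun t => by nlinarith [sq_nonneg t]
  have hS : ∀ τ : S1, sg τ ^ 2 ≤ 1 := fun τ => by
    rw [sg_apply]; nlinarith [τ.2.1, τ.2.2]
  have hP : ∀ k : Kp, tauP k ^ 2 ≤ 1 := fun k => by
    have a1 : (k.1 : ℝ) ^ 2 ≤ 1 := by nlinarith [k.1.2.1, k.1.2.2]
    simp only [tauP, ContinuousMap.coe_mk, mul_pow]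
    exact mul_le_one₀ a1 (sq_nonneg _) (sin_sq_le_one _)
  have e1 : T1 κ (tr (deriv (deriv G)) Y) =
      deriv (deriv G) Y * (Psi κ G (qq G) (Y, 0) - 1) := by
    have a1 : uu (base (tr (deriv (deriv G)) Y)) = uZ G Y := by
      rw [base, h.sh3_eq sg p0 (hS p0) hY1]
      simp [uu, uZ, p0]
    rw [T1, a1, evC_apply, evC_apply, h.Psf_eq hY, tr_apply c2]
    simp [p0]
  have e2 : T2 κ (tr (deriv (deriv G)) Y) = ∫ β in (-π)..π, ∫ ρ in (0 : ℝ)..1,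
      deriv (deriv G) (Y - ρ ^ 2) *
        (ρ * cos β ^ 2 * fderiv ℝ (Psi κ G (qq G)) (Y - (ρ * sin β) ^ 2, ρ * cos β) (1, 0) +
          1 / 2 * cos β * fderiv ℝ (Psi κ G (qq G)) (Y - (ρ * sin β) ^ 2, ρ * cos β) (0, 1)) := by
    refine int2_eq _ fun k => ?_
    have a1 : ∀ k : Kp, Good κ (uu (sh3 tauP (tr (deriv (deriv G)) Y) k)) := fun k => by
      rw [h.sh3_eq tauP k (hP k) hY1]; exact hg _ (hlt _)
    have a2 : c0 (tr (deriv (deriv G)) Y) k = deriv (deriv G) (Y - (k.1 : ℝ) ^ 2) := by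
      have : -(k.1 : ℝ) ^ 2 ∈ I4 := by constructor <;> nlinarith [k.1.2.1, k.1.2.2]
      rw [c0, mkCLM_apply, ext_of_mem h40 _ this, tr_apply c2, sub_eq_add_neg]
    simp only [T2k, ContinuousMap.mul_apply, ContinuousMap.add_apply, evalAlong_apply]
    rw [a2, om_apply fun k => (a1 k).DPs, om_apply fun k => (a1 k).PsW,
      h.sh3_eq tauP k (hP k) hY1]
    have a3 := h.DPs_eq (hlt (tauP k)) (hg _ (hlt _)).psf (phiP k)
    have a4 := h.Pss_eq (hlt (tauP k)) (phiP k)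
    exact congrArg (_ * ·) (congrArg₂ (· + ·) (congrArg (_ * ·) a3) (congrArg (_ * ·) a4))
  have e3 : T3 κ (deriv h2) (ε, Y, tr (deriv (deriv G)) Y) = ∫ τ in (-1 : ℝ)..1,
      deriv (fun Z => RR κ G (qq G) Z - ε * h2 (ss G (qq G) Z)) (Y - τ ^ 2) := by
    refine intC_eq h11 _ fun τ hτ => ?_
    rw [om_apply fun τ => by
      rw [arg3_apply]
      refine Good.t3 ?_ hh' _ _
      rw [h.sh3_eq sg τ (hS τ) hY1]; exact hg _ (hlt _), arg3_apply,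
      h.sh3_eq sg _ (hS _) hY1, h.deriv_r hg hh ε (hlt τ)]
    rfl
  rw [← e2, ← e3]
  simp only [nn, e1]
  field_simp
  ring

end Pool.Agent.H238Z.Uni
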