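import Pool.Agent.H238Z.Uni.Link
import Pool.Agent.H238Z.Uni.Abel
import Pool.Agent.H238Z.Uni.Delay

/-!
Existence of a nonzero profile without time delay on an interval of orbits.
-/

open Set Real Filter Topology Metric
open scoped ContDiff

namespace Pool.Agent.H238Z.Uni

theorem contDiff_primitive {g : ℝ → ℝ} (hg : ContDiff ℝ ∞ g) :
    ContDiff ℝ ∞ (fun x => ∫ t in (0 : ℝ)..x, g t) ∧ deriv (fun x => ∫ t in (0 : ℝ)..x, g t) = g := by
  have h1 : ∀ x, HasDerivAt (fun x => ∫ t in (0 : ℝ)..x, g t) (g x) x := fun x =>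
    (hg.continuous.integral_hasStrictDerivAt 0 x).hasDerivAt
  have h2 : deriv (fun x => ∫ t in (0 : ℝ)..x, g t) = g := funext fun x => (h1 x).deriv
  exact ⟨contDiff_infty_iff_deriv.2 ⟨fun x => (h1 x).differentiableAt, by rwa [h2]⟩, h2⟩

theorem primitive_zero {g : ℝ → ℝ} (h0 : ∀ x ≤ 0, g x = 0) :
    ∀ x ≤ 0, ∫ t in (0 : ℝ)..x, g t = 0 := fun x hx => by
  rw [intervalIntegral.integral_congr (g := fun _ => 0) fun t ht => by
    rw [uIcc_of_ge hx] at ht; exact h0 t ht.2]
  simp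

theorem primitive_bound {g : ℝ → ℝ} (h0 : ∀ x ≤ 0, g x = 0) {r : ℝ} (hr : 0 ≤ r)
    (hb : ∀ x ≤ 2, |g x| ≤ r) : ∀ x ≤ 2, |∫ t in (0 : ℝ)..x, g t| ≤ 2 * r := fun x hx => by
  rcases le_total x 0 with h | h
  · rw [primitive_zero h0 x h, abs_zero]; positivity
  · have := intervalIntegral.norm_integral_le_of_norm_le_const (a := 0) (b := x) (f := g) (C := r)
      fun t ht => by rw [uIoc_of_le h] at ht; exact hb t (ht.2.trans hx)
    rw [sub_zero, abs_of_nonneg h, Real.norm_eq_abs] at this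
    nlinarith

theorem exists_profile {g : ℝ → ℝ} (hg : ContDiff ℝ ∞ g) (h0 : ∀ x ≤ 0, g x = 0) {r : ℝ}
    (hb : ∀ x, |g x| ≤ r) : ∃ G : ℝ → ℝ, ContDiff ℝ ∞ G ∧ (∀ x ≤ 0, G x = 0) ∧
      (∀ x, |G x| ≤ 4 * r) ∧ (∀ x < 1, |deriv G x| ≤ 2 * r) ∧
      ∀ x < 1, deriv (deriv G) x = g x := by
  have hr : 0 ≤ r := (abs_nonneg _).trans (hb 0)
  obtain ⟨s1, d1⟩ := contDiff_primitive hg
  have z1 := primitive_zero h0
  have b1 := primitive_bound h0 hr fun x _ => hb x
  set G1 : ℝ → ℝ := fun x => ∫ t in (0 : ℝ)..x, g t with hG1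
  obtain ⟨s0, d0⟩ := contDiff_primitive s1
  have z0 := primitive_zero z1
  have b0 := primitive_bound z1 (by positivity) b1
  set G0 : ℝ → ℝ := fun x => ∫ t in (0 : ℝ)..x, G1 t with hG0
  have e1 : ∀ x < 1, (fun x => smoothTransition (2 - x) * G0 x) =ᶠ[𝓝 x] G0 := fun x hx => by
    filter_upwards [Iio_mem_nhds hx] with y hy
    rw [smoothTransition.one_of_one_le (by linarith [mem_Iio.1 hy]), one_mul]
  have e2 : ∀ x < 1, deriv (fun x => smoothTransition (2 - x) * G0 x) x = G1 x := fun x hx => by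
    rw [(e1 x hx).deriv_eq, d0]
  refine ⟨fun x => smoothTransition (2 - x) * G0 x,
    (smoothTransition.contDiff.comp (by fun_prop)).mul s0, fun x hx => ?_, fun x => ?_,
    fun x hx => ?_, fun x hx => ?_⟩
  · have : G0 x = 0 := z0 x hx
    simp only [this, mul_zero]
  · rcases le_total x 2 with h | h
    · have : |G0 x| ≤ 2 * (2 * r) := b0 x h
      simp only [abs_mul, abs_of_nonneg (smoothTransition.nonneg _)]
      nlinarith [smoothTransition.le_one (2 - x), smoothTransition.nonneg (2 - x),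
        abs_nonneg (G0 x)]
    · simp only [smoothTransition.zero_of_nonpos (sub_nonpos.2 h), zero_mul, abs_zero]
      positivity
  · rw [e2 x hx]; exact b1 x (by linarith)
  · have : deriv (fun x => smoothTransition (2 - x) * G0 x) =ᶠ[𝓝 x] G1 := by
      filter_upwards [Iio_mem_nhds hx] with y hy using e2 y hy
    rw [this.deriv_eq, d1]

/-- A bump supported in `[0, 1 / 4]`. -/
noncomputable def bump (s : ℝ) : ℝ := expNegInvGlue s * expNegInvGlue (1 / 4 - s)

theorem contDiff_bump : ContDiff ℝ ∞ bump :=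
  expNegInvGlue.contDiff.mul (expNegInvGlue.contDiff.comp (by fun_prop))

theorem bump_of_nonpos : ∀ s ≤ 0, bump s = 0 := fun s hs => by
  rw [bump, expNegInvGlue.zero_of_nonpos hs, zero_mul]

theorem bump_of_ge {s : ℝ} (hs : 1 / 4 ≤ s) : bump s = 0 := by
  rw [bump, expNegInvGlue.zero_of_nonpos (sub_nonpos.2 hs), mul_zero]

theorem bump_pos : 0 < bump (1 / 8) :=
  mul_pos (expNegInvGlue.pos_of_pos (by norm_num)) (expNegInvGlue.pos_of_pos (by norm_num))

theorem Small.uZ_zero {κ b : ℝ} {G : ℝ → ℝ} (h : Small κ b G) {Z : ℝ}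
    (h0 : ∀ z ≤ Z, G z = 0 ∧ deriv G z = 0) : uZ G Z = 0 := by
  refine Prod.ext ?_ ?_
  · ext σ
    rw [h.u1]; exact (h0 _ (by nlinarith [sq_nonneg (σ : ℝ)])).1
  · ext σ
    rw [h.u2]; exact (h0 _ (by nlinarith [sq_nonneg (σ : ℝ)])).2

theorem exists_prof (κ : ℝ) : ∃ (G : ℝ → ℝ) (q : ℝ × ℝ → ℝ), Prof κ (3 / 4) G q ∧
    (∀ Z ∈ Ioo (3 / 8 : ℝ) (1 / 2), II κ G q Z = 0) ∧ ∃ z < (1 / 2 : ℝ), G z ≠ 0 := by
  obtain ⟨r₁, hr₁, Hg⟩ := exists_good κ
  have hr₀ := r0_pos
  have b1 : ContDiff ℝ ∞ (deriv bump) := (contDiff_infty_iff_deriv.1 contDiff_bump).2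
  have b2 : ContDiff ℝ ∞ (deriv (deriv bump)) := (contDiff_infty_iff_deriv.1 b1).2
  have b3 : ContDiff ℝ ∞ (deriv (deriv (deriv bump))) := (contDiff_infty_iff_deriv.1 b2).2
  have z1 := deriv_zero_of_zero contDiff_bump bump_of_nonpos
  have z2 := deriv_zero_of_zero b1 z1
  have z3 := deriv_zero_of_zero b2 z2
  set r := min (min (r₁ / 8) (r0 / 8)) (1 / (8 * (|κ| + 1))) with hr
  have hr0 : 0 < r := by positivity
  have ra : r ≤ r₁ / 8 := (min_le_left _ _).trans (min_le_left _ _)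
  have rb : r ≤ r0 / 8 := (min_le_left _ _).trans (min_le_right _ _)
  have rc : r * (8 * (|κ| + 1)) ≤ 1 := (le_div_iff₀ (by positivity)).1 (min_le_right _ _)
  obtain ⟨ε, hε, g, gs, g0, gb, geq⟩ := causal_solve (n := nn κ (deriv (deriv (deriv bump))))
    (sm_nn κ b3) (fun Y => nn_zero κ b3 fun _ => zero_mul _) (hasFDerivAt_nn κ b3)
    (fun ε Y hY => nn_zero κ b3 fun τ => by
      rw [z3 _ (by nlinarith [sq_nonneg τ]), mul_zero]) hr0
  obtain ⟨G, Gs, G0, Gb, Gb1, G2⟩ := exists_profile gs g0 gb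
  have hS : Small κ (3 / 4) G :=
    { hb := by norm_num
      sG := Gs
      zero := G0
      small := fun z => by
        rw [abs_mul]
        nlinarith [Gb z, abs_nonneg κ, abs_nonneg (G z)]
      small' := fun z => by nlinarith [Gb z, abs_nonneg κ]
      der := fun z hz => by linarith [Gb1 z (by linarith)] }
  have hgood : ∀ Z < (3 / 4 : ℝ), Good κ (uZ G Z) := fun Z hZ => by
    refine Hg _ ?_
    rw [Prod.norm_def]
    refine max_lt (lt_of_le_of_lt ((ContinuousMap.norm_le _ (by positivity : 0 ≤ 4 * r)).2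
      fun σ => ?_) (by linarith)) (lt_of_le_of_lt ((ContinuousMap.norm_le _
      (by positivity : 0 ≤ 2 * r)).2 fun σ => ?_) (by linarith))
    · rw [hS.u1]; exact Gb _
    · rw [hS.u2]; exact Gb1 _ (by nlinarith [sq_nonneg (σ : ℝ)])
  have hp := hS.prof
  have G2s : ContDiff ℝ ∞ (deriv (deriv G)) := (contDiff_infty_iff_deriv.1 hS.sG').2
  have hss0 : ∀ z ≤ (0 : ℝ), ss G (qq G) z = z := fun z hz => by
    rw [hS.sf_eq (by linarith), hS.uZ_zero fun w hw =>
      ⟨G0 w (hw.trans hz), hp.deriv_zero w (hw.trans hz)⟩, sf_zero, add_zero]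
  have hA := abel_step (b := 3 / 4) (by norm_num) (g := deriv (deriv G))
    (r := fun Z => RR κ G (qq G) Z - ε * deriv (deriv bump) (ss G (qq G) Z))
    (Ψ := Psi κ G (qq G)) G2s (deriv_zero_of_zero hS.sG' hp.deriv_zero) hp.contDiffOn_Psi
    (hp.contDiffOn_RR.sub (contDiffOn_const.mul (b2.comp_contDiffOn hp.contDiffOn_ss)))
    (fun z hz => by
      have : RR κ G (qq G) z = 0 := by
        rw [RR, intervalIntegral.integral_congr (g := fun _ => 0) fun s _ => by
          simp only [hp.deriv_zero (z - s ^ 2) (by nlinarith [sq_nonneg s])]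
          simp]
        simp
      simp only [this, hss0 z hz, z2 z hz, mul_zero, sub_zero])
    (fun Y hY => by
      rw [← hS.nn_eq hgood b2 ε hY]
      have e1 : tr (deriv (deriv G)) Y = tr g Y := by
        ext ξ
        rw [tr_apply G2s.continuous, tr_apply gs.continuous, G2 _ (by linarith [ξ.2.2])]
      rw [e1, G2 Y (by linarith), geq Y hY.le, mul_zero])
  have hD := delay_eq hp (h := fun s => ε * bump s) (contDiff_const.mul contDiff_bump)
    (fun s hs => by simp only [bump_of_nonpos s hs, mul_zero]) (fun Z hZ => by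
      have e1 : deriv (fun s => ε * bump s) = fun s => ε * deriv bump s :=
        funext fun s => deriv_const_mul ε (contDiff_bump.differentiable (by simp) s)
      have e2 : deriv (fun s => ε * deriv bump s) = fun s => ε * deriv (deriv bump) s :=
        funext fun s => deriv_const_mul ε (b1.differentiable (by simp) s)
      rw [e1, e2]
      linarith [hA Z hZ])
  refine ⟨G, qq G, hp, fun Z hZ => ?_, ?_⟩
  · have h1 : Z < 3 / 4 := by linarith [hZ.2]
    rw [hD Z h1, bump_of_ge, mul_zero]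
    rw [hS.sf_eq h1]
    linarith [(abs_lt.1 (hgood Z h1).small).1, hZ.1]
  · by_contra hcon
    push Not at hcon
    have h1 : ∀ z < (1 / 2 : ℝ), deriv G z = 0 := fun z hz => by
      have : G =ᶠ[𝓝 z] fun _ => 0 := by
        filter_upwards [Iio_mem_nhds hz] with w hw using hcon w hw
      rw [this.deriv_eq, deriv_const]
    have h2 := hD (1 / 8) (by norm_num)
    rw [hS.sf_eq (by norm_num), hS.uZ_zero fun w hw =>
      ⟨hcon w (by linarith), h1 w (by linarith)⟩, sf_zero, add_zero, II,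
      intervalIntegral.integral_congr (g := fun _ => 0) fun s _ => by
        simp only [hcon (1 / 8 - s ^ 2) (by nlinarith [sq_nonneg s])]
        simp [Gam]] at h2
    simp only [intervalIntegral.integral_zero] at h2
    exact (mul_ne_zero hε bump_pos.ne') h2.symm

end Pool.Agent.H238Z.Uni
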