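import Pool.Agent.H238Z.Uni.Func

/-!
The causal functional equation satisfied by the second derivative of the profile.
-/

open Set Real Filter Topology Metric
open scoped ContDiff

namespace Pool.Agent.H238Z.Uni

/-- Real functions depending linearly and boundedly on the past. -/
structure IsLin (a : EE → ℝ → ℝ) : Prop where
  cont : ∀ e, Continuous (a e)
  add : ∀ x y t, a (x + y) t = a x t + a y t
  smul : ∀ (c : ℝ) x t, a (c • x) t = c * a x t
  bound : ∀ e t, |a e t| ≤ ‖e‖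

/-- The past itself. -/
noncomputable def a2 (e : EE) (x : ℝ) : ℝ := ext h40 e x

/-- Integration over the last unit of time. -/
noncomputable def avg (a : EE → ℝ → ℝ) (e : EE) (x : ℝ) : ℝ := ∫ ξ in (-1 : ℝ)..0, a e (x + ξ)

theorem isLin_a2 : IsLin a2 :=
  ⟨continuous_ext h40, fun _ _ _ => rfl, fun _ _ _ => rfl, norm_ext_le h40⟩

theorem IsLin.avg {a : EE → ℝ → ℝ} (h : IsLin a) : IsLin (avg a) where
  cont := fun e => intervalIntegral.continuous_parametric_intervalIntegral_of_continuous'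
    (f := fun x ξ => a e (x + ξ)) ((h.cont e).comp (continuous_fst.add continuous_snd)) _ _
  add := fun x y t => by
    have h1 : ∀ x, IntervalIntegrable (fun ξ => a x (t + ξ)) MeasureTheory.volume (-1) 0 := fun x =>
      ((h.cont x).comp (continuous_const.add continuous_id)).intervalIntegrable _ _
    simp only [Uni.avg, h.add]
    exact intervalIntegral.integral_add (h1 x) (h1 y)
  smul := fun c x t => by
    simp only [Uni.avg, h.smul]
    exact intervalIntegral.integral_const_mul _ _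
  bound := fun e t => by
    have := intervalIntegral.norm_integral_le_of_norm_le_const (a := -1) (b := 0)
      (f := fun ξ => a e (t + ξ)) (C := ‖e‖) (fun s _ => h.bound e _)
    rw [sub_neg_eq_add, zero_add, abs_one, mul_one] at this
    exact this

section Shift

variable {K : Type} [TopologicalSpace K] [CompactSpace K]

/-- The values along the parabola through a shifted base point. -/
noncomputable def sh {a : EE → ℝ → ℝ} (h : IsLin a) (τ : C(K, ℝ)) : EE →L[ℝ] C(K, AA) :=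
  mk2 (fun e k σ => a e (-τ k ^ 2 - (σ : ℝ) ^ 2)) (fun e => (h.cont e).comp (by fun_prop))
    (fun _ _ _ _ => h.add _ _ _) (fun _ _ _ _ => h.smul _ _ _) 1 zero_le_one
    (fun e _ _ => by rw [one_mul]; exact h.bound e _)

theorem norm_sh_le {a : EE → ℝ → ℝ} (h : IsLin a) (τ : C(K, ℝ)) (e : EE) (k : K) :
    ‖sh h τ e k‖ ≤ ‖e‖ := (ContinuousMap.norm_le _ (norm_nonneg e)).2 fun _ => h.bound e _

/-- Triples of functions. -/
abbrev W3 := AA × AA × AA

/-- The two primitives and the past itself along shifted parabolas. -/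
noncomputable def sh3 (τ : C(K, ℝ)) : EE →L[ℝ] C(K, W3) :=
  mkCLM (fun e k => (sh isLin_a2.avg.avg τ e k, sh isLin_a2.avg τ e k, sh isLin_a2 τ e k))
    (fun e => by fun_prop) (fun x y k => by simp) (fun c x k => by simp) 1 zero_le_one
    (fun e k => by
      rw [one_mul, Prod.norm_def, Prod.norm_def]
      exact max_le (norm_sh_le _ _ _ _) (max_le (norm_sh_le _ _ _ _) (norm_sh_le _ _ _ _)))

end Shift

/-- The first two entries of a triple. -/
def uu (w : W3) : AA × AA := (w.1, w.2.1)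

theorem sm_uu (w : W3) : Sm uu w := sm_of_contDiff (by unfold uu; fun_prop) w

theorem sm_vv (w : W3) : Sm (fun w : W3 => w.2) w := sm_of_contDiff contDiff_snd w

/-- The derivative of `Psi` in the first variable as a functional. -/
noncomputable def DPs (κ : ℝ) (w : W3) : AA := fderiv ℝ (Psf κ) (uu w) w.2

/-- The derivative of `Psi` in the second variable as a functional. -/
noncomputable def PsW (κ : ℝ) (w : W3) : AA := Pss κ (uu w)

theorem sm_DPs (κ : ℝ) : Sm (DPs κ) 0 :=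
  ((sm_Psf κ).fderiv.comp (sm_uu 0) rfl).clm_apply (sm_vv 0)

theorem sm_PsW (κ : ℝ) : Sm (PsW κ) 0 := (sm_Pss κ).comp (sm_uu 0) rfl

/-- The derivative of the lower order terms. -/
noncomputable def t3 (κ : ℝ) (h3 : ℝ → ℝ) (p : ℝ × ℝ × W3) : ℝ :=
  fderiv ℝ (Rf κ) (uu p.2.2) p.2.2.2 -
    p.1 * (h3 (p.2.1 + sf (uu p.2.2)) * (1 + fderiv ℝ sf (uu p.2.2) p.2.2.2))

theorem sm_t3 (κ : ℝ) {h3 : ℝ → ℝ} (hh : ContDiff ℝ ∞ h3) (ε Z : ℝ) : Sm (t3 κ h3) (ε, Z, 0) := by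
  have h1 : Sm (fun p : ℝ × ℝ × W3 => uu p.2.2) (ε, Z, 0) :=
    (sm_uu 0).comp (sm_of_contDiff (by fun_prop) _) rfl
  have h2 : Sm (fun p : ℝ × ℝ × W3 => p.2.2.2) (ε, Z, 0) := sm_of_contDiff (by fun_prop) _
  have h3' : Sm (fun p : ℝ × ℝ × W3 => p.2.1 + sf (uu p.2.2)) (ε, Z, 0) :=
    (sm_of_contDiff (by fun_prop) _).add (sm_sf.comp h1 rfl)
  exact (((sm_Rf κ).fderiv.comp h1 rfl).clm_apply h2).sub
    ((sm_of_contDiff contDiff_fst _).mul (((sm_of_contDiff hh _).comp h3' rfl).mul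
      ((sm_const 1 _).add ((sm_sf.fderiv.comp h1 rfl).clm_apply h2))))

theorem hpi : -π ≤ π := by linarith [pi_pos]

/-- The domain of polar coordinates. -/
abbrev Kp := I01 × Icc (-π) π

/-- The second Cartesian coordinate. -/
noncomputable def tauP : C(Kp, ℝ) := ⟨fun k => k.1 * sin k.2, by fun_prop⟩

theorem cos_mem {ρ : ℝ} (h : ρ ∈ I01) (β : ℝ) : ρ * cos β ∈ S1 := by
  constructor <;> nlinarith [h.1, h.2, neg_one_le_cos β, cos_le_one β]

/-- The first Cartesian coordinate. -/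
noncomputable def phiP : C(Kp, S1) :=
  ⟨fun k => ⟨k.1 * cos k.2, cos_mem k.1.2 _⟩, by fun_prop⟩

/-- The past as a radial function. -/
noncomputable def c0 : EE →L[ℝ] C(Kp, ℝ) :=
  mkCLM (fun e k => ext h40 e (-(k.1 : ℝ) ^ 2))
    (fun e => (continuous_ext h40 e).comp (by fun_prop)) (fun _ _ _ => rfl) (fun _ _ _ => rfl) 1
    zero_le_one (fun e _ => by rw [one_mul]; exact norm_ext_le h40 e _)

/-- A weight. -/
noncomputable def w1 : C(Kp, ℝ) := ⟨fun k => k.1 * cos k.2 ^ 2, by fun_prop⟩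

/-- A weight. -/
noncomputable def w2 : C(Kp, ℝ) := ⟨fun k => 1 / 2 * cos k.2, by fun_prop⟩

/-- Integration in both polar coordinates. -/
noncomputable def int2 : C(Kp, ℝ) →L[ℝ] ℝ :=
  (intC hpi).comp (kerInt (fun (Φ : C(Kp, ℝ)) β ρ => Φ (projIcc 0 1 zero_le_one ρ, β)) zero_le_one
    (fun Φ => Φ.continuous.comp ((continuous_projIcc.comp continuous_snd).prodMk continuous_fst))
    (fun _ _ _ _ => rfl) (fun _ _ _ _ => rfl) 1 zero_le_one
    (fun Φ _ _ _ => by rw [one_mul]; exact Φ.norm_coe_le_norm _))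

theorem int2_eq (Φ : C(Kp, ℝ)) {f : ℝ → ℝ → ℝ} (hf : ∀ k : Kp, Φ k = f k.2 k.1) :
    int2 Φ = ∫ β in (-π)..π, ∫ ρ in (0 : ℝ)..1, f β ρ := by
  refine intC_eq hpi _ fun β hβ => ?_
  refine intervalIntegral.integral_congr fun ρ hρ => ?_
  rw [uIcc_of_le zero_le_one] at hρ
  simp only [projIcc_of_mem zero_le_one hρ, hf]

/-- The data at the base point. -/
noncomputable def base (e : EE) : W3 := sh3 sg e p0

theorem contDiff_base : ContDiff ℝ ∞ base :=
  ((evC (F := W3) p0).comp (sh3 sg)).contDiff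

/-- The local part of the equation. -/
noncomputable def T1 (κ : ℝ) (e : EE) : ℝ :=
  evC (projIcc (-4) 0 h40 0) e * (evC p0 (Psf κ (uu (base e))) - 1)

/-- The kernel of the integral part. -/
noncomputable def T2k (κ : ℝ) (e : EE) : C(Kp, ℝ) :=
  w1 * evalAlong phiP (om (DPs κ) (sh3 tauP e)) + w2 * evalAlong phiP (om (PsW κ) (sh3 tauP e))

/-- The integral part of the equation. -/
noncomputable def T2 (κ : ℝ) (e : EE) : ℝ := int2 (c0 e * T2k κ e)

/-- The arguments of the lower order part. -/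
noncomputable def arg3 (p : ℝ × ℝ × EE) : C(S1, ℝ × ℝ × W3) :=
  prodC S1 ℝ (ℝ × W3) (constC S1 ℝ p.1,
    prodC S1 ℝ W3 (constC S1 ℝ p.2.1 - sg * sg, sh3 sg p.2.2))

theorem arg3_apply (p : ℝ × ℝ × EE) (τ : S1) :
    arg3 p τ = (p.1, p.2.1 - (τ : ℝ) ^ 2, sh3 sg p.2.2 τ) := by
  simp [arg3, sq]

theorem contDiff_arg3 : ContDiff ℝ ∞ arg3 := by
  unfold arg3
  fun_prop

/-- The lower order part of the equation. -/
noncomputable def T3 (κ : ℝ) (h3 : ℝ → ℝ) (p : ℝ × ℝ × EE) : ℝ :=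
  intC h11 (om (t3 κ h3) (arg3 p))

/-- The nonlinear part of the causal equation. -/
noncomputable def nn (κ : ℝ) (h3 : ℝ → ℝ) (p : ℝ × ℝ × EE) : ℝ :=
  T1 κ p.2.2 + 1 / π * (T2 κ p.2.2 + T3 κ h3 p)

theorem base_zero : base 0 = 0 := by simp [base]

theorem sm_T1b (κ : ℝ) : Sm (fun e => evC p0 (Psf κ (uu (base e))) - 1) 0 :=
  (((sm_Psf κ).comp ((sm_uu 0).comp (sm_of_contDiff contDiff_base 0) base_zero)
    (by rw [base_zero]; rfl)).clm (evC p0)).sub (sm_const 1 _)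

theorem sm_T1 (κ : ℝ) : Sm (T1 κ) 0 := (sm_clm _ _).mul (sm_T1b κ)

theorem sm_T2k (κ : ℝ) : Sm (T2k κ) 0 := by
  have h0 : Sm (fun e : EE => sh3 tauP e) 0 := sm_clm (Y := C(Kp, W3)) (sh3 tauP) 0
  have h1 : Sm (om (DPs κ) : C(Kp, W3) → C(Kp, AA)) 0 := sm_om fun _ => sm_DPs κ
  have h2 : Sm (om (PsW κ) : C(Kp, W3) → C(Kp, AA)) 0 := sm_om fun _ => sm_PsW κ
  have h3 : Sm (fun e : EE => om (DPs κ) (sh3 tauP e)) 0 := h1.comp h0 (by simp)
  have h4 : Sm (fun e : EE => om (PsW κ) (sh3 tauP e)) 0 := h2.comp h0 (by simp)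
  have h5 : Sm (fun e : EE => evalAlong phiP (om (DPs κ) (sh3 tauP e))) 0 :=
    Sm.clm (Y := C(Kp, AA)) (Z := C(Kp, ℝ)) (evalAlong phiP) h3
  have h6 : Sm (fun e : EE => evalAlong phiP (om (PsW κ) (sh3 tauP e))) 0 :=
    Sm.clm (Y := C(Kp, AA)) (Z := C(Kp, ℝ)) (evalAlong phiP) h4
  have h7 := Sm.mul (A := C(Kp, ℝ)) (sm_const w1 (0 : EE)) h5
  have h8 := Sm.mul (A := C(Kp, ℝ)) (sm_const w2 (0 : EE)) h6
  have h9 := Sm.add (Y := C(Kp, ℝ)) h7 h8
  unfold T2k
  exact h9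

theorem T2k_zero (κ : ℝ) : T2k κ 0 = 0 := by
  ext k
  simp only [T2k, map_zero, ContinuousMap.add_apply, ContinuousMap.mul_apply, evalAlong_apply]
  rw [om_apply (u := (0 : C(Kp, W3))) fun _ => (sm_DPs κ).cont,
    om_apply (u := (0 : C(Kp, W3))) fun _ => (sm_PsW κ).cont]
  have : PsW κ 0 = 0 := Pss_zero κ
  simp [DPs, this]

theorem sm_T2 (κ : ℝ) : Sm (T2 κ) 0 := ((sm_clm c0 0).mul (sm_T2k κ)).clm int2

theorem sm_T3 (κ : ℝ) {h3 : ℝ → ℝ} (hh : ContDiff ℝ ∞ h3) (ε Y : ℝ) : Sm (T3 κ h3) (ε, Y, 0) := by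
  have h1 : Sm (om (t3 κ h3)) (arg3 (ε, Y, 0)) := sm_om fun τ => by
    rw [arg3_apply, map_zero]; exact sm_t3 κ hh _ _
  exact (h1.comp (sm_of_contDiff contDiff_arg3 _) rfl).clm (intC h11)

theorem sm_nn (κ : ℝ) {h3 : ℝ → ℝ} (hh : ContDiff ℝ ∞ h3) (Y : ℝ) : Sm (nn κ h3) (0, Y, 0) := by
  have h0 : Sm (fun p : ℝ × ℝ × EE => p.2.2) (0, Y, 0) := sm_of_contDiff (by fun_prop) _
  exact ((sm_T1 κ).comp h0 rfl).add ((sm_const _ _).mul
    (((sm_T2 κ).comp h0 rfl).add (sm_T3 κ hh 0 Y)))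

theorem nn_zero (κ : ℝ) {h3 : ℝ → ℝ} (hh : ContDiff ℝ ∞ h3) {ε Y : ℝ}
    (h : ∀ τ : ℝ, ε * h3 (Y - τ ^ 2) = 0) : nn κ h3 (ε, Y, 0) = 0 := by
  have h1 : om (t3 κ h3) (arg3 (ε, Y, 0)) = 0 := by
    ext τ
    rw [om_apply fun τ => by rw [arg3_apply, map_zero]; exact (sm_t3 κ hh _ _).cont, arg3_apply]
    have : sf (uu 0) = 0 := sf_zero
    simp [t3, this, h τ]
  simp [nn, T1, T2, T3, h1]

theorem hasFDerivAt_nn (κ : ℝ) {h3 : ℝ → ℝ} (hh : ContDiff ℝ ∞ h3) (Y : ℝ) :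
    HasFDerivAt (fun e => nn κ h3 (0, Y, e)) (0 : EE →L[ℝ] ℝ) 0 := by
  have h1 : HasFDerivAt (T1 κ) (0 : EE →L[ℝ] ℝ) 0 :=
    hasFDerivAt_mul_zero (sm_clm _ _).diff (sm_T1b κ).diff (by simp) (by
      have : Psf κ (uu 0) = 1 := Psf_zero κ
      simp [base_zero, this])
  have h2 : HasFDerivAt (T2 κ) (0 : EE →L[ℝ] ℝ) 0 := by
    have a1 := hasFDerivAt_mul_zero (sm_clm c0 0).diff (sm_T2k κ).diff (by simp) (T2k_zero κ)
    have a2 := int2.hasFDerivAt.comp (0 : EE) a1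
    rwa [ContinuousLinearMap.comp_zero] at a2
  have h3' : HasFDerivAt (fun e => T3 κ h3 (0, Y, e)) (0 : EE →L[ℝ] ℝ) 0 := by
    let f : W3 → ℝ := fun w => fderiv ℝ (Rf κ) (uu w) w.2
    have sf1 := (sm_Rf κ).fderiv.comp (sm_uu 0) rfl
    have sf' : Sm f 0 := sf1.clm_apply (sm_vv 0)
    have df : fderiv ℝ f 0 = 0 := by
      have := sf1.diff.hasFDerivAt.clm_apply (sm_vv 0).diff.hasFDerivAt
      have e : fderiv ℝ (Rf κ) (uu 0) = 0 := fderiv_Rf_zero κ
      rw [this.fderiv, e]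
      ext v <;> simp
    obtain ⟨D, a1, a2⟩ := hasFDerivAt_om_comp (f := f) (A := fun e : EE => sh3 sg e)
      (A' := sh3 sg) (x := 0) (sh3 sg).hasFDerivAt
      (fun k => by rw [map_zero]; exact sf'.at.of_le (by simp))
    have a3 : D = 0 := by
      ext v k
      rw [a2, map_zero, ContinuousMap.zero_apply, df]
      rfl
    rw [a3] at a1
    have a4 := (intC (F := ℝ) h11).hasFDerivAt.comp (0 : EE) a1
    rw [ContinuousLinearMap.comp_zero] at a4
    refine a4.congr_of_eventuallyEq (Eventually.of_forall fun e => ?_)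
    simp only [T3, Function.comp_apply, om]
    congr 2
    ext τ
    rw [arg3_apply]
    simp [t3, f]
  have := h1.add ((h2.add h3').const_mul (1 / π))
  rw [add_zero, smul_zero, add_zero] at this
  exact this

end Pool.Agent.H238Z.Uni
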