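import Mathlib

/-!
Smoothness of composition operators on spaces of continuous functions on a compact space.
-/

open Set Filter Topology Metric
open scoped ContDiff

namespace Pool.Agent.H238Z.Uni

section Om

variable {K : Type} [TopologicalSpace K] [CompactSpace K]
variable {E : Type} [NormedAddCommGroup E] [NormedSpace ℝ E]

/-- The composition operator `u ↦ f ∘ u`. -/
noncomputable def om {F : Type} [NormedAddCommGroup F] (f : E → F) (u : C(K, E)) : C(K, F) :=
  ContinuousMap.mkD (fun k => f (u k)) 0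

omit [CompactSpace K] [NormedSpace ℝ E] in
theorem om_apply {F : Type} [NormedAddCommGroup F] {f : E → F} {u : C(K, E)}
    (h : ∀ k, ContinuousAt f (u k)) (k : K) : om f u k = f (u k) := by
  have : Continuous (fun k => f (u k)) :=
    continuous_iff_continuousAt.2 fun k => (h k).comp u.continuous.continuousAt
  exact ContinuousMap.mkD_apply_of_continuous this

/-- A linear map into `C(K, F)` from a pointwise description. -/
noncomputable def mkCLM {X F : Type} [NormedAddCommGroup X] [NormedSpace ℝ X]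
    [NormedAddCommGroup F] [NormedSpace ℝ F] (f : X → K → F) (hc : ∀ x, Continuous (f x))
    (hadd : ∀ x y k, f (x + y) k = f x k + f y k)
    (hsmul : ∀ (c : ℝ) x k, f (c • x) k = c • f x k) (C : ℝ) (hC : 0 ≤ C)
    (hb : ∀ x k, ‖f x k‖ ≤ C * ‖x‖) : X →L[ℝ] C(K, F) :=
  LinearMap.mkContinuous
    { toFun := fun x => ⟨f x, hc x⟩
      map_add' := fun x y => by ext k; exact hadd x y k
      map_smul' := fun c x => by ext k; exact hsmul c x k } C
    (fun x => (ContinuousMap.norm_le _ (by positivity)).2 fun k => hb x k)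

@[simp] theorem mkCLM_apply {X F : Type} [NormedAddCommGroup X] [NormedSpace ℝ X]
    [NormedAddCommGroup F] [NormedSpace ℝ F] (f : X → K → F) (hc) (hadd) (hsmul) (C : ℝ) (hC)
    (hb) (x : X) (k : K) : mkCLM f hc hadd hsmul C hC hb x k = f x k := rfl

/-- Pointwise application of a field of linear maps. -/
noncomputable def lamAux {F : Type} [NormedAddCommGroup F] [NormedSpace ℝ F]
    (A : C(K, E →L[ℝ] F)) : C(K, E) →L[ℝ] C(K, F) :=
  mkCLM (fun v k => A k (v k)) (fun v => A.continuous.clm_apply v.continuous)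
    (fun x y k => by simp) (fun c x k => by simp) ‖A‖ (norm_nonneg A)
    (fun x k => ((A k).le_opNorm _).trans
      (mul_le_mul (A.norm_coe_le_norm k) (x.norm_coe_le_norm k) (norm_nonneg _) (norm_nonneg A)))

/-- The same as a continuous linear map in the field. -/
noncomputable def lam (K E F : Type) [TopologicalSpace K] [CompactSpace K] [NormedAddCommGroup E]
    [NormedSpace ℝ E] [NormedAddCommGroup F] [NormedSpace ℝ F] :
    C(K, E →L[ℝ] F) →L[ℝ] (C(K, E) →L[ℝ] C(K, F)) :=
  LinearMap.mkContinuous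
    ({ toFun := fun A => lamAux A
       map_add' := fun x y => by ext v k; rfl
       map_smul' := fun c x => by ext v k; rfl } :
      C(K, E →L[ℝ] F) →ₗ[ℝ] (C(K, E) →L[ℝ] C(K, F))) 1
    (fun (A : C(K, E →L[ℝ] F)) => by
      rw [one_mul]
      refine ContinuousLinearMap.opNorm_le_bound _ (norm_nonneg A) fun v => ?_
      refine (ContinuousMap.norm_le _ (mul_nonneg (norm_nonneg A) (norm_nonneg v))).2 fun k => ?_
      exact ((A k).le_opNorm _).trans
        (mul_le_mul (A.norm_coe_le_norm k) (v.norm_coe_le_norm k) (norm_nonneg _) (norm_nonneg A)))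

@[simp] theorem lam_apply {F : Type} [NormedAddCommGroup F] [NormedSpace ℝ F]
    (A : C(K, E →L[ℝ] F)) (v : C(K, E)) (k : K) : lam K E F A v k = A k (v k) := rfl

omit [NormedSpace ℝ E] in
theorem eventually_mapsTo {u : C(K, E)} {p : E → Prop} (h : ∀ k, ∀ᶠ x in 𝓝 (u k), p x) :
    ∃ δ > 0, ∀ k, ∀ x ∈ ball (u k) δ, p x := by
  have hK : IsCompact (range u) := isCompact_range u.continuous
  have hsub : range u ⊆ interior {x | p x} := by
    rintro _ ⟨k, rfl⟩
    exact mem_interior_iff_mem_nhds.2 (h k)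
  obtain ⟨δ, hδ, hth⟩ := hK.exists_thickening_subset_open isOpen_interior hsub
  refine ⟨δ, hδ, fun k x hx => ?_⟩
  exact interior_subset (hth (mem_thickening_iff.2 ⟨u k, ⟨k, rfl⟩, hx⟩))

omit [NormedSpace ℝ E] in
theorem eventually_forall_apply {u : C(K, E)} {p : E → Prop} (h : ∀ k, ∀ᶠ x in 𝓝 (u k), p x) :
    ∀ᶠ u' in 𝓝 u, ∀ k, p (u' k) := by
  obtain ⟨δ, hδ, H⟩ := eventually_mapsTo h
  filter_upwards [ball_mem_nhds u hδ] with u' hu' k
  exact H k _ (lt_of_le_of_lt (ContinuousMap.dist_apply_le_dist k) hu')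

omit [NormedSpace ℝ E] in
theorem unif_cont {F : Type} [NormedAddCommGroup F] {f : E → F} {u : C(K, E)}
    (h : ∀ k, ContinuousAt f (u k)) {ε : ℝ} (hε : 0 < ε) :
    ∃ δ > 0, ∀ k, ∀ x ∈ ball (u k) δ, ‖f x - f (u k)‖ ≤ ε := by
  have hK : IsCompact (range u) := isCompact_range u.continuous
  have := hK.uniformContinuousAt_of_continuousAt f (by rintro _ ⟨k, rfl⟩; exact h k)
    (Metric.dist_mem_uniformity hε)
  obtain ⟨δ, hδ, H⟩ := Metric.mem_uniformity_dist.1 this
  refine ⟨δ, hδ, fun k x hx => ?_⟩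
  have := H (a := u k) (b := x) (by rw [dist_comm]; exact hx) ⟨k, rfl⟩
  rw [← dist_eq_norm, dist_comm]
  exact le_of_lt this

omit [NormedSpace ℝ E] in
theorem continuousAt_om {F : Type} [NormedAddCommGroup F] {f : E → F} {u : C(K, E)}
    (h : ∀ k, ∀ᶠ x in 𝓝 (u k), ContinuousAt f x) : ContinuousAt (om f) u := by
  have h0 : ∀ k, ContinuousAt f (u k) := fun k => (h k).self_of_nhds
  rw [Metric.continuousAt_iff']
  intro ε hε
  obtain ⟨δ, hδ, H⟩ := unif_cont h0 (half_pos hε)
  filter_upwards [ball_mem_nhds u hδ, eventually_forall_apply h] with u' hu' hc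
  refine lt_of_le_of_lt ((ContinuousMap.dist_le (half_pos hε).le).2 fun k => ?_) (half_lt_self hε)
  rw [om_apply hc, om_apply h0, dist_eq_norm]
  exact H k _ (lt_of_le_of_lt (ContinuousMap.dist_apply_le_dist k) hu')

theorem hasFDerivAt_om {F : Type} [NormedAddCommGroup F] [NormedSpace ℝ F] {f : E → F}
    {u : C(K, E)} (h : ∀ k, ContDiffAt ℝ 1 f (u k)) :
    HasFDerivAt (om f) (lam K E F (om (fderiv ℝ f) u)) u := by
  have hev : ∀ k, ∀ᶠ x in 𝓝 (u k), ContDiffAt ℝ 1 f x := fun k => (h k).eventually (by simp)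
  have hd : ∀ k, ContinuousAt (fderiv ℝ f) (u k) := fun k =>
    ((h k).fderiv_right (m := 0) (by simp)).continuousAt
  obtain ⟨δ₁, hδ₁, H₁⟩ := eventually_mapsTo hev
  rw [hasFDerivAt_iff_isLittleO_nhds_zero, Asymptotics.isLittleO_iff]
  intro c hc
  obtain ⟨δ₂, hδ₂, H₂⟩ := unif_cont hd hc
  filter_upwards [ball_mem_nhds (0 : C(K, E)) (lt_min hδ₁ hδ₂)] with v hv
  have hv' : ∀ k, (u + v) k ∈ ball (u k) (min δ₁ δ₂) := fun k => by
    rw [mem_ball, dist_eq_norm]
    simp only [ContinuousMap.add_apply, add_sub_cancel_left]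
    exact lt_of_le_of_lt (v.norm_coe_le_norm k) (by simpa using hv)
  refine (ContinuousMap.norm_le _ (by positivity)).2 fun k => ?_
  have hc1 : ∀ k, ContinuousAt f ((u + v) k) := fun k =>
    (H₁ k _ (ball_subset_ball (min_le_left _ _) (hv' k))).continuousAt
  simp only [ContinuousMap.sub_apply, lam_apply]
  rw [om_apply hc1, om_apply (fun k => (h k).continuousAt), om_apply hd]
  have := (convex_ball (u k) (min δ₁ δ₂)).norm_image_sub_le_of_norm_hasFDerivWithin_le'
    (f := f) (f' := fderiv ℝ f) (φ := fderiv ℝ f (u k)) (C := c)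
    (fun x hx => ((H₁ k x (ball_subset_ball (min_le_left _ _) hx)).differentiableAt
      (by simp)).hasFDerivAt.hasFDerivWithinAt)
    (fun x hx => H₂ k x (ball_subset_ball (min_le_right _ _) hx))
    (mem_ball_self (lt_min hδ₁ hδ₂)) (hv' k)
  simp only [ContinuousMap.add_apply, add_sub_cancel_left] at this
  exact this.trans (mul_le_mul_of_nonneg_left (v.norm_coe_le_norm k) hc.le)

theorem contDiffAt_om_nat (n : ℕ) : ∀ {F : Type} [NormedAddCommGroup F] [NormedSpace ℝ F]
    {f : E → F} {u : C(K, E)}, (∀ k, ContDiffAt ℝ n f (u k)) → ContDiffAt ℝ n (om f) u := by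
  induction n with
  | zero =>
    intro F _ _ f u h
    have hev : ∀ k, ∀ᶠ x in 𝓝 (u k), ∀ᶠ y in 𝓝 x, ContinuousAt f y := fun k =>
      (((h k).eventually (by simp)).mono fun x hx => hx.continuousAt).eventually_nhds
    refine contDiffAt_zero.2 ⟨_, eventually_forall_apply hev, fun u' hu' => ?_⟩
    exact (continuousAt_om hu').continuousWithinAt
  | succ n ih =>
    intro F _ _ f u h
    have hev : ∀ k, ∀ᶠ x in 𝓝 (u k), ContDiffAt ℝ 1 f x := fun k =>
      ((h k).of_le (by exact_mod_cast Nat.succ_le_succ (Nat.zero_le n))).eventually (by simp)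
    push_cast
    refine contDiffAt_succ_iff_hasFDerivAt.2 ⟨fun u => lam K E F (om (fderiv ℝ f) u),
      ⟨_, eventually_forall_apply hev, fun u' hu' => hasFDerivAt_om hu'⟩, ?_⟩
    refine (lam K E F).contDiff.contDiffAt.comp u (ih fun k => ?_)
    exact (h k).fderiv_right (by push_cast; exact le_rfl)

theorem contDiffAt_om {F : Type} [NormedAddCommGroup F] [NormedSpace ℝ F]
    {f : E → F} {u : C(K, E)} (h : ∀ k, ContDiffAt ℝ ∞ f (u k)) : ContDiffAt ℝ ∞ (om f) u :=
  contDiffAt_infty.2 fun n => contDiffAt_om_nat n fun k => contDiffAt_infty.1 (h k) n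

end Om

end Pool.Agent.H238Z.Uni
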