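import Pool.Agent.H238Z.Uni.Tools

/-!
Smoothness of the functions attached to a profile.
-/

open Set Real Filter Topology
open scoped ContDiff

namespace Pool.Agent.H238Z.Uni

theorem isOpen_dom (b : ℝ) : IsOpen (dom b) := isOpen_Iio.prod isOpen_Ioo

theorem mem_dom {b : ℝ} {p : ℝ × ℝ} : p ∈ dom b ↔ p.1 < b ∧ -2 < p.2 ∧ p.2 < 2 := Iff.rfl

theorem mem_dom_of_uIcc {b c d Z s : ℝ} (hZ : Z < b) (hc : c ∈ Ioo (-2 : ℝ) 2)
    (hd : d ∈ Ioo (-2 : ℝ) 2) (hs : s ∈ uIcc c d) : (Z, s) ∈ dom b :=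
  ⟨hZ, (ordConnected_Ioo.uIcc_subset hc hd) hs⟩

theorem contDiffOn_dom_integral {b c : ℝ} {F : ℝ × ℝ → ℝ} (hF : ContDiffOn ℝ ∞ F (dom b))
    (hc : c ∈ Ioo (-2 : ℝ) 2) :
    ContDiffOn ℝ ∞ (fun p : ℝ × ℝ => ∫ s in c..p.2, F (p.1, s)) (dom b) := by
  intro p hp
  refine ContDiffAt.contDiffWithinAt ?_
  refine contDiffAt_integral (F := fun z : (ℝ × ℝ) × ℝ => F (z.1.1, z.2)) (c := fun _ => c)
    (d := fun p => p.2) contDiffAt_const contDiffAt_snd fun s hs => ?_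
  have h1 : ContDiffAt ℝ ∞ F (p.1, s) :=
    hF.contDiffAt ((isOpen_dom b).mem_nhds (mem_dom_of_uIcc hp.1 hc hp.2 hs))
  exact h1.comp (p, s) (f := fun z : (ℝ × ℝ) × ℝ => (z.1.1, z.2)) (by fun_prop)

theorem contDiffOn_fixed_integral {b c d : ℝ} {F : ℝ × ℝ → ℝ} (hF : ContDiffOn ℝ ∞ F (dom b))
    (hc : c ∈ Ioo (-2 : ℝ) 2) (hd : d ∈ Ioo (-2 : ℝ) 2) :
    ContDiffOn ℝ ∞ (fun Z : ℝ => ∫ s in c..d, F (Z, s)) (Iio b) := by
  intro Z hZ
  refine ContDiffAt.contDiffWithinAt ?_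
  exact contDiffAt_integral (F := F) (c := fun _ => c) (d := fun _ => d) contDiffAt_const
    contDiffAt_const fun s hs =>
      hF.contDiffAt ((isOpen_dom b).mem_nhds (mem_dom_of_uIcc hZ hc hd hs))

theorem continuousOn_slice {b : ℝ} {F : ℝ × ℝ → ℝ} (hF : ContinuousOn F (dom b)) {Z : ℝ}
    (hZ : Z < b) : ContinuousOn (fun s => F (Z, s)) (Ioo (-2) 2) :=
  hF.comp (by fun_prop) fun s hs => ⟨hZ, hs⟩

theorem intervalIntegrable_slice {b c d : ℝ} {F : ℝ × ℝ → ℝ} (hF : ContinuousOn F (dom b)) {Z : ℝ}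
    (hZ : Z < b) (hc : c ∈ Ioo (-2 : ℝ) 2) (hd : d ∈ Ioo (-2 : ℝ) 2) :
    IntervalIntegrable (fun s => F (Z, s)) MeasureTheory.volume c d :=
  ((continuousOn_slice hF hZ).mono (ordConnected_Ioo.uIcc_subset hc hd)).intervalIntegrable

theorem hasDerivAt_dom_integral {b c : ℝ} {F : ℝ × ℝ → ℝ} (hF : ContinuousOn F (dom b))
    (hc : c ∈ Ioo (-2 : ℝ) 2) {p : ℝ × ℝ} (hp : p ∈ dom b) :
    HasDerivAt (fun σ => ∫ s in c..σ, F (p.1, s)) (F p) p.2 := by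
  have h1 := continuousOn_slice hF hp.1
  exact intervalIntegral.integral_hasDerivAt_right (intervalIntegrable_slice hF hp.1 hc hp.2)
    (h1.stronglyMeasurableAtFilter isOpen_Ioo _ hp.2)
    (h1.continuousAt (isOpen_Ioo.mem_nhds hp.2))

variable {κ b : ℝ} {G : ℝ → ℝ} {q : ℝ × ℝ → ℝ}

theorem Prof.rho_pos (hp : Prof κ b G q) (z : ℝ) : 1 / 2 ≤ 1 - κ * G z := by
  have := (abs_le.1 (hp.small z)).2
  linarith

theorem Prof.rho_ne (hp : Prof κ b G q) (z : ℝ) : 1 - κ * G z ≠ 0 := by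
  have := hp.rho_pos z
  intro h
  linarith

theorem Prof.q_ne (hp : Prof κ b G q) {p : ℝ × ℝ} (h : p ∈ dom b) : q p ≠ 0 := by
  have := hp.qpos p h
  intro h
  linarith

theorem deriv_zero_of_zero {G : ℝ → ℝ} (hG : ContDiff ℝ ∞ G) (h0 : ∀ z ≤ 0, G z = 0) :
    ∀ z ≤ 0, deriv G z = 0 := by
  have hc : Continuous (deriv G) := hG.continuous_deriv (by simp)
  have h1 : ∀ z ∈ Iio (0 : ℝ), deriv G z = 0 := fun z hz => by
    have : G =ᶠ[𝓝 z] fun _ => 0 := by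
      filter_upwards [Iio_mem_nhds hz] with w hw using h0 w (le_of_lt hw)
    rw [this.deriv_eq, deriv_const]
  have h2 : closure (Iio (0 : ℝ)) ⊆ {z | deriv G z = 0} :=
    closure_minimal h1 (isClosed_eq hc continuous_const)
  rw [closure_Iio] at h2
  exact fun z hz => h2 hz

theorem Prof.deriv_zero (hp : Prof κ b G q) : ∀ z ≤ 0, deriv G z = 0 :=
  deriv_zero_of_zero hp.sG hp.zero

theorem Prof.contDiff_deriv (hp : Prof κ b G q) : ContDiff ℝ ∞ (deriv G) :=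
  (contDiff_infty_iff_deriv.1 hp.sG).2

theorem Prof.contDiff_Gam (hp : Prof κ b G q) : ContDiff ℝ ∞ (fun z => Gam κ (G z)) :=
  hp.sG.div (contDiff_const.sub (contDiff_const.mul hp.sG)) hp.rho_ne

theorem Prof.contDiff_Gam1 (hp : Prof κ b G q) : ContDiff ℝ ∞ (fun z => Gam1 κ (G z)) :=
  contDiff_const.div ((contDiff_const.sub (contDiff_const.mul hp.sG)).pow 2)
    fun z => pow_ne_zero 2 (hp.rho_ne z)

theorem Prof.contDiff_Gam2 (hp : Prof κ b G q) : ContDiff ℝ ∞ (fun z => Gam2 κ (G z)) :=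
  contDiff_const.div ((contDiff_const.sub (contDiff_const.mul hp.sG)).pow 3)
    fun z => pow_ne_zero 3 (hp.rho_ne z)

theorem contDiff_shift {φ : ℝ → ℝ} (h : ContDiff ℝ ∞ φ) :
    ContDiff ℝ ∞ (fun p : ℝ × ℝ => φ (p.1 - p.2 ^ 2)) :=
  h.comp (f := fun p : ℝ × ℝ => p.1 - p.2 ^ 2) (by fun_prop)

theorem Prof.contDiffOn_yy (hp : Prof κ b G q) : ContDiffOn ℝ ∞ (yy G q) (dom b) :=
  (contDiffOn_dom_integral (F := fun p => 1 / q p)
    (contDiffOn_const.div hp.sq fun _ h => hp.q_ne h) (by norm_num)).sub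
    (hp.sG.comp contDiff_fst).contDiffOn

theorem Prof.contDiffOn_zeta (hp : Prof κ b G q) : ContDiffOn ℝ ∞ (zeta G q) (dom b) :=
  (contDiffOn_const.mul (contDiffOn_dom_integral (F := fun p => deriv G (p.1 - p.2 ^ 2) / q p)
    ((contDiff_shift hp.contDiff_deriv).contDiffOn.div hp.sq fun _ h => hp.q_ne h)
    (by norm_num))).exp

theorem Prof.contDiffOn_PPint (hp : Prof κ b G q) : ContDiffOn ℝ ∞ (fun p : ℝ × ℝ =>
    Gam1 κ (G (p.1 - p.2 ^ 2)) * deriv G (p.1 - p.2 ^ 2) * zeta G q p / q p) (dom b) :=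
  (((contDiff_shift hp.contDiff_Gam1).contDiffOn.mul
    (contDiff_shift hp.contDiff_deriv).contDiffOn).mul hp.contDiffOn_zeta).div hp.sq
    fun _ h => hp.q_ne h

theorem Prof.contDiffOn_PP (hp : Prof κ b G q) : ContDiffOn ℝ ∞ (PP κ G q) (dom b) := by
  have := (contDiffOn_dom_integral hp.contDiffOn_PPint (c := 1) (by norm_num)).neg
  refine this.congr fun p _ => ?_
  rw [PP, intervalIntegral.integral_symm]

theorem Prof.contDiffOn_Psi (hp : Prof κ b G q) : ContDiffOn ℝ ∞ (Psi κ G q) (dom b) :=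
  (((contDiff_shift hp.contDiff_Gam1).contDiffOn.mul (hp.contDiffOn_zeta.pow 2)).sub
    ((contDiffOn_const.mul hp.contDiffOn_zeta).mul hp.contDiffOn_PP)).div hp.sq
    fun _ h => hp.q_ne h

theorem Prof.contDiffOn_RR (hp : Prof κ b G q) : ContDiffOn ℝ ∞ (RR κ G q) (Iio b) :=
  contDiffOn_fixed_integral (F := fun p : ℝ × ℝ => Gam2 κ (G (p.1 - p.2 ^ 2)) *
      deriv G (p.1 - p.2 ^ 2) ^ 2 * zeta G q p ^ 2 / q p)
    ((((contDiff_shift hp.contDiff_Gam2).contDiffOn.mul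
      ((contDiff_shift hp.contDiff_deriv).contDiffOn.pow 2)).mul
      (hp.contDiffOn_zeta.pow 2)).div hp.sq fun _ h => hp.q_ne h) (by norm_num) (by norm_num)

theorem Prof.contDiffOn_ss (hp : Prof κ b G q) : ContDiffOn ℝ ∞ (ss G q) (Iio b) := by
  have h1 : ContDiffOn ℝ ∞ (fun Z : ℝ => yy G q (Z, -1)) (Iio b) :=
    hp.contDiffOn_yy.comp (f := fun Z : ℝ => (Z, (-1 : ℝ))) (by fun_prop)
      fun Z hZ => ⟨hZ, by norm_num⟩
  exact (contDiffOn_id.sub contDiffOn_const).add (h1.pow 2)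

theorem Prof.contDiffOn_II (hp : Prof κ b G q) : ContDiffOn ℝ ∞ (II κ G q) (Iio b) :=
  contDiffOn_fixed_integral (F := fun p : ℝ × ℝ => Gam κ (G (p.1 - p.2 ^ 2)) / q p)
    ((contDiff_shift hp.contDiff_Gam).contDiffOn.div hp.sq fun _ h => hp.q_ne h)
    (by norm_num) (by norm_num)

end Pool.Agent.H238Z.Uni
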