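import Pool.Agent.H238Z.Uni.Causal
import Pool.Agent.H238Z.Uni.Smooth

/-!
The function `q` describing the orbits near their top, as a smooth functional.
-/

open Set Real Filter Topology Metric
open scoped ContDiff

namespace Pool.Agent.H238Z.Uni

/-- Continuous functions on `[0, 1]`. -/
abbrev A1 := C(I01, ℝ)

/-- The right end point of `[0, 1]`. -/
def one01 : I01 := ⟨1, by norm_num⟩

/-- The integral operator of the equation for `q`. -/
noncomputable def Kop : A1 →L[ℝ] A1 :=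
  kerInt (fun f ρ' ρ => ρ' * (ρ ^ 2 * ext zero_le_one f (ρ' * ρ))) zero_le_one
    (fun f => by
      have := continuous_ext zero_le_one f
      fun_prop)
    (fun x y k s => by simp only [ext, ContinuousMap.add_apply]; ring)
    (fun c x k s => by simp only [ext, ContinuousMap.smul_apply, smul_eq_mul]; ring) 1 zero_le_one
    (fun f k s hs => by
      have h1 := norm_ext_le zero_le_one f (k * s)
      rw [Real.norm_eq_abs] at h1
      have h2 : s ^ 2 ≤ 1 := by nlinarith [hs.1, hs.2]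
      rw [abs_mul, abs_mul, abs_of_nonneg k.2.1, abs_of_nonneg (sq_nonneg s), one_mul]
      calc _ ≤ 1 * (1 * ‖f‖) := by
            gcongr
            exact k.2.2
        _ = _ := by ring)

theorem Kop_apply (f : A1) (ρ' : I01) :
    Kop f ρ' = ρ' * ∫ ρ in (0 : ℝ)..1, ρ ^ 2 * ext zero_le_one f (ρ' * ρ) := by
  rw [← intervalIntegral.integral_const_mul]; rfl

theorem norm_Kop_le (f : A1) : ‖Kop f‖ ≤ ‖f‖ := by
  refine (ContinuousMap.norm_le _ (norm_nonneg f)).2 fun k => ?_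
  have := intervalIntegral.norm_integral_le_of_norm_le_const (a := 0) (b := 1)
    (f := fun ρ => ρ ^ 2 * ext zero_le_one f (k * ρ)) (C := ‖f‖) (fun s hs => by
      rw [uIoc_of_le zero_le_one] at hs
      have h1 := norm_ext_le zero_le_one f (k * s)
      have h2 : s ^ 2 ≤ 1 := by nlinarith [hs.1, hs.2]
      rw [norm_mul, Real.norm_eq_abs, abs_of_nonneg (sq_nonneg s)]
      calc _ ≤ 1 * ‖f‖ := by gcongr
        _ = _ := one_mul _)
  rw [Kop_apply, norm_mul, Real.norm_eq_abs, abs_of_nonneg k.2.1]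
  simp only [sub_zero, abs_one, mul_one] at this
  calc _ ≤ 1 * ‖f‖ := by
        gcongr
        exact k.2.2
    _ = _ := one_mul _

theorem exists_Q : ∃ Q : A1 → A1, Q 0 = 1 ∧ Sm Q 0 ∧
    ∀ᶠ γ in 𝓝 (0 : A1), Q γ * Q γ + (4 : ℝ) • Kop (γ * Q γ) = 1 := by
  have hF : Sm (fun p : A1 × A1 => (1 / 2 : ℝ) • (p.2 * p.2 + (4 : ℝ) • Kop (p.1 * p.2))) (0, 1) :=
    sm_of_contDiff (by fun_prop) _
  have hd : HasFDerivAt (fun y : A1 => (1 / 2 : ℝ) • (y * y + (4 : ℝ) • Kop (0 * y)))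
      (ContinuousLinearMap.id ℝ A1) 1 := by
    simp only [zero_mul, map_zero, smul_zero, add_zero]
    have := ((hasFDerivAt_id (𝕜 := ℝ) (1 : A1)).mul' (hasFDerivAt_id (1 : A1))).const_smul
      (1 / 2 : ℝ)
    refine this.congr_fderiv ?_
    ext v k
    simp [ContinuousLinearMap.smul_apply]
    ring
  obtain ⟨Q, h0, h1, h2⟩ := exists_implicit hF hd
  refine ⟨Q, h0, h1, h2.mono fun γ h => ?_⟩
  simp only [zero_mul, map_zero, smul_zero, add_zero, mul_one] at h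
  exact smul_right_injective A1 (by norm_num : (1 / 2 : ℝ) ≠ 0) h

/-- The solution operator. -/
noncomputable def QQ : A1 → A1 := exists_Q.choose

theorem QQ_zero : QQ 0 = 1 := exists_Q.choose_spec.1

theorem sm_QQ : Sm QQ 0 := exists_Q.choose_spec.2.1

theorem exists_r0 : ∃ r > 0, r ≤ 1 / 8 ∧ ∀ γ : A1, ‖γ‖ < r → ContDiffAt ℝ ∞ QQ γ ∧
    QQ γ * QQ γ + (4 : ℝ) • Kop (γ * QQ γ) = 1 ∧ ∀ ρ, 1 / 2 ≤ QQ γ ρ := by
  have h3 : ∀ᶠ γ in 𝓝 (0 : A1), ‖QQ γ - 1‖ < 1 / 2 :=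
    (sm_QQ.cont.sub continuousAt_const).norm.eventually (gt_mem_nhds (by simp [QQ_zero]))
  obtain ⟨r, hr, H⟩ := Metric.eventually_nhds_iff_ball.1
    (sm_QQ.and (exists_Q.choose_spec.2.2.and h3))
  refine ⟨min r (1 / 8), by positivity, min_le_right _ _, fun γ hγ => ?_⟩
  obtain ⟨a1, a2, a3⟩ := H γ (by simpa using hγ.trans_le (min_le_left _ _))
  refine ⟨a1, a2, fun ρ => ?_⟩
  have := ((QQ γ - 1).norm_coe_le_norm ρ).trans_lt a3
  simp only [ContinuousMap.sub_apply, ContinuousMap.one_apply, Real.norm_eq_abs] at this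
  linarith [(abs_lt.1 this).1]

/-- A radius on which the solution operator is well behaved. -/
noncomputable def r0 : ℝ := exists_r0.choose

theorem r0_pos : 0 < r0 := exists_r0.choose_spec.1

theorem r0_le : r0 ≤ 1 / 8 := exists_r0.choose_spec.2.1

theorem QQ_smooth {γ : A1} (h : ‖γ‖ < r0) : ContDiffAt ℝ ∞ QQ γ :=
  (exists_r0.choose_spec.2.2 γ h).1

theorem QQ_eq {γ : A1} (h : ‖γ‖ < r0) : QQ γ * QQ γ + (4 : ℝ) • Kop (γ * QQ γ) = 1 :=
  (exists_r0.choose_spec.2.2 γ h).2.1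

theorem QQ_ge {γ : A1} (h : ‖γ‖ < r0) (ρ : I01) : 1 / 2 ≤ QQ γ ρ :=
  (exists_r0.choose_spec.2.2 γ h).2.2 ρ

theorem Q_unique {γ Q₁ Q₂ : A1} (h : ‖γ‖ ≤ 1 / 8) (e₁ : Q₁ * Q₁ + (4 : ℝ) • Kop (γ * Q₁) = 1)
    (e₂ : Q₂ * Q₂ + (4 : ℝ) • Kop (γ * Q₂) = 1) (p₁ : ∀ ρ, 1 / 2 ≤ Q₁ ρ) (p₂ : ∀ ρ, 1 / 2 ≤ Q₂ ρ) :
    Q₁ = Q₂ := by
  have h1 : ‖Q₁ - Q₂‖ ≤ 1 / 2 * ‖Q₁ - Q₂‖ := by
    refine (ContinuousMap.norm_le _ (by positivity)).2 fun ρ => ?_
    have a1 := congrArg (fun Φ : A1 => Φ ρ) e₁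
    have a2 := congrArg (fun Φ : A1 => Φ ρ) e₂
    simp only [ContinuousMap.add_apply, ContinuousMap.mul_apply, ContinuousMap.smul_apply,
      smul_eq_mul, ContinuousMap.one_apply] at a1 a2
    have a3 : |Kop (γ * (Q₁ - Q₂)) ρ| ≤ 1 / 8 * ‖Q₁ - Q₂‖ :=
      ((Kop _).norm_coe_le_norm ρ).trans ((norm_Kop_le _).trans ((norm_mul_le _ _).trans
        (mul_le_mul_of_nonneg_right h (norm_nonneg _))))
    rw [mul_sub, map_sub, ContinuousMap.sub_apply] at a3
    have a4 : (Q₁ ρ - Q₂ ρ) * (Q₁ ρ + Q₂ ρ) = -4 * (Kop (γ * Q₁) ρ - Kop (γ * Q₂) ρ) := by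
      linear_combination a1 - a2
    have a5 : |Q₁ ρ - Q₂ ρ| * (Q₁ ρ + Q₂ ρ) = 4 * |Kop (γ * Q₁) ρ - Kop (γ * Q₂) ρ| := by
      have := congrArg abs a4
      rwa [abs_mul, abs_mul, abs_of_nonneg (by linarith [p₁ ρ, p₂ ρ] : 0 ≤ Q₁ ρ + Q₂ ρ),
        abs_neg, abs_of_pos (by norm_num : (0 : ℝ) < 4)] at this
    rw [ContinuousMap.sub_apply, Real.norm_eq_abs]
    nlinarith [abs_nonneg (Q₁ ρ - Q₂ ρ), p₁ ρ, p₂ ρ]
  have h2 : ‖Q₁ - Q₂‖ = 0 := by linarith [norm_nonneg (Q₁ - Q₂)]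
  exact sub_eq_zero.1 (norm_eq_zero.1 h2)

/-- Rescaling of a function on `[0, 1]`. -/
noncomputable def resc (c : I01) (f : A1) : A1 :=
  ⟨fun ρ => ext zero_le_one f (c * ρ), (continuous_ext zero_le_one f).comp (by fun_prop)⟩

theorem mul_mem01 {a b : ℝ} (ha : a ∈ I01) (hb : b ∈ I01) : a * b ∈ I01 :=
  ⟨mul_nonneg ha.1 hb.1, mul_le_one₀ ha.2 hb.1 hb.2⟩

theorem QQ_resc {γ : A1} (h : ‖γ‖ < r0) (c : I01) :
    resc c (QQ γ) = QQ ((c : ℝ) • resc c γ) := by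
  have hn : ‖(c : ℝ) • resc c γ‖ < r0 := by
    refine lt_of_le_of_lt ((ContinuousMap.norm_le _ (norm_nonneg γ)).2 fun ρ => ?_) h
    rw [ContinuousMap.smul_apply, norm_smul, Real.norm_eq_abs, abs_of_nonneg c.2.1]
    calc _ ≤ 1 * ‖γ‖ := mul_le_mul c.2.2 (norm_ext_le zero_le_one γ _) (norm_nonneg _) zero_le_one
      _ = _ := one_mul _
  refine Q_unique (hn.le.trans r0_le) ?_ (QQ_eq hn) (fun ρ => QQ_ge h _) (QQ_ge hn)
  ext ρ
  have hm : (c : ℝ) * ρ ∈ I01 := mul_mem01 c.2 ρ.2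
  have a1 := congrArg (fun Φ : A1 => Φ ⟨_, hm⟩) (QQ_eq h)
  simp only [ContinuousMap.add_apply, ContinuousMap.mul_apply, ContinuousMap.smul_apply,
    smul_eq_mul, ContinuousMap.one_apply, Kop_apply] at a1 ⊢
  have a2 : resc c (QQ γ) ρ = QQ γ ⟨_, hm⟩ := ext_of_mem zero_le_one _ hm
  have a3 : ∫ s in (0 : ℝ)..1, s ^ 2 * ext zero_le_one ((c : ℝ) • resc c γ * resc c (QQ γ)) (ρ * s)
      = c * ∫ s in (0 : ℝ)..1, s ^ 2 * ext zero_le_one (γ * QQ γ) (c * ρ * s) := by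
    rw [← intervalIntegral.integral_const_mul]
    refine intervalIntegral.integral_congr fun s hs => ?_
    rw [uIcc_of_le zero_le_one] at hs
    have hm2 : (ρ : ℝ) * s ∈ I01 := mul_mem01 ρ.2 hs
    simp only [ext_of_mem zero_le_one _ hm2, ContinuousMap.mul_apply, ContinuousMap.smul_apply,
      smul_eq_mul, resc, ContinuousMap.coe_mk, mul_assoc]
    simp only [ext, ContinuousMap.mul_apply]
    ring
  rw [a2, a3]
  linear_combination a1

/-- The coefficient function along the orbit with top `Z`, up to the parameter `σ`. -/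
noncomputable def gam (g : ℝ → ℝ) (p : ℝ × ℝ) : A1 :=
  om (fun z : (ℝ × ℝ) × ℝ => z.1.2 * g (z.1.1 - (z.1.2 * z.2) ^ 2)) (seg p 0 1)

theorem gam_apply {g : ℝ → ℝ} (hg : Continuous g) (p : ℝ × ℝ) (ρ : I01) :
    gam g p ρ = p.2 * g (p.1 - (p.2 * ρ) ^ 2) := by
  rw [gam, om_apply fun ρ => Continuous.continuousAt (by fun_prop), seg_apply]
  simp

theorem contDiff_gam {g : ℝ → ℝ} (hg : ContDiff ℝ ∞ g) : ContDiff ℝ ∞ (gam g) := by
  refine contDiff_iff_contDiffAt.2 fun p => ?_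
  have hA : ContDiffAt ℝ ∞ (fun x : ℝ × ℝ => seg x 0 1) p := by
    unfold seg
    exact ((constC I01 ((ℝ × ℝ) × ℝ)).contDiff.contDiffAt.comp p
      (contDiffAt_id.prodMk contDiffAt_const)).add contDiffAt_const
  refine ContDiffAt.comp (g := om _) p (contDiffAt_om fun k => ContDiff.contDiffAt ?_) hA
  have : ContDiff ℝ ∞ fun z : (ℝ × ℝ) × ℝ => g (z.1.1 - (z.1.2 * z.2) ^ 2) :=
    hg.comp (by fun_prop)
  fun_prop

/-- The function `q`. -/
noncomputable def qq (G : ℝ → ℝ) (p : ℝ × ℝ) : ℝ := QQ (gam (deriv G) p) one01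

/-- The integral in the equation for `q`. -/
noncomputable def jj (G : ℝ → ℝ) (p : ℝ × ℝ) : ℝ :=
  ∫ ρ in (0 : ℝ)..1, ρ ^ 2 * (deriv G (p.1 - (p.2 * ρ) ^ 2) * qq G (p.1, p.2 * ρ))

/-- Smallness hypotheses on `G`. -/
structure Small (κ b : ℝ) (G : ℝ → ℝ) : Prop where
  hb : b ≤ 1
  sG : ContDiff ℝ ∞ G
  zero : ∀ z ≤ 0, G z = 0
  small : ∀ z, |κ * G z| ≤ 1 / 2
  small' : ∀ z, |G z| ≤ 1
  der : ∀ z < b, |deriv G z| ≤ r0 / 4

variable {κ b : ℝ} {G : ℝ → ℝ}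

theorem Small.sG' (h : Small κ b G) : ContDiff ℝ ∞ (deriv G) := (contDiff_infty_iff_deriv.1 h.sG).2

theorem Small.norm_gam (h : Small κ b G) {p : ℝ × ℝ} (hp : p ∈ dom b) :
    ‖gam (deriv G) p‖ < r0 := by
  have := r0_pos
  refine lt_of_le_of_lt ((ContinuousMap.norm_le _ (by positivity : 0 ≤ r0 / 2)).2 fun ρ => ?_)
    (by linarith)
  rw [gam_apply h.sG'.continuous, norm_mul, Real.norm_eq_abs, Real.norm_eq_abs]
  have a1 := h.der (p.1 - (p.2 * ρ) ^ 2) (by have := hp.1; simp only [mem_Iio] at this; nlinarith)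
  have a2 : |p.2| ≤ 2 := abs_le.2 ⟨hp.2.1.le, hp.2.2.le⟩
  calc _ ≤ 2 * (r0 / 4) := by gcongr
    _ = _ := by ring

theorem Small.sq (h : Small κ b G) : ContDiffOn ℝ ∞ (qq G) (dom b) := fun p hp => by
  have h1 : ContDiffAt ℝ ∞ (fun p => QQ (gam (deriv G) p)) p :=
    ContDiffAt.comp (g := QQ) p (QQ_smooth (h.norm_gam hp)) (contDiff_gam h.sG').contDiffAt
  exact ((evC (F := ℝ) one01).contDiff.contDiffAt.comp p h1).contDiffWithinAt

theorem Small.qpos (h : Small κ b G) {p : ℝ × ℝ} (hp : p ∈ dom b) : 1 / 2 ≤ qq G p :=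
  QQ_ge (h.norm_gam hp) _

theorem Small.QQ_gam (h : Small κ b G) {p : ℝ × ℝ} (hp : p ∈ dom b) (c : I01) :
    QQ (gam (deriv G) p) c = qq G (p.1, p.2 * c) := by
  have h1 := congrArg (fun Φ : A1 => Φ one01) (QQ_resc (h.norm_gam hp) c)
  have h2 : (c : ℝ) • resc c (gam (deriv G) p) = gam (deriv G) (p.1, p.2 * c) := by
    ext ρ
    have hm : (c : ℝ) * ρ ∈ I01 := mul_mem01 c.2 ρ.2
    simp only [ContinuousMap.smul_apply, resc, ContinuousMap.coe_mk, ext_of_mem zero_le_one _ hm,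
      gam_apply h.sG'.continuous, smul_eq_mul, mul_assoc]
    ring
  simp only [h2] at h1
  rw [qq, ← h1]
  simp only [resc, ContinuousMap.coe_mk, one01, mul_one, ext_of_mem zero_le_one _ c.2]

theorem Small.qeq (h : Small κ b G) {p : ℝ × ℝ} (hp : p ∈ dom b) :
    qq G p ^ 2 = 1 - 4 * p.2 * jj G p := by
  have a1 := congrArg (fun Φ : A1 => Φ one01) (QQ_eq (h.norm_gam hp))
  simp only [ContinuousMap.add_apply, ContinuousMap.mul_apply, ContinuousMap.smul_apply,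
    smul_eq_mul, ContinuousMap.one_apply, Kop_apply] at a1
  have a2 : ∫ ρ in (0 : ℝ)..1, ρ ^ 2 * ext zero_le_one (gam (deriv G) p * QQ (gam (deriv G) p))
      ((one01 : ℝ) * ρ) = p.2 * jj G p := by
    rw [jj, ← intervalIntegral.integral_const_mul]
    refine intervalIntegral.integral_congr fun s hs => ?_
    rw [uIcc_of_le zero_le_one] at hs
    simp only [one01, one_mul, ext_of_mem zero_le_one _ hs, ContinuousMap.mul_apply,
      gam_apply h.sG'.continuous, h.QQ_gam hp]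
    ring
  rw [a2] at a1
  simp only [one01, one_mul] at a1
  rw [qq, one01]
  linear_combination a1

theorem Small.q_zero (h : Small κ b G) {Z : ℝ} (hZ : Z < b) : qq G (Z, 0) = 1 := by
  have hp : (Z, (0 : ℝ)) ∈ dom b := ⟨hZ, by norm_num⟩
  have h1 := h.qeq hp
  have h2 := h.qpos hp
  simp only [mul_zero, zero_mul, sub_zero] at h1
  nlinarith

theorem Small.hasDerivAt_q (h : Small κ b G) {p : ℝ × ℝ} (hp : p ∈ dom b) :
    HasDerivAt (fun σ => qq G (p.1, σ)) (fderiv ℝ (qq G) p (0, 1)) p.2 :=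
  HasFDerivAt.comp_hasDerivAt (l := qq G) (f := fun σ => (p.1, σ)) p.2
    ((h.sq.contDiffAt ((isOpen_dom b).mem_nhds hp)).differentiableAt (by simp)).hasFDerivAt
    ((hasDerivAt_const p.2 p.1).prodMk (hasDerivAt_id _))

theorem Small.eta_deriv (h : Small κ b G) {p : ℝ × ℝ} (hp : p ∈ dom b) :
    qq G p + p.2 * fderiv ℝ (qq G) p (0, 1) = 1 / qq G p - 2 * p.2 * deriv G (p.1 - p.2 ^ 2) := by
  obtain ⟨Z, σ⟩ := p
  rcases eq_or_ne σ 0 with rfl | hσ
  · simp [h.q_zero hp.1]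
  have hc : ContinuousOn (fun p : ℝ × ℝ => p.2 ^ 2 * (deriv G (p.1 - p.2 ^ 2) * qq G p)) (dom b) :=
    (by fun_prop : Continuous fun p : ℝ × ℝ => p.2 ^ 2).continuousOn.mul
      ((contDiff_shift h.sG').continuous.continuousOn.mul h.sq.continuousOn)
  have h1 := hasDerivAt_dom_integral hc (c := 0) (by norm_num) hp
  have h2 : ∀ s ∈ Ioo (-2 : ℝ) 2, (s * qq G (Z, s)) ^ 2 =
      s ^ 2 - 4 * ∫ t in (0 : ℝ)..s, t ^ 2 * (deriv G (Z - t ^ 2) * qq G (Z, t)) := by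
    intro s hs
    have a1 := h.qeq (p := (Z, s)) ⟨hp.1, hs⟩
    have a2 := intervalIntegral.smul_integral_comp_mul_left (a := 0) (b := 1)
      (fun t => t ^ 2 * (deriv G (Z - t ^ 2) * qq G (Z, t))) s
    simp only [mul_zero, mul_one, smul_eq_mul] at a2
    have a3 : ∫ x in (0 : ℝ)..1, (s * x) ^ 2 * (deriv G (Z - (s * x) ^ 2) * qq G (Z, s * x)) =
        s ^ 2 * jj G (Z, s) := by
      rw [jj, ← intervalIntegral.integral_const_mul]
      refine intervalIntegral.integral_congr fun x _ => ?_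
      simp only
      ring
    rw [← a2, a3, mul_pow, a1]
    ring
  have h3 := ((hasDerivAt_id σ).mul (h.hasDerivAt_q hp)).pow 2
  have h4 := ((hasDerivAt_id σ).pow 2).sub (h1.const_mul 4)
  have h5 := h3.unique (h4.congr_of_eventuallyEq (by
    filter_upwards [isOpen_Ioo.mem_nhds hp.2] with s hs using h2 s hs))
  have h6 := h.qpos hp
  have h7 : qq G (Z, σ) ≠ 0 := by intro h; linarith
  simp only [id, Pi.mul_apply, Nat.cast_ofNat, Nat.add_one_sub_one, pow_one, one_mul,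
    mul_one] at h5
  field_simp
  apply mul_left_cancel₀ (mul_ne_zero two_ne_zero hσ)
  linear_combination h5

theorem Small.prof (h : Small κ b G) : Prof κ b G (qq G) where
  hb := h.hb
  sG := h.sG
  zero := h.zero
  small := h.small
  small' := h.small'
  sq := h.sq
  qpos := fun _ hp => h.qpos hp
  id₁ := by
    rintro ⟨Z, σ⟩ hp
    have hc : ContinuousOn (fun p : ℝ × ℝ => 1 / qq G p) (dom b) :=
      continuousOn_const.div h.sq.continuousOn fun p hp h0 => by linarith [h.qpos hp]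
    have hd : ∀ s ∈ Ioo (-2 : ℝ) 2, HasDerivAt (fun s => s * qq G (Z, s) -
        (∫ t in (0 : ℝ)..s, 1 / qq G (Z, t)) - G (Z - s ^ 2)) 0 s := by
      intro s hs
      have hs' : (Z, s) ∈ dom b := ⟨hp.1, hs⟩
      have a1 := (hasDerivAt_id s).mul (h.hasDerivAt_q hs')
      have a2 := hasDerivAt_dom_integral hc (c := 0) (by norm_num) hs'
      have a3 := (h.sG.differentiable (by simp) (Z - s ^ 2)).hasDerivAt.comp s
        (((hasDerivAt_id s).pow 2).const_sub Z)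
      refine ((a1.sub a2).sub a3).congr_deriv ?_
      have := h.eta_deriv hs'
      simp only [id, Nat.cast_ofNat, Nat.add_one_sub_one, pow_one, one_mul, mul_one] at this ⊢
      linear_combination this
    have := isOpen_Ioo.is_const_of_deriv_eq_zero (𝕜 := ℝ) isPreconnected_Ioo
      (fun s hs => (hd s hs).differentiableAt.differentiableWithinAt)
      (fun s hs => (hd s hs).deriv) hp.2 (show (0 : ℝ) ∈ Ioo (-2 : ℝ) 2 by norm_num)
    simp only [zero_mul, intervalIntegral.integral_same, ne_eq, OfNat.ofNat_ne_zero,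
      not_false_eq_true, zero_pow, sub_zero, zero_sub] at this
    simp only
    linarith

theorem Small.q_sigma (h : Small κ b G) {p : ℝ × ℝ} (hp : p ∈ dom b) :
    fderiv ℝ (qq G) p (0, 1) = -2 * deriv G (p.1 - p.2 ^ 2) + 4 * jj G p / qq G p := by
  have key : ∀ p ∈ dom b, p.2 ≠ 0 →
      fderiv ℝ (qq G) p (0, 1) = -2 * deriv G (p.1 - p.2 ^ 2) + 4 * jj G p / qq G p := by
    intro p hp hσ
    have h1 := h.eta_deriv hp
    have h2 := h.qeq hp
    have h7 : qq G p ≠ 0 := by intro h0; linarith [h.qpos hp]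
    field_simp at h1 ⊢
    apply mul_left_cancel₀ hσ
    linear_combination h1 - h2
  rcases ne_or_eq p.2 0 with hσ | hσ
  · exact key p hp hσ
  obtain ⟨Z, σ⟩ := p
  simp only at hσ
  subst hσ
  have hq : ContDiffAt ℝ ∞ (qq G) (Z, 0) := h.sq.contDiffAt ((isOpen_dom b).mem_nhds hp)
  have hl : ContinuousAt (fun s : ℝ => ((Z, s) : ℝ × ℝ)) 0 := by fun_prop
  have c1 : ContinuousAt (fun s : ℝ => fderiv ℝ (qq G) (Z, s) (0, 1)) 0 :=
    (ContinuousAt.comp (g := fderiv ℝ (qq G))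
      (hq.fderiv_right (m := 0) (by simp)).continuousAt hl).clm_apply continuousAt_const
  have c2 : ContinuousAt (fun s : ℝ => jj G (Z, s)) 0 := by
    refine (contDiffAt_integral (X := ℝ) (F := fun z : ℝ × ℝ =>
      z.2 ^ 2 * (deriv G (Z - (z.1 * z.2) ^ 2) * qq G (Z, z.1 * z.2))) (c := fun _ => 0)
      (d := fun _ => 1) contDiffAt_const contDiffAt_const fun s _ => ?_).continuousAt
    have a1 : ContDiffAt ℝ ∞ (fun z : ℝ × ℝ => qq G (Z, z.1 * z.2)) (0, s) :=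
      ContDiffAt.comp (g := qq G) (0, s) (by simpa using hq) (by fun_prop)
    have a2 : ContDiff ℝ ∞ (fun z : ℝ × ℝ => deriv G (Z - (z.1 * z.2) ^ 2)) :=
      h.sG'.comp (by fun_prop)
    exact (by fun_prop : ContDiffAt ℝ ∞ (fun z : ℝ × ℝ => z.2 ^ 2) (0, s)).mul
      (a2.contDiffAt.mul a1)
  have c3 : ContinuousAt (fun s : ℝ => -2 * deriv G (Z - s ^ 2) + 4 * jj G (Z, s) / qq G (Z, s))
      0 := by
    have := h.sG'.continuous
    refine (by fun_prop : ContinuousAt (fun s : ℝ => -2 * deriv G (Z - s ^ 2)) 0).add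
      ((c2.const_mul 4).div (ContinuousAt.comp (g := qq G) hq.continuousAt hl) ?_)
    rw [h.q_zero hp.1]; exact one_ne_zero
  have e : (fun s : ℝ => fderiv ℝ (qq G) (Z, s) (0, 1)) =ᶠ[𝓝[≠] 0]
      fun s : ℝ => -2 * deriv G (Z - s ^ 2) + 4 * jj G (Z, s) / qq G (Z, s) := by
    filter_upwards [self_mem_nhdsWithin,
      mem_nhdsWithin_of_mem_nhds (isOpen_Ioo.mem_nhds hp.2)] with s hs1 hs2
    exact key (Z, s) ⟨hp.1, hs2⟩ hs1
  exact tendsto_nhds_unique_of_eventuallyEq (c1.tendsto.mono_left nhdsWithin_le_nhds)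
    (c3.tendsto.mono_left nhdsWithin_le_nhds) e

end Pool.Agent.H238Z.Uni
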