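import Pool.Agent.H238Z.Uni.Tools

/-!
Maps that are smooth in a neighbourhood of a point, an implicit function theorem for them, and some
continuous linear maps between spaces of continuous functions.
-/

open Set Real Filter Topology
open scoped ContDiff

namespace Pool.Agent.H238Z.Uni

section Sm

variable {X Y Z : Type} [NormedAddCommGroup X] [NormedSpace ℝ X] [NormedAddCommGroup Y]
  [NormedSpace ℝ Y] [NormedAddCommGroup Z] [NormedSpace ℝ Z]

/-- `f` is smooth at every point near `x₀`. -/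
def Sm (f : X → Y) (x₀ : X) : Prop := ∀ᶠ x in 𝓝 x₀, ContDiffAt ℝ ∞ f x

theorem Sm.at {f : X → Y} {x₀ : X} (h : Sm f x₀) : ContDiffAt ℝ ∞ f x₀ := h.self_of_nhds

theorem Sm.cont {f : X → Y} {x₀ : X} (h : Sm f x₀) : ContinuousAt f x₀ := h.at.continuousAt

theorem Sm.diff {f : X → Y} {x₀ : X} (h : Sm f x₀) : DifferentiableAt ℝ f x₀ :=
  h.at.differentiableAt (by simp)

theorem Sm.ev {f : X → Y} {x₀ : X} (h : Sm f x₀) : ∀ᶠ x in 𝓝 x₀, Sm f x := h.eventually_nhds

theorem sm_of_contDiff {f : X → Y} (h : ContDiff ℝ ∞ f) (x₀ : X) : Sm f x₀ :=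
  Eventually.of_forall fun _ => h.contDiffAt

theorem sm_clm (L : X →L[ℝ] Y) (x₀ : X) : Sm L x₀ := sm_of_contDiff L.contDiff x₀

theorem sm_const (y : Y) (x₀ : X) : Sm (fun _ : X => y) x₀ := sm_of_contDiff contDiff_const x₀

theorem Sm.comp {g : Y → Z} {f : X → Y} {x₀ : X} {y₀ : Y} (hg : Sm g y₀) (hf : Sm f x₀)
    (h : f x₀ = y₀) : Sm (fun x => g (f x)) x₀ := by
  subst h
  filter_upwards [hf, hf.cont.eventually hg] with x h1 h2 using h2.comp x h1

theorem Sm.clm {f : X → Y} {x₀ : X} (L : Y →L[ℝ] Z) (hf : Sm f x₀) : Sm (fun x => L (f x)) x₀ :=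
  (sm_clm L _).comp hf rfl

theorem Sm.add {f g : X → Y} {x₀ : X} (hf : Sm f x₀) (hg : Sm g x₀) :
    Sm (fun x => f x + g x) x₀ := by
  filter_upwards [hf, hg] with x h1 h2 using h1.add h2

theorem Sm.sub {f g : X → Y} {x₀ : X} (hf : Sm f x₀) (hg : Sm g x₀) :
    Sm (fun x => f x - g x) x₀ := by
  filter_upwards [hf, hg] with x h1 h2 using h1.sub h2

theorem Sm.neg {f : X → Y} {x₀ : X} (hf : Sm f x₀) : Sm (fun x => -f x) x₀ := by
  filter_upwards [hf] with x h1 using h1.neg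

theorem Sm.const_smul {f : X → Y} {x₀ : X} (c : ℝ) (hf : Sm f x₀) : Sm (fun x => c • f x) x₀ := by
  filter_upwards [hf] with x h1 using h1.const_smul c

theorem Sm.prodMk {f : X → Y} {g : X → Z} {x₀ : X} (hf : Sm f x₀) (hg : Sm g x₀) :
    Sm (fun x => (f x, g x)) x₀ := by
  filter_upwards [hf, hg] with x h1 h2 using h1.prodMk h2

theorem Sm.mul {A : Type} [NormedRing A] [NormedAlgebra ℝ A] {f g : X → A} {x₀ : X}
    (hf : Sm f x₀) (hg : Sm g x₀) : Sm (fun x => f x * g x) x₀ := by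
  filter_upwards [hf, hg] with x h1 h2 using h1.mul h2

theorem Sm.fderiv {f : X → Y} {x₀ : X} (hf : Sm f x₀) : Sm (fderiv ℝ f) x₀ := by
  filter_upwards [hf] with x h1 using h1.fderiv_right (by simp)

theorem Sm.clm_apply {f : X → Y →L[ℝ] Z} {g : X → Y} {x₀ : X} (hf : Sm f x₀) (hg : Sm g x₀) :
    Sm (fun x => f x (g x)) x₀ := by
  filter_upwards [hf, hg] with x h1 h2 using h1.clm_apply h2

theorem sm_om {K : Type} [TopologicalSpace K] [CompactSpace K] {f : X → Y} {u : C(K, X)}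
    (h : ∀ k, Sm f (u k)) : Sm (om f) u := by
  filter_upwards [eventually_forall_apply h] with u' hu' using contDiffAt_om hu'

theorem hasFDerivAt_om_comp {K : Type} [TopologicalSpace K] [CompactSpace K] {f : Y → Z}
    {A : X → C(K, Y)} {A' : X →L[ℝ] C(K, Y)} {x : X} (hA : HasFDerivAt A A' x)
    (h : ∀ k, ContDiffAt ℝ 1 f (A x k)) :
    ∃ D : X →L[ℝ] C(K, Z), HasFDerivAt (fun x => om f (A x)) D x ∧
      ∀ v k, D v k = fderiv ℝ f (A x k) (A' v k) := by
  refine ⟨(lam K Y Z (om (fderiv ℝ f) (A x))).comp A',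
    HasFDerivAt.comp (g := om f) x (hasFDerivAt_om h) hA, fun v k => ?_⟩
  have hd : ∀ k, ContinuousAt (fderiv ℝ f) (A x k) := fun k =>
    ((h k).fderiv_right (m := 0) (by simp)).continuousAt
  rw [ContinuousLinearMap.comp_apply, lam_apply, om_apply (f := fderiv ℝ f) (u := A x) hd]

theorem hasFDerivAt_affine (L : X →L[ℝ] Y) (c : Y) (x : X) :
    HasFDerivAt (fun x => c + L x) L x := L.hasFDerivAt.const_add c

theorem hasFDerivAt_mul_zero {A : Type} [NormedRing A] [NormedAlgebra ℝ A] {f g : X → A} {x₀ : X}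
    (hf : DifferentiableAt ℝ f x₀) (hg : DifferentiableAt ℝ g x₀) (hf0 : f x₀ = 0)
    (hg0 : g x₀ = 0) : HasFDerivAt (fun x => f x * g x) (0 : X →L[ℝ] A) x₀ := by
  have := hf.hasFDerivAt.mul' hg.hasFDerivAt
  rw [hf0, hg0] at this
  refine this.congr_fderiv ?_
  ext v
  simp [ContinuousLinearMap.smul_apply]

theorem exists_implicit [CompleteSpace X] [CompleteSpace Y] {F : X × Y → Y} {x₀ : X} {y₀ : Y}
    (hF : Sm F (x₀, y₀))
    (hid : HasFDerivAt (fun y => F (x₀, y)) (ContinuousLinearMap.id ℝ Y) y₀) :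
    ∃ ψ : X → Y, ψ x₀ = y₀ ∧ Sm ψ x₀ ∧ ∀ᶠ x in 𝓝 x₀, F (x, ψ x) = F (x₀, y₀) := by
  have hn : (∞ : WithTop ℕ∞) ≠ 0 := by simp
  have hid' : fderiv ℝ F (x₀, y₀) ∘L ContinuousLinearMap.inr ℝ X Y =
      ContinuousLinearMap.id ℝ Y := by
    refine HasFDerivAt.unique ?_ hid
    exact hF.diff.hasFDerivAt.comp y₀ (hasFDerivAt_prodMk_right x₀ y₀)
  have hinv : (fderiv ℝ F (x₀, y₀) ∘L ContinuousLinearMap.inr ℝ X Y).IsInvertible := by
    rw [hid']; exact ⟨ContinuousLinearEquiv.refl ℝ Y, rfl⟩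
  set ψ := hF.at.implicitFunction hn hinv with hψ
  have h0 : ψ x₀ = y₀ := hF.at.implicitFunction_apply_self hn hinv
  have hc : ContDiffAt ℝ ∞ ψ x₀ := hF.at.contDiffAt_implicitFunction hn hinv
  have heq : ∀ᶠ x in 𝓝 x₀, F (x, ψ x) = F (x₀, y₀) :=
    hF.at.eventually_apply_implicitFunction hn hinv
  have hiff : ∀ᶠ v in 𝓝 (x₀, y₀), F v = F (x₀, y₀) ↔ ψ v.1 = v.2 :=
    hF.at.eventually_apply_eq_iff_implicitFunction hn hinv
  have hop : ∀ᶠ v in 𝓝 (x₀, y₀),
      (fderiv ℝ F v ∘L ContinuousLinearMap.inr ℝ X Y).IsInvertible := by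
    have h1 : ContinuousAt (fun v => fderiv ℝ F v ∘L ContinuousLinearMap.inr ℝ X Y) (x₀, y₀) :=
      hF.fderiv.cont.clm_comp continuousAt_const
    exact h1.eventually (ContinuousLinearEquiv.isOpen.mem_nhds hinv)
  refine ⟨ψ, h0, ?_, heq⟩
  have ht : Tendsto (fun x => (x, ψ x)) (𝓝 x₀) (𝓝 (x₀, y₀)) := by
    have := (continuousAt_id.prodMk hc.continuousAt : ContinuousAt (fun x => (x, ψ x)) x₀)
    rwa [ContinuousAt, h0] at this
  filter_upwards [ht.eventually hF, ht.eventually hop, ht.eventually hiff.eventually_nhds, heq]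
    with x h1 h2 h3 h4
  have k0 : h1.implicitFunction hn h2 x = ψ x := h1.implicitFunction_apply_self hn h2
  have kc : ContDiffAt ℝ ∞ (h1.implicitFunction hn h2) x := h1.contDiffAt_implicitFunction hn h2
  have ke := h1.eventually_apply_implicitFunction hn h2
  have kt : Tendsto (fun x' => (x', h1.implicitFunction hn h2 x')) (𝓝 x) (𝓝 (x, ψ x)) := by
    have := (continuousAt_id.prodMk kc.continuousAt :
      ContinuousAt (fun x' => (x', h1.implicitFunction hn h2 x')) x)
    rwa [ContinuousAt, k0] at this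
  refine kc.congr_of_eventuallyEq ?_
  filter_upwards [ke, kt.eventually h3] with x' a1 a2
  exact a2.1 (a1.trans h4)

end Sm

section CLM

variable {K : Type} [TopologicalSpace K] [CompactSpace K]
variable {X : Type} [NormedAddCommGroup X] [NormedSpace ℝ X]

/-- A linear map given by integration of a kernel. -/
noncomputable def kerInt (f : X → K → ℝ → ℝ) {a b : ℝ} (hab : a ≤ b)
    (hc : ∀ x, Continuous fun p : K × ℝ => f x p.1 p.2)
    (hadd : ∀ x y k s, f (x + y) k s = f x k s + f y k s)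
    (hsmul : ∀ (c : ℝ) x k s, f (c • x) k s = c * f x k s) (C : ℝ) (hC : 0 ≤ C)
    (hb : ∀ x k, ∀ s ∈ Icc a b, |f x k s| ≤ C * ‖x‖) : X →L[ℝ] C(K, ℝ) :=
  mkCLM (fun x k => ∫ s in a..b, f x k s)
    (fun x => intervalIntegral.continuous_parametric_intervalIntegral_of_continuous' (hc x) a b)
    (fun x y k => by
      have h1 : ∀ x, IntervalIntegrable (fun s => f x k s) MeasureTheory.volume a b := fun x =>
        ((hc x).comp (f := fun s : ℝ => (k, s)) (by fun_prop)).intervalIntegrable _ _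
      rw [← intervalIntegral.integral_add (h1 x) (h1 y)]
      simp only [hadd])
    (fun c x k => by
      simp only [hsmul, smul_eq_mul]
      rw [intervalIntegral.integral_const_mul])
    (C * (b - a)) (mul_nonneg hC (sub_nonneg.2 hab))
    (fun x k => by
      have := intervalIntegral.norm_integral_le_of_norm_le_const (a := a) (b := b)
        (f := fun s => f x k s) (C := C * ‖x‖) (fun s hs => by
          rw [uIoc_of_le hab] at hs
          exact hb x k s ⟨hs.1.le, hs.2⟩)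
      rw [abs_of_nonneg (sub_nonneg.2 hab)] at this
      calc _ ≤ _ := this
        _ = _ := by ring)

@[simp] theorem kerInt_apply (f : X → K → ℝ → ℝ) {a b : ℝ} (hab : a ≤ b) (hc) (hadd) (hsmul)
    (C : ℝ) (hC) (hb) (x : X) (k : K) :
    kerInt f hab hc hadd hsmul C hC hb x k = ∫ s in a..b, f x k s := rfl

/-- A linear map into functions of two variables, curried. -/
noncomputable def mk2 {K' : Type} [TopologicalSpace K'] [CompactSpace K'] (f : X → K → K' → ℝ)
    (hc : ∀ x, Continuous fun p : K × K' => f x p.1 p.2)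
    (hadd : ∀ x y k s, f (x + y) k s = f x k s + f y k s)
    (hsmul : ∀ (c : ℝ) x k s, f (c • x) k s = c * f x k s) (C : ℝ) (hC : 0 ≤ C)
    (hb : ∀ x k s, |f x k s| ≤ C * ‖x‖) : X →L[ℝ] C(K, C(K', ℝ)) :=
  mkCLM (fun x k => ContinuousMap.curry ⟨fun p : K × K' => f x p.1 p.2, hc x⟩ k)
    (fun x => (ContinuousMap.curry ⟨fun p : K × K' => f x p.1 p.2, hc x⟩).continuous)
    (fun x y k => by ext s; exact hadd x y k s)
    (fun c x k => by ext s; exact hsmul c x k s) C hC
    (fun x k => (ContinuousMap.norm_le _ (by positivity)).2 fun s => hb x k s)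

@[simp] theorem mk2_apply {K' : Type} [TopologicalSpace K'] [CompactSpace K'] (f : X → K → K' → ℝ)
    (hc) (hadd) (hsmul) (C : ℝ) (hC) (hb) (x : X) (k : K) (s : K') :
    mk2 f hc hadd hsmul C hC hb x k s = f x k s := rfl

/-- Evaluation along a map. -/
noncomputable def evalAlong {K' : Type} [TopologicalSpace K'] [CompactSpace K'] [T2Space K']
    (φ : C(K, K')) : C(K, C(K', ℝ)) →L[ℝ] C(K, ℝ) :=
  mkCLM (X := C(K, C(K', ℝ))) (fun Φ k => Φ k (φ k))
    (fun Φ => continuous_eval.comp (Φ.continuous.prodMk φ.continuous))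
    (fun _ _ _ => rfl) (fun _ _ _ => rfl) 1 zero_le_one
    (fun Φ k => by
      rw [one_mul]
      exact ((Φ k).norm_coe_le_norm _).trans (Φ.norm_coe_le_norm k))

@[simp] theorem evalAlong_apply {K' : Type} [TopologicalSpace K'] [CompactSpace K'] [T2Space K']
    (φ : C(K, K')) (Φ : C(K, C(K', ℝ))) (k : K) : evalAlong φ Φ k = Φ k (φ k) := rfl

/-- Pairing of two functions. -/
noncomputable def prodC (K : Type) [TopologicalSpace K] [CompactSpace K] (E F : Type)
    [NormedAddCommGroup E] [NormedSpace ℝ E] [NormedAddCommGroup F] [NormedSpace ℝ F] :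
    (C(K, E) × C(K, F)) →L[ℝ] C(K, E × F) :=
  mkCLM (fun Φ k => (Φ.1 k, Φ.2 k)) (fun Φ => Φ.1.continuous.prodMk Φ.2.continuous)
    (fun _ _ _ => rfl) (fun _ _ _ => rfl) 1 zero_le_one
    (fun Φ k => by
      rw [one_mul, Prod.norm_def, Prod.norm_def]
      exact max_le_max (Φ.1.norm_coe_le_norm k) (Φ.2.norm_coe_le_norm k))

@[simp] theorem prodC_apply (E F : Type) [NormedAddCommGroup E] [NormedSpace ℝ E]
    [NormedAddCommGroup F] [NormedSpace ℝ F] (Φ : C(K, E) × C(K, F)) (k : K) :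
    prodC K E F Φ k = (Φ.1 k, Φ.2 k) := rfl

/-- Evaluation at a point. -/
noncomputable def evC {F : Type} [NormedAddCommGroup F] [NormedSpace ℝ F] (k : K) :
    C(K, F) →L[ℝ] F :=
  LinearMap.mkContinuous
    { toFun := fun Φ => Φ k
      map_add' := fun _ _ => rfl
      map_smul' := fun _ _ => rfl } 1 (fun Φ => by rw [one_mul]; exact Φ.norm_coe_le_norm k)

@[simp] theorem evC_apply {F : Type} [NormedAddCommGroup F] [NormedSpace ℝ F] (k : K)
    (Φ : C(K, F)) : evC k Φ = Φ k := rfl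

end CLM

end Pool.Agent.H238Z.Uni
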