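import Pool.Agent.H238Z.Uni.Defs
import Pool.Agent.H238Z.Uni.Omega

/-!
Smoothness of parametric integrals and of inverse maps.
-/

open Set Real Filter Topology
open scoped ContDiff

namespace Pool.Agent.H238Z.Uni

/-- Extension of a continuous function on a compact interval to the line, constant outside. -/
noncomputable def ext {F : Type} [TopologicalSpace F] {a b : ℝ} (h : a ≤ b) (Φ : C(Icc a b, F))
    (s : ℝ) : F := Φ (projIcc a b h s)

theorem continuous_ext {F : Type} [TopologicalSpace F] {a b : ℝ} (h : a ≤ b) (Φ : C(Icc a b, F)) :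
    Continuous (ext h Φ) := Φ.continuous.comp continuous_projIcc

theorem ext_of_mem {F : Type} [TopologicalSpace F] {a b : ℝ} (h : a ≤ b) (Φ : C(Icc a b, F))
    {s : ℝ} (hs : s ∈ Icc a b) : ext h Φ s = Φ ⟨s, hs⟩ := by
  rw [ext, projIcc_of_mem h hs]

theorem norm_ext_le {F : Type} [NormedAddCommGroup F] {a b : ℝ} (h : a ≤ b) (Φ : C(Icc a b, F))
    (s : ℝ) : ‖ext h Φ s‖ ≤ ‖Φ‖ := Φ.norm_coe_le_norm _

/-- Integration over a compact interval as a continuous linear map. -/
noncomputable def intC {F : Type} [NormedAddCommGroup F] [NormedSpace ℝ F] {a b : ℝ} (h : a ≤ b) :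
    C(Icc a b, F) →L[ℝ] F :=
  LinearMap.mkContinuous
    { toFun := fun Φ => ∫ s in a..b, ext h Φ s
      map_add' := fun x y => by
        rw [← intervalIntegral.integral_add ((continuous_ext h x).intervalIntegrable _ _)
          ((continuous_ext h y).intervalIntegrable _ _)]
        rfl
      map_smul' := fun c x => by
        rw [RingHom.id_apply, ← intervalIntegral.integral_smul]
        rfl } (b - a)
    (fun Φ => by
      have := intervalIntegral.norm_integral_le_of_norm_le_const (a := a) (b := b)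
        (f := ext h Φ) (C := ‖Φ‖) (fun s _ => norm_ext_le h Φ s)
      rw [abs_of_nonneg (sub_nonneg.2 h), mul_comm] at this
      exact this)

theorem intC_apply {F : Type} [NormedAddCommGroup F] [NormedSpace ℝ F] {a b : ℝ} (h : a ≤ b)
    (Φ : C(Icc a b, F)) : intC h Φ = ∫ s in a..b, ext h Φ s := rfl

theorem intC_eq {F : Type} [NormedAddCommGroup F] [NormedSpace ℝ F] {a b : ℝ} (h : a ≤ b)
    (Φ : C(Icc a b, F)) {f : ℝ → F} (hf : ∀ s (hs : s ∈ Icc a b), Φ ⟨s, hs⟩ = f s) :
    intC h Φ = ∫ s in a..b, f s := by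
  rw [intC_apply]
  refine intervalIntegral.integral_congr fun s hs => ?_
  rw [uIcc_of_le h] at hs
  rw [ext_of_mem h Φ hs, hf]

/-- Constant functions. -/
noncomputable def constC (K : Type) [TopologicalSpace K] [CompactSpace K] (F : Type)
    [NormedAddCommGroup F] [NormedSpace ℝ F] : F →L[ℝ] C(K, F) :=
  mkCLM (fun x _ => x) (fun _ => continuous_const) (fun _ _ _ => rfl) (fun _ _ _ => rfl) 1
    zero_le_one (fun x _ => by simp)

@[simp] theorem constC_apply (K : Type) [TopologicalSpace K] [CompactSpace K] (F : Type)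
    [NormedAddCommGroup F] [NormedSpace ℝ F] (x : F) (k : K) : constC K F x k = x := rfl

/-- The unit interval. -/
abbrev I01 := Icc (0 : ℝ) 1

section Param

variable {X : Type} [NormedAddCommGroup X] [NormedSpace ℝ X]

/-- The segment from `(x, c)` to `(x, d)`. -/
noncomputable def seg (x : X) (c d : ℝ) : C(I01, X × ℝ) :=
  constC I01 (X × ℝ) (x, c) + (d - c) • ⟨fun ρ => (0, (ρ : ℝ)), by fun_prop⟩

theorem seg_apply (x : X) (c d : ℝ) (ρ : I01) : seg x c d ρ = (x, (d - c) * ρ + c) := by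
  simp [seg, add_comm]

theorem seg_mem (c d : ℝ) (ρ : I01) : (d - c) * ρ + c ∈ uIcc c d := by
  have h0 := ρ.2.1
  have h1 := ρ.2.2
  rcases le_total c d with h | h
  · rw [uIcc_of_le h]; constructor <;> nlinarith
  · rw [uIcc_of_ge h]; constructor <;> nlinarith

theorem integral_eq_seg {F : X × ℝ → ℝ} {x : X} {c d : ℝ}
    (h : ∀ ρ, ContinuousAt F (seg x c d ρ)) :
    ∫ s in c..d, F (x, s) = (d - c) * intC zero_le_one (om F (seg x c d)) := by
  rw [intC_eq zero_le_one _ (f := fun ρ => F (x, (d - c) * ρ + c))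
    (fun s hs => by rw [om_apply h, seg_apply])]
  have := intervalIntegral.smul_integral_comp_mul_add (a := 0) (b := 1)
    (fun s => F (x, s)) (d - c) c
  simpa using this.symm

theorem contDiffAt_integral {X : Type} [NormedAddCommGroup X] [NormedSpace ℝ X] {F : X × ℝ → ℝ}
    {c d : X → ℝ} {x₀ : X} (hc : ContDiffAt ℝ ∞ c x₀) (hd : ContDiffAt ℝ ∞ d x₀)
    (hF : ∀ s ∈ uIcc (c x₀) (d x₀), ContDiffAt ℝ ∞ F (x₀, s)) :
    ContDiffAt ℝ ∞ (fun x => ∫ s in c x..d x, F (x, s)) x₀ := by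
  have hA : ContDiffAt ℝ ∞ (fun x => seg x (c x) (d x)) x₀ := by
    unfold seg
    exact ((constC I01 (X × ℝ)).contDiff.contDiffAt.comp x₀ (contDiffAt_id.prodMk hc)).add
      ((hd.sub hc).smul contDiffAt_const)
  have hF' : ∀ ρ, ContDiffAt ℝ ∞ F (seg x₀ (c x₀) (d x₀) ρ) := fun ρ => by
    rw [seg_apply]; exact hF _ (seg_mem _ _ ρ)
  have hev : ∀ᶠ x in 𝓝 x₀, ∀ ρ, ContinuousAt F (seg x (c x) (d x) ρ) :=
    hA.continuousAt.eventually (eventually_forall_apply fun ρ =>
      (((hF' ρ).of_le (m := 0) (by simp)).eventually (by simp)).mono fun y hy => hy.continuousAt)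
  have h1 : ContDiffAt ℝ ∞ (fun x => (d x - c x) * intC zero_le_one (om F (seg x (c x) (d x))))
      x₀ := by
    have h2 : ContDiffAt ℝ ∞ (fun x => om F (seg x (c x) (d x))) x₀ :=
      ContDiffAt.comp (g := om F) x₀ (contDiffAt_om hF') hA
    have h3 : ContDiffAt ℝ ∞ (fun x => intC zero_le_one (om F (seg x (c x) (d x)))) x₀ :=
      (intC (F := ℝ) zero_le_one).contDiff.contDiffAt.comp x₀ h2
    exact (hd.sub hc).mul h3
  exact h1.congr_of_eventuallyEq (hev.mono fun x hx => integral_eq_seg hx)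

end Param

theorem hasDerivAt_integral_param {F : ℝ × ℝ → ℝ} {c d Z : ℝ}
    (hF : ∀ s ∈ uIcc c d, ContDiffAt ℝ 1 F (Z, s)) :
    HasDerivAt (fun Z => ∫ s in c..d, F (Z, s)) (∫ s in c..d, fderiv ℝ F (Z, s) (1, 0)) Z := by
  have hA : HasDerivAt (fun x : ℝ => seg x c d) (constC I01 (ℝ × ℝ) (1, 0)) Z := by
    unfold seg
    exact ((constC I01 (ℝ × ℝ)).hasFDerivAt.comp_hasDerivAt Z
      ((hasDerivAt_id Z).prodMk (hasDerivAt_const Z c))).add_const _
  have hF' : ∀ ρ, ContDiffAt ℝ 1 F (seg Z c d ρ) := fun ρ => by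
    rw [seg_apply]; exact hF _ (seg_mem _ _ ρ)
  have hev : ∀ᶠ x in 𝓝 Z, ∀ ρ, ContinuousAt F (seg x c d ρ) :=
    hA.continuousAt.eventually (eventually_forall_apply fun ρ =>
      ((hF' ρ).eventually (by simp)).mono fun y hy => hy.continuousAt)
  have hd : ∀ ρ, ContinuousAt (fderiv ℝ F) (seg Z c d ρ) := fun ρ =>
    ((hF' ρ).fderiv_right (m := 0) (by simp)).continuousAt
  have h1 := (((intC zero_le_one).hasFDerivAt.comp_hasDerivAt Z
    ((hasFDerivAt_om hF').comp_hasDerivAt Z hA))).const_mul (d - c)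
  have h2 : ∫ s in c..d, fderiv ℝ F (Z, s) (1, 0) = (d - c) * intC zero_le_one
      (lam I01 (ℝ × ℝ) ℝ (om (fderiv ℝ F) (seg Z c d)) (constC I01 (ℝ × ℝ) (1, 0))) := by
    rw [integral_eq_seg (F := fun p => fderiv ℝ F p (1, 0))
      (fun ρ => (hd ρ).clm_apply continuousAt_const)]
    congr 2
    ext ρ
    rw [om_apply (fun ρ => (hd ρ).clm_apply continuousAt_const), lam_apply, om_apply hd,
      constC_apply]
  rw [h2]
  exact h1.congr_of_eventuallyEq (hev.mono fun x hx => integral_eq_seg hx)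

theorem contDiffAt_invFunOn {E : Type} [NormedAddCommGroup E] [NormedSpace ℝ E] [CompleteSpace E]
    {f : E → E} {O : Set E} (hO : IsOpen O) (hinj : InjOn f O) {p : E} (hp : p ∈ O)
    (hf : ContDiffAt ℝ ∞ f p) (f' : E ≃L[ℝ] E) (hf' : HasFDerivAt f (f' : E →L[ℝ] E) p) :
    ContDiffAt ℝ ∞ (Function.invFunOn f O) (f p) ∧ f '' O ∈ 𝓝 (f p) := by
  have hn : (∞ : WithTop ℕ∞) ≠ 0 := by simp
  have hs := hf.to_localInverse hf' hn
  have h1 : ∀ᶠ w in 𝓝 (f p), f (hf.localInverse hf' hn w) = w :=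
    (hf.hasStrictFDerivAt' hf' hn).eventually_right_inverse
  have h2 : ∀ᶠ w in 𝓝 (f p), hf.localInverse hf' hn w ∈ O := by
    apply hs.continuousAt.eventually
    rw [hf.localInverse_apply_image hf' hn]
    exact hO.mem_nhds hp
  refine ⟨hs.congr_of_eventuallyEq ?_, ?_⟩
  · filter_upwards [h1, h2] with w hw1 hw2
    have := hinj.leftInvOn_invFunOn hw2
    rwa [hw1] at this
  · filter_upwards [h1, h2] with w hw1 hw2
    exact ⟨_, hw2, hw1⟩

end Pool.Agent.H238Z.Uni
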