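import Pool.Agent.H238Z.Uni.WinA

/-!
From a profile without time delay to a window of orbits.
-/

open Set Real Filter Topology
open scoped ContDiff

namespace Pool.Agent.H238Z.Uni

/-- The time along an orbit. -/
noncomputable def wT (κ : ℝ) (G : ℝ → ℝ) (q : ℝ × ℝ → ℝ) (p : ℝ × ℝ) : ℝ :=
  wY G q p + κ * ∫ s in (-1 : ℝ)..p.2, Gam κ (G (p.1 - s ^ 2)) / wQ q (p.1, s)

/-- The first coordinate as a function of the height. -/
noncomputable def wX (κ : ℝ) (G : ℝ → ℝ) (z : ℝ) : ℝ := ∫ s in (0 : ℝ)..z, 1 / (1 - κ * G s)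

variable {κ b : ℝ} {G : ℝ → ℝ} {q : ℝ × ℝ → ℝ}

theorem Prof.w_rho (hp : Prof κ b G q) (z : ℝ) : 0 < 1 - κ * G z := by
  linarith [hp.rho_pos z]

theorem Prof.w_sInv (hp : Prof κ b G q) : ContDiff ℝ ∞ (fun z => 1 / (1 - κ * G z)) :=
  contDiff_const.div (contDiff_const.sub (contDiff_const.mul hp.sG)) fun z => (hp.w_rho z).ne'

theorem Prof.w_dX (hp : Prof κ b G q) (z : ℝ) : HasDerivAt (wX κ G) (1 / (1 - κ * G z)) z :=
  (hp.w_sInv.continuous.integral_hasStrictDerivAt 0 z).hasDerivAt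

theorem Prof.w_sX (hp : Prof κ b G q) : ContDiff ℝ ∞ (wX κ G) := by
  rw [contDiff_infty_iff_deriv]
  refine ⟨fun z => (hp.w_dX z).differentiableAt, ?_⟩
  have : deriv (wX κ G) = fun z => 1 / (1 - κ * G z) := funext fun z => (hp.w_dX z).deriv
  rw [this]; exact hp.w_sInv

theorem Prof.w_Xneg (hp : Prof κ b G q) {z : ℝ} (hz : z ≤ 0) : wX κ G z = z := by
  unfold wX
  rw [intervalIntegral.integral_congr (g := fun _ => (1 : ℝ))]
  · simp
  · intro s hs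
    rw [uIcc_of_ge hz] at hs
    simp [hp.zero s hs.2]

theorem Prof.w_sH (hp : Prof κ b G q) {p : ℝ × ℝ} (h : p.1 < b) :
    ContDiffAt ℝ ∞ (fun p : ℝ × ℝ => Gam κ (G (p.1 - p.2 ^ 2)) / wQ q p) p :=
  (hp.contDiff_Gam.comp (contDiff_fst.sub (contDiff_snd.pow 2))).contDiffAt.div
    (hp.w_sQQ h) (hp.w_QQ_pos h).ne'

theorem Prof.w_cH (hp : Prof κ b G q) {Z : ℝ} (h : Z < b) :
    Continuous fun s => Gam κ (G (Z - s ^ 2)) / wQ q (Z, s) :=
  continuous_iff_continuousAt.2 fun s =>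
    ContinuousAt.comp (g := fun p : ℝ × ℝ => Gam κ (G (p.1 - p.2 ^ 2)) / wQ q p)
      (f := fun s => (Z, s)) (hp.w_sH (p := (Z, s)) h).continuousAt (by fun_prop)

theorem Prof.w_sT (hp : Prof κ b G q) {p : ℝ × ℝ} (h : p.1 < b) :
    ContDiffAt ℝ ∞ (wT κ G q) p := by
  refine (hp.w_sYY h).add (contDiffAt_const.mul ?_)
  refine contDiffAt_integral (X := ℝ × ℝ) (c := fun _ => -1) (d := fun p => p.2)
    (F := fun r => Gam κ (G (r.1.1 - r.2 ^ 2)) / wQ q (r.1.1, r.2))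
    contDiffAt_const contDiffAt_snd fun s _ => ?_
  exact ContDiffAt.comp (g := fun p : ℝ × ℝ => Gam κ (G (p.1 - p.2 ^ 2)) / wQ q p)
    (f := fun r : (ℝ × ℝ) × ℝ => (r.1.1, r.2)) (p, s) (hp.w_sH (p := (p.1, s)) h)
    (contDiffAt_fst.fst.prodMk contDiffAt_snd)

theorem Prof.w_dT (hp : Prof κ b G q) {Z : ℝ} (h : Z < b) (s : ℝ) :
    HasDerivAt (fun s => wT κ G q (Z, s)) (1 / ((1 - κ * G (Z - s ^ 2)) * wQ q (Z, s))) s := by
  refine ((hp.w_dYY h s).add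
    (((hp.w_cH h).integral_hasStrictDerivAt (-1) s).hasDerivAt.const_mul κ)).congr_deriv ?_
  have h1 := (hp.w_rho (Z - s ^ 2)).ne'
  have h2 := (hp.w_QQ_pos (p := (Z, s)) h).ne'
  unfold Gam
  field_simp
  ring

theorem Prof.w_T_mono (hp : Prof κ b G q) {Z : ℝ} (h : Z < b) :
    StrictMono fun s => wT κ G q (Z, s) :=
  strictMono_of_deriv_pos fun s => by
    rw [(hp.w_dT h s).deriv]
    exact one_div_pos.2 (mul_pos (hp.w_rho _) (hp.w_QQ_pos (p := (Z, s)) h))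

theorem Prof.w_T_lo (hp : Prof κ b G q) {Z s : ℝ} (h : Z < b) (hs : s ≤ -1) :
    wT κ G q (Z, s) = wY G q (Z, s) := by
  unfold wT
  rw [intervalIntegral.integral_congr (g := fun _ => (0 : ℝ))]
  · simp
  · intro r hr
    rw [uIcc_of_ge hs] at hr
    simp only
    rw [hp.w_Gz h (by nlinarith [hr.2])]
    simp [Gam]

theorem Prof.w_T_hi (hp : Prof κ b G q) {Z s : ℝ} (h : Z < b) (hI : II κ G q Z = 0)
    (hs : 1 ≤ s) : wT κ G q (Z, s) = wY G q (Z, s) := by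
  unfold wT
  simp only
  rw [← intervalIntegral.integral_add_adjacent_intervals (b := 1)
    ((hp.w_cH h).intervalIntegrable _ _) ((hp.w_cH h).intervalIntegrable _ _)]
  have h1 : (∫ r in (-1 : ℝ)..1, Gam κ (G (Z - r ^ 2)) / wQ q (Z, r)) = II κ G q Z := by
    refine intervalIntegral.integral_congr fun r hr => ?_
    rw [uIcc_of_le (by norm_num)] at hr
    rw [hp.w_QQ_eq (w_mem_dom h (by linarith [hr.1]) (by linarith [hr.2]))]
  have h2 : (∫ r in (1 : ℝ)..s, Gam κ (G (Z - r ^ 2)) / wQ q (Z, r)) = 0 := by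
    rw [intervalIntegral.integral_congr (g := fun _ => (0 : ℝ))]
    · simp
    · intro r hr
      rw [uIcc_of_le hs] at hr
      simp only
      rw [hp.w_Gz h (by nlinarith [hr.1])]
      simp [Gam]
  rw [h1, h2, hI]; simp

theorem Prof.w_T_surj (hp : Prof κ b G q) {Z : ℝ} (h : Z < b) (hI : II κ G q Z = 0) (t : ℝ) :
    ∃ s, wT κ G q (Z, s) = t := by
  have hc : Continuous fun s => wT κ G q (Z, s) :=
    continuous_iff_continuousAt.2 fun s => (hp.w_dT h s).continuousAt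
  have ha := abs_nonneg t
  have h1 : wT κ G q (Z, -(|t| + 1)) ≤ t := by
    rw [hp.w_T_lo h (by linarith), hp.w_YY_lo h (by linarith)]
    have : |t| ≤ √((-(|t| + 1)) ^ 2 + (q (Z, -1) ^ 2 - 1)) :=
      le_sqrt_of_sq_le (by nlinarith [sq_nonneg (q (Z, -1))])
    linarith [neg_abs_le t]
  have h2 : t ≤ wT κ G q (Z, |t| + 1) := by
    rw [hp.w_T_hi h hI (by linarith), hp.w_YY_hi h (by linarith)]
    have : |t| ≤ √((|t| + 1) ^ 2 + (q (Z, 1) ^ 2 - 1)) :=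
      le_sqrt_of_sq_le (by nlinarith [sq_nonneg (q (Z, 1))])
    linarith [le_abs_self t]
  obtain ⟨s, -, hs⟩ := intermediate_value_Icc (by linarith : -(|t| + 1) ≤ |t| + 1)
    hc.continuousOn ⟨h1, h2⟩
  exact ⟨s, hs⟩

theorem Prof.w_T_one (hp : Prof κ b G q) {Z : ℝ} (h : Z < b) (hI : II κ G q Z = 0) :
    wT κ G q (Z, 1) ≤ 3 := by
  rw [hp.w_T_hi h hI le_rfl, hp.w_YY_hi h le_rfl]
  have := hp.w_q_le h (Or.inl rfl)
  have h0 := hp.w_q_pos (w_mem_dom (s := 1) h (by norm_num) (by norm_num))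
  simpa [sqrt_sq h0.le] using this

theorem Prof.w_T_neg (hp : Prof κ b G q) {Z : ℝ} (h : Z < b) : -3 ≤ wT κ G q (Z, -1) := by
  rw [hp.w_T_lo h le_rfl, hp.w_YY_lo h le_rfl]
  have := hp.w_q_le h (Or.inr rfl)
  have h0 := hp.w_q_pos (w_mem_dom (s := -1) h (by norm_num) (by norm_num))
  simpa [sqrt_sq h0.le] using this

theorem Prof.w_inverse (hp : Prof κ b G q) {Z₁ Z₂ : ℝ} (h2 : Z₂ ≤ b)
    (hI : ∀ Z ∈ Ioo Z₁ Z₂, II κ G q Z = 0) :
    ∃ sg : ℝ × ℝ → ℝ, ∀ p ∈ Ioo Z₁ Z₂ ×ˢ (univ : Set ℝ),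
      ContDiffAt ℝ ∞ sg p ∧ wT κ G q (p.1, sg p) = p.2 := by
  set O : Set (ℝ × ℝ) := Ioo Z₁ Z₂ ×ˢ univ with hO
  set Φ : ℝ × ℝ → ℝ × ℝ := fun p => (p.1, wT κ G q p) with hΦ
  have hlt : ∀ p ∈ O, p.1 < b := fun p hp' => lt_of_lt_of_le hp'.1.2 h2
  have hinj : InjOn Φ O := by
    rintro ⟨Z, s⟩ h1 ⟨Z', s'⟩ _ e
    simp only [hΦ, Prod.mk.injEq] at e
    obtain ⟨rfl, e⟩ := e
    rw [(hp.w_T_mono (hlt _ h1)).injective e]
  have hsurj : ∀ p ∈ O, ∃ r ∈ O, Φ r = p := by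
    intro p h1
    obtain ⟨s, hs⟩ := hp.w_T_surj (hlt _ h1) (hI _ h1.1) p.2
    exact ⟨(p.1, s), ⟨h1.1, trivial⟩, by simp [hΦ, hs]⟩
  refine ⟨fun p => (Function.invFunOn Φ O p).2, fun p h1 => ⟨?_, ?_⟩⟩
  · obtain ⟨r, hr, rfl⟩ := hsurj p h1
    have sT := hp.w_sT (hlt r hr)
    have dT := (sT.differentiableAt (by simp)).hasFDerivAt
    have dΦ : HasFDerivAt Φ ((ContinuousLinearMap.fst ℝ ℝ ℝ).prod (fderiv ℝ (wT κ G q) r)) r :=
      hasFDerivAt_fst.prodMk dT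
    have ha : fderiv ℝ (wT κ G q) r (0, 1) ≠ 0 := by
      have h3 := dT.comp_hasDerivAt (f := fun s => (r.1, s)) r.2
        ((hasDerivAt_const r.2 r.1).prodMk (hasDerivAt_id r.2))
      rw [h3.unique (hp.w_dT (hlt r hr) r.2)]
      exact (one_div_pos.2 (mul_pos (hp.w_rho _)
        (hp.w_QQ_pos (p := (r.1, r.2)) (hlt r hr)))).ne'
    set L := (ContinuousLinearMap.fst ℝ ℝ ℝ).prod (fderiv ℝ (wT κ G q) r) with hL
    have hLinj : Function.Injective (L : (ℝ × ℝ) →ₗ[ℝ] (ℝ × ℝ)) := by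
      rw [injective_iff_map_eq_zero]
      rintro ⟨v, w⟩ hv
      have e1 : v = 0 := congrArg Prod.fst hv
      have e2 : fderiv ℝ (wT κ G q) r (v, w) = 0 := congrArg Prod.snd hv
      have e3 : ((v, w) : ℝ × ℝ) = w • ((0, 1) : ℝ × ℝ) := by simp [e1]
      rw [e3, map_smul, smul_eq_mul] at e2
      rw [e1, (mul_eq_zero.1 e2).resolve_right ha]; rfl
    have := contDiffAt_invFunOn (isOpen_Ioo.prod isOpen_univ) hinj hr
      (contDiffAt_fst.prodMk sT)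
      (LinearEquiv.ofInjectiveEndo _ hLinj).toContinuousLinearEquiv
      (dΦ.congr_fderiv (ContinuousLinearMap.ext fun _ => rfl))
    exact this.1.snd
  · have h3 := Function.invFunOn_eq (hsurj p h1)
    have e1 : (Function.invFunOn Φ O p).1 = p.1 := (congrArg Prod.fst h3 :)
    have e2 : wT κ G q (Function.invFunOn Φ O p) = p.2 := (congrArg Prod.snd h3 :)
    rw [← e1]; exact e2

theorem window_of_prof {κ b Z₁ Z₂ : ℝ} {G : ℝ → ℝ} {q : ℝ × ℝ → ℝ} (hp : Prof κ b G q)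
    (h12 : Z₁ < Z₂) (h2 : Z₂ ≤ b) (hI : ∀ Z ∈ Ioo Z₁ Z₂, II κ G q Z = 0)
    (hG : ∃ z < Z₂, G z ≠ 0) :
    ∃ (x y f j : ℝ × ℝ → ℝ) (sIn sOut : ℝ → ℝ), Window κ 3 Z₁ Z₂ x y f j sIn sOut := by
  obtain ⟨sg, hsg⟩ := hp.w_inverse h2 hI
  have hlt : ∀ Z ∈ Ioo Z₁ Z₂, Z < b := fun Z hZ => lt_of_lt_of_le hZ.2 h2
  have hmem : ∀ Z ∈ Ioo Z₁ Z₂, ∀ t : ℝ, (Z, t) ∈ Ioo Z₁ Z₂ ×ˢ (univ : Set ℝ) :=
    fun Z hZ t => ⟨hZ, trivial⟩
  have hT : ∀ Z ∈ Ioo Z₁ Z₂, ∀ t, wT κ G q (Z, sg (Z, t)) = t :=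
    fun Z hZ t => (hsg _ (hmem Z hZ t)).2
  set zf : ℝ × ℝ → ℝ := fun p => p.1 - sg p ^ 2 with hzf
  have szf : ∀ p ∈ Ioo Z₁ Z₂ ×ˢ (univ : Set ℝ), ContDiffAt ℝ ∞ zf p := fun p h =>
    contDiffAt_fst.sub ((hsg p h).1.pow 2)
  have sG' : ContDiff ℝ ∞ (deriv G) := (contDiff_infty_iff_deriv.1 hp.sG).2
  have dG : ∀ z, HasDerivAt G (deriv G z) z := fun z =>
    (hp.sG.differentiable (by simp) z).hasDerivAt
  have sx : ∀ p ∈ Ioo Z₁ Z₂ ×ˢ (univ : Set ℝ), ContDiffAt ℝ ∞ (fun p => wX κ G (zf p)) p :=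
    fun p h => hp.w_sX.contDiffAt.comp p (szf p h)
  have sy : ∀ p ∈ Ioo Z₁ Z₂ ×ˢ (univ : Set ℝ),
      ContDiffAt ℝ ∞ (fun p : ℝ × ℝ => wY G q (p.1, sg p)) p := fun p h =>
    ContDiffAt.comp (g := wY G q) (f := fun p : ℝ × ℝ => (p.1, sg p)) p
      (hp.w_sYY (hlt _ h.1)) (contDiffAt_fst.prodMk (hsg p h).1)
  have sj : ∀ p ∈ Ioo Z₁ Z₂ ×ˢ (univ : Set ℝ),
      ContDiffAt ℝ ∞ (fun p => (1 - κ * G (zf p)) * deriv G (zf p)) p := fun p h =>
    (contDiffAt_const.sub (contDiffAt_const.mul (hp.sG.contDiffAt.comp p (szf p h)))).mul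
      (sG'.contDiffAt.comp p (szf p h))
  have lineT : ∀ (F : ℝ × ℝ → ℝ) (Z t : ℝ), ContDiffAt ℝ ∞ F (Z, t) →
      HasDerivAt (fun t => F (Z, t)) (fderiv ℝ F (Z, t) (0, 1)) t := fun F Z t hF =>
    (hF.differentiableAt (by simp)).hasFDerivAt.comp_hasDerivAt (f := fun t => (Z, t)) t
      ((hasDerivAt_const t Z).prodMk (hasDerivAt_id t))
  have lineZ : ∀ (F : ℝ × ℝ → ℝ) (Z t : ℝ), ContDiffAt ℝ ∞ F (Z, t) →
      HasDerivAt (fun Z => F (Z, t)) (fderiv ℝ F (Z, t) (1, 0)) Z := fun F Z t hF =>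
    (hF.differentiableAt (by simp)).hasFDerivAt.comp_hasDerivAt (f := fun Z => (Z, t)) Z
      ((hasDerivAt_id Z).prodMk (hasDerivAt_const Z t))
  have dsg : ∀ Z ∈ Ioo Z₁ Z₂, ∀ t, HasDerivAt (fun t => sg (Z, t))
      ((1 - κ * G (Z - sg (Z, t) ^ 2)) * wQ q (Z, sg (Z, t))) t := by
    intro Z hZ t
    have h1 := lineT sg Z t (hsg _ (hmem Z hZ t)).1
    have h3 := (hp.w_dT (hlt Z hZ) (sg (Z, t))).comp t h1
    have h4 := h3.unique ((hasDerivAt_id t).congr_of_eventuallyEq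
      (Eventually.of_forall fun t => hT Z hZ t))
    refine h1.congr_deriv ?_
    have h5 := (mul_pos (hp.w_rho (Z - sg (Z, t) ^ 2))
      (hp.w_QQ_pos (p := (Z, sg (Z, t))) (hlt Z hZ))).ne'
    rw [one_div, inv_mul_eq_one₀ h5] at h4
    exact h4.symm
  have dx : ∀ Z ∈ Ioo Z₁ Z₂, ∀ t, HasDerivAt (fun t => wX κ G (zf (Z, t)))
      (-2 * (sg (Z, t) * wQ q (Z, sg (Z, t)))) t := by
    intro Z hZ t
    refine ((hp.w_dX (zf (Z, t))).comp t (((dsg Z hZ t).pow 2).const_sub Z)).congr_deriv ?_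
    have := (hp.w_rho (Z - sg (Z, t) ^ 2)).ne'
    simp only [hzf]
    field_simp
    norm_num
    ring
  have dy : ∀ Z ∈ Ioo Z₁ Z₂, ∀ t, HasDerivAt (fun t => wY G q (Z, sg (Z, t)))
      (1 - κ * G (zf (Z, t))) t := by
    intro Z hZ t
    refine ((hp.w_dYY (hlt Z hZ) (sg (Z, t))).comp t (dsg Z hZ t)).congr_deriv ?_
    have := (hp.w_QQ_pos (p := (Z, sg (Z, t))) (hlt Z hZ)).ne'
    simp only [hzf]
    field_simp
  have hlo : ∀ Z ∈ Ioo Z₁ Z₂, ∀ t ≤ -3, sg (Z, t) ≤ -1 := by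
    intro Z hZ t ht
    rw [← (hp.w_T_mono (hlt Z hZ)).le_iff_le, hT Z hZ t]
    linarith [hp.w_T_neg (hlt Z hZ)]
  have hhi : ∀ Z ∈ Ioo Z₁ Z₂, ∀ t, 3 ≤ t → 1 ≤ sg (Z, t) := by
    intro Z hZ t ht
    rw [← (hp.w_T_mono (hlt Z hZ)).le_iff_le, hT Z hZ t]
    linarith [hp.w_T_one (hlt Z hZ) (hI Z hZ)]
  refine ⟨fun p => wX κ G (zf p), fun p => wY G q (p.1, sg p), fun p => G (zf p),
    fun p => (1 - κ * G (zf p)) * deriv G (zf p), fun Z => Z + (q (Z, -1) ^ 2 - 1),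
    fun Z => Z + (q (Z, 1) ^ 2 - 1), h12, fun p h => (sx p h).contDiffWithinAt,
    fun p h => (sy p h).contDiffWithinAt,
    fun p h => (hp.sG.contDiffAt.comp p (szf p h)).contDiffWithinAt,
    fun p h => (sj p h).contDiffWithinAt, fun Z hZ t => ?_, dy, fun Z hZ t => ?_,
    fun Z hZ t ht => ?_, fun Z hZ t ht => ?_, fun Z hZ t => ?_, fun Z hZ => ?_, ?_⟩
  · refine (dx Z hZ t).congr_deriv ?_
    simp [wY, hzf]
  · have h0 := ((szf _ (hmem Z hZ t)).differentiableAt (by simp)).hasFDerivAt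
    have h1 := (dG (zf (Z, t))).comp_hasFDerivAt (Z, t) h0
    have h3 := (hp.w_dX (zf (Z, t))).comp_hasFDerivAt (Z, t) h0
    have h1' : fderiv ℝ (fun p => G (zf p)) (Z, t) = _ := h1.fderiv
    have h3' : fderiv ℝ (fun p => wX κ G (zf p)) (Z, t) = _ := h3.fderiv
    rw [h1', h3', smul_smul]
    congr 1
    have := (hp.w_rho (zf (Z, t))).ne'
    field_simp
  · have hs := hlo Z hZ t ht
    have hb := hp.hb
    have h1 := hT Z hZ t
    rw [hp.w_T_lo (hlt Z hZ) hs] at h1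
    refine ⟨?_, h1⟩
    have hZb := hlt Z hZ
    rw [hp.w_YY_lo (hlt Z hZ) hs] at h1
    have h3 := sq_sqrt (hp.w_rad_pos (s := sg (Z, t)) (e := -1) hZb (by nlinarith) (by norm_num)
      (by norm_num)).le
    rw [neg_eq_iff_eq_neg.1 h1] at h3
    simp only [hzf]
    rw [hp.w_Xneg (by nlinarith)]
    linarith
  · have hs := hhi Z hZ t ht
    have hb := hp.hb
    have h1 := hT Z hZ t
    rw [hp.w_T_hi (hlt Z hZ) (hI Z hZ) hs] at h1
    refine ⟨?_, h1⟩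
    have hZb := hlt Z hZ
    rw [hp.w_YY_hi (hlt Z hZ) hs] at h1
    have h3 := sq_sqrt (hp.w_rad_pos (s := sg (Z, t)) (e := 1) hZb (by nlinarith) (by norm_num)
      (by norm_num)).le
    rw [h1] at h3
    simp only [hzf]
    rw [hp.w_Xneg (by nlinarith)]
    linarith
  · have hm := hmem Z hZ t
    have e1 := (lineT _ Z t (sx _ hm)).unique (dx Z hZ t)
    have e2 := (lineT _ Z t (sy _ hm)).unique (dy Z hZ t)
    have hsZ := lineZ sg Z t (hsg _ hm).1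
    have hzZ : HasDerivAt (fun Z => zf (Z, t))
        (1 - 2 * sg (Z, t) * fderiv ℝ sg (Z, t) (1, 0)) Z :=
      ((hasDerivAt_id Z).sub (hsZ.pow 2)).congr_deriv (by norm_num)
    have e3' := (hp.w_dX (zf (Z, t))).comp Z hzZ
    have e3 := (lineZ _ Z t (sx _ hm)).unique e3'
    have dYf := ((hp.w_sYY (p := (Z, sg (Z, t))) (hlt Z hZ)).differentiableAt
      (by simp)).hasFDerivAt
    have e4 := (lineZ _ Z t (sy _ hm)).unique
      (dYf.comp_hasDerivAt (f := fun Z => (Z, sg (Z, t))) Z ((hasDerivAt_id Z).prodMk hsZ))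
    have e5 := (lineT _ Z (sg (Z, t)) (hp.w_sYY (p := (Z, sg (Z, t))) (hlt Z hZ))).unique
      (hp.w_dYY (hlt Z hZ) (sg (Z, t)))
    have e6 : ((1, fderiv ℝ sg (Z, t) (1, 0)) : ℝ × ℝ) =
        (1, 0) + fderiv ℝ sg (Z, t) (1, 0) • ((0, 1) : ℝ × ℝ) := by simp
    rw [e6, map_add, map_smul, e5, smul_eq_mul] at e4
    rw [e1, e2, e3, e4]
    have hn := hp.w_nn_pos (hlt Z hZ) (sg (Z, t))
    have h1 := (hp.w_rho (zf (Z, t))).ne'
    have h3 := (hp.w_QQ_pos (p := (Z, sg (Z, t))) (hlt Z hZ)).ne'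
    refine lt_of_lt_of_eq hn ?_
    field_simp
    ring
  · refine ⟨wT κ G q (Z, 0), fun t ht => ?_⟩
    have h3 := (hp.w_QQ_pos (p := (Z, sg (Z, t))) (hlt Z hZ)).ne'
    have : sg (Z, t) * wQ q (Z, sg (Z, t)) = 0 := by simpa [wY, hzf] using ht
    rw [← (mul_eq_zero.1 this).resolve_right h3, hT Z hZ t]
  · obtain ⟨z, hz, hGz⟩ := hG
    by_contra hc
    push Not at hc
    obtain ⟨Z, hZ1, hZ2⟩ := exists_between (max_lt h12 hz)
    have hZ : Z ∈ Ioo Z₁ Z₂ := ⟨lt_of_le_of_lt (le_max_left _ _) hZ1, hZ2⟩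
    have hzZ : z < Z := lt_of_le_of_lt (le_max_right _ _) hZ1
    have hZb := hlt Z hZ
    have hb := hp.hb
    have hd : ∀ t ∈ Icc (-3 : ℝ) 3, HasDerivAt
        (fun t => (1 - κ * G (zf (Z, t))) * deriv G (zf (Z, t))) 0 t := by
      intro t ht
      have := lineT _ Z t (sj _ (hmem Z hZ t))
      rwa [hc Z hZ t (abs_le.2 ht)] at this
    have hconst := constant_of_has_deriv_right_zero
      (fun s hs => (hd s hs).continuousAt.continuousWithinAt)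
      (fun s hs => (hd s (Ico_subset_Icc_self hs)).hasDerivWithinAt)
    have h0 : deriv G (zf (Z, -3)) = 0 := by
      have := hlo Z hZ (-3) le_rfl
      exact hp.deriv_zero _ (by simp only [hzf]; nlinarith)
    have hG' : ∀ u ∈ Icc 0 z, deriv G u = 0 := by
      intro u hu
      have hu1 : 0 ≤ Z - u := by linarith [hu.2]
      have hs1 : √(Z - u) ≤ 1 := sqrt_le_one.2 (by linarith [hu.1])
      have hs0 : -1 ≤ √(Z - u) := by linarith [sqrt_nonneg (Z - u)]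
      have hmono := hp.w_T_mono hZb
      have hin : wT κ G q (Z, √(Z - u)) ∈ Icc (-3 : ℝ) 3 :=
        ⟨le_trans (hp.w_T_neg hZb) (hmono.monotone hs0),
          le_trans (hmono.monotone hs1) (hp.w_T_one hZb (hI Z hZ))⟩
      have h1 := hconst _ hin
      have h3 : sg (Z, wT κ G q (Z, √(Z - u))) = √(Z - u) := hmono.injective (hT Z hZ _)
      have h4 : zf (Z, wT κ G q (Z, √(Z - u))) = u := by
        simp only [hzf]; rw [h3, sq_sqrt hu1]; ring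
      simp only [h4, h0, mul_zero] at h1
      exact (mul_eq_zero.1 h1).resolve_left (hp.w_rho u).ne'
    have hz0 : 0 ≤ z := by
      by_contra h
      exact hGz (hp.zero z (not_le.1 h).le)
    have := constant_of_has_deriv_right_zero (f := G) (a := 0) (b := z)
      hp.sG.continuous.continuousOn
      (fun s hs => by
        have := dG s
        rw [hG' s (Ico_subset_Icc_self hs)] at this
        exact this.hasDerivWithinAt) z ⟨hz0, le_rfl⟩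
    exact hGz (this.trans (hp.zero 0 le_rfl))

end Pool.Agent.H238Z.Uni
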