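import Pool.Agent.H238Z.Uni.Smooth

/-!
Extension of a profile to all values of the parameter.
-/

open Set Real Filter Topology
open scoped ContDiff

namespace Pool.Agent.H238Z.Uni

/-- The profile extended to all parameters. -/
noncomputable def wQ (q : ℝ × ℝ → ℝ) (p : ℝ × ℝ) : ℝ :=
  if 1 < p.2 then √(p.2 ^ 2 + (q (p.1, 1) ^ 2 - 1)) / p.2
  else if p.2 < -1 then √(p.2 ^ 2 + (q (p.1, -1) ^ 2 - 1)) / (-p.2) else q p

/-- The extended coordinate `y`. -/
noncomputable def wY (G : ℝ → ℝ) (q : ℝ × ℝ → ℝ) (p : ℝ × ℝ) : ℝ :=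
  p.2 * wQ q p - G (p.1 - p.2 ^ 2)

variable {κ b : ℝ} {G : ℝ → ℝ} {q : ℝ × ℝ → ℝ}

theorem w_mem_dom {Z s : ℝ} (hZ : Z < b) (h1 : -2 < s) (h2 : s < 2) : (Z, s) ∈ dom b :=
  ⟨hZ, h1, h2⟩

theorem Prof.w_Gz (hp : Prof κ b G q) {Z s : ℝ} (hZ : Z < b) (hs : 1 ≤ s ^ 2) :
    G (Z - s ^ 2) = 0 := hp.zero _ (by linarith [hp.hb])

theorem Prof.w_q_pos (hp : Prof κ b G q) {p : ℝ × ℝ} (h : p ∈ dom b) : 0 < q p := by
  linarith [hp.qpos p h]

theorem Prof.w_cont_inv (hp : Prof κ b G q) : ContinuousOn (fun p => 1 / q p) (dom b) :=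
  continuousOn_const.div hp.sq.continuousOn fun _ h => (hp.w_q_pos h).ne'

theorem Prof.w_dyy (hp : Prof κ b G q) {Z s : ℝ} (h : (Z, s) ∈ dom b) :
    HasDerivAt (fun s => yy G q (Z, s)) (1 / q (Z, s)) s := by
  have := (hasDerivAt_dom_integral (c := 0) hp.w_cont_inv (by norm_num) h).sub_const (G Z)
  exact this

theorem Prof.w_yy_eq (hp : Prof κ b G q) {Z s : ℝ} (h : (Z, s) ∈ dom b) :
    yy G q (Z, s) = s * q (Z, s) - G (Z - s ^ 2) := by
  have := hp.id₁ _ h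
  simp only [yy] at this ⊢
  linarith

theorem Prof.w_sq_const (hp : Prof κ b G q) {Z a c : ℝ} (hZ : Z < b) (hac : a ≤ c) (ha : -2 < a)
    (hc : c < 2) (h : ∀ s ∈ Icc a c, 1 ≤ s ^ 2) :
    (c * q (Z, c)) ^ 2 - c ^ 2 = (a * q (Z, a)) ^ 2 - a ^ 2 := by
  have hd : ∀ s ∈ Icc a c, HasDerivAt (fun s => yy G q (Z, s) ^ 2 - s ^ 2) 0 s := by
    intro s hs
    have hm : (Z, s) ∈ dom b := w_mem_dom hZ (by linarith [hs.1]) (by linarith [hs.2])
    have := ((hp.w_dyy hm).pow 2).sub ((hasDerivAt_id s).pow 2)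
    refine this.congr_deriv ?_
    have hq := (hp.w_q_pos hm).ne'
    rw [hp.w_yy_eq hm, hp.w_Gz hZ (h s hs)]
    simp only [id]
    field_simp
    ring
  have := constant_of_has_deriv_right_zero
    (fun s hs => (hd s hs).continuousAt.continuousWithinAt)
    (fun s hs => (hd s (Ico_subset_Icc_self hs)).hasDerivWithinAt) c ⟨hac, le_rfl⟩
  rw [hp.w_yy_eq (w_mem_dom hZ (by linarith) hc), hp.w_yy_eq (w_mem_dom hZ ha (by linarith)),
    hp.w_Gz hZ (h c ⟨hac, le_rfl⟩), hp.w_Gz hZ (h a ⟨le_rfl, hac⟩)] at this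
  simpa using this

theorem Prof.w_QQ_eq (hp : Prof κ b G q) {p : ℝ × ℝ} (h : p ∈ dom b) : wQ q p = q p := by
  obtain ⟨Z, s⟩ := p
  have hZ : Z < b := h.1
  have h1 : -2 < s := h.2.1
  have h2 : s < 2 := h.2.2
  have hq := hp.w_q_pos h
  unfold wQ
  simp only
  split_ifs with ha hb
  · have := hp.w_sq_const hZ ha.le (by norm_num) h2 (fun t ht => by nlinarith [ht.1])
    have e : s ^ 2 + (q (Z, 1) ^ 2 - 1) = (s * q (Z, s)) ^ 2 := by linarith
    rw [e, sqrt_sq (by positivity)]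
    field_simp
  · have := hp.w_sq_const hZ hb.le h1 (by norm_num) (fun t ht => by nlinarith [ht.2])
    have e : s ^ 2 + (q (Z, -1) ^ 2 - 1) = (-s * q (Z, s)) ^ 2 := by linarith
    have hs : 0 < -s := by linarith
    have hs' : s ≠ 0 := by linarith
    rw [e, sqrt_sq (by positivity)]
    field_simp
  · rfl

theorem Prof.w_rad_pos (hp : Prof κ b G q) {Z s e : ℝ} (hZ : Z < b) (hs : 1 ≤ s ^ 2)
    (h1 : -2 < e) (h2 : e < 2) : 0 < s ^ 2 + (q (Z, e) ^ 2 - 1) := by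
  have := hp.w_q_pos (w_mem_dom hZ h1 h2)
  nlinarith

theorem w_QQ_hi {p : ℝ × ℝ} (h : 1 < p.2) :
    wQ q p = √(p.2 ^ 2 + (q (p.1, 1) ^ 2 - 1)) / p.2 := by
  unfold wQ; rw [if_pos h]

theorem w_QQ_lo {p : ℝ × ℝ} (h : p.2 < -1) :
    wQ q p = √(p.2 ^ 2 + (q (p.1, -1) ^ 2 - 1)) / (-p.2) := by
  unfold wQ; rw [if_neg (by linarith), if_pos h]

theorem Prof.w_QQ_pos (hp : Prof κ b G q) {p : ℝ × ℝ} (h : p.1 < b) : 0 < wQ q p := by
  by_cases ha : 1 < p.2
  · rw [w_QQ_hi ha]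
    exact div_pos (sqrt_pos.2 (hp.w_rad_pos h (by nlinarith) (by norm_num) (by norm_num)))
      (by linarith)
  by_cases hb : p.2 < -1
  · rw [w_QQ_lo hb]
    exact div_pos (sqrt_pos.2 (hp.w_rad_pos h (by nlinarith) (by norm_num) (by norm_num)))
      (by linarith)
  · have hm : p ∈ dom b := ⟨h, by linarith, by linarith⟩
    rw [hp.w_QQ_eq hm]; exact hp.w_q_pos hm

theorem Prof.w_slice (hp : Prof κ b G q) {p : ℝ × ℝ} (h : p.1 < b) {e : ℝ} (h1 : -2 < e)
    (h2 : e < 2) : ContDiffAt ℝ ∞ (fun p : ℝ × ℝ => q (p.1, e)) p :=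
  ContDiffAt.comp (g := q) (f := fun p : ℝ × ℝ => (p.1, e)) p
    (hp.sq.contDiffAt ((isOpen_dom b).mem_nhds (w_mem_dom h h1 h2)))
    (contDiffAt_fst.prodMk contDiffAt_const)

theorem Prof.w_sQQ (hp : Prof κ b G q) {p : ℝ × ℝ} (h : p.1 < b) : ContDiffAt ℝ ∞ (wQ q) p := by
  by_cases ha : 1 < p.2
  · have ev : ∀ᶠ r : ℝ × ℝ in 𝓝 p, 1 < r.2 :=
      continuous_snd.continuousAt.eventually (lt_mem_nhds ha)
    refine ContDiffAt.congr_of_eventuallyEq ?_ (ev.mono fun r hr => w_QQ_hi hr)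
    refine ContDiffAt.div (ContDiffAt.sqrt ?_ ?_) contDiffAt_snd (by linarith)
    · exact (contDiffAt_snd.pow 2).add
        (((hp.w_slice h (by norm_num) (by norm_num)).pow 2).sub contDiffAt_const)
    · exact (hp.w_rad_pos h (by nlinarith) (by norm_num) (by norm_num)).ne'
  by_cases hb : p.2 < -1
  · have ev : ∀ᶠ r : ℝ × ℝ in 𝓝 p, r.2 < -1 :=
      continuous_snd.continuousAt.eventually (gt_mem_nhds hb)
    refine ContDiffAt.congr_of_eventuallyEq ?_ (ev.mono fun r hr => w_QQ_lo hr)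
    refine ContDiffAt.div (ContDiffAt.sqrt ?_ ?_) contDiffAt_snd.neg (by linarith)
    · exact (contDiffAt_snd.pow 2).add
        (((hp.w_slice h (by norm_num) (by norm_num)).pow 2).sub contDiffAt_const)
    · exact (hp.w_rad_pos h (by nlinarith) (by norm_num) (by norm_num)).ne'
  · have hm : p ∈ dom b := ⟨h, by linarith, by linarith⟩
    have ev : ∀ᶠ r : ℝ × ℝ in 𝓝 p, r ∈ dom b := (isOpen_dom b).mem_nhds hm
    exact (hp.sq.contDiffAt ev).congr_of_eventuallyEq (ev.mono fun r hr => hp.w_QQ_eq hr)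

theorem Prof.w_sGz (hp : Prof κ b G q) : ContDiff ℝ ∞ (fun p : ℝ × ℝ => G (p.1 - p.2 ^ 2)) :=
  hp.sG.comp (contDiff_fst.sub (contDiff_snd.pow 2))

theorem Prof.w_sYY (hp : Prof κ b G q) {p : ℝ × ℝ} (h : p.1 < b) : ContDiffAt ℝ ∞ (wY G q) p :=
  (contDiffAt_snd.mul (hp.w_sQQ h)).sub hp.w_sGz.contDiffAt

theorem Prof.w_YY_hi (hp : Prof κ b G q) {Z s : ℝ} (hZ : Z < b) (hs : 1 ≤ s) :
    wY G q (Z, s) = √(s ^ 2 + (q (Z, 1) ^ 2 - 1)) := by
  unfold wY
  simp only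
  rw [hp.w_Gz hZ (by nlinarith), sub_zero]
  rcases hs.eq_or_lt with e | e
  · subst e
    have hm : (Z, (1 : ℝ)) ∈ dom b := w_mem_dom hZ (by norm_num) (by norm_num)
    rw [hp.w_QQ_eq hm]
    simp [sqrt_sq (hp.w_q_pos hm).le]
  · rw [w_QQ_hi e]
    simp only
    field_simp

theorem Prof.w_YY_lo (hp : Prof κ b G q) {Z s : ℝ} (hZ : Z < b) (hs : s ≤ -1) :
    wY G q (Z, s) = -√(s ^ 2 + (q (Z, -1) ^ 2 - 1)) := by
  unfold wY
  simp only
  rw [hp.w_Gz hZ (by nlinarith), sub_zero]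
  rcases hs.eq_or_lt with e | e
  · subst e
    have hm : (Z, (-1 : ℝ)) ∈ dom b := w_mem_dom hZ (by norm_num) (by norm_num)
    rw [hp.w_QQ_eq hm]
    simp [sqrt_sq (hp.w_q_pos hm).le]
  · rw [w_QQ_lo e]
    simp only
    have : s ≠ 0 := by linarith
    field_simp

theorem Prof.w_dYY (hp : Prof κ b G q) {Z : ℝ} (hZ : Z < b) (s : ℝ) :
    HasDerivAt (fun s => wY G q (Z, s)) (1 / wQ q (Z, s)) s := by
  have hsq : ∀ c : ℝ, 0 < s ^ 2 + c →
      HasDerivAt (fun s : ℝ => √(s ^ 2 + c)) (s / √(s ^ 2 + c)) s := by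
    intro c hc
    have := (((hasDerivAt_id s).pow 2).add_const c).sqrt hc.ne'
    refine this.congr_deriv ?_
    have : √(s ^ 2 + c) ≠ 0 := (sqrt_pos.2 hc).ne'
    simp only [id, Pi.pow_apply]
    field_simp
    norm_num
  by_cases ha : 1 < s
  · have hr := hp.w_rad_pos (s := s) (e := 1) hZ (by nlinarith) (by norm_num) (by norm_num)
    refine ((hsq _ hr).congr_of_eventuallyEq
      ((lt_mem_nhds ha).mono fun r hr => hp.w_YY_hi hZ hr.le)).congr_deriv ?_
    rw [w_QQ_hi ha]; simp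
  by_cases hb : s < -1
  · have hr := hp.w_rad_pos (s := s) (e := -1) hZ (by nlinarith) (by norm_num) (by norm_num)
    refine ((hsq _ hr).neg.congr_of_eventuallyEq
      ((gt_mem_nhds hb).mono fun r hr => hp.w_YY_lo hZ hr.le)).congr_deriv ?_
    rw [w_QQ_lo hb]; simp [neg_div]
  · have hm : (Z, s) ∈ dom b := w_mem_dom hZ (by linarith) (by linarith)
    rw [hp.w_QQ_eq hm]
    refine (hp.w_dyy hm).congr_of_eventuallyEq ?_
    filter_upwards [Ioo_mem_nhds (show -2 < s by linarith) (show s < 2 by linarith)] with r hr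
    have hm' : (Z, r) ∈ dom b := w_mem_dom hZ hr.1 hr.2
    rw [hp.w_yy_eq hm']
    unfold wY
    rw [hp.w_QQ_eq hm']

theorem Prof.w_q_le (hp : Prof κ b G q) {Z e : ℝ} (hZ : Z < b) (he : e = 1 ∨ e = -1) :
    q (Z, e) ≤ 3 := by
  have hm : (Z, e) ∈ dom b := by
    rcases he with rfl | rfl <;> exact w_mem_dom hZ (by norm_num) (by norm_num)
  have h1 := hp.id₁ _ hm
  simp only at h1
  rw [hp.w_Gz hZ (by rcases he with rfl | rfl <;> norm_num)] at h1
  have h2 : ‖∫ s in (0 : ℝ)..e, 1 / q (Z, s)‖ ≤ 2 * |e - 0| := by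
    refine intervalIntegral.norm_integral_le_of_norm_le_const fun s hs => ?_
    have hs' : (Z, s) ∈ dom b := by
      rcases he with rfl | rfl
      · rw [uIoc_of_le (by norm_num)] at hs
        exact w_mem_dom hZ (by linarith [hs.1]) (by linarith [hs.2])
      · rw [uIoc_of_ge (by norm_num)] at hs
        exact w_mem_dom hZ (by linarith [hs.1]) (by linarith [hs.2])
    have := hp.qpos _ hs'
    rw [Real.norm_eq_abs, abs_of_pos (by positivity), div_le_iff₀ (by linarith)]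
    linarith
  have h3 := abs_le.1 (hp.small' Z)
  rw [Real.norm_eq_abs] at h2
  have h4 := abs_le.1 h2
  rcases he with rfl | rfl
  · norm_num at h4 h1 ⊢; linarith [h4.2]
  · norm_num at h4 h1 ⊢; linarith [h4.1]

/-- positivity of the Jacobian factor -/
theorem Prof.w_nn_pos (hp : Prof κ b G q) {Z : ℝ} (hZ : Z < b) (s : ℝ) :
    0 < 1 + 2 * (s * wQ q (Z, s)) * fderiv ℝ (wY G q) (Z, s) (1, 0) := by
  have sI : ∀ p : ℝ × ℝ, p.1 < b → ContDiffAt ℝ ∞ (fun p => 1 / wQ q p) p := fun p h =>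
    contDiffAt_const.div (hp.w_sQQ h) (hp.w_QQ_pos h).ne'
  have line : ∀ (F : ℝ × ℝ → ℝ) (s : ℝ), ContDiffAt ℝ ∞ F (Z, s) →
      HasDerivAt (fun Z => F (Z, s)) (fderiv ℝ F (Z, s) (1, 0)) Z := by
    intro F s hF
    exact (hF.differentiableAt (by simp)).hasFDerivAt.comp_hasDerivAt Z
      ((hasDerivAt_id Z).prodMk (hasDerivAt_const Z s))
  have cI : ∀ Z' < b, Continuous fun s => 1 / wQ q (Z', s) := fun Z' h =>
    continuous_iff_continuousAt.2 fun s =>
      ContinuousAt.comp (g := fun p => 1 / wQ q p) (f := fun s => (Z', s))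
        (sI (Z', s) h).continuousAt (by fun_prop)
  have hY : ∀ Z' < b, ∀ s, wY G q (Z', s) = (∫ r in (0 : ℝ)..s, 1 / wQ q (Z', r)) - G Z' := by
    intro Z' h s
    rw [intervalIntegral.integral_eq_sub_of_hasDerivAt (fun r _ => hp.w_dYY h r)
      ((cI Z' h).intervalIntegrable _ _)]
    simp [wY]
  set B : ℝ → ℝ := fun s => fderiv ℝ (fun p => 1 / wQ q p) (Z, s) (1, 0) with hB
  set A : ℝ → ℝ := fun s => fderiv ℝ (wY G q) (Z, s) (1, 0) with hA
  have cB : Continuous B := continuous_iff_continuousAt.2 fun s => by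
    have h1 : ContinuousAt (fderiv ℝ (fun p => 1 / wQ q p)) (Z, s) :=
      (sI (Z, s) hZ).continuousAt_fderiv (by simp)
    have h2 : ContinuousAt (fun s => fderiv ℝ (fun p => 1 / wQ q p) (Z, s)) s :=
      ContinuousAt.comp (f := fun s => (Z, s)) h1 (by fun_prop)
    exact h2.clm_apply continuousAt_const
  have dG : ∀ z, HasDerivAt G (deriv G z) z := fun z =>
    (hp.sG.differentiable (by simp) z).hasDerivAt
  have hAe : ∀ s, A s = (∫ r in (0 : ℝ)..s, B r) - deriv G Z := by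
    intro s
    have h1 := (hasDerivAt_integral_param (F := fun p => 1 / wQ q p) (c := 0) (d := s) (Z := Z)
      (fun r _ => (sI (Z, r) hZ).of_le (by simp))).sub (dG Z)
    have h2 := line _ s (hp.w_sYY (p := (Z, s)) hZ)
    refine h2.unique (h1.congr_of_eventuallyEq ?_)
    filter_upwards [gt_mem_nhds hZ] with Z' h using hY Z' h s
  have dA : ∀ s, HasDerivAt A (B s) s := by
    intro s
    have := ((cB.integral_hasStrictDerivAt 0 s).hasDerivAt).sub_const (deriv G Z)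
    exact this.congr_of_eventuallyEq (Eventually.of_forall hAe)
  have hrel : ∀ s, (A s + deriv G (Z - s ^ 2)) * (1 / wQ q (Z, s)) +
      s * wQ q (Z, s) * B s = 0 := by
    intro s
    have h1 := line _ s (hp.w_sYY (p := (Z, s)) hZ)
    have h2 := line _ s (sI (Z, s) hZ)
    have h3 : HasDerivAt (fun Z => G (Z - s ^ 2)) (deriv G (Z - s ^ 2)) Z := by
      exact ((dG (Z - s ^ 2)).comp Z ((hasDerivAt_id Z).sub_const (s ^ 2))).congr_deriv (by simp)
    have h4 := (h1.add h3).mul h2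
    have h5 : HasDerivAt (fun _ : ℝ => s) 0 Z := hasDerivAt_const Z s
    have h6 := h4.unique (h5.congr_of_eventuallyEq (by
      filter_upwards [gt_mem_nhds hZ] with Z' h
      have := (hp.w_QQ_pos (p := (Z', s)) h).ne'
      simp only [wY, Pi.mul_apply, Pi.add_apply]
      field_simp
      ring))
    simp only [wY, Pi.add_apply, sub_add_cancel] at h6
    exact h6
  set g : ℝ → ℝ := fun s => 2 * deriv G (Z - s ^ 2) * (1 / wQ q (Z, s)) with hg
  have cG : Continuous (deriv G) := hp.sG.continuous_deriv (by simp)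
  have cg : Continuous g := (continuous_const.mul (cG.comp (by fun_prop))).mul (cI Z hZ)
  have dW : ∀ s, HasDerivAt (fun s => s * wQ q (Z, s))
      (1 / wQ q (Z, s) + deriv G (Z - s ^ 2) * (-(2 * s))) s := by
    intro s
    have h3 : HasDerivAt (fun s => G (Z - s ^ 2)) (deriv G (Z - s ^ 2) * (-(2 * s))) s := by
      exact ((dG (Z - s ^ 2)).comp s (((hasDerivAt_id s).pow 2).const_sub Z)).congr_deriv
        (by simp)
    refine ((hp.w_dYY hZ s).add h3).congr_of_eventuallyEq (Eventually.of_forall fun r => ?_)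
    simp [wY]
  have dm : ∀ s, HasDerivAt (fun s => (1 + 2 * (s * wQ q (Z, s)) * A s) *
      exp (∫ r in (0 : ℝ)..s, g r)) 0 s := by
    intro s
    have h1 := ((((dW s).const_mul 2).mul (dA s)).const_add 1).mul
      ((cg.integral_hasStrictDerivAt 0 s).hasDerivAt.exp)
    refine h1.congr_deriv ?_
    have hq := (hp.w_QQ_pos (p := (Z, s)) hZ).ne'
    have hq' : wQ q (Z, s) * (1 / wQ q (Z, s)) = 1 := by field_simp
    have := hrel s
    simp only [hg, Pi.mul_apply]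
    linear_combination (2 * exp (∫ r in (0 : ℝ)..s, g r)) * this +
      (4 * s * deriv G (Z - s ^ 2) * A s * exp (∫ r in (0 : ℝ)..s, g r)) * hq'
  have hc := is_const_of_deriv_eq_zero (fun s => (dm s).differentiableAt)
    (fun s => (dm s).deriv) s 0
  simp only [zero_mul, mul_zero, add_zero, intervalIntegral.integral_same, exp_zero,
    mul_one] at hc
  have he := exp_pos (∫ r in (0 : ℝ)..s, g r)
  by_contra hneg
  have : (1 + 2 * (s * wQ q (Z, s)) * A s) * exp (∫ r in (0 : ℝ)..s, g r) ≤ 0 :=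
    mul_nonpos_of_nonpos_of_nonneg (not_lt.1 hneg) he.le
  linarith

end Pool.Agent.H238Z.Uni
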